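import Pool.Agent.N54.MW.GenVT
import Pool.Agent.N842.HS.Srf2

/-!
# Local functions of the residue fields, over all prime ideals

A function of the coefficients which is defined over all finite fields, invariant under isomorphisms, bounded by a power of the number of
the elements and with mean value `M` over the prime fields has the mean value `M` over the prime ideals of bounded norm for almost all
members of a well distributed sequence (from `Pool.Agent.N54.MW.genVT`).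
-/

set_option autoImplicit false

namespace Pool.Agent.L5helper12.AV

open Finset NumberField IsDedekindDomain
open Pool.Agent.N54.MW Pool.Agent.N647.TS Pool.Agent.N842.HS

lemma ev_highC (C : ℝ) (n : ℕ) (η δ : ℝ) (hη : 0 ≤ η) (hδ : 0 < δ) : ∀ᶠ T : ℕ in Filter.atTop,
    (T : ℝ) ^ (1 / 2 + η + δ / 2) + n * (Real.sqrt T * (C * (T : ℝ) ^ η * Real.log T)) ≤ (T : ℝ) ^ (1 / 2 + η + δ) := by
  obtain ⟨c, hc⟩ := exists_nat_ge C
  filter_upwards [ev_high (n * c) η δ hη hδ, Filter.eventually_ge_atTop 1] with T hT hT1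
  have hT1' : (1 : ℝ) ≤ T := by exact_mod_cast hT1
  have hl : 0 ≤ Real.log T := Real.log_nonneg hT1'
  have h1 : (n : ℝ) * (Real.sqrt T * (C * (T : ℝ) ^ η * Real.log T)) ≤
      ((n * c : ℕ) : ℝ) * (Real.sqrt T * (2 * (T : ℝ) ^ η * Real.log T)) := by
    have e1 : 0 ≤ Real.sqrt T * ((T : ℝ) ^ η * Real.log T) := by positivity
    have e2 : (n : ℝ) * C ≤ (n : ℝ) * c := mul_le_mul_of_nonneg_left hc (Nat.cast_nonneg _)
    have e3 : (0 : ℝ) ≤ n * c := by positivity
    calc (n : ℝ) * (Real.sqrt T * (C * (T : ℝ) ^ η * Real.log T)) = (n * C) * (Real.sqrt T * ((T : ℝ) ^ η * Real.log T)) := by ring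
      _ ≤ (n * c) * (Real.sqrt T * ((T : ℝ) ^ η * Real.log T)) := mul_le_mul_of_nonneg_right e2 e1
      _ ≤ 2 * ((n * c) * (Real.sqrt T * ((T : ℝ) ^ η * Real.log T))) := by nlinarith [mul_nonneg e3 e1]
      _ = _ := by push_cast; ring
  have h2 : (0 : ℝ) ≤ (T : ℝ) ^ (1 / 2 + η + δ / 2) := by positivity
  linarith

section
variable {K : Type} [Field K] [NumberField K]

open Classical in
/-- **Local functions at all prime ideals of bounded norm.** -/
theorem all_v (g D : ℕ) (ω : Fin g → 𝓞 K) (hω : (1 : 𝓞 K) ∈ Submodule.span ℤ (Set.range ω)) (hD : 1 ≤ D * g)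
    {vv : ℕ → Fin (D * g) → ℕ} {κw : ℝ} (hκw : 0 < κw) (h : WW vv κw) (δ : ℝ) (hδ : 0 < δ) (A B : ℕ)
    (F : ∀ (κ : Type) [Field κ], (Fin D → κ) → ℝ) (M η : ℝ) (hη : 0 ≤ η)
    (hF : ∀ (κ κ' : Type) [Field κ] [Field κ'] (σ : κ ≃+* κ') (u : Fin D → κ), F κ' (fun k => σ (u k)) = F κ u)
    (hbd : ∃ C : ℝ, 0 ≤ C ∧ ∀ (κ : Type) [Field κ] [Finite κ] (u : Fin D → κ), |F κ u| ≤ C * (Nat.card κ : ℝ) ^ η)
    (hmean : ∃ C : ℝ, 0 ≤ C ∧ ∀ (p : ℕ) [Fact p.Prime], |(∑ u : Fin D → ZMod p, F (ZMod p) u) / (p : ℝ) ^ D - M| ≤ C / Real.sqrt p) :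
    ∃ κ : ℝ, 0 < κ ∧ ∃ y₀ : ℕ, ∀ y N : ℕ, y₀ ≤ y →
    ∀ W : ℕ → Set (HeightOneSpectrum (𝓞 K) → ℝ), (∀ T, (W T).Finite ∧ (W T).ncard ≤ T ^ B) → (∀ T, ∀ w ∈ W T, ∀ v, |w v| ≤ 1) →
    ∀ E : (Fin (D * g) → ℕ) → Prop,
    (∀ m : Fin (D * g) → ℕ, (∀ T : ℕ, y ≤ T → (T : ℝ) ≤ (N : ℝ) ^ κ → ∀ w ∈ W T,
      |∑ v ∈ VT K T, w v * ((F (Res v) (fun k => rho v (cf ω m k)) - M) * Real.log (Ideal.absNorm v.asIdeal))| ≤
        (T : ℝ) ^ (1 / 2 + η + δ)) → E m) →
    (((Ioc N (2 * N)).filter fun t => ¬ E (vv t)).card : ℝ) ≤ 1 / (y : ℝ) ^ A * N ∧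
    ((((Ioc N (2 * N)).filter Nat.Prime).filter fun t => ¬ E (vv t)).card : ℝ) ≤
      1 / (y : ℝ) ^ A * ((Ioc N (2 * N)).filter Nat.Prime).card := by
  obtain ⟨C, hC0, hC⟩ := hbd
  obtain ⟨κ, hκ, y₀, h0⟩ := genVT g D ω hω hD hκw h (δ / 2) (by positivity) A B ({()} : Finset Unit)
    (fun _ p _ u => F (ZMod p) u) (fun _ => M) η hη
    (fun _ _ => ⟨C + |M|, by positivity, fun p hp => by
      have h1 : (1 : ℝ) ≤ (p : ℝ) ^ η := Real.one_le_rpow (by exact_mod_cast hp.out.one_lt.le) hη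
      have hM : 0 ≤ |M| := abs_nonneg M
      constructor
      · intro u
        have h2 := hC (ZMod p) u
        rw [Nat.card_zmod] at h2
        refine h2.trans ?_
        exact mul_le_mul_of_nonneg_right (by linarith) (by positivity)
      · calc |M| ≤ C + |M| := by linarith
          _ = (C + |M|) * 1 := (mul_one _).symm
          _ ≤ _ := mul_le_mul_of_nonneg_left h1 (by positivity)⟩)
    (fun _ _ => hmean)
  obtain ⟨T₀, hT₀⟩ := Filter.eventually_atTop.1 (ev_highC (C + |M|) (Module.finrank ℤ (𝓞 K)) η δ hη hδ)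
  refine ⟨κ, hκ, y₀ + T₀ + 1, fun y N hy W hW hW1 E hE => ?_⟩
  refine h0 y N (by omega) W hW hW1 E fun m hm => ?_
  refine hE m fun T hyT hTr w hw => ?_
  have h1 := hm T hyT hTr w hw () (mem_singleton_self _) (fun v => F (Res v) (fun k => rho v (cf ω m k))) (fun p _ φ => by
    obtain ⟨σ, hσ⟩ := res_iso φ
    rw [← hF (Res (hv φ)) (ZMod p) σ]
    simp only [hσ])
  have hT1 : (1 : ℝ) ≤ T := by exact_mod_cast (by omega : 1 ≤ T)
  have hsplit := sum_filter_add_sum_filter_not (VT K T) (fun v => (Ideal.absNorm v.asIdeal).Prime)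
    (fun v => w v * ((F (Res v) (fun k => rho v (cf ω m k)) - M) * Real.log (Ideal.absNorm v.asIdeal)))
  rw [← hsplit]
  have hhigh : |∑ v ∈ (VT K T).filter (fun v => ¬ (Ideal.absNorm v.asIdeal).Prime),
      w v * ((F (Res v) (fun k => rho v (cf ω m k)) - M) * Real.log (Ideal.absNorm v.asIdeal))| ≤
      (Module.finrank ℤ (𝓞 K) : ℝ) * (Real.sqrt T * ((C + |M|) * (T : ℝ) ^ η * Real.log T)) := by
    refine (abs_sum_le_sum_abs _ _).trans ((sum_le_sum (g := fun _ => (C + |M|) * (T : ℝ) ^ η * Real.log T) fun v hv1 => ?_).trans ?_)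
    · rw [mem_filter, mem_VT] at hv1
      have hnT : (Ideal.absNorm v.asIdeal : ℝ) ≤ T := by exact_mod_cast hv1.1
      have hn0 : Ideal.absNorm v.asIdeal ≠ 0 := by
        rw [Ne, Ideal.absNorm_eq_zero_iff]
        exact v.ne_bot
      have hn1 : (1 : ℝ) ≤ Ideal.absNorm v.asIdeal := by exact_mod_cast Nat.one_le_iff_ne_zero.2 hn0
      haveI : Finite (Res v) := Nat.finite_of_card_ne_zero (by rw [card_Res]; exact hn0)
      have e1 := hC (Res v) (fun k => rho v (cf ω m k))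
      rw [card_Res] at e1
      have e3 : (Ideal.absNorm v.asIdeal : ℝ) ^ η ≤ (T : ℝ) ^ η := Real.rpow_le_rpow (by linarith) hnT hη
      have e4 : (1 : ℝ) ≤ (T : ℝ) ^ η := Real.one_le_rpow hT1 hη
      have e5 : |F (Res v) (fun k => rho v (cf ω m k)) - M| ≤ (C + |M|) * (T : ℝ) ^ η := by
        have a1 := abs_sub (F (Res v) (fun k => rho v (cf ω m k))) M
        have a2 : C * (Ideal.absNorm v.asIdeal : ℝ) ^ η ≤ C * (T : ℝ) ^ η := mul_le_mul_of_nonneg_left e3 hC0
        have a3 : |M| ≤ |M| * (T : ℝ) ^ η := le_mul_of_one_le_right (abs_nonneg M) e4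
        calc _ ≤ |F (Res v) (fun k => rho v (cf ω m k))| + |M| := a1
          _ ≤ C * (T : ℝ) ^ η + |M| * (T : ℝ) ^ η := by linarith
          _ = _ := by ring
      have e6 : |Real.log (Ideal.absNorm v.asIdeal)| ≤ Real.log T := by
        rw [abs_of_nonneg (Real.log_nonneg hn1)]
        exact Real.log_le_log (by linarith) hnT
      rw [abs_mul, abs_mul]
      calc |w v| * (|F (Res v) (fun k => rho v (cf ω m k)) - M| * |Real.log (Ideal.absNorm v.asIdeal)|) ≤
          1 * ((C + |M|) * (T : ℝ) ^ η * Real.log T) := by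
            apply mul_le_mul (hW1 T w hw v) _ (by positivity) zero_le_one
            exact mul_le_mul e5 e6 (abs_nonneg _) (by positivity)
        _ = _ := one_mul _
    · rw [sum_const, nsmul_eq_mul]
      have e1 := card_high K T
      have e2 : (((VT K T).filter (fun v => ¬ (Ideal.absNorm v.asIdeal).Prime)).card : ℝ) ≤ (Module.finrank ℤ (𝓞 K) : ℝ) * Real.sqrt T := by
        have e3 : (((VT K T).filter (fun v => ¬ (Ideal.absNorm v.asIdeal).Prime)).card : ℝ) ≤ (Module.finrank ℤ (𝓞 K) : ℝ) * (Nat.sqrt T : ℝ) := by exact_mod_cast e1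
        refine e3.trans ?_
        apply mul_le_mul_of_nonneg_left _ (Nat.cast_nonneg _)
        exact Real.nat_sqrt_le_real_sqrt
      have hlog : 0 ≤ Real.log T := Real.log_nonneg hT1
      calc (((VT K T).filter (fun v => ¬ (Ideal.absNorm v.asIdeal).Prime)).card : ℝ) * ((C + |M|) * (T : ℝ) ^ η * Real.log T) ≤
          ((Module.finrank ℤ (𝓞 K) : ℝ) * Real.sqrt T) * ((C + |M|) * (T : ℝ) ^ η * Real.log T) := mul_le_mul_of_nonneg_right e2 (by positivity)
        _ = _ := by ring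
  have hfin := hT₀ T (by omega)
  refine (abs_add_le _ _).trans ((add_le_add h1 hhigh).trans hfin)

end

end Pool.Agent.L5helper12.AV
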