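import Pool.Agent.L5helper12.CCEqn

/-!
# Comparator circuits for conjunctions of disjunctions, and the optimality of the bound
-/

namespace Pool.Agent.L5helper12.CC

open Finset

set_option linter.unusedSectionVars false

section Gates

variable {α : Type*} [DecidableEq α]

/-- the comparator on wires indexed by any type -/
def cmp (v : α → Bool) (g : α × α) : α → Bool := fun w =>
  if w = g.1 then v g.1 && v g.2 else if w = g.2 then v g.1 || v g.2 else v w

theorem foldl_or (w0 : α) (L : List α) : ∀ v : α → Bool, L.Nodup → w0 ∉ L →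
    (L.map fun a => (a, w0)).foldl cmp v w0 = (v w0 || L.any v) ∧
    ∀ b, b ∉ L → b ≠ w0 → (L.map fun a => (a, w0)).foldl cmp v b = v b := by
  induction L with
  | nil => intro v _ _; simp
  | cons a L ih =>
    intro v hL hw
    rw [List.nodup_cons] at hL
    rw [List.mem_cons, not_or] at hw
    obtain ⟨h1, h2⟩ := ih (cmp v (a, w0)) hL.2 hw.2
    simp only [List.map_cons, List.foldl_cons]
    have e1 : cmp v (a, w0) w0 = (v a || v w0) := by
      simp [cmp, hw.1]
    have e2 : L.any (cmp v (a, w0)) = L.any v := by
      have : ∀ b ∈ L, cmp v (a, w0) b = v b := by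
        intro b hb
        have h3 : b ≠ a := fun h => hL.1 (h ▸ hb)
        have h4 : b ≠ w0 := fun h => hw.2 (h ▸ hb)
        simp [cmp, h3, h4]
      rw [Bool.eq_iff_iff, List.any_eq_true, List.any_eq_true]
      constructor
      · rintro ⟨b, hb, h⟩
        exact ⟨b, hb, by rw [← this b hb]; exact h⟩
      · rintro ⟨b, hb, h⟩
        exact ⟨b, hb, by rw [this b hb]; exact h⟩
    refine ⟨?_, ?_⟩
    · rw [h1, e1, e2, List.any_cons]
      cases v a <;> cases v w0 <;> simp
    · intro b hb hb0
      rw [List.mem_cons, not_or] at hb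
      rw [h2 b hb.2 hb0]
      simp [cmp, hb.1, hb0]

theorem foldl_and (w0 : α) (L : List α) : ∀ v : α → Bool, L.Nodup → w0 ∉ L →
    (L.map fun a => (w0, a)).foldl cmp v w0 = (v w0 && L.all v) := by
  induction L with
  | nil => intro v _ _; simp
  | cons a L ih =>
    intro v hL hw
    rw [List.nodup_cons] at hL
    rw [List.mem_cons, not_or] at hw
    have h1 := ih (cmp v (w0, a)) hL.2 hw.2
    simp only [List.map_cons, List.foldl_cons]
    have e1 : cmp v (w0, a) w0 = (v w0 && v a) := by
      simp [cmp]
    have e2 : L.all (cmp v (w0, a)) = L.all v := by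
      have : ∀ b ∈ L, cmp v (w0, a) b = v b := by
        intro b hb
        have h3 : b ≠ a := fun h => hL.1 (h ▸ hb)
        have h4 : b ≠ w0 := fun h => hw.2 (h ▸ hb)
        simp [cmp, h3, h4]
      rw [Bool.eq_iff_iff, List.all_eq_true, List.all_eq_true]
      constructor
      · intro h b hb
        rw [← this b hb]
        exact h b hb
      · intro h b hb
        rw [this b hb]
        exact h b hb
    rw [h1, e1, e2, List.all_cons, Bool.and_assoc]

variable {β : Type*} [DecidableEq β]

/-- the comparators for the disjunctions of the groups in the list `xs` -/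
def orGates (es : List β) (xs : List α) : List ((α × Option β) × (α × Option β)) :=
  xs.flatMap fun x => (es.map fun e => (x, some e)).map fun a => (a, (x, (none : Option β)))

theorem foldl_orGates (es : List β) (hes : es.Nodup) (xs : List α) :
    ∀ v : α × Option β → Bool, xs.Nodup →
    (∀ x ∈ xs, (orGates es xs).foldl cmp v (x, none) = (v (x, none) || es.any fun e => v (x, some e))) ∧
    ∀ x, x ∉ xs → ∀ o, (orGates es xs).foldl cmp v (x, o) = v (x, o) := by
  induction xs with
  | nil => intro v _; simp [orGates]
  | cons x xs ih =>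
    intro v hx
    rw [List.nodup_cons] at hx
    let v' : α × Option β → Bool :=
      ((es.map fun e => (x, some e)).map fun a => (a, (x, (none : Option β)))).foldl cmp v
    have hsplit : orGates es (x :: xs) =
        ((es.map fun e => (x, some e)).map fun a => (a, (x, (none : Option β)))) ++ orGates es xs := by
      simp [orGates]
    obtain ⟨h1, h2⟩ := ih v' hx.2
    have hnd : (es.map fun e => (x, some e)).Nodup := by
      apply List.Nodup.map _ hes
      intro a b h
      simpa using h
    obtain ⟨h3, h4⟩ := foldl_or (x, (none : Option β)) (es.map fun e => (x, some e)) v hnd (by simp)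
    rw [hsplit]
    simp only [List.foldl_append]
    refine ⟨?_, ?_⟩
    · intro y hy
      rw [List.mem_cons] at hy
      by_cases hyx : y = x
      · subst hyx
        rw [h2 y hx.1 none]
        rw [show v' (y, none) = _ from h3, List.any_map]
        rfl
      · have hy' : y ∈ xs := by
          rcases hy with h | h
          · exact absurd h hyx
          · exact h
        rw [h1 y hy']
        have e1 : ∀ o, v' (y, o) = v (y, o) := by
          intro o
          apply h4
          · simp only [List.mem_map, not_exists, not_and]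
            intro e _ h
            exact hyx (Prod.ext_iff.1 h).1.symm
          · intro h
            exact hyx (Prod.ext_iff.1 h).1
        rw [e1]
        congr 1
        congr 1
        funext e
        exact e1 _
    · intro y hy o
      rw [List.mem_cons, not_or] at hy
      rw [h2 y hy.2 o]
      apply h4
      · simp only [List.mem_map, not_exists, not_and]
        intro e _ h
        exact hy.1 (Prod.ext_iff.1 h).1.symm
      · intro h
        exact hy.1 (Prod.ext_iff.1 h).1

theorem transport {m : ℕ} (φ : α ≃ Fin m) (l : List (α × α)) : ∀ v : α → Bool,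
    (l.map fun g => (φ g.1, φ g.2)).foldl compare (fun w => v (φ.symm w)) =
      fun w => l.foldl cmp v (φ.symm w) := by
  induction l with
  | nil => intro v; rfl
  | cons g l ih =>
    intro v
    simp only [List.map_cons, List.foldl_cons]
    rw [← ih]
    congr 1
    funext w
    unfold compare cmp
    dsimp only
    rw [Equiv.symm_apply_apply, Equiv.symm_apply_apply]
    have e1 : (w = φ g.1) = (φ.symm w = g.1) := by
      rw [Equiv.symm_apply_eq]
    have e2 : (w = φ g.2) = (φ.symm w = g.2) := by
      rw [Equiv.symm_apply_eq]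
    simp only [e1, e2]

/-- There is a comparator circuit for a conjunction of disjunctions. -/
theorem exists_circuit [Fintype α] [Fintype β] [Nonempty α] {I : Type*}
    (lab : α × Option β → (I → Bool) → Bool) :
    ∃ N : Circuit I, N.wires = Fintype.card α * (Fintype.card β + 1) ∧
      (∀ w, ∃ a, N.label w = lab a) ∧
      ∀ E, N.value E = true ↔ ∀ x, ∃ o, lab (x, o) E = true := by
  classical
  obtain ⟨x0⟩ := ‹Nonempty α›
  let φ : α × Option β ≃ Fin (Fintype.card α * (Fintype.card β + 1)) :=
    Fintype.equivFinOfCardEq (by rw [Fintype.card_prod, Fintype.card_option])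
  let xs : List α := (univ : Finset α).toList
  let es : List β := (univ : Finset β).toList
  let ys : List α := ((univ : Finset α).erase x0).toList
  let gs : List ((α × Option β) × (α × Option β)) :=
    orGates es xs ++ (ys.map fun y => (y, (none : Option β))).map fun a => ((x0, (none : Option β)), a)
  refine ⟨⟨Fintype.card α * (Fintype.card β + 1), fun w => lab (φ.symm w),
    gs.map fun g => (φ g.1, φ g.2), φ (x0, none)⟩, rfl, fun w => ⟨φ.symm w, rfl⟩, ?_⟩
  intro E
  unfold Circuit.value
  dsimp only
  have h1 := transport φ gs (fun a => lab a E)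
  rw [h1]
  dsimp only
  rw [Equiv.symm_apply_apply]
  simp only [gs, List.foldl_append]
  obtain ⟨h2, -⟩ := foldl_orGates es (nodup_toList _) xs (fun a => lab a E) (nodup_toList _)
  have h3 := foldl_and (x0, (none : Option β)) (ys.map fun y => (y, (none : Option β)))
    ((orGates es xs).foldl cmp (fun a => lab a E)) (by
      apply List.Nodup.map _ (nodup_toList _)
      intro a b h
      exact (Prod.ext_iff.1 h).1) (by
      simp [ys])
  rw [h3]
  have h4 : ∀ x, (orGates es xs).foldl cmp (fun a => lab a E) (x, none) = true ↔
      ∃ o, lab (x, o) E = true := by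
    intro x
    rw [h2 x (mem_toList.2 (mem_univ x)), Bool.or_eq_true, List.any_eq_true]
    constructor
    · rintro (h | ⟨e, _, h⟩)
      · exact ⟨none, h⟩
      · exact ⟨some e, h⟩
    · rintro ⟨o, h⟩
      cases o with
      | none => exact Or.inl h
      | some e => exact Or.inr ⟨e, mem_toList.2 (mem_univ e), h⟩
  rw [Bool.and_eq_true, List.all_eq_true, h4]
  constructor
  · rintro ⟨h5, h6⟩ x
    by_cases hx : x = x0
    · rw [hx]; exact h5
    · rw [← h4]
      apply h6
      rw [List.mem_map]
      exact ⟨x, mem_toList.2 (mem_erase.2 ⟨hx, mem_univ x⟩), rfl⟩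
  · intro h
    refine ⟨h x0, ?_⟩
    intro a ha
    rw [List.mem_map] at ha
    obtain ⟨y, _, rfl⟩ := ha
    exact (h4 y).2 (h y)

end Gates

theorem card_inside {n s : ℕ} (hs : s ≤ n) :
    (univ.filter fun e : Eqn n => e.1.1 ⊆ univ.filter fun i : Fin n => (i : ℕ) < s).card =
      2 * s.choose 3 := by
  set V : Finset (Fin n) := univ.filter fun i : Fin n => (i : ℕ) < s with hV
  have hVc : V.card = s := by
    rw [hV]
    rw [Fin.card_filter_val_lt, min_eq_right hs]
  have h1 : (univ.filter fun e : Eqn n => e.1.1 ⊆ V).card =
      ((V.powersetCard 3) ×ˢ (univ : Finset (ZMod 2))).card := by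
    apply card_bij (fun e _ => (e.1.1, e.2))
    · intro e he
      rw [mem_product, mem_powersetCard]
      exact ⟨⟨(mem_filter.1 he).2, e.1.2⟩, mem_univ _⟩
    · intro e _ f _ h
      rw [Prod.ext_iff] at h
      exact Prod.ext (Subtype.ext h.1) h.2
    · rintro ⟨T, b⟩ h
      rw [mem_product, mem_powersetCard] at h
      exact ⟨(⟨T, h.1.2⟩, b), mem_filter.2 ⟨mem_univ _, h.1.1⟩, rfl⟩
  have h2 : (univ : Finset (ZMod 2)).card = 2 := rfl
  rw [h1, card_product, card_powersetCard, hVc, h2, mul_comm]

/-- Circuits which use the equations in the first `s` unknowns only positively. -/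
theorem exists_optimal (n s : ℕ) (hs : s ≤ n) : ∃ (D : Finset (Eqn n)) (N : Circuit (Eqn n)),
    (∀ w, (∃ e, ∀ E, N.label w E = E e) ∨
      (∀ E E', (∀ e ∈ D, E e = E' e) → N.label w E = N.label w E')) ∧
    (∀ E, N.value E = true ↔ ¬ Solvable E) ∧ Dᶜ.card = 2 * s.choose 3 ∧
    N.wires = 2 ^ s * (2 * s.choose 3 + 1) := by
  classical
  set V : Finset (Fin n) := univ.filter fun i : Fin n => (i : ℕ) < s with hV
  have hVc : V.card = s := by
    rw [hV]
    rw [Fin.card_filter_val_lt, min_eq_right hs]
  set G : Finset (Eqn n) := univ.filter fun e : Eqn n => e.1.1 ⊆ V with hG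
  have hGc : G.card = 2 * s.choose 3 := card_inside hs
  let lab : ({i // i ∈ V} → ZMod 2) × Option {e // e ∈ G} → (Eqn n → Bool) → Bool := fun a E =>
    match a.2 with
    | none => decide (¬ ∃ A : Fin n → ZMod 2, (∀ i, A i.1 = a.1 i) ∧ ∀ e, e ∉ G → E e = true → Holds A e)
    | some e => if ∃ A : Fin n → ZMod 2, (∀ i, A i.1 = a.1 i) ∧ Holds A e.1 then false else E e.1
  obtain ⟨N, hN1, hN2, hN3⟩ := exists_circuit lab
  refine ⟨Gᶜ, N, ?_, ?_, ?_, ?_⟩
  · intro w
    obtain ⟨⟨x, o⟩, ho⟩ := hN2 w
    rw [ho]
    cases o with
    | none =>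
      right
      intro E E' h
      have h1 : ∀ A : Fin n → ZMod 2, (∀ e, e ∉ G → E e = true → Holds A e) ↔
          (∀ e, e ∉ G → E' e = true → Holds A e) := by
        intro A
        refine forall_congr' fun e => forall_congr' fun he => ?_
        rw [h e (mem_compl.2 he)]
      simp only [lab, h1]
    | some e =>
      by_cases h : ∃ A : Fin n → ZMod 2, (∀ i, A i.1 = x i) ∧ Holds A e.1
      · right
        intro E E' _
        simp only [lab]
        rw [if_pos h, if_pos h]
      · left
        refine ⟨e.1, fun E => ?_⟩
        simp only [lab]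
        rw [if_neg h]
  · intro E
    rw [hN3]
    constructor
    · rintro h ⟨A, hA⟩
      obtain ⟨o, ho⟩ := h fun i => A i.1
      cases o with
      | none =>
        simp only [lab, decide_eq_true_eq] at ho
        exact ho ⟨A, fun _ => rfl, fun e _ he => hA e he⟩
      | some e =>
        simp only [lab] at ho
        split_ifs at ho with h1
        exact h1 ⟨A, fun _ => rfl, hA e.1 ho⟩
    · intro h x
      by_cases h1 : ∃ A : Fin n → ZMod 2, (∀ i, A i.1 = x i) ∧ ∀ e, e ∉ G → E e = true → Holds A e
      · obtain ⟨A, hA1, hA2⟩ := h1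
        have h2 : ∃ e, E e = true ∧ ¬ Holds A e := by
          by_contra hcon
          push Not at hcon
          exact h ⟨A, hcon⟩
        obtain ⟨e, he1, he2⟩ := h2
        have heG : e ∈ G := by
          by_contra hcon
          exact he2 (hA2 e hcon he1)
        refine ⟨some ⟨e, heG⟩, ?_⟩
        simp only [lab]
        rw [if_neg, he1]
        rintro ⟨B, hB1, hB2⟩
        apply he2
        unfold Holds at hB2 ⊢
        rw [← hB2]
        apply sum_congr rfl
        intro i hi
        have hiV : i ∈ V := (mem_filter.1 heG).2 hi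
        rw [hA1 ⟨i, hiV⟩, hB1 ⟨i, hiV⟩]
      · refine ⟨none, ?_⟩
        simp only [lab, decide_eq_true_eq]
        exact h1
  · rw [compl_compl, hGc]
  · rw [hN1, Fintype.card_fun, ZMod.card, Fintype.card_coe, Fintype.card_coe, hVc, hGc]

end Pool.Agent.L5helper12.CC
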