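import Pool.Agent.L5helper12.CCXor

/-!
# Systems of linear equations mod 2 with three variables per equation: private variables
-/

namespace Pool.Agent.L5helper12.CC

open Finset SN

set_option linter.unusedSectionVars false

/-- `(T, b)` with a set `T` of three indices stands for the equation `∑ i ∈ T, x_i = b` mod 2 -/
abbrev Eqn (n : ℕ) := {T : Finset (Fin n) // T.card = 3} × ZMod 2

/-- the equation holds for the values `X` of the unknowns -/
def Holds {n : ℕ} (X : Fin n → ZMod 2) (e : Eqn n) : Prop := ∑ i ∈ e.1.1, X i = e.2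

/-- the system of the equations `e` with `E e = true` has a solution -/
def Solvable {n : ℕ} (E : Eqn n → Bool) : Prop := ∃ X : Fin n → ZMod 2, ∀ e, E e = true → Holds X e

/-- the unknowns which occur in a set of equations -/
def supp {n : ℕ} (F : Finset (Eqn n)) : Finset (Fin n) := F.biUnion fun e => e.1.1

theorem card_le_supp {n : ℕ} (F : Finset (Eqn n)) : F.card ≤ (supp F).card ^ 3 := by
  have h1 : F.card ≤ (((supp F).powersetCard 3) ×ˢ (univ : Finset (ZMod 2))).card := by
    apply card_le_card_of_injOn (fun e => (e.1.1, e.2))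
    · intro e he
      rw [mem_coe, mem_product, mem_powersetCard]
      exact ⟨⟨subset_biUnion_of_mem (fun e : Eqn n => e.1.1) he, e.1.2⟩, mem_univ _⟩
    · intro e _ f _ h
      rw [Prod.ext_iff] at h
      exact Prod.ext (Subtype.ext h.1) h.2
  rw [card_product, card_powersetCard] at h1
  have h2 : (univ : Finset (ZMod 2)).card = 2 := rfl
  rw [h2] at h1
  generalize (supp F).card = r at h1 ⊢
  have h3 : r.choose 3 * 6 ≤ r ^ 3 := by
    have h4 : Nat.factorial 3 = 6 := rfl
    rw [mul_comm, ← h4, ← Nat.descFactorial_eq_factorial_mul_choose]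
    exact Nat.descFactorial_le_pow r 3
  omega

/-- A set of equations with many unknowns contains many equations each of which has an unknown which
does not occur in the others. -/
theorem exists_private {n : ℕ} (F : Finset (Eqn n)) (K : ℕ) (h : 3 * K ≤ (supp F).card) :
    ∃ (e : Fin K → Eqn n) (v : Fin K → Fin n), (∀ k, e k ∈ F) ∧ (∀ k, v k ∈ (e k).1.1) ∧
      ∀ k l, v k ∈ (e l).1.1 → k = l := by
  classical
  -- a minimal subfamily with the same unknowns
  let P : Finset (Finset (Eqn n)) := F.powerset.filter fun G => supp G = supp F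
  have hP : P.Nonempty := ⟨F, mem_filter.2 ⟨mem_powerset_self F, rfl⟩⟩
  obtain ⟨G, hG, hmin⟩ := exists_min_image P card hP
  obtain ⟨hGF, hGs⟩ := mem_filter.1 hG
  rw [mem_powerset] at hGF
  have hpriv : ∀ e ∈ G, ∃ v ∈ e.1.1, ∀ f ∈ G, v ∈ f.1.1 → f = e := by
    intro e he
    by_contra hcon
    push Not at hcon
    have h1 : supp (G.erase e) = supp F := by
      rw [← hGs]
      apply Finset.Subset.antisymm
      · exact biUnion_subset_biUnion_of_subset_left _ (erase_subset _ _)
      · intro v hv
        obtain ⟨f, hf, hvf⟩ := mem_biUnion.1 hv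
        by_cases hfe : f = e
        · subst hfe
          obtain ⟨g, hg, hvg, hgf⟩ := hcon v hvf
          exact mem_biUnion.2 ⟨g, mem_erase.2 ⟨hgf, hg⟩, hvg⟩
        · exact mem_biUnion.2 ⟨f, mem_erase.2 ⟨hfe, hf⟩, hvf⟩
    have h2 := hmin (G.erase e) (mem_filter.2 ⟨mem_powerset.2 ((erase_subset _ _).trans hGF), h1⟩)
    have h3 := card_erase_lt_of_mem he
    omega
  have hcard : K ≤ G.card := by
    have h1 : (supp G).card ≤ G.card * 3 := by
      apply card_biUnion_le_card_mul
      intro e _
      exact e.1.2.le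
    rw [hGs] at h1
    omega
  obtain ⟨H, hHG, hH⟩ := exists_subset_card_eq hcard
  let φ : Fin K ≃ H := (Fintype.equivFinOfCardEq (by rw [Fintype.card_coe, hH])).symm
  have hv : ∀ k : Fin K, ∃ v ∈ (φ k).1.1.1, ∀ f ∈ G, v ∈ f.1.1 → f = (φ k).1 :=
    fun k => hpriv _ (hHG (φ k).2)
  choose v hv1 hv2 using hv
  refine ⟨fun k => (φ k).1, v, fun k => hGF (hHG (φ k).2), hv1, ?_⟩
  intro k l hkl
  have h1 := hv2 k (φ l).1 (hHG (φ l).2) hkl
  exact (φ.injective (Subtype.ext h1)).symm

/-- the sum over three different indices -/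
theorem sum_three {n : ℕ} (X : Fin n → ZMod 2) {a b c : Fin n} (hab : a ≠ b) (hac : a ≠ c)
    (hbc : b ≠ c) : ∑ i ∈ ({a, b, c} : Finset (Fin n)), X i = X a + X b + X c := by
  rw [sum_insert (by simp [hab, hac]), sum_pair hbc, add_assoc]

/-- the equation with three given different unknowns -/
def mk3 {n : ℕ} (a b c : Fin n) (hab : a ≠ b) (hac : a ≠ c) (hbc : b ≠ c) (s : ZMod 2) : Eqn n :=
  (⟨{a, b, c}, card_eq_three.2 ⟨a, b, c, hab, hac, hbc, rfl⟩⟩, s)

theorem holds_mk3 {n : ℕ} (X : Fin n → ZMod 2) {a b c : Fin n} (hab : a ≠ b) (hac : a ≠ c)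
    (hbc : b ≠ c) (s : ZMod 2) : Holds X (mk3 a b c hab hac hbc s) ↔ X a + X b + X c = s := by
  unfold Holds mk3
  dsimp only
  rw [sum_three X hab hac hbc]

end Pool.Agent.L5helper12.CC
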