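import Pool.Agent.L5helper12.CCMain
import Pool.Agent.W888.GX.Hyp3

/-!
# Expanding unsolvable systems
-/

namespace Pool.Agent.L5helper12.CC

open Finset SN Pool.Agent.W888.GX

set_option linter.unusedSectionVars false

theorem img_oddv {m M : ℕ} (c : Fin M → Fin 3 → Fin m) (I : Finset (Fin M)) :
    2 * (img c I).card ≤ 3 * I.card + (oddv c I).card := by
  let cnt : Fin m → ℕ := fun j => ((I ×ˢ univ).filter fun p : Fin M × Fin 3 => c p.1 p.2 = j).card
  have h1 : ∑ j, cnt j = 3 * I.card := by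
    have := card_eq_sum_card_fiberwise (s := I ×ˢ (univ : Finset (Fin 3))) (t := univ)
      (f := fun p => c p.1 p.2) (fun _ _ => by simp)
    rw [card_product, card_univ, Fintype.card_fin] at this
    rw [mul_comm, this]
  have h2 : ∀ j ∈ img c I, 2 ≤ cnt j + (if j ∈ oddv c I then 1 else 0) := by
    intro j hj
    have h3 : 1 ≤ cnt j := by
      apply card_pos.2
      unfold img at hj
      obtain ⟨i, hi, hj⟩ := mem_biUnion.1 hj
      obtain ⟨s, _, hs⟩ := mem_image.1 hj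
      exact ⟨(i, s), mem_filter.2 ⟨mem_product.2 ⟨hi, mem_univ _⟩, hs⟩⟩
    by_cases h4 : j ∈ oddv c I
    · rw [if_pos h4]; omega
    · rw [if_neg h4]
      have h5 : ¬ Odd (cnt j) := by
        intro h
        exact h4 (mem_filter.2 ⟨mem_univ _, h⟩)
      rw [Nat.not_odd_iff_even] at h5
      obtain ⟨l, hl⟩ := h5
      omega
  have h3 := sum_le_sum h2
  rw [sum_const, smul_eq_mul, sum_add_distrib] at h3
  have h4 : ∑ j ∈ img c I, cnt j ≤ ∑ j, cnt j :=
    sum_le_sum_of_subset (subset_univ _)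
  have h5 : ∑ j ∈ img c I, (if j ∈ oddv c I then 1 else 0) ≤ (oddv c I).card := by
    rw [← card_filter]
    apply card_le_card
    intro j hj
    exact (mem_filter.1 hj).2
  omega

/-- the constant -/
def c0 : ℕ := 8192 * 3 ^ 12 * 16

theorem exists_sys (t : ℕ) (ht : 1 ≤ t) : ∃ (c : Fin (2 * c0 * t + 1) → Fin 3 → Fin (2 * c0 * t))
    (β : Fin (2 * c0 * t + 1) → Bool),
    (∀ I : Finset (Fin (2 * c0 * t + 1)), I.Nonempty → I.card ≤ 2 * t → (oddv c I).Nonempty) ∧
    (∀ I : Finset (Fin (2 * c0 * t + 1)), I.card = 2 * t → t ≤ (oddv c I).card) ∧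
    (∀ w : Fin (2 * c0 * t) → Bool, ∃ i, xor (xor (w (c i 0)) (w (c i 1))) (w (c i 2)) ≠ β i) := by
  classical
  have hc0 : 6 ≤ c0 := by unfold c0; norm_num
  have hn6 : 12 * t ≤ 2 * c0 * t := by
    apply Nat.mul_le_mul_right
    omega
  obtain ⟨c, hc, -⟩ := exists_hyp3 (2 * c0 * t + 1) (2 * c0 * t) (2 * t) 0 (1 / 6) (by omega)
    (by omega) (by omega) (by
      have h1 : ((2 * c0 * t + 1 : ℕ) : ℝ) ≤ 2 * ((2 * c0 * t : ℕ) : ℝ) := by
        have : 2 * c0 * t + 1 ≤ 2 * (2 * c0 * t) := by omega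
        exact_mod_cast this
      have h2 : ((2 * c0 * t + 1 : ℕ) : ℝ) ^ 4 ≤ (2 * ((2 * c0 * t : ℕ) : ℝ)) ^ 4 :=
        pow_le_pow_left₀ (by positivity) h1 4
      have h3 : ((2 * c0 * t : ℕ) : ℝ) = (8192 * 3 ^ 12 * 16) * ((2 * t : ℕ) : ℝ) := by
        unfold c0
        push_cast
        ring
      calc 8192 * 3 ^ 12 * ((2 * c0 * t + 1 : ℕ) : ℝ) ^ 4 * ((2 * t : ℕ) : ℝ)
          ≤ 8192 * 3 ^ 12 * (2 * ((2 * c0 * t : ℕ) : ℝ)) ^ 4 * ((2 * t : ℕ) : ℝ) := by
            gcongr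
        _ = ((8192 * 3 ^ 12 * 16) * ((2 * t : ℕ) : ℝ)) * ((2 * c0 * t : ℕ) : ℝ) ^ 4 := by ring
        _ = ((2 * c0 * t : ℕ) : ℝ) ^ 5 := by
            rw [← h3]
            ring) (by
      have : (6 : ℝ) ≤ ((2 * c0 * t : ℕ) : ℝ) := by
        have : 6 ≤ 2 * c0 * t := by omega
        exact_mod_cast this
      linarith) (by norm_num)
  have hodd : ∀ I : Finset (Fin (2 * c0 * t + 1)), 1 ≤ I.card → I.card ≤ 2 * t →
      I.card ≤ 2 * (oddv c I).card := by
    intro I h1 h2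
    have h3 := hc I h1 h2
    have h4 := img_oddv c I
    omega
  -- the right-hand side
  have hns : ∃ β : Fin (2 * c0 * t + 1) → Bool, ∀ w : Fin (2 * c0 * t) → Bool,
      (fun i => xor (xor (w (c i 0)) (w (c i 1))) (w (c i 2))) ≠ β := by
    by_contra hcon
    push Not at hcon
    have hs : Function.Surjective (fun w : Fin (2 * c0 * t) → Bool =>
        fun i => xor (xor (w (c i 0)) (w (c i 1))) (w (c i 2))) := hcon
    have h5 := Fintype.card_le_of_surjective _ hs
    rw [Fintype.card_fun, Fintype.card_fun, Fintype.card_bool, Fintype.card_fin,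
      Fintype.card_fin] at h5
    have h6 := (Nat.pow_le_pow_iff_right (by norm_num : 1 < 2)).1 h5
    omega
  obtain ⟨β, hβ⟩ := hns
  refine ⟨c, β, ?_, ?_, ?_⟩
  · intro I hI h2
    have h1 := card_pos.2 hI
    have := hodd I h1 h2
    apply card_pos.1
    omega
  · intro I hI
    have := hodd I (by omega) (by omega)
    omega
  · intro w
    by_contra hcon
    push Not at hcon
    exact hβ w (funext hcon)

/-- `C(n, r) ≤ (3 n / r)^r` -/
theorem choose_le (n r a : ℕ) (h : n ≤ a * r) : n.choose r ≤ (3 * a) ^ r := by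
  have h1 : r ^ r ≤ 3 ^ r * r.factorial := by
    have h := pow_self_le r
    have he : Real.exp r ≤ 3 ^ r := by
      rw [← Real.exp_one_pow]
      apply pow_le_pow_left₀ (Real.exp_pos 1).le
      linarith [Real.exp_one_lt_d9]
    have h' : (r : ℝ) ^ r ≤ 3 ^ r * r.factorial :=
      h.trans (mul_le_mul_of_nonneg_right he (by positivity))
    exact_mod_cast h'
  have h2 : n.choose r * r.factorial ≤ n ^ r := by
    rw [mul_comm, ← Nat.descFactorial_eq_factorial_mul_choose]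
    exact Nat.descFactorial_le_pow n r
  have h3 : n ^ r ≤ (a * r) ^ r := Nat.pow_le_pow_left h r
  have h4 : (a * r) ^ r ≤ (3 * a) ^ r * r.factorial := by
    rw [mul_pow, mul_pow]
    calc a ^ r * r ^ r ≤ a ^ r * (3 ^ r * r.factorial) := Nat.mul_le_mul_left _ h1
      _ = 3 ^ r * a ^ r * r.factorial := by ring
  exact Nat.le_of_mul_le_mul_right (h2.trans (h3.trans h4)) (Nat.factorial_pos r)

/-- the number of variables in a group -/
def QQ : ℕ := 2 * (6 * c0) ^ 2

theorem two_pow_le (t S : ℕ) (ht : 1 ≤ t) (h : QQ ^ (2 * c0 * t) ≤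
    S * ((2 * c0 * t + 1).choose (2 * t) * QQ ^ (2 * c0 * t - t))) : 2 ^ t ≤ S := by
  have hc0 : 6 ≤ c0 := by unfold c0; norm_num
  have hQ : 0 < QQ := by
    unfold QQ
    positivity
  have htc : t ≤ 2 * c0 * t := by
    have : 12 * t ≤ 2 * c0 * t := by
      apply Nat.mul_le_mul_right
      omega
    omega
  have h1 : (2 * c0 * t + 1).choose (2 * t) ≤ (3 * (2 * c0)) ^ (2 * t) := by
    apply choose_le
    have h2 : 12 * t ≤ 2 * c0 * t := by
      apply Nat.mul_le_mul_right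
      omega
    have h3 : 2 * c0 * (2 * t) = 2 * c0 * t + 2 * c0 * t := by ring
    omega
  have h2 : QQ ^ (2 * c0 * t) = QQ ^ t * QQ ^ (2 * c0 * t - t) := by
    rw [← pow_add]
    congr 1
    omega
  rw [h2, ← mul_assoc] at h
  have h3 := Nat.le_of_mul_le_mul_right h (Nat.pow_pos hQ)
  have h4 : QQ ^ t = 2 ^ t * (3 * (2 * c0)) ^ (2 * t) := by
    unfold QQ
    rw [mul_pow, pow_mul (3 * (2 * c0)) 2 t]
    congr 2
  have h5 : 2 ^ t * (3 * (2 * c0)) ^ (2 * t) ≤ S * (3 * (2 * c0)) ^ (2 * t) := by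
    rw [← h4]
    exact h3.trans (Nat.mul_le_mul_left _ h1)
  exact Nat.le_of_mul_le_mul_right h5 (by positivity)

end Pool.Agent.L5helper12.CC
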