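import Pool.Agent.L5helper12.CCEqn

/-!
# A circuit which leaves equations with private unknowns unnegated has many wires
-/

namespace Pool.Agent.L5helper12.CC

open Finset SN

set_option linter.unusedSectionVars false

/-- a bit as an element of `ZMod 2` -/
def bz (b : Bool) : ZMod 2 := if b then 1 else 0

theorem bz_xor (a b : Bool) : bz (xor a b) = bz a + bz b := by
  cases a <;> cases b <;> decide

theorem bz_inj {a b : Bool} (h : bz a = bz b) : a = b := by
  revert a b
  decide

theorem exists_bz (x : ZMod 2) : ∃ b, bz b = x := by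
  revert x
  decide

theorem two_zero (x : ZMod 2) : x + x = 0 := by
  revert x
  decide

section Emb

variable {n m M Q : ℕ} (c : Fin M → Fin 3 → Fin m) (β : Fin M → Bool)

/-- index set of the lifted equations -/
abbrev JJ (M Q : ℕ) := Fin M × (Fin 3 → Fin Q)

/-- the roles of the unknowns: private, auxiliary, basic -/
abbrev Lb (m M Q : ℕ) := JJ M Q ⊕ (JJ M Q ⊕ ((Fin m × Fin Q) × Fin 3))

/-- the values of the unknowns for an assignment of the lifted variables -/
def val (sh : JJ M Q → ZMod 2) (y : Fin m × Fin Q → Bool) : Lb m M Q → ZMod 2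
  | Sum.inl k => bz (y (c k.1 0, k.2 0)) + bz (y (c k.1 1, k.2 1)) + bz (y (c k.1 2, k.2 2)) + sh k
  | Sum.inr (Sum.inl k) => bz (y (c k.1 0, k.2 0)) + bz (y (c k.1 1, k.2 1))
  | Sum.inr (Sum.inr p) => bz (y p.1)

variable (sh : JJ M Q → ZMod 2) (ι : Lb m M Q → Fin n) (e : JJ M Q → Eqn n)

open Classical in
/-- the values of all unknowns -/
noncomputable def XX (y : Fin m × Fin Q → Bool) (v : Fin n) : ZMod 2 :=
  if h : ∃ l, ι l = v then val c sh y h.choose else 0

theorem XX_apply (hι : Function.Injective ι) (y : Fin m × Fin Q → Bool) (l : Lb m M Q) :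
    XX c sh ι y (ι l) = val c sh y l := by
  classical
  have h : ∃ l', ι l' = ι l := ⟨l, rfl⟩
  unfold XX
  rw [dif_pos h, hι h.choose_spec]

theorem XX_zero (y : Fin m × Fin Q → Bool) (v : Fin n) (hv : ∀ l, ι l ≠ v) :
    XX c sh ι y v = 0 := by
  classical
  unfold XX
  rw [dif_neg]
  rintro ⟨l, hl⟩
  exact hv l hl

open Classical in
/-- the equations which are always present -/
noncomputable def base (a : Eqn n) : Bool := decide (∀ y, Holds (XX c sh ι y) a)

open Classical in
/-- the unsolvable systems -/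
noncomputable def uu (x : Fin m → Fin Q) (a : Eqn n) : Bool :=
  base c sh ι a || decide (∃ k, e k = a ∧ ∀ s, x (c k.1 s) = k.2 s)

open Classical in
/-- the solvable systems -/
noncomputable def vv (y : Fin m × Fin Q → Bool) (a : Eqn n) : Bool :=
  base c sh ι a || decide (∃ k, e k = a ∧ Holds (XX c sh ι y) a)

theorem vv_solvable (y : Fin m × Fin Q → Bool) : Solvable (vv c sh ι e y) := by
  classical
  refine ⟨XX c sh ι y, ?_⟩
  intro a ha
  unfold vv base at ha
  rw [Bool.or_eq_true, decide_eq_true_eq, decide_eq_true_eq] at ha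
  rcases ha with h | ⟨k, _, h⟩
  · exact h y
  · exact h

theorem uu_base (x : Fin m → Fin Q) (a : Eqn n) (h : ∀ y, Holds (XX c sh ι y) a) :
    uu c sh ι e x a = true := by
  classical
  unfold uu base
  rw [Bool.or_eq_true, decide_eq_true_eq]
  exact Or.inl h

theorem uu_unsolvable (hι : Function.Injective ι) (ζ : Fin 4 → Fin n) (hζ : Function.Injective ζ)
    (hζι : ∀ i l, ι l ≠ ζ i)
    (he1 : ∀ k, ι (Sum.inl k) ∈ (e k).1.1)
    (he2 : ∀ k, ∀ v ∈ (e k).1.1, v ≠ ι (Sum.inl k) → ∀ l, ι l ≠ v)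
    (hsh : ∀ k, sh k = (e k).2 + bz (β k.1))
    (hun : ∀ w : Fin m → Bool, ∃ i, xor (xor (w (c i 0)) (w (c i 1))) (w (c i 2)) ≠ β i)
    (x : Fin m → Fin Q) : ¬ Solvable (uu c sh ι e x) := by
  rintro ⟨X, hX⟩
  -- the unknowns without a role vanish
  have hz3 : ∀ (a b d : Fin n), (∀ l, ι l ≠ a) → (∀ l, ι l ≠ b) → (∀ l, ι l ≠ d) →
      a ≠ b → a ≠ d → b ≠ d → X a + X b + X d = 0 := by
    intro a b d ha hb hd hab had hbd
    rw [← holds_mk3 X hab had hbd]
    apply hX
    apply uu_base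
    intro y
    rw [holds_mk3, XX_zero c sh ι y a ha, XX_zero c sh ι y b hb, XX_zero c sh ι y d hd]
    rfl
  have hζne : ∀ i j, i ≠ j → ζ i ≠ ζ j := fun i j h h' => h (hζ h')
  have hζ0 : ∀ i, X (ζ i) = 0 := by
    have h1 := hz3 (ζ 0) (ζ 1) (ζ 2) (hζι 0) (hζι 1) (hζι 2) (hζne _ _ (by decide))
      (hζne _ _ (by decide)) (hζne _ _ (by decide))
    have h2 := hz3 (ζ 0) (ζ 1) (ζ 3) (hζι 0) (hζι 1) (hζι 3) (hζne _ _ (by decide))
      (hζne _ _ (by decide)) (hζne _ _ (by decide))
    have h3 := hz3 (ζ 0) (ζ 2) (ζ 3) (hζι 0) (hζι 2) (hζι 3) (hζne _ _ (by decide))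
      (hζne _ _ (by decide)) (hζne _ _ (by decide))
    have h4 := hz3 (ζ 1) (ζ 2) (ζ 3) (hζι 1) (hζι 2) (hζι 3) (hζne _ _ (by decide))
      (hζne _ _ (by decide)) (hζne _ _ (by decide))
    have key : ∀ a b d f : ZMod 2, a + b + d = 0 → a + b + f = 0 → a + d + f = 0 → b + d + f = 0 →
        a = 0 ∧ b = 0 ∧ d = 0 ∧ f = 0 := by decide
    obtain ⟨k0, k1, k2, k3⟩ := key _ _ _ _ h1 h2 h3 h4
    intro i
    fin_cases i
    · exact k0
    · exact k1
    · exact k2
    · exact k3
  have hz : ∀ v, (∀ l, ι l ≠ v) → X v = 0 := by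
    intro v hv
    by_cases h : ∃ i, ζ i = v
    · obtain ⟨i, rfl⟩ := h
      exact hζ0 i
    · push Not at h
      have := hz3 v (ζ 0) (ζ 1) hv (hζι 0) (hζι 1) (h 0).symm (h 1).symm (hζne _ _ (by decide))
      rw [hζ0, hζ0, add_zero, add_zero] at this
      exact this
  have hιne : ∀ l l', l ≠ l' → ι l ≠ ι l' := fun l l' h h' => h (hι h')
  have hιζ : ∀ l i, ι l ≠ ζ i := fun l i => hζι i l
  -- the copies of the basic unknowns agree
  have hcopy : ∀ (p : Fin m × Fin Q) (s : Fin 3),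
      X (ι (Sum.inr (Sum.inr (p, s)))) = X (ι (Sum.inr (Sum.inr (p, 0)))) := by
    intro p s
    by_cases hs : s = 0
    · rw [hs]
    · have hne : ι (Sum.inr (Sum.inr (p, s))) ≠ ι (Sum.inr (Sum.inr (p, 0))) := by
        apply hιne
        intro h
        apply hs
        simpa using h
      have h1 : X (ι (Sum.inr (Sum.inr (p, s)))) + X (ι (Sum.inr (Sum.inr (p, 0)))) + X (ζ 0) = 0 := by
        rw [← holds_mk3 X hne (hιζ _ 0) (hιζ _ 0)]
        apply hX
        apply uu_base
        intro y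
        rw [holds_mk3, XX_apply c sh ι hι, XX_apply c sh ι hι, XX_zero c sh ι y _ (hζι 0), add_zero]
        exact two_zero _
      rw [hζ0, add_zero] at h1
      have key : ∀ a b : ZMod 2, a + b = 0 → a = b := by decide
      exact key _ _ h1
  have haux : ∀ k : JJ M Q, X (ι (Sum.inr (Sum.inl k))) =
      X (ι (Sum.inr (Sum.inr ((c k.1 0, k.2 0), 0)))) +
      X (ι (Sum.inr (Sum.inr ((c k.1 1, k.2 1), 1)))) := by
    intro k
    have hne1 : ι (Sum.inr (Sum.inl k)) ≠ ι (Sum.inr (Sum.inr ((c k.1 0, k.2 0), 0))) :=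
      hιne _ _ (by simp)
    have hne2 : ι (Sum.inr (Sum.inl k)) ≠ ι (Sum.inr (Sum.inr ((c k.1 1, k.2 1), 1))) :=
      hιne _ _ (by simp)
    have hne3 : ι (Sum.inr (Sum.inr ((c k.1 0, k.2 0), 0))) ≠
        ι (Sum.inr (Sum.inr ((c k.1 1, k.2 1), 1))) := hιne _ _ (by simp)
    have h1 : X (ι (Sum.inr (Sum.inl k))) + X (ι (Sum.inr (Sum.inr ((c k.1 0, k.2 0), 0)))) +
        X (ι (Sum.inr (Sum.inr ((c k.1 1, k.2 1), 1)))) = 0 := by
      rw [← holds_mk3 X hne1 hne2 hne3]
      apply hX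
      apply uu_base
      intro y
      rw [holds_mk3, XX_apply c sh ι hι, XX_apply c sh ι hι, XX_apply c sh ι hι]
      unfold val
      dsimp only
      generalize bz (y (c k.1 0, k.2 0)) = a
      generalize bz (y (c k.1 1, k.2 1)) = b
      revert a b
      decide
    have key : ∀ a b d : ZMod 2, a + b + d = 0 → a = b + d := by decide
    exact key _ _ _ h1
  have hprv : ∀ k : JJ M Q, X (ι (Sum.inl k)) = X (ι (Sum.inr (Sum.inl k))) +
      X (ι (Sum.inr (Sum.inr ((c k.1 2, k.2 2), 2)))) + sh k := by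
    intro k
    have hne1 : ι (Sum.inl k) ≠ ι (Sum.inr (Sum.inl k)) := hιne _ _ (by simp)
    have hne2 : ι (Sum.inl k) ≠ ι (Sum.inr (Sum.inr ((c k.1 2, k.2 2), 2))) := hιne _ _ (by simp)
    have hne3 : ι (Sum.inr (Sum.inl k)) ≠ ι (Sum.inr (Sum.inr ((c k.1 2, k.2 2), 2))) :=
      hιne _ _ (by simp)
    have h1 : X (ι (Sum.inl k)) + X (ι (Sum.inr (Sum.inl k))) +
        X (ι (Sum.inr (Sum.inr ((c k.1 2, k.2 2), 2)))) = sh k := by
      rw [← holds_mk3 X hne1 hne2 hne3]
      apply hX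
      apply uu_base
      intro y
      rw [holds_mk3, XX_apply c sh ι hι, XX_apply c sh ι hι, XX_apply c sh ι hι]
      unfold val
      dsimp only
      generalize bz (y (c k.1 0, k.2 0)) = a
      generalize bz (y (c k.1 1, k.2 1)) = b
      generalize bz (y (c k.1 2, k.2 2)) = d
      generalize sh k = f
      revert a b d f
      decide
    have key : ∀ a b d f : ZMod 2, a + b + d = f → a = b + d + f := by decide
    exact key _ _ _ _ h1
  -- the solution of the system
  choose w hw using fun j : Fin m => exists_bz (X (ι (Sum.inr (Sum.inr ((j, x j), 0)))))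
  obtain ⟨i, hi⟩ := hun w
  apply hi
  apply bz_inj
  let k : JJ M Q := (i, fun s => x (c i s))
  have hk : Holds X (e k) := by
    apply hX
    unfold uu
    rw [Bool.or_eq_true]
    right
    rw [decide_eq_true_eq]
    exact ⟨k, rfl, fun s => rfl⟩
  have hsum : X (ι (Sum.inl k)) = (e k).2 := by
    unfold Holds at hk
    rw [← hk]
    symm
    apply sum_eq_single_of_mem _ (he1 k)
    intro v hv hne
    exact hz v (he2 k v hv hne)
  rw [bz_xor, bz_xor, hw, hw, hw]
  have h1 := hprv k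
  rw [haux k, hsum, hsh k, hcopy _ 1, hcopy _ 2] at h1
  change _ + _ + X (ι (Sum.inr (Sum.inr ((c i 2, x (c i 2)), 0)))) = _
  have key : ∀ a b d f g : ZMod 2, f = a + b + d + (f + g) → a + b + d = g := by decide
  exact key _ _ _ _ _ h1

theorem uu_off (x : Fin m → Fin Q) (a : Eqn n) (ha : ∀ k, e k ≠ a) :
    uu c sh ι e x a = base c sh ι a := by
  classical
  unfold uu
  have : ¬ ∃ k, e k = a ∧ ∀ s, x (c k.1 s) = k.2 s := by
    rintro ⟨k, hk, _⟩
    exact ha k hk
  rw [decide_eq_false this, Bool.or_false]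

theorem vv_off (y : Fin m × Fin Q → Bool) (a : Eqn n) (ha : ∀ k, e k ≠ a) :
    vv c sh ι e y a = base c sh ι a := by
  classical
  unfold vv
  have : ¬ ∃ k, e k = a ∧ Holds (XX c sh ι y) a := by
    rintro ⟨k, hk, _⟩
    exact ha k hk
  rw [decide_eq_false this, Bool.or_false]

theorem lit_eq (w : Fin m → Bool) (i : Fin M)
    (h : xor (xor (w (c i 0)) (w (c i 1))) (w (c i 2)) ≠ β i) : lit c β w i = -1 := by
  unfold lit
  rw [Fin.prod_univ_three]
  revert h
  generalize w (c i 0) = a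
  generalize w (c i 1) = b
  generalize w (c i 2) = d
  generalize β i = f
  cases a <;> cases b <;> cases d <;> cases f <;> simp [sg]

theorem wires_ge (r b : ℕ) (hQ : 1 ≤ Q)
    (hne : ∀ I : Finset (Fin M), I.Nonempty → I.card ≤ r → (oddv c I).Nonempty)
    (hb : ∀ I : Finset (Fin M), I.card = r → b ≤ (oddv c I).card)
    (hun : ∀ w : Fin m → Bool, ∃ i, xor (xor (w (c i 0)) (w (c i 1))) (w (c i 2)) ≠ β i)
    (hι : Function.Injective ι) (ζ : Fin 4 → Fin n) (hζ : Function.Injective ζ)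
    (hζι : ∀ i l, ι l ≠ ζ i)
    (he1 : ∀ k, ι (Sum.inl k) ∈ (e k).1.1)
    (he2 : ∀ k, ∀ v ∈ (e k).1.1, v ≠ ι (Sum.inl k) → ∀ l, ι l ≠ v)
    (hsh : ∀ k, sh k = (e k).2 + bz (β k.1))
    (D : Finset (Eqn n)) (hD : ∀ k, e k ∉ D) (N : Circuit (Eqn n))
    (hN : ∀ w, (∃ a, ∀ E, N.label w E = E a) ∨
      (∀ E E', (∀ a ∈ D, E a = E' a) → N.label w E = N.label w E'))
    (hval : ∀ E, N.value E = true ↔ ¬ Solvable E) :
    Q ^ m ≤ N.wires * (M.choose r * Q ^ (m - b)) := by
  classical
  have h1 : ∀ x : Fin m → Fin Q, N.value (uu c sh ι e x) = true := by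
    intro x
    rw [hval]
    exact uu_unsolvable c β sh ι e hι ζ hζ hζι he1 he2 hsh hun x
  have h2 : ∀ y : Fin m × Fin Q → Bool, N.value (vv c sh ι e y) = false := by
    intro y
    rw [← Bool.not_eq_true, hval]
    intro h
    exact h (vv_solvable c sh ι e y)
  have h3 := rank_le (mat c β Q r) (uu c sh ι e) (vv c sh ι e) N (M.choose r * Q ^ (m - b)) h1 h2 ?_
  · rw [rank_full c β r hne] at h3
    exact_mod_cast h3
  intro w
  have hpos : (0 : ℤ) ≤ M.choose r * Q ^ (m - b) := by positivity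
  have einj : ∀ k k', e k = e k' → k = k' := by
    intro k k' hk
    by_contra hne
    apply he2 k' (ι (Sum.inl k)) (hk ▸ he1 k) _ (Sum.inl k) rfl
    intro h
    apply hne
    have := hι h
    simpa using this
  rcases hN w with ⟨a, ha⟩ | hdep
  · by_cases hk : ∃ k, e k = a
    · obtain ⟨k, rfl⟩ := hk
      unfold mf
      apply mu_violated c β r b hQ hb _ _ k.1
      intro x hx y hy
      simp only [Set.mem_ofPred_eq, ha] at hx hy
      unfold uu at hx
      unfold vv at hy
      rw [Bool.or_eq_false_iff, decide_eq_false_iff_not] at hy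
      obtain ⟨hy1, hy2⟩ := hy
      rw [hy1, Bool.false_or, decide_eq_true_eq] at hx
      obtain ⟨k', hk', hx⟩ := hx
      rw [einj _ _ hk'] at hx
      apply lit_eq
      intro hcon
      apply hy2
      refine ⟨k, rfl, ?_⟩
      unfold Holds
      rw [sum_eq_single_of_mem _ (he1 k)]
      · rw [XX_apply c sh ι hι]
        unfold val
        dsimp only
        rw [← hx 0, ← hx 1, ← hx 2, ← bz_xor, ← bz_xor, hcon, hsh k]
        have key : ∀ a b : ZMod 2, a + (b + a) = b := by decide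
        exact key _ _
      · intro v hv hne'
        exact XX_zero c sh ι y v (he2 k v hv hne')
    · push Not at hk
      refine (mf_const _ _ _ _ (base c sh ι a) ?_ ?_).le.trans hpos
      · intro x
        rw [ha, uu_off c sh ι e x a hk]
      · intro y
        rw [ha, vv_off c sh ι e y a hk]
  · have hDk : ∀ a ∈ D, ∀ k, e k ≠ a := by
      intro a ha k hk
      exact hD k (hk ▸ ha)
    refine (mf_const _ _ _ _ (N.label w (base c sh ι)) ?_ ?_).le.trans hpos
    · intro x
      apply hdep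
      intro a ha
      exact uu_off c sh ι e x a (hDk a ha)
    · intro y
      apply hdep
      intro a ha
      exact vv_off c sh ι e y a (hDk a ha)

end Emb

end Pool.Agent.L5helper12.CC
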