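import Pool.Agent.L5helper12.CCRank

/-!
# Comparator circuits and the rank measure

A comparator circuit is given by its wires, the function of the input which each wire carries at the
beginning, the list of the comparators and the output wire.
-/

namespace Pool.Agent.L5helper12.CC

open Finset

/-- A comparator circuit with `wires` wires for inputs `E : I → Bool`. Wire `w` carries the bit
`label w E` at the beginning; the comparators are applied in the order of the list. -/
structure Circuit (I : Type*) where
  /-- number of wires -/
  wires : ℕ
  /-- what a wire carries at the beginning -/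
  label : Fin wires → (I → Bool) → Bool
  /-- the comparators -/
  gates : List (Fin wires × Fin wires)
  /-- the output wire -/
  out : Fin wires

/-- The comparator on the wires `g.1`, `g.2`: the first one receives the conjunction and the second
one the disjunction. -/
def compare {m : ℕ} (v : Fin m → Bool) (g : Fin m × Fin m) : Fin m → Bool := fun w =>
  if w = g.1 then v g.1 && v g.2 else if w = g.2 then v g.1 || v g.2 else v w

/-- the bit on the output wire at the end -/
def Circuit.value {I : Type*} (N : Circuit I) (E : I → Bool) : Bool :=
  N.gates.foldl compare (fun w => N.label w E) N.out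

variable {I X Y : Type*} [Fintype Y]

/-- the rank measure of a Boolean function of the input -/
noncomputable def mf (A : X → Y → ℝ) (u : X → I → Bool) (v : Y → I → Bool) (g : (I → Bool) → Bool) :
    ℤ := mu A {x | g (u x) = true} {y | g (v y) = false}

theorem mf_submod (A : X → Y → ℝ) (u : X → I → Bool) (v : Y → I → Bool) (g h : (I → Bool) → Bool) :
    mf A u v (fun E => g E && h E) + mf A u v (fun E => g E || h E) ≤ mf A u v g + mf A u v h := by
  have := mu_submod A {x | g (u x) = true} {x | h (u x) = true} {y | g (v y) = false}
    {y | h (v y) = false}
  unfold mf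
  have e1 : {x | (g (u x) && h (u x)) = true} = {x | g (u x) = true} ∩ {x | h (u x) = true} := by
    ext x; simp
  have e2 : {x | (g (u x) || h (u x)) = true} = {x | g (u x) = true} ∪ {x | h (u x) = true} := by
    ext x; simp
  have e3 : {y | (g (v y) && h (v y)) = false} = {y | g (v y) = false} ∪ {y | h (v y) = false} := by
    ext y
    simp only [Set.mem_ofPred_eq, Set.mem_union]
    cases g (v y) <;> cases h (v y) <;> simp
  have e4 : {y | (g (v y) || h (v y)) = false} = {y | g (v y) = false} ∩ {y | h (v y) = false} := by
    ext y
    simp only [Set.mem_ofPred_eq, Set.mem_inter_iff]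
    cases g (v y) <;> cases h (v y) <;> simp
  rw [e1, e2, e3, e4]
  omega

theorem sum_compare (A : X → Y → ℝ) (u : X → I → Bool) (v : Y → I → Bool) {m : ℕ}
    (f : Fin m → (I → Bool) → Bool) (g : Fin m × Fin m) :
    ∑ w, mf A u v (fun E => compare (fun w => f w E) g w) ≤ ∑ w, mf A u v (f w) := by
  by_cases h : g.1 = g.2
  · apply le_of_eq
    apply sum_congr rfl
    intro w _
    congr 1
    funext E
    unfold compare
    by_cases hw : w = g.1
    · subst hw
      simp [← h]
    · simp [hw, h ▸ hw]
  · rw [← add_sum_erase univ _ (mem_univ g.1), ← add_sum_erase univ _ (mem_univ g.1)]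
    have hm : g.2 ∈ univ.erase g.1 := mem_erase.2 ⟨fun h' => h h'.symm, mem_univ _⟩
    rw [← add_sum_erase (univ.erase g.1) _ hm, ← add_sum_erase (univ.erase g.1) _ hm]
    have e1 : mf A u v (fun E => compare (fun w => f w E) g g.1) =
        mf A u v (fun E => f g.1 E && f g.2 E) := by
      congr 1
      funext E
      simp [compare]
    have e2 : mf A u v (fun E => compare (fun w => f w E) g g.2) =
        mf A u v (fun E => f g.1 E || f g.2 E) := by
      congr 1
      funext E
      have h' : g.2 ≠ g.1 := fun h' => h h'.symm
      simp [compare, h']
    have e3 : ∑ w ∈ (univ.erase g.1).erase g.2, mf A u v (fun E => compare (fun w => f w E) g w) =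
        ∑ w ∈ (univ.erase g.1).erase g.2, mf A u v (f w) := by
      apply sum_congr rfl
      intro w hw
      rw [mem_erase, mem_erase] at hw
      congr 1
      funext E
      simp [compare, hw.1, hw.2.1]
    have := mf_submod A u v (f g.1) (f g.2)
    rw [e1, e2, e3]
    omega

theorem sum_gates (A : X → Y → ℝ) (u : X → I → Bool) (v : Y → I → Bool) {m : ℕ}
    (l : List (Fin m × Fin m)) : ∀ f : Fin m → (I → Bool) → Bool,
    ∑ w, mf A u v (fun E => l.foldl compare (fun w => f w E) w) ≤ ∑ w, mf A u v (f w) := by
  induction l with
  | nil => intro f; simp
  | cons g l ih =>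
    intro f
    have := ih (fun w E => compare (fun w => f w E) g w)
    simp only [List.foldl_cons]
    exact this.trans (sum_compare A u v f g)

/-- The rank of the matrix is at most the number of wires times the measure of the labels. -/
theorem rank_le (A : X → Y → ℝ) (u : X → I → Bool) (v : Y → I → Bool) (N : Circuit I) (B : ℤ)
    (hu : ∀ x, N.value (u x) = true) (hv : ∀ y, N.value (v y) = false)
    (hB : ∀ w, mf A u v (N.label w) ≤ B) :
    (Module.finrank ℝ (W A Set.univ) : ℤ) ≤ N.wires * B := by
  have h1 := sum_gates A u v N.gates N.label
  have h2 : ∑ w, mf A u v (N.label w) ≤ N.wires * B := by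
    have := sum_le_card_nsmul univ (fun w => mf A u v (N.label w)) B (fun w _ => hB w)
    simpa using this
  have h3 : mf A u v (fun E => N.gates.foldl compare (fun w => N.label w E) N.out) ≤
      ∑ w, mf A u v (fun E => N.gates.foldl compare (fun w => N.label w E) w) := by
    apply single_le_sum (f := fun w => mf A u v (fun E => N.gates.foldl compare (fun w => N.label w E) w))
    · intro w _
      exact mu_nonneg _ _ _
    · exact mem_univ _
  have h4 : mf A u v (fun E => N.gates.foldl compare (fun w => N.label w E) N.out) =
      Module.finrank ℝ (W A Set.univ) := by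
    rw [← mu_univ]
    unfold mf
    congr 1
    · ext x
      simp only [Set.mem_ofPred_eq, Set.mem_univ, iff_true]
      exact hu x
    · ext y
      simp only [Set.mem_ofPred_eq, Set.mem_univ, iff_true]
      exact hv y
  omega

theorem mf_const (A : X → Y → ℝ) (u : X → I → Bool) (v : Y → I → Bool) (g : (I → Bool) → Bool)
    (b : Bool) (hu : ∀ x, g (u x) = b) (hv : ∀ y, g (v y) = b) : mf A u v g = 0 := by
  unfold mf
  cases b with
  | true =>
    have : {y | g (v y) = false} = ∅ := by
      ext y; simp [hv y]
    rw [this, mu_empty_right]
  | false =>
    have : {x | g (u x) = true} = ∅ := by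
      ext x; simp [hu x]
    rw [this, mu_empty_left]

end Pool.Agent.L5helper12.CC
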