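import Mathlib

/-!
# The rank measure

For a real matrix `A` (rows `X`, columns `Y`) the rank of the submatrix with rows `R` and columns
`C` is `dim (W R + Z C) - dim (Z C)`, where `W R` is the span of the rows in `R` and `Z C` the space
of the functions vanishing on `C`.  It is submodular.
-/

namespace Pool.Agent.L5helper12.CC

open Module

set_option linter.unusedSectionVars false

variable {X Y : Type*} [Fintype Y]

/-- span of the rows in `R` -/
def W (A : X → Y → ℝ) (R : Set X) : Submodule ℝ (Y → ℝ) := Submodule.span ℝ (A '' R)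

/-- functions vanishing on `C` -/
def Z (C : Set Y) : Submodule ℝ (Y → ℝ) where
  carrier := {f | ∀ y ∈ C, f y = 0}
  add_mem' := by
    intro f g hf hg y hy
    simp [hf y hy, hg y hy]
  zero_mem' := by
    intro y _
    rfl
  smul_mem' := by
    intro c f hf y hy
    simp [hf y hy]

theorem mem_Z {C : Set Y} {f : Y → ℝ} : f ∈ Z C ↔ ∀ y ∈ C, f y = 0 := Iff.rfl

/-- rank of the submatrix -/
noncomputable def mu (A : X → Y → ℝ) (R : Set X) (C : Set Y) : ℤ :=
  (finrank ℝ ↥(W A R ⊔ Z C) : ℤ) - finrank ℝ ↥(Z (Y := Y) C)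

theorem mu_nonneg (A : X → Y → ℝ) (R : Set X) (C : Set Y) : 0 ≤ mu A R C := by
  unfold mu
  have := Submodule.finrank_mono (R := ℝ) (show Z C ≤ W A R ⊔ Z C from le_sup_right)
  omega

theorem Z_inter (C₁ C₂ : Set Y) : Z (C₁ ∩ C₂) = Z C₁ ⊔ Z C₂ := by
  classical
  apply le_antisymm
  · intro f hf
    rw [Submodule.mem_sup]
    refine ⟨fun y => if y ∈ C₁ then 0 else f y, ?_, fun y => if y ∈ C₁ then f y else 0, ?_, ?_⟩
    · intro y hy
      simp [hy]
    · intro y hy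
      by_cases h : y ∈ C₁
      · simp [h, hf y ⟨h, hy⟩]
      · simp [h]
    · ext y
      by_cases h : y ∈ C₁ <;> simp [h]
  · apply sup_le
    · intro f hf y hy
      exact hf y hy.1
    · intro f hf y hy
      exact hf y hy.2

theorem Z_union (C₁ C₂ : Set Y) : Z (C₁ ∪ C₂) = Z C₁ ⊓ Z C₂ := by
  ext f
  rw [Submodule.mem_inf]
  constructor
  · intro hf
    exact ⟨fun y hy => hf y (Or.inl hy), fun y hy => hf y (Or.inr hy)⟩
  · rintro ⟨h1, h2⟩ y (hy | hy)
    · exact h1 y hy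
    · exact h2 y hy

theorem W_union (A : X → Y → ℝ) (R₁ R₂ : Set X) : W A (R₁ ∪ R₂) = W A R₁ ⊔ W A R₂ := by
  unfold W
  rw [Set.image_union, Submodule.span_union]

theorem W_mono (A : X → Y → ℝ) {R₁ R₂ : Set X} (h : R₁ ⊆ R₂) : W A R₁ ≤ W A R₂ :=
  Submodule.span_mono (Set.image_mono h)

theorem mu_submod (A : X → Y → ℝ) (R₁ R₂ : Set X) (C₁ C₂ : Set Y) :
    mu A (R₁ ∪ R₂) (C₁ ∩ C₂) + mu A (R₁ ∩ R₂) (C₁ ∪ C₂) ≤ mu A R₁ C₁ + mu A R₂ C₂ := by
  unfold mu
  have e1 : W A (R₁ ∪ R₂) ⊔ Z (C₁ ∩ C₂) = (W A R₁ ⊔ Z C₁) ⊔ (W A R₂ ⊔ Z C₂) := by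
    rw [W_union, Z_inter]
    ac_rfl
  have e2 : W A (R₁ ∩ R₂) ⊔ Z (C₁ ∪ C₂) ≤ (W A R₁ ⊔ Z C₁) ⊓ (W A R₂ ⊔ Z C₂) := by
    rw [Z_union]
    apply sup_le
    · exact le_inf ((W_mono A Set.inter_subset_left).trans le_sup_left)
        ((W_mono A Set.inter_subset_right).trans le_sup_left)
    · exact le_inf (inf_le_left.trans le_sup_right) (inf_le_right.trans le_sup_right)
  have h1 := Submodule.finrank_sup_add_finrank_inf_eq (W A R₁ ⊔ Z C₁) (W A R₂ ⊔ Z C₂)
  have h2 := Submodule.finrank_mono e2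
  have h3 := Submodule.finrank_sup_add_finrank_inf_eq (Z C₁) (Z (Y := Y) C₂)
  rw [e1, Z_inter C₁ C₂]
  rw [Z_union] at h2 ⊢
  omega

theorem mu_empty_left (A : X → Y → ℝ) (C : Set Y) : mu A ∅ C = 0 := by
  unfold mu W
  rw [Set.image_empty, Submodule.span_empty, bot_sup_eq, sub_self]

theorem Z_empty : Z (∅ : Set Y) = ⊤ := by
  ext f
  simp [mem_Z]

theorem mu_empty_right (A : X → Y → ℝ) (R : Set X) : mu A R (∅ : Set Y) = 0 := by
  unfold mu
  rw [Z_empty, sup_top_eq, sub_self]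

theorem Z_univ : Z (Set.univ : Set Y) = ⊥ := by
  ext f
  rw [mem_Z, Submodule.mem_bot]
  constructor
  · intro h
    ext y
    exact h y trivial
  · intro h y _
    rw [h]
    rfl

theorem mu_univ (A : X → Y → ℝ) : mu A Set.univ Set.univ = finrank ℝ (W A Set.univ) := by
  unfold mu
  rw [Z_univ, sup_bot_eq, finrank_bot]
  simp

/-- if modulo `Z C` the rows in `R` are in the span of `G` then the measure is at most `G.card` -/
theorem mu_le (A : X → Y → ℝ) (R : Set X) (C : Set Y) (G : Finset (Y → ℝ))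
    (h : ∀ x ∈ R, ∃ g ∈ Submodule.span ℝ (G : Set (Y → ℝ)), ∀ y ∈ C, A x y = g y) :
    mu A R C ≤ G.card := by
  unfold mu
  have h1 : W A R ⊔ Z C ≤ Submodule.span ℝ (G : Set (Y → ℝ)) ⊔ Z C := by
    apply sup_le _ le_sup_right
    unfold W
    rw [Submodule.span_le]
    rintro _ ⟨x, hx, rfl⟩
    obtain ⟨g, hg, hgy⟩ := h x hx
    rw [SetLike.mem_coe, Submodule.mem_sup]
    refine ⟨g, hg, A x - g, ?_, by simp⟩
    intro y hy
    simp [hgy y hy]
  have h2 := Submodule.finrank_mono h1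
  have h3 := Submodule.finrank_add_le_finrank_add_finrank (Submodule.span ℝ (G : Set (Y → ℝ))) (Z C)
  have h4 := finrank_span_finset_le_card (R := ℝ) G
  have h5 : (G : Set (Y → ℝ)).finrank ℝ = finrank ℝ (Submodule.span ℝ (G : Set (Y → ℝ))) := rfl
  omega

end Pool.Agent.L5helper12.CC
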