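import Pool.Agent.L5helper12.SNFunct

/-!
# Characters on the space of cuts, the Bessel inequality, the test functions of a path
-/

namespace Pool.Agent.L5helper12.SN

open Finset Relation

set_option linter.unusedSectionVars false

variable {V : Type*} [Fintype V] [DecidableEq V]

/-- sign of a bit -/
def sg (b : Bool) : ℝ := if b then -1 else 1

theorem sg_sq (b : Bool) : sg b * sg b = 1 := by cases b <;> simp [sg]

/-- character -/
def chi (c : V → Bool) (A : Finset V) : ℝ := ∏ v ∈ A, sg (c v)

/-- normalised inner product -/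
noncomputable def ip (u v : (V → Bool) → ℝ) : ℝ := (∑ c, u c * v c) / 2 ^ Fintype.card V

theorem chi_eq (c : V → Bool) (A : Finset V) : chi c A = ∏ v, if v ∈ A then sg (c v) else 1 := by
  unfold chi
  rw [Finset.prod_ite_mem univ A]
  simp

theorem chi_mul (c : V → Bool) (A B : Finset V) : chi c A * chi c B = chi c (symmDiff A B) := by
  rw [chi_eq, chi_eq, chi_eq, ← prod_mul_distrib]
  apply prod_congr rfl
  intro v _
  by_cases h1 : v ∈ A <;> by_cases h2 : v ∈ B <;> simp [mem_symmDiff, h1, h2, sg_sq]

theorem sum_chi (D : Finset V) (hD : D.Nonempty) : ∑ c, chi c D = 0 := by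
  obtain ⟨d, hd⟩ := hD
  have hinv : Function.Involutive (fun c : V → Bool => Function.update c d (!c d)) := by
    intro c
    ext v
    by_cases h : v = d
    · subst h; simp
    · simp [Function.update_of_ne h]
  have h1 : ∑ c, chi c D = ∑ c, chi ((Function.Involutive.toPerm _ hinv) c) D :=
    (Equiv.sum_comp (Function.Involutive.toPerm _ hinv) (fun c => chi c D)).symm
  have h2 : ∀ c : V → Bool, chi ((Function.Involutive.toPerm _ hinv) c) D = - chi c D := by
    intro c
    unfold chi
    rw [← mul_prod_erase _ _ hd, ← mul_prod_erase _ _ hd]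
    have e1 : ((Function.Involutive.toPerm _ hinv) c) d = !c d := by
      change Function.update c d (!c d) d = _
      simp
    have e2 : ∀ v ∈ D.erase d, sg (((Function.Involutive.toPerm _ hinv) c) v) = sg (c v) := by
      intro v hv
      change sg (Function.update c d (!c d) v) = _
      rw [Function.update_of_ne (ne_of_mem_erase hv)]
    rw [prod_congr rfl e2, e1]
    cases c d <;> simp [sg]
  simp only [h2, sum_neg_distrib] at h1
  linarith

theorem ip_chi (A B : Finset V) : ip (fun c => chi c A) (fun c => chi c B) = if A = B then 1 else 0 := by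
  unfold ip
  simp only [chi_mul]
  by_cases h : A = B
  · subst h
    simp [chi]
  · rw [if_neg h, sum_chi]
    · simp
    · rw [nonempty_iff_ne_empty]
      intro h0
      apply h
      rw [← Finset.bot_eq_empty, symmDiff_eq_bot] at h0
      exact h0

theorem ip_comm (u v : (V → Bool) → ℝ) : ip u v = ip v u := by
  unfold ip; simp [mul_comm]

theorem ip_sum_left {ι : Type*} (s : Finset ι) (a : ι → ℝ) (u : ι → (V → Bool) → ℝ) (v : (V → Bool) → ℝ) :
    ip (fun c => ∑ i ∈ s, a i * u i c) v = ∑ i ∈ s, a i * ip (u i) v := by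
  unfold ip
  simp only [sum_mul]
  rw [sum_comm, sum_div]
  apply sum_congr rfl
  intro i _
  rw [← mul_div_assoc, mul_sum]
  congr 1
  apply sum_congr rfl
  intro c _
  ring

theorem ip_sum_right {ι : Type*} (s : Finset ι) (a : ι → ℝ) (u : ι → (V → Bool) → ℝ) (v : (V → Bool) → ℝ) :
    ip v (fun c => ∑ i ∈ s, a i * u i c) = ∑ i ∈ s, a i * ip v (u i) := by
  rw [ip_comm, ip_sum_left]
  simp only [ip_comm]

theorem ip_sub_left (u u' v : (V → Bool) → ℝ) : ip (fun c => u c - u' c) v = ip u v - ip u' v := by
  unfold ip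
  simp only [sub_mul, sum_sub_distrib, sub_div]

theorem ip_sub_right (u v v' : (V → Bool) → ℝ) : ip u (fun c => v c - v' c) = ip u v - ip u v' := by
  unfold ip
  simp only [mul_sub, sum_sub_distrib, sub_div]

theorem bessel {ι : Type*} [Fintype ι] [DecidableEq ι] (h : ι → (V → Bool) → ℝ) (B : ℝ) (hB : 0 < B)
    (horth : ∀ p p', p ≠ p' → ip (h p) (h p') = 0) (hn : ∀ p, ip (h p) (h p) ≤ B)
    (J : (V → Bool) → ℝ) (hJ : ip J J ≤ 1) : ∑ p, ip (h p) J ^ 2 ≤ B := by
  have h0 : 0 ≤ ip (fun c => J c - ∑ p, (ip (h p) J / B) * h p c)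
      (fun c => J c - ∑ p, (ip (h p) J / B) * h p c) := by
    unfold ip
    apply div_nonneg _ (by positivity)
    apply sum_nonneg
    intro c _
    exact mul_self_nonneg _
  rw [ip_sub_left, ip_sub_right, ip_sub_right, ip_sum_left, ip_sum_right, ip_sum_left] at h0
  have e1 : ∀ p, ip (h p) (fun c => ∑ p', (ip (h p') J / B) * h p' c) =
      (ip (h p) J / B) * ip (h p) (h p) := by
    intro p
    rw [ip_sum_right, sum_eq_single p]
    · intro p' _ hp'
      rw [horth p p' hp'.symm]; ring
    · simp
  simp only [e1] at h0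
  have e2 : ∀ p, ip J (h p) = ip (h p) J := fun p => ip_comm _ _
  simp only [e2] at h0
  have e3 : ∑ p, ip (h p) J / B * (ip (h p) J / B * ip (h p) (h p)) ≤ ∑ p, ip (h p) J ^ 2 / B := by
    apply sum_le_sum
    intro p _
    have h1 : ip (h p) J / B * (ip (h p) J / B * ip (h p) (h p)) = (ip (h p) J ^ 2 / B ^ 2) * ip (h p) (h p) := by
      field_simp
    rw [h1]
    calc ip (h p) J ^ 2 / B ^ 2 * ip (h p) (h p) ≤ ip (h p) J ^ 2 / B ^ 2 * B := by
          apply mul_le_mul_of_nonneg_left (hn p); positivity
      _ = ip (h p) J ^ 2 / B := by field_simp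
  have e4 : ∑ p, ip (h p) J / B * ip (h p) J = ∑ p, ip (h p) J ^ 2 / B := by
    apply sum_congr rfl
    intro p _
    ring
  rw [e4] at h0
  have h5 : ∑ p, ip (h p) J ^ 2 / B ≤ 1 := by linarith
  rw [← sum_div, div_le_one hB] at h5
  exact h5

/-! ### Test functions -/

/-- coefficients of the test function of the edge `i` -/
noncomputable def cf (k i : ℕ) (T : Finset ℕ) : ℝ := if (T \ {i, i + 1}).card < k then phi k T else 0

/-- the test function of the edge `i` of the path `w` -/
noncomputable def gf (k L : ℕ) (w : ℕ → V) (i : ℕ) (c : V → Bool) : ℝ :=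
  ∑ T ∈ (range (L + 2)).powerset, cf k i T * chi c (T.image w)

theorem chi_image (w : ℕ → V) (c : V → Bool) (T : Finset ℕ) (h : Set.InjOn w T) :
    chi c (T.image w) = ∏ j ∈ T, sg (c (w j)) := by
  unfold chi
  rw [prod_image h]

theorem gf_vanish (k L : ℕ) (w : ℕ → V) (hw : Set.InjOn w (range (L + 2))) (i : ℕ) (hi : i ≤ L)
    (c : V → Bool) (h1 : c (w i) = true) (h2 : c (w (i + 1)) = false) : gf k L w i c = 0 := by
  have e0 : gf k L w i c = ∑ T ∈ (range (L + 2)).powerset, cf k i T * ∏ j ∈ T, sg (c (w j)) := by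
    unfold gf
    apply sum_congr rfl
    intro T hT
    rw [chi_image w c T (hw.mono (mem_powerset.mp hT))]
  rw [e0]
  set R := ((range (L + 2)).erase (i + 1)).erase i with hR
  have hr : range (L + 2) = insert i (insert (i + 1) R) := by
    ext x
    simp only [hR, mem_insert, mem_erase, mem_range]
    constructor
    · intro h
      by_cases hx : x = i
      · left; exact hx
      · by_cases hx' : x = i + 1
        · right; left; exact hx'
        · right; right; exact ⟨hx, hx', h⟩
    · rintro (h | h | h)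
      · omega
      · omega
      · exact h.2.2
  have hiR : i ∉ R := by simp [hR]
  have hi1R : i + 1 ∉ R := by simp [hR]
  have hi' : i ∉ insert (i + 1) R := by simp [hiR]
  rw [hr, sum_powerset_insert hi', sum_powerset_insert hi1R, sum_powerset_insert hi1R,
    ← sum_add_distrib, ← sum_add_distrib, ← sum_add_distrib]
  apply sum_eq_zero
  intro S hS
  have hS' := mem_powerset.mp hS
  have n1 : i ∉ S := fun h => hiR (hS' h)
  have n2 : i + 1 ∉ S := fun h => hi1R (hS' h)
  have n3 : i ∉ insert (i + 1) S := by simp [n1]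
  rw [prod_insert n3, prod_insert n1, prod_insert n2, h1, h2]
  have s1 : sg true = -1 := by simp [sg]
  have s2 : sg false = 1 := by simp [sg]
  rw [s1, s2]
  have c0 : S \ {i, i + 1} = S := by
    apply sdiff_eq_self_of_disjoint
    rw [disjoint_left]
    intro x hx hx'
    simp only [mem_insert, mem_singleton] at hx'
    rcases hx' with rfl | rfl
    · exact n1 hx
    · exact n2 hx
  have c1 : insert (i + 1) S \ {i, i + 1} = S := by
    rw [insert_sdiff_of_mem _ (by simp), c0]
  have c2 : insert i S \ {i, i + 1} = S := by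
    rw [insert_sdiff_of_mem _ (by simp), c0]
  have c3 : insert i (insert (i + 1) S) \ {i, i + 1} = S := by
    rw [insert_sdiff_of_mem _ (by simp), c1]
  simp only [cf, c0, c1, c2, c3]
  by_cases hk : S.card < k
  · simp only [if_pos hk]
    have := phi_rel k i S n1 n2 (by omega)
    linear_combination (∏ j ∈ S, sg (c (w j))) * this
  · simp only [if_neg hk]
    ring

theorem image_inj_on {w : ℕ → V} {N : ℕ} (hw : Set.InjOn w (range N)) {T T' : Finset ℕ}
    (hT : T ⊆ range N) (hT' : T' ⊆ range N) (h : T.image w = T'.image w) : T = T' := by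
  have key : ∀ A B : Finset ℕ, A ⊆ range N → B ⊆ range N → A.image w = B.image w → A ⊆ B := by
    intro A B hA hB hAB x hx
    have : w x ∈ B.image w := hAB ▸ mem_image_of_mem w hx
    obtain ⟨y, hy, hxy⟩ := mem_image.mp this
    have := hw (by exact_mod_cast hB hy) (by exact_mod_cast hA hx) hxy
    rw [← this]; exact hy
  exact Subset.antisymm (key _ _ hT hT' h) (key _ _ hT' hT h.symm)

theorem ip_coeff {w : ℕ → V} {N : ℕ} (hw : Set.InjOn w (range N)) (a : Finset ℕ → ℝ) (T : Finset ℕ)
    (hT : T ⊆ range N) :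
    ip (fun c => ∑ S ∈ (range N).powerset, a S * chi c (S.image w)) (fun c => chi c (T.image w)) = a T := by
  rw [ip_sum_left]
  simp only [ip_chi]
  rw [sum_eq_single T]
  · simp
  · intro S hS hne
    rw [if_neg, mul_zero]
    intro h
    exact hne (image_inj_on hw (mem_powerset.mp hS) hT h)
  · intro h
    exact absurd (mem_powerset.mpr hT) h

/-- indicator of the cuts that separate `s` from `t` -/
noncomputable def sep (s t : V) (c : V → Bool) : ℝ := if c s = true ∧ c t = false then 1 else 0

theorem sep_eq (s t : V) (hst : s ≠ t) (c : V → Bool) :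
    sep s t c = (chi c ∅ - chi c {s} + chi c {t} - chi c {s, t}) / 4 := by
  unfold sep chi
  rw [prod_pair hst]
  cases hs : c s <;> cases ht : c t <;> simp [sg, hs, ht] <;> norm_num

theorem ip_four (u a b d e : (V → Bool) → ℝ) :
    ip u (fun c => (a c - b c + d c - e c) / 4) = (ip u a - ip u b + ip u d - ip u e) / 4 := by
  unfold ip
  have : ∀ c, u c * ((a c - b c + d c - e c) / 4) = (u c * a c - u c * b c + u c * d c - u c * e c) / 4 := by
    intro c; ring
  simp only [this, ← sum_div, sum_sub_distrib, sum_add_distrib]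
  ring

theorem ip_start (k L : ℕ) (hk : 3 ≤ k) (hL : 2 ^ k ≤ L + 1) (w : ℕ → V)
    (hw : Set.InjOn w (range (L + 2))) (i : ℕ) : ip (gf k L w i) (sep (w 0) (w (L + 1))) = 1 := by
  have hst : w 0 ≠ w (L + 1) := by
    intro h
    have := hw (by simp) (by simp) h
    omega
  have e : sep (w 0) (w (L + 1)) = fun c => (chi c ((∅ : Finset ℕ).image w) -
      chi c (({0} : Finset ℕ).image w) + chi c (({L + 1} : Finset ℕ).image w) -
      chi c (({0, L + 1} : Finset ℕ).image w)) / 4 := by
    ext c
    rw [sep_eq _ _ hst]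
    simp [image_insert]
  rw [e, ip_four]
  have h0 : (∅ : Finset ℕ) ⊆ range (L + 2) := by simp
  have h1 : ({0} : Finset ℕ) ⊆ range (L + 2) := by simp
  have h2 : ({L + 1} : Finset ℕ) ⊆ range (L + 2) := by simp
  have h3 : ({0, L + 1} : Finset ℕ) ⊆ range (L + 2) := by
    intro x; simp only [mem_insert, mem_singleton, mem_range]; omega
  have small : ∀ T : Finset ℕ, T.card ≤ 2 → cf k i T = phi k T := by
    intro T hT
    unfold cf
    rw [if_pos]
    have := card_le_card (sdiff_subset (s := T) (t := {i, i + 1}))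
    omega
  have g0 := ip_coeff hw (cf k i) ∅ h0
  have g1 := ip_coeff hw (cf k i) {0} h1
  have g2 := ip_coeff hw (cf k i) {L + 1} h2
  have g3 := ip_coeff hw (cf k i) {0, L + 1} h3
  change ip (fun c => gf k L w i c) _ = _ at g0 g1 g2 g3
  change (ip (fun c => gf k L w i c) _ - ip (fun c => gf k L w i c) _ + ip (fun c => gf k L w i c) _
    - ip (fun c => gf k L w i c) _) / 4 = 1
  rw [g0, g1, g2, g3, small _ (by simp), small _ (by simp), small _ (by simp), small _ card_le_two,
    phi_start k (L + 1) hL]
  norm_num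

/-- difference of two test functions -/
noncomputable def hf (k L : ℕ) (w : ℕ → V) (i : ℕ) (c : V → Bool) : ℝ :=
  ∑ T ∈ (range (L + 2)).powerset, (cf k i T - cf k 0 T) * chi c (T.image w)

theorem hf_eq (k L : ℕ) (w : ℕ → V) (i : ℕ) (c : V → Bool) :
    hf k L w i c = gf k L w i c - gf k L w 0 c := by
  unfold hf gf
  rw [← sum_sub_distrib]
  apply sum_congr rfl
  intro T _
  ring

theorem card_sdiff_two (T : Finset ℕ) (i : ℕ) : T.card ≤ (T \ {i, i + 1}).card + 2 := by
  have h1 := card_le_card (s := T) (t := (T \ {i, i + 1}) ∪ {i, i + 1}) (by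
    intro x hx
    simp only [mem_union, mem_sdiff]
    tauto)
  have h2 := card_union_le (T \ {i, i + 1}) {i, i + 1}
  have h3 : ({i, i + 1} : Finset ℕ).card ≤ 2 := card_le_two
  omega

theorem coef_zero_low (k i : ℕ) (T : Finset ℕ) (h : T.card < k) : cf k i T - cf k 0 T = 0 := by
  have h1 := card_le_card (sdiff_subset (s := T) (t := {i, i + 1}))
  have h2 := card_le_card (sdiff_subset (s := T) (t := {0, 0 + 1}))
  unfold cf
  rw [if_pos (by omega), if_pos (by omega), sub_self]

theorem coef_zero_high (k i : ℕ) (T : Finset ℕ) (h : k + 2 ≤ T.card) : cf k i T - cf k 0 T = 0 := by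
  have h1 := card_sdiff_two T i
  have h2 := card_sdiff_two T 0
  unfold cf
  rw [if_neg (by omega), if_neg (by omega), sub_self]

theorem coef_sq (k i : ℕ) (T : Finset ℕ) : (cf k i T - cf k 0 T) ^ 2 ≤ 9 ^ T.card := by
  have h := phi_abs k T
  have h9 : (9 : ℝ) ^ T.card = (3 ^ T.card) ^ 2 := by
    rw [← pow_mul, mul_comm, pow_mul]; norm_num
  have h2 : phi k T ^ 2 ≤ (3 ^ T.card) ^ 2 := by
    rw [← sq_abs (phi k T)]
    exact pow_le_pow_left₀ (abs_nonneg _) h 2
  rw [h9]
  unfold cf
  split_ifs
  · simp
  · simpa using h2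
  · simpa using h2
  · simp

theorem sum_card_le (m K : ℕ) : ∑ T ∈ (range m).powerset, (if T.card ≤ K then (9 : ℝ) ^ T.card else 0) ≤
    (9 * m + 1) ^ K := by
  rw [Finset.sum_powerset_apply_card (fun j => if j ≤ K then (9 : ℝ) ^ j else 0), card_range]
  have h1 : ∑ j ∈ range (m + 1), (m.choose j) • (if j ≤ K then (9 : ℝ) ^ j else 0) ≤
      ∑ j ∈ range (K + 1), (9 * m : ℝ) ^ j * (K.choose j) := by
    calc ∑ j ∈ range (m + 1), (m.choose j) • (if j ≤ K then (9 : ℝ) ^ j else 0)
        ≤ ∑ j ∈ range (m + 1), (if j ≤ K then (9 * m : ℝ) ^ j * (K.choose j) else 0) := by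
          apply sum_le_sum
          intro j _
          split_ifs with h
          · rw [nsmul_eq_mul, mul_pow]
            have h1 : ((m.choose j : ℕ) : ℝ) ≤ (m : ℝ) ^ j := by
              exact_mod_cast Nat.choose_le_pow m j
            have h2 : (1 : ℝ) ≤ (K.choose j : ℕ) := by
              exact_mod_cast Nat.choose_pos h
            calc ((m.choose j : ℕ) : ℝ) * 9 ^ j ≤ (m : ℝ) ^ j * 9 ^ j := by gcongr
              _ = 9 ^ j * (m : ℝ) ^ j * 1 := by ring
              _ ≤ 9 ^ j * (m : ℝ) ^ j * (K.choose j : ℕ) := by gcongr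
          · simp
      _ = ∑ j ∈ (range (m + 1)).filter (· ≤ K), (9 * m : ℝ) ^ j * (K.choose j) := by
          rw [sum_filter]
      _ ≤ ∑ j ∈ range (K + 1), (9 * m : ℝ) ^ j * (K.choose j) := by
          apply sum_le_sum_of_subset_of_nonneg
          · intro j hj
            simp only [mem_filter, mem_range] at hj ⊢
            omega
          · intro j _ _
            positivity
  refine h1.trans ?_
  rw [add_pow]
  apply le_of_eq
  apply sum_congr rfl
  intro j _
  simp

theorem ip_hf (k L : ℕ) (w w' : ℕ → V) (hw : Set.InjOn w (range (L + 2)))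
    (hw' : Set.InjOn w' (range (L + 2)))
    (hint : (((range (L + 2)).image w) ∩ ((range (L + 2)).image w')).card < k) (i : ℕ) :
    ip (hf k L w i) (hf k L w' i) = 0 := by
  unfold hf
  rw [ip_sum_left]
  apply sum_eq_zero
  intro T hT
  rw [ip_sum_right, mul_sum]
  apply sum_eq_zero
  intro T' hT'
  rw [ip_chi]
  split_ifs with h
  · by_cases hc : T.card < k
    · rw [coef_zero_low k i T hc]; ring
    · exfalso
      have hT1 := mem_powerset.mp hT
      have hT2 := mem_powerset.mp hT'
      have h1 : (T.image w).card = T.card := card_image_of_injOn (hw.mono (by exact_mod_cast hT1))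
      have h2 : T.image w ⊆ ((range (L + 2)).image w) ∩ ((range (L + 2)).image w') := by
        apply subset_inter
        · exact image_subset_image hT1
        · rw [h]; exact image_subset_image hT2
      have := card_le_card h2
      omega
  · ring

theorem ip_hf_self (k L : ℕ) (w : ℕ → V) (hw : Set.InjOn w (range (L + 2))) (i : ℕ) :
    ip (hf k L w i) (hf k L w i) ≤ (9 * (L + 2 : ℕ) + 1) ^ (k + 1) := by
  have h1 : ip (hf k L w i) (hf k L w i) = ∑ T ∈ (range (L + 2)).powerset,
      (cf k i T - cf k 0 T) * (cf k i T - cf k 0 T) := by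
    unfold hf
    rw [ip_sum_right]
    apply sum_congr rfl
    intro T hT
    rw [ip_coeff hw (fun T => cf k i T - cf k 0 T) T (mem_powerset.mp hT)]
  rw [h1]
  refine le_trans ?_ (sum_card_le (L + 2) (k + 1))
  apply sum_le_sum
  intro T _
  split_ifs with h
  · rw [← sq]; exact coef_sq k i T
  · rw [coef_zero_high k i T (by omega)]; simp

end Pool.Agent.L5helper12.SN
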