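import Pool.Agent.L5helper12.CCModel
import Pool.Agent.L5helper12.SNFourier

/-!
# The polynomial of an expanding system of linear equations mod 2
-/

namespace Pool.Agent.L5helper12.CC

open Finset SN

set_option linter.unusedSectionVars false

section Core

variable {m M Q : ℕ} (c : Fin M → Fin 3 → Fin m) (β : Fin M → Bool)

/-- `1` if the equation `i` holds, `-1` otherwise -/
def lit (z : Fin m → Bool) (i : Fin M) : ℝ := sg (β i) * ∏ s, sg (z (c i s))

/-- the variables which occur an odd number of times in the equations `I` -/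
def oddv (I : Finset (Fin M)) : Finset (Fin m) :=
  univ.filter fun j => Odd ((I ×ˢ univ).filter fun p : Fin M × Fin 3 => c p.1 p.2 = j).card

theorem sg_pow (b : Bool) (k : ℕ) : sg b ^ k = if Odd k then sg b else 1 := by
  by_cases h : Odd k
  · obtain ⟨l, rfl⟩ := h
    rw [if_pos ⟨l, rfl⟩, pow_succ, pow_mul, pow_two, sg_sq, one_pow, one_mul]
  · rw [if_neg h]
    rw [Nat.not_odd_iff_even] at h
    obtain ⟨l, rfl⟩ := h
    rw [← two_mul, pow_mul, pow_two, sg_sq, one_pow]

theorem prod_lit (z : Fin m → Bool) (I : Finset (Fin M)) :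
    ∏ i ∈ I, lit c β z i = (∏ i ∈ I, sg (β i)) * chi z (oddv c I) := by
  unfold lit
  rw [prod_mul_distrib]
  congr 1
  rw [← prod_product' I univ (fun i s => sg (z (c i s)))]
  rw [← prod_fiberwise (I ×ˢ univ) (fun p : Fin M × Fin 3 => c p.1 p.2)]
  have h1 : ∀ j : Fin m, (∏ p ∈ (I ×ˢ univ).filter (fun p : Fin M × Fin 3 => c p.1 p.2 = j),
      sg (z (c p.1 p.2))) =
      if j ∈ oddv c I then sg (z j) else 1 := by
    intro j
    have h2 : (∏ p ∈ (I ×ˢ univ).filter (fun p : Fin M × Fin 3 => c p.1 p.2 = j),
      sg (z (c p.1 p.2))) = ∏ _p ∈ (I ×ˢ univ).filter (fun p : Fin M × Fin 3 => c p.1 p.2 = j),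
      sg (z j) := by
      apply prod_congr rfl
      intro p hp
      rw [(mem_filter.1 hp).2]
    rw [h2, prod_const, sg_pow]
    unfold oddv
    simp only [mem_filter, mem_univ, true_and]
  rw [prod_congr rfl (fun j _ => h1 j), ← chi_eq]

/-- the polynomial -/
noncomputable def poly (r : ℕ) (z : Fin m → Bool) : ℝ :=
  chi z univ * ∑ I ∈ (univ : Finset (Fin M)).powerset, if I.card ≤ r then ∏ i ∈ I, lit c β z i else 0

theorem chi_compl (z : Fin m → Bool) (T : Finset (Fin m)) :
    chi z univ * chi z T = chi z Tᶜ := by
  rw [chi_mul]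
  congr 1
  ext j
  simp [mem_symmDiff]

theorem poly_eq (r : ℕ) (z : Fin m → Bool) : poly c β r z =
    ∑ I ∈ (univ : Finset (Fin M)).powerset, if I.card ≤ r then
      (∏ i ∈ I, sg (β i)) * chi z (oddv c I)ᶜ else 0 := by
  unfold poly
  rw [mul_sum]
  apply sum_congr rfl
  intro I _
  split_ifs
  · rw [prod_lit, ← chi_compl]
    ring
  · simp

theorem poly_violated (r : ℕ) (z : Fin m → Bool) (i : Fin M) (hi : lit c β z i = -1) :
    poly c β r z = ∑ I ∈ ((univ : Finset (Fin M)).erase i).powerset, if I.card = r then
      (∏ i ∈ I, sg (β i)) * chi z (oddv c I)ᶜ else 0 := by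
  unfold poly
  have h1 : (univ : Finset (Fin M)) = insert i (univ.erase i) := (insert_erase (mem_univ i)).symm
  rw [h1, sum_powerset_insert (notMem_erase _ _), ← sum_add_distrib, mul_sum]
  rw [erase_insert (notMem_erase _ _)]
  apply sum_congr rfl
  intro I hI
  rw [mem_powerset] at hI
  have hiI : i ∉ I := fun h => notMem_erase i _ (hI h)
  rw [card_insert_of_notMem hiI, prod_insert hiI, hi]
  rcases lt_trichotomy I.card r with h | h | h
  · rw [if_pos h.le, if_pos (by omega), if_neg h.ne]
    ring
  · rw [if_pos h.le, if_neg (by omega), if_pos h, add_zero, prod_lit, ← chi_compl]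
    ring
  · rw [if_neg (by omega), if_neg (by omega), if_neg (by omega)]
    ring

/-- the matrix: rows are choices of one variable from each of the `m` groups of `Q` variables,
columns are assignments -/
noncomputable def mat (Q r : ℕ) (x : Fin m → Fin Q) (y : Fin m × Fin Q → Bool) : ℝ :=
  poly c β r (fun j => y (j, x j))

/-- the chosen variables in the groups `T` -/
def pts (x : Fin m → Fin Q) (T : Finset (Fin m)) : Finset (Fin m × Fin Q) := T.image fun j => (j, x j)

theorem chi_pts (x : Fin m → Fin Q) (y : Fin m × Fin Q → Bool) (T : Finset (Fin m)) :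
    chi (fun j => y (j, x j)) T = chi y (pts x T) := by
  unfold chi pts
  rw [prod_image]
  intro a _ b _ h
  exact (Prod.ext_iff.1 h).1

theorem card_pts (x : Fin m → Fin Q) (T : Finset (Fin m)) : (pts x T).card = T.card := by
  unfold pts
  apply card_image_of_injective
  intro a b h
  exact (Prod.ext_iff.1 h).1

theorem pts_inj {x x' : Fin m → Fin Q} (h : pts x univ = pts x' univ) : x = x' := by
  funext j
  have h1 : (j, x j) ∈ pts x' univ := by
    rw [← h]
    exact mem_image_of_mem _ (mem_univ j)
  obtain ⟨k, _, hk⟩ := mem_image.1 h1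
  rw [Prod.ext_iff] at hk
  obtain ⟨rfl, h2⟩ := hk
  exact h2.symm

/-- the pairing with the top characters -/
theorem pair_top (r : ℕ) (hne : ∀ I : Finset (Fin M), I.Nonempty → I.card ≤ r → (oddv c I).Nonempty)
    (x x' : Fin m → Fin Q) :
    ip (mat c β Q r x) (fun y => chi y (pts x' univ)) = if x = x' then 1 else 0 := by
  have h1 : mat c β Q r x = fun y => ∑ I ∈ (univ : Finset (Fin M)).powerset,
      (if I.card ≤ r then (∏ i ∈ I, sg (β i)) else 0) * chi y (pts x (oddv c I)ᶜ) := by
    funext y
    unfold mat
    rw [poly_eq]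
    apply sum_congr rfl
    intro I _
    rw [chi_pts]
    split_ifs <;> simp
  rw [h1, ip_sum_left, sum_eq_single ∅]
  · rw [ip_chi]
    have h2 : oddv c (∅ : Finset (Fin M)) = ∅ := by
      unfold oddv
      simp
    rw [h2, compl_empty]
    simp only [card_empty, Nat.zero_le, if_true, prod_empty, one_mul]
    by_cases h : x = x'
    · subst h
      simp
    · rw [if_neg h, if_neg]
      intro h'
      exact h (pts_inj h')
  · intro I _ hI
    rw [ip_chi]
    split_ifs with h1 h2
    · exfalso
      have h3 := congrArg Finset.card h2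
      rw [card_pts, card_pts, card_compl, Fintype.card_fin, card_univ, Fintype.card_fin] at h3
      have h4 := card_pos.2 (hne I (nonempty_iff_ne_empty.2 hI) h1)
      have h5 : (oddv c I).card ≤ m := by
        simpa using card_le_univ (oddv c I)
      omega
    · simp
    · simp
    · simp
  · intro h
    exact absurd (mem_powerset.2 (empty_subset _)) h

theorem rank_full (r : ℕ)
    (hne : ∀ I : Finset (Fin M), I.Nonempty → I.card ≤ r → (oddv c I).Nonempty) :
    Module.finrank ℝ (W (mat c β Q r) Set.univ) = Q ^ m := by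
  have h1 : LinearIndependent ℝ (mat c β Q r) := by
    rw [Fintype.linearIndependent_iff]
    intro a ha x'
    have h2 : ip (fun y => ∑ x, a x * mat c β Q r x y) (fun y => chi y (pts x' univ)) = 0 := by
      have : (fun y => ∑ x, a x * mat c β Q r x y) = 0 := by
        rw [← ha]
        funext y
        simp [Finset.sum_apply]
      rw [this]
      unfold ip
      simp
    rw [ip_sum_left] at h2
    have h3 : ∑ x, a x * ip (mat c β Q r x) (fun y => chi y (pts x' univ)) = a x' := by
      have : ∀ x, a x * ip (mat c β Q r x) (fun y => chi y (pts x' univ)) =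
          if x = x' then a x else 0 := by
        intro x
        rw [pair_top c β r hne]
        split_ifs <;> simp
      rw [sum_congr rfl (fun x _ => this x)]
      simp
    rw [h3] at h2
    exact h2
  unfold W
  rw [Set.image_univ, finrank_span_eq_card h1]
  simp

/-- the functions which span the rows at a violated equation -/
noncomputable def span_set (Q r : ℕ) : Finset ((Fin m × Fin Q → Bool) → ℝ) :=
  ((univ : Finset (Finset (Fin M))).filter fun I => I.card = r).biUnion fun I =>
    (univ : Finset (Fin m → Fin Q)).image fun x y => chi y (pts x (oddv c I)ᶜ)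

theorem card_image_pts (T : Finset (Fin m)) :
    ((univ : Finset (Fin m → Fin Q)).image fun x => pts x T).card ≤ Q ^ T.card := by
  have h1 : ((univ : Finset (Fin m → Fin Q)).image fun x => pts x T) ⊆
      (univ : Finset ({j // j ∈ T} → Fin Q)).image
        (fun g => (univ : Finset {j // j ∈ T}).image fun j : {j // j ∈ T} => (j.1, g j)) := by
    intro s hs
    obtain ⟨x, _, rfl⟩ := mem_image.1 hs
    refine mem_image.2 ⟨fun j => x j, mem_univ _, ?_⟩
    ext p
    simp only [pts, mem_image, mem_univ, true_and, Subtype.exists]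
    constructor
    · rintro ⟨a, ha, rfl⟩
      exact ⟨a, ha, rfl⟩
    · rintro ⟨a, ha, rfl⟩
      exact ⟨a, ha, rfl⟩
  refine (card_le_card h1).trans (card_image_le.trans ?_)
  rw [card_univ, Fintype.card_fun, Fintype.card_fin, Fintype.card_coe]

theorem card_span_set (Q r b : ℕ) (hQ : 1 ≤ Q)
    (hb : ∀ I : Finset (Fin M), I.card = r → b ≤ (oddv c I).card) :
    (span_set c Q r).card ≤ M.choose r * Q ^ (m - b) := by
  unfold span_set
  refine card_biUnion_le.trans ?_
  have h1 : ∀ I ∈ (univ : Finset (Finset (Fin M))).filter (fun I => I.card = r),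
      ((univ : Finset (Fin m → Fin Q)).image fun x y => chi y (pts x (oddv c I)ᶜ)).card ≤
        Q ^ (m - b) := by
    intro I hI
    have h2 : ((univ : Finset (Fin m → Fin Q)).image fun x y => chi y (pts x (oddv c I)ᶜ)) =
        (((univ : Finset (Fin m → Fin Q)).image fun x => pts x (oddv c I)ᶜ).image
          fun s y => chi y s) := by
      rw [image_image]
      rfl
    rw [h2]
    refine card_image_le.trans ((card_image_pts _).trans ?_)
    apply Nat.pow_le_pow_right hQ
    rw [card_compl, Fintype.card_fin]
    have := hb I (mem_filter.1 hI).2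
    omega
  refine (sum_le_card_nsmul _ _ _ h1).trans ?_
  rw [smul_eq_mul]
  apply Nat.mul_le_mul_right
  rw [← powerset_univ, ← powersetCard_eq_filter, card_powersetCard, card_univ, Fintype.card_fin]

theorem mu_violated (r b : ℕ) (hQ : 1 ≤ Q)
    (hb : ∀ I : Finset (Fin M), I.card = r → b ≤ (oddv c I).card)
    (R : Set (Fin m → Fin Q)) (C : Set (Fin m × Fin Q → Bool)) (i : Fin M)
    (h : ∀ x ∈ R, ∀ y ∈ C, lit c β (fun j => y (j, x j)) i = -1) :
    mu (mat c β Q r) R C ≤ M.choose r * Q ^ (m - b) := by
  have h1 : mu (mat c β Q r) R C ≤ (span_set c Q r).card := by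
    apply mu_le
    intro x hx
    refine ⟨fun y => ∑ I ∈ ((univ : Finset (Fin M)).erase i).powerset,
      (if I.card = r then (∏ i ∈ I, sg (β i)) * chi y (pts x (oddv c I)ᶜ) else 0), ?_, ?_⟩
    · have h2 : (fun y => ∑ I ∈ ((univ : Finset (Fin M)).erase i).powerset,
          (if I.card = r then (∏ i ∈ I, sg (β i)) * chi y (pts x (oddv c I)ᶜ) else 0)) =
          ∑ I ∈ ((univ : Finset (Fin M)).erase i).powerset,
            (if I.card = r then (∏ i ∈ I, sg (β i)) else 0) •
              (fun y => chi y (pts x (oddv c I)ᶜ)) := by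
        funext y
        rw [Finset.sum_apply]
        apply sum_congr rfl
        intro I _
        split_ifs <;> simp
      rw [h2]
      apply Submodule.sum_mem
      intro I _
      by_cases hI : I.card = r
      · apply Submodule.smul_mem
        apply Submodule.subset_span
        rw [mem_coe]
        unfold span_set
        rw [mem_biUnion]
        exact ⟨I, mem_filter.2 ⟨mem_univ _, hI⟩, mem_image.2 ⟨x, mem_univ _, rfl⟩⟩
      · rw [if_neg hI, zero_smul]
        exact Submodule.zero_mem _
    · intro y hy
      unfold mat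
      rw [poly_violated c β r _ i (h x hx y hy)]
      apply sum_congr rfl
      intro I _
      rw [chi_pts]
  have h2 := card_span_set c Q r b hQ hb
  calc mu (mat c β Q r) R C ≤ ((span_set c Q r).card : ℤ) := h1
    _ ≤ ((M.choose r * Q ^ (m - b) : ℕ) : ℤ) := by exact_mod_cast h2
    _ = _ := by push_cast; ring

end Core

end Pool.Agent.L5helper12.CC
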