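import Pool.Agent.L5helper12.TM

/-!
# Families of double planes over finite fields
-/

set_option autoImplicit false

namespace Pool.Agent.L5helper12.DP

open Finset MvPolynomial
open Pool.Agent.N842.HS (Mon lowv evs evs_surj pgl pgl_map eval_pgl Smv Smv_congr Smv_zmod Sing sing_card)
open Pool.Agent.L5helper12.TM

lemma card_sq {κ : Type} [Field κ] [Fintype κ] [DecidableEq κ] (hκ : ringChar κ ≠ 2) {I : Type} [Fintype I] (f : I → κ) :
    (Nat.card {P : I × κ // P.2 ^ 2 = f P.1} : ℝ) = Fintype.card I + ∑ i, (quadraticChar κ (f i) : ℝ) := by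
  classical
  have h1 : Nat.card {P : I × κ // P.2 ^ 2 = f P.1} = ∑ i : I, Nat.card {z : κ // z ^ 2 = f i} := by
    have e : {P : I × κ // P.2 ^ 2 = f P.1} ≃ Σ i : I, {z : κ // z ^ 2 = f i} :=
      { toFun := fun P => ⟨P.1.1, P.1.2, P.2⟩
        invFun := fun P => ⟨(P.1, P.2.1), P.2.2⟩
        left_inv := fun P => rfl
        right_inv := fun P => rfl }
    rw [Nat.card_congr e, Nat.card_sigma]
  have h2 : ∀ a : κ, (Nat.card {z : κ // z ^ 2 = a} : ℝ) = 1 + (quadraticChar κ a : ℝ) := by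
    intro a
    have h3 := quadraticChar_card_sqrts hκ a
    have h4 : Nat.card {z : κ // z ^ 2 = a} = ({x : κ | x ^ 2 = a}.toFinset).card := by
      rw [Nat.card_eq_fintype_card, Set.toFinset_card]
      exact Fintype.card_congr (Equiv.refl _)
    rw [h4]
    have h5 : (((({x : κ | x ^ 2 = a}.toFinset).card : ℕ) : ℤ) : ℝ) = ((quadraticChar κ a + 1 : ℤ) : ℝ) := by rw [h3]
    push_cast at h5
    linarith
  rw [h1]
  push_cast
  rw [sum_congr rfl fun i _ => h2 (f i), sum_add_distrib, sum_const, card_univ, nsmul_eq_mul, mul_one]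

section
variable {d D : ℕ} (e : Fin D ≃ Mon 2 d)

/-- the number of the points of the double plane -/
noncomputable def pd (κ : Type) [Field κ] (u : Fin D → κ) : ℝ :=
  (Nat.card {P : (Fin 2 → κ) × κ // P.2 ^ 2 = eval P.1 (pgl e u)} : ℝ) + (Nat.card {P : κ × κ // P.2 ^ 2 = P.1 ^ d + 1} : ℝ) +
    (Nat.card {z : κ // z ^ 2 = 1} : ℝ)

/-- the normalised trace minus `1` -/
noncomputable def tau (κ : Type) [Field κ] (u : Fin D → κ) : ℝ := (pd e κ u - 1 - (Nat.card κ : ℝ) ^ 2 - Nat.card κ) / Nat.card κ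

lemma tau_congr {κ κ' : Type} [Field κ] [Field κ'] (σ : κ ≃+* κ') (u : Fin D → κ) : tau e κ' (fun k => σ (u k)) = tau e κ u := by
  have h1 : Nat.card {P : (Fin 2 → κ') × κ' // P.2 ^ 2 = eval P.1 (pgl e (fun k => σ (u k)))} =
      Nat.card {P : (Fin 2 → κ) × κ // P.2 ^ 2 = eval P.1 (pgl e u)} := by
    symm
    refine Nat.card_congr (Equiv.subtypeEquiv (Equiv.prodCongr (Equiv.arrowCongr (Equiv.refl _) σ.toEquiv) σ.toEquiv) fun P => ?_)
    have h := eval_pgl (σ : κ →+* κ') (pgl e u) P.1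
    rw [pgl_map] at h
    have h' : eval (fun i => σ (P.1 i)) (pgl e (fun k => σ (u k))) = σ (eval P.1 (pgl e u)) := h
    show P.2 ^ 2 = eval P.1 (pgl e u) ↔ (σ P.2) ^ 2 = eval (fun i => σ (P.1 i)) (pgl e (fun k => σ (u k)))
    rw [h', ← map_pow, σ.injective.eq_iff]
  have h2 : Nat.card {P : κ' × κ' // P.2 ^ 2 = P.1 ^ d + 1} = Nat.card {P : κ × κ // P.2 ^ 2 = P.1 ^ d + 1} := by
    symm
    refine Nat.card_congr (Equiv.subtypeEquiv (Equiv.prodCongr σ.toEquiv σ.toEquiv) fun P => ?_)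
    show P.2 ^ 2 = P.1 ^ d + 1 ↔ (σ P.2) ^ 2 = (σ P.1) ^ d + 1
    rw [← map_pow, ← map_pow, ← map_one σ, ← map_add, σ.injective.eq_iff]
  have h3 : Nat.card {z : κ' // z ^ 2 = 1} = Nat.card {z : κ // z ^ 2 = 1} := by
    symm
    refine Nat.card_congr (Equiv.subtypeEquiv σ.toEquiv fun z => ?_)
    show z ^ 2 = 1 ↔ (σ z) ^ 2 = 1
    rw [← map_pow, ← map_one σ, σ.injective.eq_iff]
  unfold tau pd
  rw [h1, h2, h3, (Nat.card_congr σ.toEquiv).symm]

lemma eval_eq {κ : Type} [Field κ] (u : Fin D → κ) (x : Fin 2 → κ) : eval x (pgl e u) = ∑ i, x i ^ d + lowv e u x := by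
  unfold pgl lowv
  simp only [map_add, map_sum, map_mul, map_prod, map_pow, eval_X, eval_C]

lemma low_line {κ : Type} [Field κ] (u w : Fin D → κ) (x : Fin 2 → κ) (s : κ) : lowv e (u + s • w) x = lowv e u x + s * lowv e w x := by
  unfold lowv
  rw [mul_sum, ← sum_add_distrib]
  refine sum_congr rfl fun k _ => ?_
  rw [Pi.add_apply, Pi.smul_apply, smul_eq_mul]
  ring

end

section fin
variable {κ : Type} [Field κ] [Fintype κ] [DecidableEq κ] {d D : ℕ} (e : Fin D ≃ Mon 2 d)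

/-- the value of the character -/
noncomputable def Sx (x : Fin 2 → κ) (u : Fin D → κ) : ℝ := (quadraticChar κ (eval x (pgl e u)) : ℝ)

lemma Sx_bound (x : Fin 2 → κ) (u : Fin D → κ) : |Sx e x u| ≤ 1 := by
  unfold Sx
  by_cases h : eval x (pgl e u) = 0
  · rw [h]
    simp
  · rcases quadraticChar_dichotomy h with h1 | h1 <;> rw [h1] <;> simp

/-- the contribution of the line at infinity -/
noncomputable def Si (κ : Type) [Field κ] [Fintype κ] [DecidableEq κ] (d : ℕ) : ℝ := ∑ t : κ, (quadraticChar κ (t ^ d + 1) : ℝ)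

lemma Si_bound (hκ : ringChar κ ≠ 2) (hd : (d : κ) ≠ 0) : |Si κ d| ≤ ((d : ℝ) - 1) * Real.sqrt (Fintype.card κ) := by
  have hd0 : 0 < d := Nat.pos_of_ne_zero (fun h => hd (by rw [h]; simp))
  have hnd : (Polynomial.X ^ d + Polynomial.C (1 : κ)).natDegree = d := Polynomial.natDegree_X_pow_add_C
  have hsep : (Polynomial.X ^ d + Polynomial.C (1 : κ)).Separable := by
    have h := Polynomial.separable_X_pow_sub_C (-1 : κ) hd (by simp)
    rwa [map_neg, sub_neg_eq_add] at h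
  have h1 := Pool.Agent.H341R2.Sharp.weil_sharp hκ (Polynomial.X ^ d + Polynomial.C (1 : κ)) (by omega) (by
    intro c h h2
    have h3 : IsUnit h := Polynomial.isUnit_of_self_mul_dvd_separable hsep (by
      rw [h2, pow_two]
      exact dvd_mul_left _ _)
    have h4 := Polynomial.natDegree_eq_zero_of_isUnit h3
    have h5 : (Polynomial.C c * h ^ 2).natDegree = 0 := by
      have := Polynomial.natDegree_C_mul_le c (h ^ 2)
      have h6 := Polynomial.natDegree_pow h 2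
      omega
    rw [← h2, hnd] at h5
    omega)
  rw [hnd] at h1
  unfold Si
  simpa using h1

lemma tau_eq (hκ : ringChar κ ≠ 2) (u : Fin D → κ) : tau e κ u = ((∑ x : Fin 2 → κ, Sx e x u) + (Si κ d + 1)) / Fintype.card κ := by
  have hq : (0 : ℝ) < Fintype.card κ := by exact_mod_cast Fintype.card_pos
  have h1 := card_sq hκ (fun x : Fin 2 → κ => eval x (pgl e u))
  have h2 := card_sq hκ (fun t : κ => t ^ d + 1)
  have h3 : (Nat.card {z : κ // z ^ 2 = 1} : ℝ) = 2 := by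
    have h4 := card_sq hκ (fun _ : Unit => (1 : κ))
    have h5 : Nat.card {P : Unit × κ // P.2 ^ 2 = 1} = Nat.card {z : κ // z ^ 2 = 1} :=
      Nat.card_congr (Equiv.subtypeEquiv (Equiv.punitProd κ) fun P => Iff.rfl)
    rw [h5] at h4
    rw [h4]
    simp
    norm_num
  unfold tau pd
  rw [h1, h2, h3, Nat.card_eq_fintype_card, Fintype.card_fun, Fintype.card_fin]
  congr 1
  unfold Sx Si
  push_cast
  ring

lemma Sx_dir (hκ : ringChar κ ≠ 2) (x : Fin 2 → κ) (u w : Fin D → κ) (h : lowv e w x ≠ 0) : ∑ s : κ, Sx e x (u + s • w) = 0 := by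
  unfold Sx
  have h1 := Pool.Agent.L5helper12.JV.chi_shift hκ (∑ i, x i ^ d + lowv e u x) (lowv e w x) h
  rw [← h1]
  refine sum_congr rfl fun s _ => ?_
  rw [eval_eq, low_line, add_assoc]

lemma Sx_fix (x : Fin 2 → κ) (u w : Fin D → κ) (h : lowv e w x = 0) (s : κ) : Sx e x (u + s • w) = Sx e x u := by
  unfold Sx
  rw [eval_eq, eval_eq, low_line, h, mul_zero, add_zero]

lemma exists_w (i : Fin 2 → κ) (J : Finset (Fin 2 → κ)) (hi : i ∉ J) (hJ : J.card + 1 ≤ d) :
    ∃ w : Fin D → κ, (∀ j ∈ J, lowv e w j = 0) ∧ lowv e w i ≠ 0 := by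
  obtain ⟨w, hw⟩ := evs_surj e (insert i J) (by rw [card_insert_of_notMem hi]; exact hJ) (by omega)
    (fun x => if x.1 = i then 1 else 0)
  have hw' : ∀ x (hx : x ∈ insert i J), lowv e w x = if x = i then 1 else 0 := fun x hx => congrFun hw ⟨x, hx⟩
  refine ⟨w, fun j hj => ?_, ?_⟩
  · rw [hw' j (mem_insert_of_mem hj), if_neg]
    rintro rfl
    exact hi hj
  · rw [hw' i (mem_insert_self _ _), if_pos rfl]
    exact one_ne_zero

/-- the contribution of infinity is small -/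
lemma inf_le (hκ : ringChar κ ≠ 2) (hd : (d : κ) ≠ 0) : |Si κ d + 1| / Fintype.card κ ≤ d / Real.sqrt (Fintype.card κ) := by
  have hq : (0 : ℝ) < Fintype.card κ := by exact_mod_cast Fintype.card_pos
  have hq1 : (1 : ℝ) ≤ Fintype.card κ := by exact_mod_cast Fintype.card_pos
  have hs : 0 < Real.sqrt (Fintype.card κ : ℝ) := Real.sqrt_pos.2 hq
  have hs1 : 1 ≤ Real.sqrt (Fintype.card κ : ℝ) := Real.one_le_sqrt.2 hq1
  have h1 := Si_bound hκ hd
  have h2 : |Si κ d + 1| ≤ d * Real.sqrt (Fintype.card κ) := by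
    refine (abs_add_le _ _).trans ?_
    rw [abs_one]
    nlinarith
  rw [div_le_div_iff₀ hq hs]
  calc |Si κ d + 1| * Real.sqrt (Fintype.card κ) ≤ (d * Real.sqrt (Fintype.card κ)) * Real.sqrt (Fintype.card κ) :=
        mul_le_mul_of_nonneg_right h2 hs.le
    _ = _ := by rw [mul_assoc, Real.mul_self_sqrt hq.le]

/-- the mean value of the traces -/
lemma mean (hκ : ringChar κ ≠ 2) (hd : (d : κ) ≠ 0) :
    |∑ u : Fin D → κ, tau e κ u| ≤ d * (Fintype.card κ : ℝ) ^ D / Real.sqrt (Fintype.card κ) := by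
  have hq : (0 : ℝ) < Fintype.card κ := by exact_mod_cast Fintype.card_pos
  have hd0 : 0 < d := Nat.pos_of_ne_zero (fun h => hd (by rw [h]; simp))
  have h1 : ∑ u : Fin D → κ, ∑ x : Fin 2 → κ, Sx e x u = 0 := by
    apply mean_zero (fun x u => Sx e x u)
    intro i
    obtain ⟨w, _, h3⟩ := exists_w e i ∅ (by simp) (by simp; omega)
    exact ⟨w, fun u => Sx_dir e hκ i u w h3⟩
  rw [sum_congr rfl fun u _ => tau_eq e hκ u, ← sum_div, sum_add_distrib, h1, zero_add, sum_const, card_univ, nsmul_eq_mul,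
    Fintype.card_fun, Fintype.card_fin, abs_div, abs_mul, abs_of_pos hq]
  push_cast
  rw [abs_of_pos (by positivity : (0 : ℝ) < (Fintype.card κ : ℝ) ^ D)]
  calc (Fintype.card κ : ℝ) ^ D * |Si κ d + 1| / Fintype.card κ = (Fintype.card κ : ℝ) ^ D * (|Si κ d + 1| / Fintype.card κ) := by ring
    _ ≤ (Fintype.card κ : ℝ) ^ D * (d / Real.sqrt (Fintype.card κ)) := mul_le_mul_of_nonneg_left (inf_le hκ hd) (by positivity)
    _ = _ := by ring

/-- high moments of the traces -/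
lemma high (hκ : ringChar κ ≠ 2) (hd : (d : κ) ≠ 0) (k : ℕ) (hk : 1 ≤ k) (hkd : 2 * k ≤ d) :
    ∑ u : Fin D → κ, (tau e κ u) ^ (2 * k) ≤ (2 ^ (2 * k - 1) * ((k : ℝ) ^ (2 * k) + (d : ℝ) ^ (2 * k))) * (Fintype.card κ : ℝ) ^ D := by
  have hq : (0 : ℝ) < Fintype.card κ := by exact_mod_cast Fintype.card_pos
  have hq1 : (1 : ℝ) ≤ Fintype.card κ := by exact_mod_cast Fintype.card_pos
  have hs : 0 < Real.sqrt (Fintype.card κ : ℝ) := Real.sqrt_pos.2 hq
  have hs1 : 1 ≤ Real.sqrt (Fintype.card κ : ℝ) := Real.one_le_sqrt.2 hq1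
  have h1 := moment_bound (fun x (u : Fin D → κ) => Sx e x u) 1 zero_le_one (fun x u => Sx_bound e x u) k hk (fun i J hi hJ => by
      obtain ⟨w, h2, h3⟩ := exists_w e i J hi (by omega)
      exact ⟨w, fun j hj u t => Sx_fix e j u w (h2 j hj) t, fun u => Sx_dir e hκ i u w h3⟩)
  rw [one_pow, mul_one, Fintype.card_fun, Fintype.card_fin] at h1
  have h2 : ∀ u : Fin D → κ, (tau e κ u) ^ (2 * k) ≤ 2 ^ (2 * k - 1) * ((∑ x : Fin 2 → κ, Sx e x u) ^ (2 * k) / (Fintype.card κ : ℝ) ^ (2 * k) +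
      (d : ℝ) ^ (2 * k)) := by
    intro u
    rw [tau_eq e hκ u, add_div]
    have h3 : Even (2 * k) := even_two_mul k
    refine (h3.add_pow_le).trans ?_
    apply mul_le_mul_of_nonneg_left _ (by positivity)
    rw [div_pow]
    apply add_le_add_right
    rw [← h3.pow_abs]
    apply pow_le_pow_left₀ (abs_nonneg _)
    rw [abs_div, abs_of_pos hq]
    refine (inf_le hκ hd).trans (div_le_self (Nat.cast_nonneg _) hs1)
  refine (sum_le_sum fun u _ => h2 u).trans ?_
  rw [← mul_sum, sum_add_distrib, ← sum_div, sum_const, card_univ, nsmul_eq_mul, Fintype.card_fun, Fintype.card_fin, mul_assoc]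
  apply mul_le_mul_of_nonneg_left _ (by positivity)
  push_cast at h1 ⊢
  have h4 : (∑ u : Fin D → κ, (∑ x : Fin 2 → κ, Sx e x u) ^ (2 * k)) / (Fintype.card κ : ℝ) ^ (2 * k) ≤ (Fintype.card κ : ℝ) ^ D * (k : ℝ) ^ (2 * k) := by
    rw [div_le_iff₀ (by positivity)]
    refine h1.trans (le_of_eq ?_)
    rw [← pow_mul]
    ring
  calc _ ≤ (Fintype.card κ : ℝ) ^ D * (k : ℝ) ^ (2 * k) + (Fintype.card κ : ℝ) ^ D * (d : ℝ) ^ (2 * k) := by
        exact add_le_add h4 le_rfl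
    _ = _ := by ring

end fin

/-- the mean value of the local functions over the prime fields -/
theorem Fv_mean {d D : ℕ} (e : Fin D ≃ Mon 2 d) (k : ℕ) (hk : 1 ≤ k) (hkd : 2 * k ≤ d) (hev : Even d) (η : ℝ)
    (hη : η = 1 / (2 * (2 * (k : ℝ) - 1))) :
    ∃ C : ℝ, 0 ≤ C ∧ ∀ (p : ℕ) [Fact p.Prime],
      |(∑ u : Fin D → ZMod p, Fv (fun κ _ u => Smv e κ u) (fun κ _ u => tau e κ u) 1 η (ZMod p) u) / (p : ℝ) ^ D - 1| ≤ C / Real.sqrt p := by
  classical
  refine ⟨d + 2 * (2 ^ (2 * k - 1) * ((k : ℝ) ^ (2 * k) + (d : ℝ) ^ (2 * k))) + 1 + (1 + |(1 : ℝ)|) * (((d - 1) ^ 2 : ℕ) : ℝ), by positivity,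
    fun p hp => ?_⟩
  have hp0 : (0 : ℝ) < p := by exact_mod_cast hp.out.pos
  have hp1 : (1 : ℝ) ≤ p := by exact_mod_cast hp.out.one_lt.le
  have hs0 : 0 < Real.sqrt p := Real.sqrt_pos.2 hp0
  by_cases hpd : p ∣ d
  · have h0 : ∀ u : Fin D → ZMod p, Fv (fun κ _ u => Smv e κ u) (fun κ _ u => tau e κ u) 1 η (ZMod p) u = 0 := by
      intro u
      unfold Fv
      rw [if_neg]
      intro h
      exact ((Smv_zmod e p u).1 h).1 hpd
    rw [sum_congr rfl fun u _ => h0 u, sum_const_zero, zero_div, zero_sub, abs_neg, abs_one, le_div_iff₀ hs0, one_mul]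
    have h1 : Real.sqrt p ≤ p := by
      rw [Real.sqrt_le_left hp0.le]
      nlinarith
    have h2 : (p : ℝ) ≤ d := by exact_mod_cast Nat.le_of_dvd (by omega) hpd
    have h3 : (0 : ℝ) ≤ 2 * (2 ^ (2 * k - 1) * ((k : ℝ) ^ (2 * k) + (d : ℝ) ^ (2 * k))) + 1 + (1 + |(1 : ℝ)|) * (((d - 1) ^ 2 : ℕ) : ℝ) := by positivity
    rw [abs_one] at h3
    linarith
  · have hp2 : p ≠ 2 := by
      rintro rfl
      exact hpd hev.two_dvd
    have hchar : ringChar (ZMod p) ≠ 2 := by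
      rw [ZMod.ringChar_zmod_n]
      exact hp2
    have hdz : (d : ZMod p) ≠ 0 := by
      rw [Ne, ZMod.natCast_eq_zero_iff]
      exact hpd
    have h3 : (Nat.card {u : Fin D → ZMod p // ¬ (fun (κ : Type) [Field κ] u => Smv e κ u) (ZMod p) u} : ℝ) * p ≤
        (((d - 1) ^ 2 : ℕ) : ℝ) * (p : ℝ) ^ D := by
      have h4 := sing_card e p (by omega) hpd
      have h5 : Nat.card {u : Fin D → ZMod p // ¬ Smv e (ZMod p) u} = (univ.filter (fun u : Fin D → ZMod p => Sing e p u)).card := by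
        rw [Nat.card_eq_fintype_card, Fintype.card_subtype]
        congr 1
        apply filter_congr
        intro u _
        rw [Smv_zmod]
        tauto
      show (Nat.card {u : Fin D → ZMod p // ¬ Smv e (ZMod p) u} : ℝ) * p ≤ _
      rw [h5]
      exact_mod_cast h4
    have hmean := mean e hchar hdz
    have hhigh := high e hchar hdz k hk hkd
    rw [ZMod.card] at hhigh hmean
    exact trunc_mean p (fun κ _ u => Smv e κ u) (fun κ _ u => tau e κ u) 1 d _ (((d - 1) ^ 2 : ℕ) : ℝ) k hk hmean hhigh h3 η hη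

end Pool.Agent.L5helper12.DP
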