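import Pool.Agent.L5helper12.TM

/-!
# Families of elliptic surfaces over the projective line over finite fields
-/

set_option autoImplicit false

namespace Pool.Agent.L5helper12.ES

open Polynomial Finset
open Pool.Agent.H126T Pool.Agent.L5helper12.TM

/-- the indices of the coefficients of `A` and `B` -/
abbrev Ix (N : ℕ) : Type := Fin (4 * N + 1) ⊕ Fin (6 * N + 1)

section
variable {N D : ℕ} (e : Fin D ≃ Ix N)

/-- the polynomial `A` -/
noncomputable def PA {κ : Type} [Field κ] (u : Fin D → κ) : κ[X] := ∑ k : Fin (4 * N + 1), C (u (e.symm (Sum.inl k))) * X ^ (k : ℕ)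

/-- the polynomial `B` -/
noncomputable def PB {κ : Type} [Field κ] (u : Fin D → κ) : κ[X] := ∑ k : Fin (6 * N + 1), C (u (e.symm (Sum.inr k))) * X ^ (k : ℕ)

/-- the value of a polynomial of degree at most `n` at a point of the projective line -/
noncomputable def vl {κ : Type} [Field κ] (n : ℕ) (P : κ[X]) : Option κ → κ
  | some t => P.eval t
  | none => P.coeff n

/-- the number of the points of the fibre -/
noncomputable def fib (κ : Type) [Field κ] (u : Fin D → κ) (t : Option κ) : ℝ :=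
  (Nat.card {P : κ × κ // P.2 ^ 2 = P.1 ^ 3 + vl (4 * N) (PA e u) t * P.1 + vl (6 * N) (PB e u) t} : ℝ) + 1

/-- the number of the points of the surface -/
noncomputable def pts (κ : Type) [Field κ] (u : Fin D → κ) : ℝ := ∑ᶠ t : Option κ, fib e κ u t

/-- the surface is smooth -/
def Gd (κ : Type) [Field κ] (u : Fin D → κ) : Prop :=
  (2 : κ) ≠ 0 ∧
  (¬ ∃ t x : AlgebraicClosure κ, x ^ 3 + aeval t (PA e u) * x + aeval t (PB e u) = 0 ∧ 3 * x ^ 2 + aeval t (PA e u) = 0 ∧
    aeval t (derivative (PA e u)) * x + aeval t (derivative (PB e u)) = 0) ∧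
  (¬ ∃ x : AlgebraicClosure κ, x ^ 3 + algebraMap κ _ ((PA e u).coeff (4 * N)) * x + algebraMap κ _ ((PB e u).coeff (6 * N)) = 0 ∧
    3 * x ^ 2 + algebraMap κ _ ((PA e u).coeff (4 * N)) = 0 ∧
    algebraMap κ _ ((PA e u).coeff (4 * N - 1)) * x + algebraMap κ _ ((PB e u).coeff (6 * N - 1)) = 0)

/-- the normalised trace minus `2` -/
noncomputable def tau (κ : Type) [Field κ] (u : Fin D → κ) : ℝ := (pts e κ u - 1 - (Nat.card κ : ℝ) ^ 2 - 2 * Nat.card κ) / Nat.card κ

lemma PA_map {κ κ' : Type} [Field κ] [Field κ'] (σ : κ →+* κ') (u : Fin D → κ) : (PA e u).map σ = PA e (fun k => σ (u k)) := by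
  unfold PA
  simp only [Polynomial.map_sum, Polynomial.map_mul, Polynomial.map_pow, map_X, map_C]

lemma PB_map {κ κ' : Type} [Field κ] [Field κ'] (σ : κ →+* κ') (u : Fin D → κ) : (PB e u).map σ = PB e (fun k => σ (u k)) := by
  unfold PB
  simp only [Polynomial.map_sum, Polynomial.map_mul, Polynomial.map_pow, map_X, map_C]

lemma PA_natDegree {κ : Type} [Field κ] (u : Fin D → κ) : (PA e u).natDegree ≤ 4 * N := by
  unfold PA
  refine natDegree_sum_le_of_forall_le _ _ fun k _ => ?_
  refine (natDegree_C_mul_X_pow_le _ _).trans ?_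
  have := k.2
  omega

lemma PB_natDegree {κ : Type} [Field κ] (u : Fin D → κ) : (PB e u).natDegree ≤ 6 * N := by
  unfold PB
  refine natDegree_sum_le_of_forall_le _ _ fun k _ => ?_
  refine (natDegree_C_mul_X_pow_le _ _).trans ?_
  have := k.2
  omega

/-- the direction given by a polynomial `G` of degree at most `6 N` -/
noncomputable def dr {κ : Type} [Field κ] (G : κ[X]) : Fin D → κ := fun k =>
  Sum.elim (fun _ : Fin (4 * N + 1) => (0 : κ)) (fun j : Fin (6 * N + 1) => G.coeff (j : ℕ)) (e k)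

lemma PA_dr {κ : Type} [Field κ] (u : Fin D → κ) (G : κ[X]) (s : κ) : PA e (u + s • dr e G) = PA e u := by
  unfold PA
  refine sum_congr rfl fun k _ => ?_
  rw [Pi.add_apply, Pi.smul_apply]
  unfold dr
  rw [Equiv.apply_symm_apply, Sum.elim_inl, smul_zero, add_zero]

lemma PB_dr {κ : Type} [Field κ] (u : Fin D → κ) (G : κ[X]) (hG : G.natDegree ≤ 6 * N) (s : κ) : PB e (u + s • dr e G) = PB e u + C s * G := by
  unfold PB
  have h1 : G = ∑ k : Fin (6 * N + 1), C (G.coeff (k : ℕ)) * X ^ (k : ℕ) := by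
    conv_lhs => rw [G.as_sum_range_C_mul_X_pow' (n := 6 * N + 1) (by omega)]
    rw [Finset.sum_range]
  conv_rhs => rw [h1, mul_sum, ← sum_add_distrib]
  refine sum_congr rfl fun k _ => ?_
  rw [Pi.add_apply, Pi.smul_apply]
  unfold dr
  rw [Equiv.apply_symm_apply, Sum.elim_inr, C_add, smul_eq_mul, C_mul]
  ring

lemma vl_add {κ : Type} [Field κ] (n : ℕ) (P G : κ[X]) (s : κ) (t : Option κ) : vl n (P + C s * G) t = vl n P t + s * vl n G t := by
  cases t with
  | some t => simp [vl]
  | none => simp [vl]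

end

/-- a form which vanishes on a set and not at a given point -/
lemma exists_G {κ : Type} [Field κ] [Fintype κ] [DecidableEq κ] (n : ℕ) (i : Option κ) (J : Finset (Option κ)) (hi : i ∉ J) (hJ : J.card ≤ n) :
    ∃ G : κ[X], G.natDegree ≤ n ∧ (∀ j ∈ J, vl n G j = 0) ∧ vl n G i ≠ 0 := by
  classical
  set J' : Finset κ := univ.filter (fun t => some t ∈ J) with hJ'
  set P : κ[X] := ∏ t ∈ J', (X - C t) with hP
  have hPm : P.Monic := monic_prod_of_monic _ _ fun t _ => monic_X_sub_C t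
  have hPd : P.natDegree = J'.card := by
    rw [hP, natDegree_prod_of_monic _ _ fun t _ => monic_X_sub_C t]
    simp
  have hsub : J'.map Function.Embedding.some ⊆ J := by
    intro x hx
    obtain ⟨t, ht, rfl⟩ := mem_map.1 hx
    exact (mem_filter.1 ht).2
  have hc : J'.card ≤ J.card := by
    have := card_le_card hsub
    rwa [card_map] at this
  have hroot : ∀ t, some t ∈ J → P.eval t = 0 := by
    intro t ht
    rw [hP, eval_prod]
    exact prod_eq_zero (mem_filter.2 ⟨mem_univ t, ht⟩) (by simp)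
  cases i with
  | some t0 =>
    refine ⟨P, by omega, fun j hj => ?_, ?_⟩
    · cases j with
      | some t => exact hroot t hj
      | none =>
        show P.coeff n = 0
        apply coeff_eq_zero_of_natDegree_lt
        rw [hPd]
        have h1 : insert none (J'.map Function.Embedding.some) ⊆ J := by
          intro x hx
          rcases mem_insert.1 hx with rfl | hx
          · exact hj
          · exact hsub hx
        have h2 := card_le_card h1
        rw [card_insert_of_notMem (by simp), card_map] at h2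
        omega
    · show P.eval t0 ≠ 0
      rw [hP, eval_prod, prod_ne_zero_iff]
      intro t ht h
      rw [eval_sub, eval_X, eval_C, sub_eq_zero] at h
      subst h
      exact hi (mem_filter.1 ht).2
  | none =>
    refine ⟨X ^ (n - J'.card) * P, ?_, fun j hj => ?_, ?_⟩
    · rw [natDegree_mul (pow_ne_zero _ X_ne_zero) hPm.ne_zero, natDegree_X_pow, hPd]
      omega
    · cases j with
      | some t =>
        show (X ^ (n - J'.card) * P).eval t = 0
        rw [eval_mul, hroot t hj, mul_zero]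
      | none => exact absurd hj hi
    · show (X ^ (n - J'.card) * P).coeff n ≠ 0
      have h1 : (X ^ (n - J'.card) * P).Monic := (monic_X_pow _).mul hPm
      have h2 : (X ^ (n - J'.card) * P).natDegree = n := by
        rw [natDegree_mul (pow_ne_zero _ X_ne_zero) hPm.ne_zero, natDegree_X_pow, hPd]
        omega
      have h3 := h1.coeff_natDegree
      rw [h2] at h3
      rw [h3]
      exact one_ne_zero

section fin
variable {κ : Type} [Field κ] [Fintype κ] [DecidableEq κ] {N D : ℕ} (e : Fin D ≃ Ix N)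

/-- the cubic polynomial of a fibre -/
noncomputable def cub {κ : Type} [Field κ] (a b : κ) : κ[X] := X ^ 3 + C a * X + C b

lemma cub_eval {κ : Type} [Field κ] (a b x : κ) : (cub a b).eval x = x ^ 3 + a * x + b := by
  unfold cub
  simp

lemma cub_natDegree {κ : Type} [Field κ] (a b : κ) : (cub a b).natDegree = 3 := by
  unfold cub
  compute_degree!

lemma cub_ne {κ : Type} [Field κ] (a b c : κ) (h : κ[X]) : cub a b ≠ C c * h ^ 2 := by
  intro h1
  have h2 := cub_natDegree a b
  rw [h1] at h2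
  by_cases hc : c = 0
  · rw [hc, C_0, zero_mul, natDegree_zero] at h2
    omega
  · rw [natDegree_C_mul hc, natDegree_pow] at h2
    omega

/-- the character sum of a fibre -/
noncomputable def Sx (t : Option κ) (u : Fin D → κ) : ℝ :=
  ∑ x : κ, (quadraticChar κ (x ^ 3 + vl (4 * N) (PA e u) t * x + vl (6 * N) (PB e u) t) : ℝ)

lemma Sx_bound (hκ : ringChar κ ≠ 2) (t : Option κ) (u : Fin D → κ) : |Sx e t u| ≤ 2 * Real.sqrt (Fintype.card κ) := by
  have h1 := Pool.Agent.H341R2.Sharp.weil_sharp hκ (cub (vl (4 * N) (PA e u) t) (vl (6 * N) (PB e u) t)) (by rw [cub_natDegree]; norm_num)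
    (fun c h => cub_ne _ _ c h)
  rw [cub_natDegree] at h1
  simp only [cub_eval] at h1
  unfold Sx
  refine h1.trans (le_of_eq ?_)
  norm_num

lemma fib_eq (hκ : ringChar κ ≠ 2) (u : Fin D → κ) (t : Option κ) : fib e κ u t = Fintype.card κ + 1 + Sx e t u := by
  have h1 := card_aff hκ (cub (vl (4 * N) (PA e u) t) (vl (6 * N) (PB e u) t)) 1 one_ne_zero
  rw [map_one, one_mul] at h1
  simp only [cub_eval, one_mul] at h1
  have h2 : (Nat.card {P : κ × κ // P.2 ^ 2 = P.1 ^ 3 + vl (4 * N) (PA e u) t * P.1 + vl (6 * N) (PB e u) t} : ℝ) =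
      Fintype.card κ + Sx e t u := by
    unfold Sx
    exact_mod_cast h1
  unfold fib
  rw [h2]
  ring

lemma tau_eq (hκ : ringChar κ ≠ 2) (u : Fin D → κ) : tau e κ u = (∑ t : Option κ, Sx e t u) / Fintype.card κ := by
  have hq : (0 : ℝ) < Fintype.card κ := by exact_mod_cast Fintype.card_pos
  unfold tau pts
  rw [finsum_eq_sum_of_fintype, sum_congr rfl fun t _ => fib_eq e hκ u t, sum_add_distrib, sum_const, card_univ, Fintype.card_option,
    nsmul_eq_mul, Nat.card_eq_fintype_card]
  congr 1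
  push_cast
  ring

lemma Sx_dir (hκ : ringChar κ ≠ 2) (t : Option κ) (u : Fin D → κ) (G : κ[X]) (hG : G.natDegree ≤ 6 * N) (h : vl (6 * N) G t ≠ 0) :
    ∑ s : κ, Sx e t (u + s • dr e G) = 0 := by
  unfold Sx
  rw [sum_comm]
  refine sum_eq_zero fun x _ => ?_
  have h1 := Pool.Agent.L5helper12.JV.chi_shift hκ (x ^ 3 + vl (4 * N) (PA e u) t * x + vl (6 * N) (PB e u) t) (vl (6 * N) G t) h
  rw [← h1]
  refine sum_congr rfl fun s _ => ?_
  rw [PA_dr, PB_dr e u G hG, vl_add]
  congr 2
  ring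

lemma Sx_fix (t : Option κ) (u : Fin D → κ) (G : κ[X]) (hG : G.natDegree ≤ 6 * N) (h : vl (6 * N) G t = 0) (s : κ) :
    Sx e t (u + s • dr e G) = Sx e t u := by
  unfold Sx
  rw [PA_dr, PB_dr e u G hG, vl_add, h, mul_zero, add_zero]

/-- the mean value of the traces -/
lemma mean (hκ : ringChar κ ≠ 2) : ∑ u : Fin D → κ, tau e κ u = 0 := by
  rw [sum_congr rfl fun u _ => tau_eq e hκ u, ← sum_div, mean_zero (fun t u => Sx e t u), zero_div]
  intro i
  obtain ⟨G, h1, _, h3⟩ := exists_G (6 * N) i ∅ (by simp) (by simp)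
  exact ⟨dr e G, fun u => Sx_dir e hκ i u G h1 h3⟩

/-- high moments of the traces -/
lemma high (hκ : ringChar κ ≠ 2) (k : ℕ) (hk : 1 ≤ k) (hkN : k ≤ 3 * N) :
    ∑ u : Fin D → κ, (tau e κ u) ^ (2 * k) ≤ ((k : ℝ) ^ (2 * k) * 8 ^ k) * (Fintype.card κ : ℝ) ^ D := by
  have hq : (0 : ℝ) < Fintype.card κ := by exact_mod_cast Fintype.card_pos
  have hq1 : (1 : ℝ) ≤ Fintype.card κ := by exact_mod_cast Fintype.card_pos
  have h1 := moment_bound (fun t (u : Fin D → κ) => Sx e t u) (2 * Real.sqrt (Fintype.card κ)) (by positivity)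
    (fun t u => Sx_bound e hκ t u) k hk (fun i J hi hJ => by
      obtain ⟨G, h1, h2, h3⟩ := exists_G (6 * N) i J hi (by omega)
      exact ⟨dr e G, fun j hj u t => Sx_fix e j u G h1 (h2 j hj) t, fun u => Sx_dir e hκ i u G h1 h3⟩)
  have h2 : ∀ u : Fin D → κ, (tau e κ u) ^ (2 * k) = (∑ t : Option κ, Sx e t u) ^ (2 * k) / (Fintype.card κ : ℝ) ^ (2 * k) := by
    intro u
    rw [tau_eq e hκ u, div_pow]
  rw [sum_congr rfl fun u _ => h2 u, ← sum_div, div_le_iff₀ (by positivity)]
  refine h1.trans ?_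
  rw [Fintype.card_option]
  have h3 : ((Fintype.card κ + 1 : ℕ) : ℝ) ^ k ≤ (2 * (Fintype.card κ : ℝ)) ^ k := by
    apply pow_le_pow_left₀ (by positivity)
    push_cast
    linarith
  have h4 : (2 * Real.sqrt (Fintype.card κ : ℝ)) ^ (2 * k) = (4 * (Fintype.card κ : ℝ)) ^ k := by
    rw [pow_mul, mul_pow, Real.sq_sqrt hq.le]
    norm_num
  rw [h4]
  calc (Fintype.card κ : ℝ) ^ D * ((k : ℝ) ^ (2 * k) * ((Fintype.card κ + 1 : ℕ) : ℝ) ^ k * (4 * (Fintype.card κ : ℝ)) ^ k) ≤
      (Fintype.card κ : ℝ) ^ D * ((k : ℝ) ^ (2 * k) * (2 * (Fintype.card κ : ℝ)) ^ k * (4 * (Fintype.card κ : ℝ)) ^ k) := by gcongr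
    _ = _ := by
      have h5 : (8 : ℝ) ^ k = 2 ^ k * 4 ^ k := by rw [← mul_pow]; norm_num
      rw [h5, mul_pow, mul_pow, pow_mul' (Fintype.card κ : ℝ) 2 k]
      ring

end fin

end Pool.Agent.L5helper12.ES
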