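import Pool.Agent.L5helper12.ES

/-!
# Families of elliptic surfaces: singular surfaces, invariance
-/

set_option autoImplicit false

namespace Pool.Agent.L5helper12.ES

open Polynomial Finset
open Pool.Agent.H126T Pool.Agent.L5helper12.TM

section bad
variable {κ : Type} [Field κ] [Fintype κ] [DecidableEq κ] {N D : ℕ} (e : Fin D ≃ Ix N)

/-- the resultant of `3 x ^ 2 + A` and `A' x + B'` -/
noncomputable def RR (A B : κ[X]) : κ[X] := C 3 * (derivative B) ^ 2 + A * (derivative A) ^ 2

lemma RR_natDegree (A B : κ[X]) (hA : A.natDegree ≤ 4 * N) (hB : B.natDegree ≤ 6 * N) : (RR A B).natDegree ≤ 12 * N := by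
  unfold RR
  have h1 : (derivative B).natDegree ≤ 6 * N := (natDegree_derivative_le B).trans (by omega)
  have h2 : (derivative A).natDegree ≤ 4 * N := (natDegree_derivative_le A).trans (by omega)
  refine (natDegree_add_le _ _).trans (max_le ?_ ?_)
  · refine (natDegree_C_mul_le _ _).trans (natDegree_pow_le.trans ?_)
    omega
  · refine natDegree_mul_le.trans ?_
    have h3 : ((derivative A) ^ 2).natDegree ≤ 2 * (derivative A).natDegree := natDegree_pow_le
    omega

open Classical in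
/-- at most two values of the roots of a quadratic polynomial -/
lemma quad_roots (h3 : (3 : κ) ≠ 0) (c : AlgebraicClosure κ) (f : AlgebraicClosure κ → AlgebraicClosure κ) :
    (((C (3 : AlgebraicClosure κ) * X ^ 2 + C c).roots.toFinset).image f).card ≤ 2 := by
  refine card_image_le.trans ((Multiset.toFinset_card_le _).trans ((card_roots' _).trans ?_))
  compute_degree

lemma three_ne (h3 : (3 : κ) ≠ 0) : (3 : AlgebraicClosure κ) ≠ 0 := by
  intro h
  apply h3
  apply (algebraMap κ (AlgebraicClosure κ)).injective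
  rw [map_zero, ← h]
  exact map_ofNat _ 3

lemma quad_ne (h3 : (3 : κ) ≠ 0) (c : AlgebraicClosure κ) : (C (3 : AlgebraicClosure κ) * X ^ 2 + C c) ≠ 0 := by
  intro h
  have h1 := congrArg (fun P => P.coeff 2) h
  simp at h1
  exact three_ne h3 h1

open Classical in
/-- singular points outside infinity -/
lemma line_aff (h3 : (3 : κ) ≠ 0) (A B : κ[X]) (hA : A.natDegree ≤ 4 * N) (hB : B.natDegree ≤ 6 * N) (hR : RR A B ≠ 0) :
    (univ.filter fun s : κ => ∃ t x : AlgebraicClosure κ, x ^ 3 + aeval t A * x + aeval t (B + C s) = 0 ∧ 3 * x ^ 2 + aeval t A = 0 ∧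
      aeval t (derivative A) * x + aeval t (derivative (B + C s)) = 0).card ≤ 24 * N := by
  let Ω := AlgebraicClosure κ
  have h1 : (univ.filter fun s : κ => ∃ t x : AlgebraicClosure κ, x ^ 3 + aeval t A * x + aeval t (B + C s) = 0 ∧
      3 * x ^ 2 + aeval t A = 0 ∧ aeval t (derivative A) * x + aeval t (derivative (B + C s)) = 0).image (algebraMap κ Ω) ⊆
      (((RR A B).map (algebraMap κ Ω)).roots.toFinset).biUnion (fun t =>
        ((C (3 : Ω) * X ^ 2 + C (aeval t A)).roots.toFinset).image (fun x => -(x ^ 3 + aeval t A * x + aeval t B))) := by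
    intro z hz
    rw [mem_image] at hz
    obtain ⟨s, hs, rfl⟩ := hz
    rw [mem_filter] at hs
    obtain ⟨_, t, x, h2, h4, h5⟩ := hs
    rw [derivative_add, derivative_C, add_zero] at h5
    rw [mem_biUnion]
    refine ⟨t, ?_, ?_⟩
    · rw [Multiset.mem_toFinset, mem_roots (map_ne_zero hR), IsRoot.def, eval_map_algebraMap]
      unfold RR
      rw [map_add, map_mul, map_mul, map_pow, map_pow, aeval_C, map_ofNat]
      linear_combination (3 * (aeval t (derivative B) - aeval t (derivative A) * x)) * h5 + (aeval t (derivative A)) ^ 2 * h4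
    · rw [mem_image]
      refine ⟨x, ?_, ?_⟩
      · rw [Multiset.mem_toFinset, mem_roots (quad_ne h3 _), IsRoot.def]
        simp only [eval_add, eval_mul, eval_C, eval_pow, eval_X]
        exact h4
      · rw [map_add, aeval_C] at h2
        linear_combination -h2
  have h2 := card_le_card h1
  rw [card_image_of_injective _ (algebraMap κ Ω).injective] at h2
  refine h2.trans (card_biUnion_le.trans ?_)
  refine (sum_le_sum fun t _ => quad_roots h3 (aeval t A) (fun x => -(x ^ 3 + aeval t A * x + aeval t B))).trans ?_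
  rw [sum_const, smul_eq_mul]
  have h6 : (((RR A B).map (algebraMap κ Ω)).roots.toFinset).card ≤ 12 * N := by
    refine (Multiset.toFinset_card_le _).trans ((card_roots' _).trans ?_)
    rw [natDegree_map]
    exact RR_natDegree A B hA hB
  omega

open Classical in
/-- singular points at infinity -/
lemma line_inf (h3 : (3 : κ) ≠ 0) (a b : κ) :
    (univ.filter fun s : κ => ∃ x : AlgebraicClosure κ, x ^ 3 + algebraMap κ _ a * x + algebraMap κ _ (b + s) = 0 ∧
      3 * x ^ 2 + algebraMap κ _ a = 0).card ≤ 2 := by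
  let Ω := AlgebraicClosure κ
  have h1 : (univ.filter fun s : κ => ∃ x : AlgebraicClosure κ, x ^ 3 + algebraMap κ _ a * x + algebraMap κ _ (b + s) = 0 ∧
      3 * x ^ 2 + algebraMap κ _ a = 0).image (algebraMap κ Ω) ⊆
        ((C (3 : Ω) * X ^ 2 + C (algebraMap κ Ω a)).roots.toFinset).image (fun x => -(x ^ 3 + algebraMap κ Ω a * x + algebraMap κ Ω b)) := by
    intro z hz
    rw [mem_image] at hz
    obtain ⟨s, hs, rfl⟩ := hz
    rw [mem_filter] at hs
    obtain ⟨_, x, h2, h4⟩ := hs
    rw [mem_image]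
    refine ⟨x, ?_, ?_⟩
    · rw [Multiset.mem_toFinset, mem_roots (quad_ne h3 _), IsRoot.def]
      simp only [eval_add, eval_mul, eval_C, eval_pow, eval_X]
      exact h4
    · rw [map_add] at h2
      linear_combination -h2
  have h2 := card_le_card h1
  rw [card_image_of_injective _ (algebraMap κ Ω).injective] at h2
  exact h2.trans (quad_roots h3 _ _)

open Classical in
/-- the resultant vanishes at `0` -/
lemma line_res (h3 : (3 : κ) ≠ 0) (a b c : κ) : (univ.filter fun s : κ => 3 * (b + s) ^ 2 + a * c ^ 2 = 0).card ≤ 2 := by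
  have h1 : (univ.filter fun s : κ => 3 * (b + s) ^ 2 + a * c ^ 2 = 0) ⊆ (C 3 * (C b + X) ^ 2 + C (a * c ^ 2)).roots.toFinset := by
    intro s hs
    have hne : (C 3 * (C b + X) ^ 2 + C (a * c ^ 2) : κ[X]) ≠ 0 := by
      intro h
      have h1 := congrArg (fun P => P.coeff 2) h
      have h4 : (C 3 * (C b + X) ^ 2 + C (a * c ^ 2) : κ[X]) = C 3 * X ^ 2 + C (6 * b) * X + C (3 * b ^ 2 + a * c ^ 2) := by
        simp only [C_add, C_mul, C_pow, map_ofNat]
        ring
      have h5 : ∀ a b c : κ, (C a * X ^ 2 + C b * X + C c : κ[X]).coeff 2 = a := by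
        intro a b c
        simp [coeff_X, coeff_C]
      rw [h4] at h1
      simp only [h5, coeff_zero] at h1
      exact h3 h1
    rw [Multiset.mem_toFinset, mem_roots hne, IsRoot.def]
    simp only [eval_add, eval_mul, eval_C, eval_pow, eval_X]
    exact (mem_filter.1 hs).2
  refine (card_le_card h1).trans ((Multiset.toFinset_card_le _).trans ((card_roots' _).trans ?_))
  compute_degree

open Classical in
/-- the number of the singular surfaces -/
lemma bad_le (h2 : (2 : κ) ≠ 0) (h3 : (3 : κ) ≠ 0) (hN : 1 ≤ N) :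
    (Nat.card {u : Fin D → κ // ¬ Gd e κ u} : ℝ) * Fintype.card κ ≤ (24 * N + 4 : ℕ) * (Fintype.card κ : ℝ) ^ D := by
  let P1 : (Fin D → κ) → Prop := fun u => (RR (PA e u) (PB e u)).eval 0 = 0
  let P2 : (Fin D → κ) → Prop := fun u => (RR (PA e u) (PB e u)).eval 0 ≠ 0 ∧
    ∃ t x : AlgebraicClosure κ, x ^ 3 + aeval t (PA e u) * x + aeval t (PB e u) = 0 ∧ 3 * x ^ 2 + aeval t (PA e u) = 0 ∧
      aeval t (derivative (PA e u)) * x + aeval t (derivative (PB e u)) = 0
  let P3 : (Fin D → κ) → Prop := fun u => ∃ x : AlgebraicClosure κ, x ^ 3 + algebraMap κ _ ((PA e u).coeff (4 * N)) * x +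
    algebraMap κ _ ((PB e u).coeff (6 * N)) = 0 ∧ 3 * x ^ 2 + algebraMap κ _ ((PA e u).coeff (4 * N)) = 0
  have c1 := line_count P1 (dr e X) 2 (fun u => by
    have h1 : ∀ t : κ, P1 (u + t • dr e X) ↔ 3 * ((derivative (PB e u)).eval 0 + t) ^ 2 + (PA e u).eval 0 * ((derivative (PA e u)).eval 0) ^ 2 = 0 := by
      intro t
      show (RR (PA e (u + t • dr e X)) (PB e (u + t • dr e X))).eval 0 = 0 ↔ _
      rw [PA_dr, PB_dr e u X (by rw [natDegree_X]; omega)]
      unfold RR
      simp
    rw [filter_congr fun t _ => h1 t]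
    exact line_res h3 _ _ _)
  have c2 := line_count P2 (dr e 1) (24 * N) (fun u => by
    have h1 : ∀ t : κ, PB e (u + t • dr e 1) = PB e u + C t := fun t => by
      rw [PB_dr e u 1 (by rw [natDegree_one]; omega), mul_one]
    by_cases h0 : RR (PA e u) (PB e u) = 0
    · rw [filter_eq_empty_iff.2]
      · simp
      · intro t _ h
        apply h.1
        rw [PA_dr, h1]
        unfold RR at h0 ⊢
        rw [derivative_add, derivative_C, add_zero, h0, eval_zero]
    · refine (card_le_card ?_).trans (line_aff h3 (PA e u) (PB e u) (PA_natDegree e u) (PB_natDegree e u) h0)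
      intro t ht
      rw [mem_filter] at ht ⊢
      refine ⟨mem_univ _, ?_⟩
      have h4 := ht.2.2
      rw [PA_dr, h1] at h4
      exact h4)
  have c3 := line_count P3 (dr e (X ^ (6 * N))) 2 (fun u => by
    have h1 : ∀ t : κ, (PB e (u + t • dr e (X ^ (6 * N)))).coeff (6 * N) = (PB e u).coeff (6 * N) + t := fun t => by
      rw [PB_dr e u (X ^ (6 * N)) (by rw [natDegree_X_pow])]
      simp
    refine (card_le_card ?_).trans (line_inf h3 ((PA e u).coeff (4 * N)) ((PB e u).coeff (6 * N)))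
    intro t ht
    rw [mem_filter] at ht ⊢
    refine ⟨mem_univ _, ?_⟩
    have h4 := ht.2
    show ∃ x : AlgebraicClosure κ, _
    have h5 : P3 (u + t • dr e (X ^ (6 * N))) := h4
    obtain ⟨x, h6, h7⟩ := h5
    rw [PA_dr, h1] at h6
    rw [PA_dr] at h7
    exact ⟨x, h6, h7⟩)
  have hsub : (univ.filter fun u : Fin D → κ => ¬ Gd e κ u) ⊆ (univ.filter P1 ∪ univ.filter P2) ∪ univ.filter P3 := by
    intro u hu
    have hu2 := (mem_filter.1 hu).2
    rw [mem_union, mem_union, mem_filter, mem_filter, mem_filter]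
    by_contra hcon
    push Not at hcon
    obtain ⟨⟨n1, n2⟩, n3⟩ := hcon
    have n1' := n1 (mem_univ _)
    have n2' := n2 (mem_univ _)
    have n3' := n3 (mem_univ _)
    apply hu2
    refine ⟨h2, fun h => n2' ⟨n1', h⟩, ?_⟩
    rintro ⟨x, h6, h7, _⟩
    exact n3' ⟨x, h6, h7⟩
  have hcard : (Nat.card {u : Fin D → κ // ¬ Gd e κ u} : ℝ) ≤ ((univ.filter P1).card : ℝ) + (univ.filter P2).card + (univ.filter P3).card := by
    rw [Nat.card_eq_fintype_card, Fintype.card_subtype]
    have h8 := (card_le_card hsub).trans ((card_union_le _ _).trans (Nat.add_le_add_right (card_union_le _ _) _))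
    exact_mod_cast h8
  have hq : (0 : ℝ) ≤ Fintype.card κ := Nat.cast_nonneg _
  have h9 := mul_le_mul_of_nonneg_right hcard hq
  refine h9.trans ?_
  push_cast at c1 c2 c3 ⊢
  linarith

end bad

section congr
variable {N D : ℕ} (e : Fin D ≃ Ix N)

lemma vl_map {κ κ' : Type} [Field κ] [Field κ'] (σ : κ ≃+* κ') (n : ℕ) (P : κ[X]) (t : Option κ) :
    vl n (P.map (σ : κ →+* κ')) (Equiv.optionCongr σ.toEquiv t) = σ (vl n P t) := by
  cases t with
  | some t =>
    show (P.map (σ : κ →+* κ')).eval (σ t) = σ (P.eval t)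
    exact (Polynomial.eval_map_apply (σ : κ →+* κ') t)
  | none =>
    show (P.map (σ : κ →+* κ')).coeff n = σ (P.coeff n)
    rw [coeff_map]
    rfl

lemma fib_congr {κ κ' : Type} [Field κ] [Field κ'] (σ : κ ≃+* κ') (u : Fin D → κ) (t : Option κ) :
    fib e κ' (fun k => σ (u k)) (Equiv.optionCongr σ.toEquiv t) = fib e κ u t := by
  unfold fib
  have hA : PA e (fun k => σ (u k)) = (PA e u).map (σ : κ →+* κ') := (PA_map e (σ : κ →+* κ') u).symm
  have hB : PB e (fun k => σ (u k)) = (PB e u).map (σ : κ →+* κ') := (PB_map e (σ : κ →+* κ') u).symm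
  rw [hA, hB, vl_map, vl_map]
  congr 2
  symm
  refine Nat.card_congr (Equiv.subtypeEquiv (Equiv.prodCongr σ.toEquiv σ.toEquiv) fun P => ?_)
  show P.2 ^ 2 = P.1 ^ 3 + vl (4 * N) (PA e u) t * P.1 + vl (6 * N) (PB e u) t ↔
    (σ P.2) ^ 2 = (σ P.1) ^ 3 + σ (vl (4 * N) (PA e u) t) * σ P.1 + σ (vl (6 * N) (PB e u) t)
  rw [← map_pow, ← map_pow, ← map_mul, ← map_add, ← map_add, σ.injective.eq_iff]

lemma tau_congr {κ κ' : Type} [Field κ] [Field κ'] (σ : κ ≃+* κ') (u : Fin D → κ) : tau e κ' (fun k => σ (u k)) = tau e κ u := by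
  have h1 : pts e κ' (fun k => σ (u k)) = pts e κ u := by
    unfold pts
    rw [← finsum_comp_equiv (Equiv.optionCongr σ.toEquiv)]
    exact finsum_congr fun t => fib_congr e σ u t
  unfold tau
  rw [h1, (Nat.card_congr σ.toEquiv).symm]

lemma Gd_congr {κ κ' : Type} [Field κ] [Field κ'] (σ : κ ≃+* κ') (u : Fin D → κ) : Gd e κ' (fun k => σ (u k)) ↔ Gd e κ u := by
  let τ := IsAlgClosure.equivOfEquiv (AlgebraicClosure κ) (AlgebraicClosure κ') σ
  have hτ : ∀ a, τ (algebraMap κ (AlgebraicClosure κ) a) = algebraMap κ' (AlgebraicClosure κ') (σ a) := fun a =>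
    IsAlgClosure.equivOfEquiv_algebraMap _ _ σ a
  have hτ' : ((τ : AlgebraicClosure κ →+* AlgebraicClosure κ').comp (algebraMap κ (AlgebraicClosure κ))) =
      (algebraMap κ' (AlgebraicClosure κ')).comp (σ : κ →+* κ') := RingHom.ext hτ
  have hev : ∀ (f : κ[X]) x, aeval (τ x) (f.map (σ : κ →+* κ')) = τ (aeval x f) := by
    intro f x
    rw [aeval_def, eval₂_map, ← hτ', aeval_def]
    exact (hom_eval₂ f (algebraMap κ (AlgebraicClosure κ)) (τ : AlgebraicClosure κ →+* AlgebraicClosure κ') x).symm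
  have hA : PA e (fun k => σ (u k)) = (PA e u).map (σ : κ →+* κ') := (PA_map e (σ : κ →+* κ') u).symm
  have hB : PB e (fun k => σ (u k)) = (PB e u).map (σ : κ →+* κ') := (PB_map e (σ : κ →+* κ') u).symm
  have hz : ∀ z : AlgebraicClosure κ, τ z = 0 ↔ z = 0 := fun z => map_eq_zero_iff τ τ.injective
  have h3 : (3 : AlgebraicClosure κ') = τ 3 := (map_ofNat τ 3).symm
  have hco : ∀ (f : κ[X]) (n : ℕ), algebraMap κ' (AlgebraicClosure κ') ((f.map (σ : κ →+* κ')).coeff n) =
      τ (algebraMap κ (AlgebraicClosure κ) (f.coeff n)) := by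
    intro f n
    rw [coeff_map, hτ]
    rfl
  unfold Gd
  rw [hA, hB]
  have h2 : (2 : κ') ≠ 0 ↔ (2 : κ) ≠ 0 := by
    rw [← map_ofNat σ 2, Ne, map_eq_zero_iff σ σ.injective]
  refine and_congr h2 (and_congr (not_congr ?_) (not_congr ?_))
  · constructor
    · rintro ⟨t, x, q1, q2, q3⟩
      obtain ⟨t, rfl⟩ := τ.surjective t
      obtain ⟨x, rfl⟩ := τ.surjective x
      rw [derivative_map, derivative_map] at q3
      rw [hev, hev, ← map_pow, ← map_mul, ← map_add, ← map_add, hz] at q1
      rw [hev, h3, ← map_pow, ← map_mul, ← map_add, hz] at q2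
      rw [hev, hev, ← map_mul, ← map_add, hz] at q3
      exact ⟨t, x, q1, q2, q3⟩
    · rintro ⟨t, x, q1, q2, q3⟩
      refine ⟨τ t, τ x, ?_, ?_, ?_⟩
      · rw [hev, hev, ← map_pow, ← map_mul, ← map_add, ← map_add, hz]
        exact q1
      · rw [hev, h3, ← map_pow, ← map_mul, ← map_add, hz]
        exact q2
      · rw [derivative_map, derivative_map, hev, hev, ← map_mul, ← map_add, hz]
        exact q3
  · constructor
    · rintro ⟨x, q1, q2, q3⟩
      obtain ⟨x, rfl⟩ := τ.surjective x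
      rw [hco, hco, ← map_pow, ← map_mul, ← map_add, ← map_add, hz] at q1
      rw [hco, h3, ← map_pow, ← map_mul, ← map_add, hz] at q2
      rw [hco, hco, ← map_mul, ← map_add, hz] at q3
      exact ⟨x, q1, q2, q3⟩
    · rintro ⟨x, q1, q2, q3⟩
      refine ⟨τ x, ?_, ?_, ?_⟩
      · rw [hco, hco, ← map_pow, ← map_mul, ← map_add, ← map_add, hz]
        exact q1
      · rw [hco, h3, ← map_pow, ← map_mul, ← map_add, hz]
        exact q2
      · rw [hco, hco, ← map_mul, ← map_add, hz]
        exact q3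

end congr

/-- the mean value of the local functions over the prime fields -/
theorem Fv_mean {N D : ℕ} (e : Fin D ≃ Ix N) (k : ℕ) (hk : 1 ≤ k) (hkN : k ≤ 3 * N) (η : ℝ) (hη : η = 1 / (2 * (2 * (k : ℝ) - 1))) :
    ∃ C : ℝ, 0 ≤ C ∧ ∀ (p : ℕ) [Fact p.Prime],
      |(∑ u : Fin D → ZMod p, Fv (fun κ _ u => Gd e κ u) (fun κ _ u => tau e κ u) 2 η (ZMod p) u) / (p : ℝ) ^ D - 2| ≤ C / Real.sqrt p := by
  classical
  refine ⟨0 + 2 * ((k : ℝ) ^ (2 * k) * 8 ^ k) + 1 + (1 + |(2 : ℝ)|) * (24 * N + 4 : ℕ) + 4, by positivity, fun p hp => ?_⟩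
  have hp0 : (0 : ℝ) < p := by exact_mod_cast hp.out.pos
  have hs0 : 0 < Real.sqrt p := Real.sqrt_pos.2 hp0
  rcases Nat.lt_or_ge p 3 with hlt | hge
  · have hp2 : p = 2 := by
      have := hp.out.two_le
      omega
    subst hp2
    have h0 : ∀ u : Fin D → ZMod 2, Fv (fun κ _ u => Gd e κ u) (fun κ _ u => tau e κ u) 2 η (ZMod 2) u = 0 := by
      intro u
      unfold Fv
      rw [if_neg]
      intro h
      exact h.1 (by exact_mod_cast ZMod.natCast_self 2)
    rw [sum_congr rfl fun u _ => h0 u, sum_const_zero, zero_div, zero_sub, abs_neg, le_div_iff₀ hs0]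
    have h1 : Real.sqrt ((2 : ℕ) : ℝ) ≤ 2 := by
      rw [Real.sqrt_le_left (by norm_num)]
      norm_num
    have h2 : (0 : ℝ) ≤ 0 + 2 * ((k : ℝ) ^ (2 * k) * 8 ^ k) + 1 + (1 + |(2 : ℝ)|) * (24 * N + 4 : ℕ) := by positivity
    rw [abs_of_pos (by norm_num : (0 : ℝ) < 2)] at h2 ⊢
    linarith
  · have h2 : (2 : ZMod p) ≠ 0 := by
      intro h
      have h1 : ((2 : ℕ) : ZMod p) = 0 := by exact_mod_cast h
      rw [ZMod.natCast_eq_zero_iff] at h1
      have := Nat.le_of_dvd (by norm_num) h1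
      omega
    have hchar : ringChar (ZMod p) ≠ 2 := by
      rw [ZMod.ringChar_zmod_n]
      omega
    have h3 : (Nat.card {u : Fin D → ZMod p // ¬ (fun (κ : Type) [Field κ] u => Gd e κ u) (ZMod p) u} : ℝ) * p ≤
        ((24 * N + 4 : ℕ) : ℝ) * (p : ℝ) ^ D := by
      rcases Nat.lt_or_ge p 4 with hlt | hge4
      · have hp3 : p = 3 := by omega
        subst hp3
        have h4 : Nat.card {u : Fin D → ZMod 3 // ¬ Gd e (ZMod 3) u} ≤ 3 ^ D := by
          refine (Nat.card_le_card_of_injective _ Subtype.val_injective).trans ?_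
          rw [Nat.card_eq_fintype_card, Fintype.card_fun, ZMod.card, Fintype.card_fin]
        have h5 : (Nat.card {u : Fin D → ZMod 3 // ¬ Gd e (ZMod 3) u} : ℝ) ≤ 3 ^ D := by exact_mod_cast h4
        push_cast
        have h6 : (0 : ℝ) ≤ 3 ^ D := by positivity
        have h7 : (0 : ℝ) ≤ N := Nat.cast_nonneg _
        show (Nat.card {u : Fin D → ZMod 3 // ¬ Gd e (ZMod 3) u} : ℝ) * 3 ≤ _
        nlinarith [mul_nonneg h7 h6]
      · have h33 : (3 : ZMod p) ≠ 0 := by
          intro h
          have h1 : ((3 : ℕ) : ZMod p) = 0 := by exact_mod_cast h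
          rw [ZMod.natCast_eq_zero_iff] at h1
          have := Nat.le_of_dvd (by norm_num) h1
          omega
        have h4 := bad_le e h2 h33 (by omega)
        rw [ZMod.card] at h4
        exact h4
    have hmean := mean e hchar
    have hhigh := high e hchar k hk hkN
    rw [ZMod.card] at hhigh
    refine (trunc_mean p (fun κ _ u => Gd e κ u) (fun κ _ u => tau e κ u) 2 0 ((k : ℝ) ^ (2 * k) * 8 ^ k) ((24 * N + 4 : ℕ) : ℝ) k hk
      (by rw [hmean]; simp) hhigh h3 η hη).trans ?_
    apply div_le_div_of_nonneg_right _ hs0.le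
    linarith

end Pool.Agent.L5helper12.ES
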