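import Pool.Agent.L5helper12.MFNum

/-!
# Majority, circuits with MOD `p` gates, and composite moduli at the bottom

Smolensky's theorem says that circuits of bounded depth and subexponential size with AND, OR, NOT
and MOD `p` gates, `p` prime, do not compute the majority. How much information with respect to
composite moduli do such circuits need? Let `Φ` be a polynomial map of degree `t` from `{0,1}^n` to
a finite abelian group `A` (for instance `G` polynomials of degree `t` with coefficients in `Z/m`,
`A = (Z/m)^G`). We show: if `m log |A|` is small compared with `n`, where `m` is the exponent of `A`,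
then there is a fibre of `Φ` on which the majority is not computed by any small circuit with MOD `p`
gates. So the circuits may even be chosen separately for every value of `Φ`. For `t = 1` it suffices
that `m log |A|` is at most `n` divided by a power of the logarithm of the size, which is sharp up to
this power.

Idea of the proof. By the zero-sum theorem of van Emde Boas–Kruyswijk and Meshulam, more than
`m log |A|` elements of `A` have a nonempty subfamily with sum zero. Its repeated application gives
disjoint blocks of coordinates such that all mixed coefficients of order `t` between different blocks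
vanish; in the new variables (one for each block) the degree is at most `t - 1`, and so on until
`Φ` is constant. Blocks of almost equal sizes are selected; as their common size is not known in
advance the construction is made for several assignments of the other coordinates at the same time.
On the resulting subcube, which is contained in a fibre of `Φ`, the majority is the
majority of the parameters, and the method of Razborov and Smolensky applies.
-/

set_option autoImplicit false

namespace Pool.Agent.L5helper12.FibresOfModularMaps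

open Finset Pool.Agent.W856.Corner Pool.Agent.L5helper12.MF

/-- The number of ones of a point of the cube (`V n = Fin n → ZMod 2`). -/
def ones {n : ℕ} (y : V n) : ℕ := (univ.filter fun i => y i = 1).card

/-- `Φ` is a polynomial map of degree at most `t` from the cube to the abelian group `A`: there are
coefficients `c S` for the sets `S` of at most `t` coordinates such that `Φ y` is the sum of the
`c S` over all sets `S` on which `y` is one. -/
def IsPoly {n : ℕ} {A : Type} [AddCommGroup A] (t : ℕ) (Φ : V n → A) : Prop :=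
  ∃ c : Finset (Fin n) → A, (∀ S, t < S.card → c S = 0) ∧
    ∀ y, Φ y = ∑ S ∈ univ.filter (fun S : Finset (Fin n) => ∀ i ∈ S, y i = 1), c S

/-- A circuit with gates modulo the prime `p` anywhere and gates modulo `m` at the bottom. The nodes
are `0, …, N - 1`; `val i` is the Boolean function computed at the node `i`. A node is an input bit,
or a composite gate, i.e. an arbitrary function of a polynomial of degree at most `t` modulo `m` in
the input bits, or the negation of an earlier node, or a MOD `p` gate (is the number of true inputs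
congruent to `r` modulo `p`?), or an AND gate or an OR gate. The fan-in is unbounded. The function
`depth` grows along every wire into a MOD `p`, AND or OR gate. -/
structure BottomCircuit (p m t n : ℕ) where
  /-- the number of nodes -/
  N : ℕ
  /-- the functions computed at the nodes -/
  val : Fin N → V n → Bool
  /-- the depth of the nodes -/
  depth : Fin N → ℕ
  /-- the AND gates and the OR gates -/
  andOr : Finset (Fin N)
  /-- the composite gates -/
  comp : Finset (Fin N)
  /-- every node is of one of the allowed kinds -/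
  rule : ∀ i : Fin N,
    (i ∉ andOr ∧ ∃ l : Fin n, ∀ y, val i y = decide (y l = 1)) ∨
    (i ∈ comp ∧ i ∉ andOr ∧ ∃ (q : V n → ZMod m) (g : ZMod m → Bool), IsPoly t q ∧
      ∀ y, val i y = g (q y)) ∨
    (i ∉ andOr ∧ ∃ j : Fin N, j < i ∧ depth j ≤ depth i ∧ ∀ y, val i y = !val j y) ∨
    (i ∉ andOr ∧ ∃ (J : Finset (Fin N)) (r : ZMod p), (∀ j ∈ J, j < i ∧ depth j < depth i) ∧
      ∀ y, val i y = decide (((J.filter fun j => val j y = true).card : ZMod p) = r)) ∨
    (i ∈ andOr ∧ ∃ J : Finset (Fin N), (∀ j ∈ J, j < i ∧ depth j < depth i) ∧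
      ((∀ y, val i y = decide (∀ j ∈ J, val j y = true)) ∨
        ∀ y, val i y = decide (∃ j ∈ J, val j y = true)))

lemma IsPoly.deg {n t : ℕ} {A : Type} [AddCommGroup A] {Φ : V n → A} (h : IsPoly t Φ) :
    Deg t fun X => Φ (ind X) := by
  obtain ⟨c, hc, hΦ⟩ := h
  refine ⟨c, hc, fun X => ?_⟩
  show Φ (ind X) = _
  rw [hΦ]
  refine Finset.sum_congr ?_ fun _ _ => rfl
  ext S
  rw [Finset.mem_filter, Finset.mem_powerset]
  have h1 : ∀ i, ind X i = 1 ↔ i ∈ X := by
    intro i
    have := mem_sup (ind X) i
    rw [sup_ind] at this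
    exact this.symm
  constructor
  · rintro ⟨_, h2⟩ i hi
    exact (h1 i).1 (h2 i hi)
  · intro h2
    exact ⟨Finset.mem_univ _, fun i hi => (h1 i).2 (h2 hi)⟩

lemma IsPoly.pi {n t : ℕ} {I A : Type} [AddCommGroup A] {Φ : I → V n → A}
    (h : ∀ i, IsPoly t (Φ i)) : IsPoly t fun y i => Φ i y := by
  choose c hc hΦ using h
  refine ⟨fun S i => c i S, fun S hS => funext fun i => hc i S hS, fun y => ?_⟩
  funext i
  rw [Finset.sum_apply]
  exact hΦ i y

/-- the node computes a function of a polynomial modulo `m` -/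
def Rep {p m t n : ℕ} (C : BottomCircuit p m t n) (i : Fin C.N) : Prop :=
  ∃ (q : V n → ZMod m) (g : ZMod m → Bool), IsPoly t q ∧ ∀ y, C.val i y = g (q y)

/-- the circuit in which the composite gates are replaced by constants -/
lemma fix {p m t n : ℕ} [Fact p.Prime] (C : BottomCircuit p m t n) (hit : Fin C.N → Bool) :
    ∃ C' : Circuit p n 1, ∃ e : Fin C.N → Fin C'.N, C'.andOr.card = C.andOr.card ∧
      (∀ d, (∀ i, C.depth i ≤ d) → ∀ i, C'.depth i ≤ d) ∧
      ∀ y, (∀ i ∈ C.comp, Rep C i → C.val i y = hit i) → ∀ i, C'.val (e i) y = C.val i y := by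
  classical
  have key : ∀ i : Fin C.N, ∃ St : (Fin C.N → V n → Bool) → V n → Bool,
      (∀ prev y, (∀ i ∈ C.comp, Rep C i → C.val i y = hit i) →
        (∀ j, j < i → prev j y = C.val j y) →
        St prev y = C.val i y) ∧
      ∀ prev, (i ∉ C.andOr ∧ HasDegree p 1 (St prev)) ∨
        (i ∉ C.andOr ∧ ∃ j : Fin C.N, j < i ∧ C.depth j ≤ C.depth i ∧
          ∀ y, St prev y = !prev j y) ∨
        (i ∉ C.andOr ∧ ∃ (J : Finset (Fin C.N)) (r : ZMod p),
          (∀ j ∈ J, j < i ∧ C.depth j < C.depth i) ∧
          ∀ y, St prev y = decide (((J.filter fun j => prev j y = true).card : ZMod p) = r)) ∨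
        (i ∈ C.andOr ∧ ∃ J : Finset (Fin C.N), (∀ j ∈ J, j < i ∧ C.depth j < C.depth i) ∧
          ((∀ y, St prev y = decide (∀ j ∈ J, prev j y = true)) ∨
            ∀ y, St prev y = decide (∃ j ∈ J, prev j y = true))) := by
    intro i
    rcases C.rule i with ⟨hi, l, h⟩ | ⟨hic, hi, q, g, hq, h⟩ | ⟨hi, j, hj, hd, h⟩ |
      ⟨hi, J, r, hJ, h⟩ | ⟨hi, J, hJ, h⟩
    · refine ⟨fun _ y => decide (y l = 1), fun _ y _ _ => (h y).symm, fun _ => Or.inl ⟨hi, ?_⟩⟩
      refine ⟨MvPolynomial.X l, (MvPolynomial.totalDegree_X l).le, fun y => ?_⟩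
      rw [MvPolynomial.eval_X]
      exact if_congr (by simp) rfl rfl
    · refine ⟨fun _ _ => hit i, fun _ y hy _ => (hy i hic ⟨q, g, hq, h⟩).symm,
        fun _ => Or.inl ⟨hi, ?_⟩⟩
      refine ⟨MvPolynomial.C (if hit i = true then 1 else 0), ?_, fun y => ?_⟩
      · rw [MvPolynomial.totalDegree_C]; exact Nat.zero_le _
      · rw [MvPolynomial.eval_C]
    · refine ⟨fun prev y => !prev j y, fun prev y _ hp => ?_,
        fun _ => Or.inr (Or.inl ⟨hi, j, hj, hd, fun _ => rfl⟩)⟩
      show (!prev j y) = _
      rw [hp j hj, h y]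
    · refine ⟨fun prev y => decide (((J.filter fun j => prev j y = true).card : ZMod p) = r),
        fun prev y _ hp => ?_,
        fun _ => Or.inr (Or.inr (Or.inl ⟨hi, J, r, hJ, fun _ => rfl⟩))⟩
      show decide (((J.filter fun j => prev j y = true).card : ZMod p) = r) = _
      rw [h y]
      have : (J.filter fun j => prev j y = true) = J.filter fun j => C.val j y = true :=
        Finset.filter_congr fun j hj => by rw [hp j (hJ j hj).1]
      rw [this]
    · rcases h with h | h
      · refine ⟨fun prev y => decide (∀ j ∈ J, prev j y = true), fun prev y _ hp => ?_,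
          fun _ => Or.inr (Or.inr (Or.inr ⟨hi, J, hJ, Or.inl fun _ => rfl⟩))⟩
        show decide (∀ j ∈ J, prev j y = true) = _
        rw [h y]
        congr 1
        exact propext (forall₂_congr fun j hj => by rw [hp j (hJ j hj).1])
      · refine ⟨fun prev y => decide (∃ j ∈ J, prev j y = true), fun prev y _ hp => ?_,
          fun _ => Or.inr (Or.inr (Or.inr ⟨hi, J, hJ, Or.inr fun _ => rfl⟩))⟩
        show decide (∃ j ∈ J, prev j y = true) = _
        rw [h y]
        congr 1
        refine propext (exists_congr fun j => and_congr_right fun hj => ?_)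
        rw [hp j (hJ j hj).1]
  choose St h1 h2 using key
  obtain ⟨P, hP⟩ := exists_rec St (fun _ => false)
  have hPlt : ∀ i j, j < i → (fun j => if j < i then P j else fun _ => false) j = P j :=
    fun i j hj => if_pos hj
  refine ⟨{ N := C.N, val := P, depth := C.depth, andOr := C.andOr, rule := ?_ }, id, rfl,
    fun d hd => hd, ?_⟩
  · intro i
    have h3 := h2 i (fun j => if j < i then P j else fun _ => false)
    rw [← hP i] at h3
    rcases h3 with h3 | ⟨hi, j, hj, hd, h⟩ | ⟨hi, J, r, hJ, h⟩ | ⟨hi, J, hJ, h⟩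
    · exact Or.inl h3
    · refine Or.inr (Or.inl ⟨hi, j, hj, hd, fun y => ?_⟩)
      rw [h y, if_pos hj]
    · refine Or.inr (Or.inr (Or.inl ⟨hi, J, r, hJ, fun y => ?_⟩))
      rw [h y]
      have : (J.filter fun j => (if j < i then P j else fun _ => false) y = true) =
          J.filter fun j => P j y = true :=
        Finset.filter_congr fun j hj => by rw [if_pos (hJ j hj).1]
      rw [this]
    · refine Or.inr (Or.inr (Or.inr ⟨hi, J, hJ, ?_⟩))
      rcases h with h | h
      · refine Or.inl fun y => ?_
        rw [h y]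
        congr 1
        exact propext (forall₂_congr fun j hj => by rw [if_pos (hJ j hj).1])
      · refine Or.inr fun y => ?_
        rw [h y]
        congr 1
        refine propext (exists_congr fun j => and_congr_right fun hj => ?_)
        rw [if_pos (hJ j hj).1]
  · intro y hy i
    show P i y = C.val i y
    induction i using WellFoundedLT.induction with
    | ind i ih =>
      rw [hP i]
      refine h1 i _ y hy fun j hj => ?_
      rw [if_pos hj]
      exact ih j hj

/-- from circuits with composite gates to fibres -/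
lemma reduce_to_fibre {p m t n d : ℕ} (hp : p.Prime) (s : ℝ) (C : BottomCircuit p m t n)
    (hs : (C.andOr.card : ℝ) ≤ (2 : ℝ) ^ s) (hd : ∀ i, C.depth i ≤ d) (i0 : Fin C.N)
    (hmaj : ∀ y, C.val i0 y = true ↔ n ≤ 2 * ones y) :
    ∃ Φ : V n → ({i // i ∈ C.comp} → ZMod m), IsPoly t Φ ∧
      ¬ ∃ a, ∀ C' : Circuit p n 1, (C'.andOr.card : ℝ) ≤ (2 : ℝ) ^ s → (∀ i, C'.depth i ≤ d) →
        ∀ i : Fin C'.N, ∃ y, Φ y = a ∧ ¬ (C'.val i y = true ↔ n ≤ 2 * (sup y).card) := by
  classical
  have : Fact p.Prime := ⟨hp⟩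
  let q : {i // i ∈ C.comp} → V n → ZMod m := fun i =>
    if h : Rep C i.1 then h.choose else fun _ => 0
  have hq : ∀ i, IsPoly t (q i) := by
    intro i
    by_cases h : Rep C i.1
    · have e : q i = h.choose := dif_pos h
      rw [e]
      exact h.choose_spec.choose_spec.1
    · have e : q i = fun _ => 0 := dif_neg h
      rw [e]
      exact ⟨fun _ => 0, fun _ _ => rfl, fun y => by simp⟩
  refine ⟨fun y i => q i y, IsPoly.pi hq, ?_⟩
  rintro ⟨a, ha⟩
  -- the values of the composite gates on the fibre
  let hit : Fin C.N → Bool := fun i =>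
    if h : i ∈ C.comp ∧ Rep C i then h.2.choose_spec.choose (a ⟨i, h.1⟩) else false
  obtain ⟨C', e, h1, h2, h3⟩ := fix C hit
  obtain ⟨y, hy, hy'⟩ := ha C' (by rw [h1]; exact hs) (h2 d hd) (e i0)
  apply hy'
  rw [h3 y ?_ i0]
  · exact hmaj y
  · intro i hi hrep
    have e1 : hit i = hrep.choose_spec.choose (a ⟨i, hi⟩) := by
      show (if h : i ∈ C.comp ∧ Rep C i then h.2.choose_spec.choose (a ⟨i, h.1⟩) else false) = _
      rw [dif_pos ⟨hi, hrep⟩]
    have e2 : q ⟨i, hi⟩ = hrep.choose := dif_pos hrep
    rw [e1, ← hy]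
    show C.val i y = hrep.choose_spec.choose (q ⟨i, hi⟩ y)
    rw [e2]
    exact hrep.choose_spec.choose_spec.2 y

/-- the number of ones modulo `n + 1` -/
lemma ones_poly (n : ℕ) : IsPoly 1 fun y : V n => (ones y : ZMod (n + 1)) := by
  classical
  refine ⟨fun S => if S.card = 1 then 1 else 0, fun S hS => if_neg (by omega), fun y => ?_⟩
  rw [← Finset.sum_filter, Finset.filter_filter, Finset.sum_const, nsmul_eq_mul, mul_one]
  refine congrArg (Nat.cast : ℕ → ZMod (n + 1)) ?_
  unfold ones
  refine Finset.card_bij (fun i _ => ({i} : Finset (Fin n))) ?_ ?_ ?_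
  · intro i hi
    rw [Finset.mem_filter] at hi ⊢
    refine ⟨Finset.mem_univ _, ?_, Finset.card_singleton i⟩
    intro j hj
    rw [Finset.mem_singleton] at hj
    rw [hj]; exact hi.2
  · intro i _ j _ hij
    exact Finset.singleton_injective hij
  · intro S hS
    rw [Finset.mem_filter] at hS
    obtain ⟨i, hi⟩ := Finset.card_eq_one.1 hS.2.2
    refine ⟨i, ?_, hi.symm⟩
    rw [Finset.mem_filter]
    exact ⟨Finset.mem_univ _, hS.2.1 i (by rw [hi]; exact Finset.mem_singleton_self i)⟩

/-- **Theorem.** `p` is a prime, `d` the depth, `2 ^ s` bounds the number of AND and OR gates, and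
the input nodes of the circuits may be arbitrary functions of degree at most `k ≤ s` modulo `p`.
Majority: `1` iff at least `n / 2` of the `n` bits are `1`. -/
theorem result (p : ℕ) (hp : p.Prime) (d n : ℕ) (hn : 2 ≤ n) (s : ℝ) (hs : 1 ≤ s) :
    -- (1) maps of degree one
    (∀ (k m : ℕ) (A : Type) [AddCommGroup A] [Fintype A] (Φ : V n → A), (k : ℝ) ≤ s →
      0 < m → (∀ a : A, m • a = 0) → IsPoly 1 Φ →
      40000 * (4 * (p : ℝ)) ^ (6 * d) * s ^ (6 * d + 6) * Real.log n ^ 2 *
        (m * Real.log (Fintype.card A) + 1) ≤ n →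
      ∃ a : A, ∀ C : Circuit p n k, (C.andOr.card : ℝ) ≤ (2 : ℝ) ^ s → (∀ i, C.depth i ≤ d) →
        ∀ i : Fin C.N, ∃ y, Φ y = a ∧ ¬ (C.val i y = true ↔ n ≤ 2 * ones y)) ∧
    -- (2) maps of any degree
    (∀ (t k m : ℕ) (A : Type) [AddCommGroup A] [Fintype A] (Φ : V n → A), (k : ℝ) ≤ s →
      0 < m → (∀ a : A, m • a = 0) → IsPoly t Φ →
      2 * (600000 * (4 * (p : ℝ)) ^ (8 * d) * s ^ (8 * d + 8) * Real.log n ^ 3 *
        (m * Real.log (Fintype.card A) + 1) ^ 2) ^ t.factorial ≤ n →
      ∃ a : A, ∀ C : Circuit p n k, (C.andOr.card : ℝ) ≤ (2 : ℝ) ^ s → (∀ i, C.depth i ≤ d) →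
        ∀ i : Fin C.N, ∃ y, Φ y = a ∧ ¬ (C.val i y = true ↔ n ≤ 2 * ones y)) ∧
    -- (3) circuits with composite gates at the bottom
    (∀ (m t : ℕ) (C : BottomCircuit p m t n) (i : Fin C.N), 2 ≤ m →
      (C.andOr.card : ℝ) ≤ (2 : ℝ) ^ s → (∀ i, C.depth i ≤ d) →
      (∀ y, C.val i y = true ↔ n ≤ 2 * ones y) →
      (t = 1 → (n : ℝ) < 40000 * (4 * (p : ℝ)) ^ (6 * d) * s ^ (6 * d + 6) * Real.log n ^ 2 *
        (C.comp.card * m * Real.log m + 1)) ∧
      (n : ℝ) < 2 * (600000 * (4 * (p : ℝ)) ^ (8 * d) * s ^ (8 * d + 8) * Real.log n ^ 3 *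
        (C.comp.card * m * Real.log m + 1) ^ 2) ^ t.factorial) ∧
    -- (4) with `m log |A|` about `n log n` one linear map decides the majority
    (∃ Φ : V n → ZMod (n + 1), IsPoly 1 Φ ∧
      ∀ y y', Φ y = Φ y' → (n ≤ 2 * ones y ↔ n ≤ 2 * ones y')) := by
  have h1 : ∀ (k m : ℕ) (A : Type) [AddCommGroup A] [Fintype A] (Φ : V n → A), (k : ℝ) ≤ s →
      0 < m → (∀ a : A, m • a = 0) → IsPoly 1 Φ →
      40000 * (4 * (p : ℝ)) ^ (6 * d) * s ^ (6 * d + 6) * Real.log n ^ 2 *
        (m * Real.log (Fintype.card A) + 1) ≤ n →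
      ∃ a : A, ∀ C : Circuit p n k, (C.andOr.card : ℝ) ≤ (2 : ℝ) ^ s → (∀ i, C.depth i ≤ d) →
        ∀ i : Fin C.N, ∃ y, Φ y = a ∧ ¬ (C.val i y = true ↔ n ≤ 2 * ones y) := by
    intro k m A _ _ Φ hk hm0 hm hΦ hle
    exact fibre_linear hm0 hm Φ hΦ.deg hp s hs hk hn hle
  have h2 : ∀ (t k m : ℕ) (A : Type) [AddCommGroup A] [Fintype A] (Φ : V n → A), (k : ℝ) ≤ s →
      0 < m → (∀ a : A, m • a = 0) → IsPoly t Φ →
      2 * (600000 * (4 * (p : ℝ)) ^ (8 * d) * s ^ (8 * d + 8) * Real.log n ^ 3 *
        (m * Real.log (Fintype.card A) + 1) ^ 2) ^ t.factorial ≤ n →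
      ∃ a : A, ∀ C : Circuit p n k, (C.andOr.card : ℝ) ≤ (2 : ℝ) ^ s → (∀ i, C.depth i ≤ d) →
        ∀ i : Fin C.N, ∃ y, Φ y = a ∧ ¬ (C.val i y = true ↔ n ≤ 2 * ones y) := by
    intro t k m A _ _ Φ hk hm0 hm hΦ hle
    exact fibre_general hm0 hm Φ hΦ.deg hp s hs hk hn hle
  refine ⟨h1, h2, ?_, ?_⟩
  · intro m t C i hm hC hd hmaj
    have : NeZero m := ⟨by omega⟩
    obtain ⟨Φ, hΦ, hno⟩ := reduce_to_fibre hp s C hC hd i hmaj
    have hcard : (m : ℝ) * Real.log (Fintype.card ({i // i ∈ C.comp} → ZMod m)) + 1 =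
        C.comp.card * m * Real.log m + 1 := by
      rw [Fintype.card_fun, ZMod.card, Fintype.card_coe, Nat.cast_pow, Real.log_pow]
      ring
    have hk : ((1 : ℕ) : ℝ) ≤ s := by simpa using hs
    have hann : ∀ a : {i // i ∈ C.comp} → ZMod m, m • a = 0 := by
      intro a
      funext i
      show m • a i = 0
      rw [nsmul_eq_mul, ZMod.natCast_self, zero_mul]
    constructor
    · intro ht
      subst ht
      by_contra hcon
      push Not at hcon
      rw [← hcard] at hcon
      exact hno (h1 1 m _ Φ hk (by omega) hann hΦ hcon)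
    · by_contra hcon
      push Not at hcon
      rw [← hcard] at hcon
      exact hno (h2 t 1 m _ Φ hk (by omega) hann hΦ hcon)
  · refine ⟨fun y => (ones y : ZMod (n + 1)), ones_poly n, fun y y' h => ?_⟩
    have hle : ∀ y : V n, ones y < n + 1 := fun y => by
      have := Finset.card_le_univ (univ.filter fun i => y i = 1)
      rw [Fintype.card_fin] at this
      exact Nat.lt_succ_of_le this
    have h3 : ones y = ones y' := by
      have h4 := congrArg ZMod.val h
      simp only at h4
      rw [ZMod.val_natCast_of_lt (hle y), ZMod.val_natCast_of_lt (hle y')] at h4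
      exact h4
    rw [h3]

end Pool.Agent.L5helper12.FibresOfModularMaps
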