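import Pool.Agent.L5helper32.GP.D.Defs

/-!
# The probability that `q_p(n)` has no small prime factor: from the product and the logarithms
-/

set_option autoImplicit false

open Finset MeasureTheory ProbabilityTheory Filter Topology

namespace Pool.Agent.L5helper12.GPD4

open Pool.Agent.L5helper32.GP
open Pool.Agent.L5helper32.GR (Root w pr sg Dep lev q)

theorem prob_q_of
    (D1 : ∀ {p : ℕ}, p.Prime → 3 ≤ p → ∀ {ε : ℝ}, 0 < ε →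
      ∃ a₀ : ℕ, ∀ a ≥ a₀, ∀ b : ℕ, a ≤ b → b ≤ a ^ p →
        |∏ r ∈ (Ioc a b).filter (fun r => r.Prime ∧ r % p = 1), (1 - ((p : ℝ) - 1) / r)
          - Real.log a / Real.log b| ≤ ε)
    (D2 : ∀ {p : ℕ}, p.Prime → 3 ≤ p → ∀ {Ω : Type} [MeasurableSpace Ω] {μ : Measure Ω}
      [IsProbabilityMeasure μ] {T : ℕ × ℕ × ℕ → Ω → ℕ}, Res μ T → ∀ (n : ℕ) {a : ℕ}, p ≤ a →
      μ.real {ω | ∀ r, r.Prime → a < r → r ^ 2 ≤ q p n → ¬ r ∣ q p (res T ω n r 0)}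
        = ∏ r ∈ (Ioc a (Nat.sqrt (q p n))).filter (fun r => r.Prime ∧ r % p = 1),
            (1 - ((p : ℝ) - 1) / r))
    (D3 : ∀ {p : ℕ}, p.Prime → 5 ≤ p → ∀ {ε : ℝ}, 0 < ε →
      ∃ z₁ : ℕ, ∀ z ≥ z₁, ∀ n : ℕ, lev p z ≤ 4 * n → n ≤ lev p z →
        lev p z + 2 ≤ Nat.sqrt (q p n) ∧ Nat.sqrt (q p n) ≤ (lev p z + 2) ^ p ∧
        |Real.log ((lev p z + 2 : ℕ) : ℝ) / Real.log ((Nat.sqrt (q p n) : ℕ) : ℝ)
          - 2 / ((p : ℝ) - 1)| ≤ ε)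
    {p : ℕ} (hp : p.Prime) (h5 : 5 ≤ p) {ε : ℝ} (hε : 0 < ε) :
    ∃ z₁ : ℕ, ∀ z ≥ z₁, ∀ {Ω : Type} [MeasurableSpace Ω] (μ : Measure Ω) [IsProbabilityMeasure μ]
      (T : ℕ × ℕ × ℕ → Ω → ℕ), Res μ T → ∀ n : ℕ, lev p z ≤ 4 * n → n ≤ lev p z →
      |μ.real {ω | ∀ r, r.Prime → lev p z + 2 < r → r ^ 2 ≤ q p n → ¬ r ∣ q p (res T ω n r 0)}
        - 2 / ((p : ℝ) - 1)| ≤ ε := by
  obtain ⟨a₀, h1⟩ := D1 hp (by omega) (half_pos hε)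
  obtain ⟨z₁, h3⟩ := D3 hp h5 (half_pos hε)
  refine ⟨max z₁ (max a₀ p), fun z hz Ω _ μ _ T hT n hn1 hn2 => ?_⟩
  have hz1 : z₁ ≤ z := le_trans (le_max_left _ _) hz
  have hz2 : a₀ ≤ z := le_trans (le_trans (le_max_left _ _) (le_max_right _ _)) hz
  have hz3 : p ≤ z := le_trans (le_trans (le_max_right _ _) (le_max_right _ _)) hz
  have hlev : z ≤ lev p z := by unfold lev; exact Nat.le_add_left _ _
  obtain ⟨e1, e2, e3⟩ := h3 z hz1 n hn1 hn2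
  have e4 := h1 (lev p z + 2) (by omega) (Nat.sqrt (q p n)) e1 e2
  rw [D2 hp (by omega) hT n (a := lev p z + 2) (by omega)]
  rw [abs_le] at e3 e4 ⊢
  constructor <;> linarith [e3.1, e3.2, e4.1, e4.2]

end Pool.Agent.L5helper12.GPD4
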