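import Pool.Agent.L5helper32.GP.Defs

/-!
# The number of the zeros tends to infinity
-/

set_option autoImplicit false

open Finset MeasureTheory ProbabilityTheory Filter Topology

namespace Pool.Agent.L5helper12.GPD9

open Pool.Agent.L5helper32.GP

lemma jump_pos (p : ℕ) (D : ℕ → ℕ → ℕ) (x : ℕ) : 0 < jump p D x := by
  unfold jump
  refine Finset.prod_pos fun r hr => ?_
  have hr' : r.Prime := Nat.prime_of_mem_primeFactors hr
  exact Nat.gcd_pos_of_pos_left _ (pow_pos hr'.pos _)

lemma exists_zero (p : ℕ) (T : ℕ → ℕ → ℕ → ℕ) :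
    ∀ k m : ℕ, dseq p T (m + 1) ≤ k → ∃ n, m + 1 ≤ n ∧ dseq p T n = 0 := by
  intro k
  induction k with
  | zero => intro m h; exact ⟨m + 1, le_rfl, by omega⟩
  | succ k ih =>
    intro m h
    by_cases h0 : dseq p T (m + 1) = 0
    · exact ⟨m + 1, le_rfl, h0⟩
    · have h1 : dseq p T (m + 1 + 1) ≤ k := by
        have h2 : dseq p T (m + 1 + 1) = dseq p T (m + 1) -
            jump p (T (dseq p T (m + 1) + (m + 1))) (dseq p T (m + 1)) := by
          show dseq p T (m + 2) = _
          rw [dseq, if_neg h0]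
        have h3 := jump_pos p (T (dseq p T (m + 1) + (m + 1))) (dseq p T (m + 1))
        omega
      obtain ⟨n, hn, hn0⟩ := ih (m + 1) h1
      exact ⟨n, by omega, hn0⟩

/-- D9: the number of the zeros tends to infinity. -/
theorem zeros_tendsto {p : ℕ} (hp : p.Prime) (T : ℕ → ℕ → ℕ → ℕ) :
    Tendsto (fun X : ℕ => (#{n ∈ Icc 1 X | dseq p T n = 0} : ℝ)) atTop atTop := by
  have _ := hp
  refine tendsto_natCast_atTop_atTop.comp ?_
  refine tendsto_atTop_atTop_of_monotone ?_ ?_
  · intro X Y hXY
    refine Finset.card_le_card ?_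
    intro n hn
    simp only [Finset.mem_filter, Finset.mem_Icc] at hn ⊢
    exact ⟨⟨hn.1.1, hn.1.2.trans hXY⟩, hn.2⟩
  · intro b
    induction b with
    | zero => exact ⟨0, Nat.zero_le _⟩
    | succ b ih =>
      obtain ⟨N, hN⟩ := ih
      obtain ⟨n, hn, hn0⟩ := exists_zero p T _ N le_rfl
      refine ⟨n, ?_⟩
      have hsub : insert n (Finset.filter (fun n => dseq p T n = 0) (Icc 1 N)) ⊆
          Finset.filter (fun n => dseq p T n = 0) (Icc 1 n) := by
        intro x hx
        simp only [Finset.mem_insert, Finset.mem_filter, Finset.mem_Icc] at hx ⊢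
        rcases hx with rfl | hx
        · exact ⟨⟨by omega, le_rfl⟩, hn0⟩
        · exact ⟨⟨hx.1.1, by omega⟩, hx.2⟩
      have hnot : n ∉ Finset.filter (fun n => dseq p T n = 0) (Icc 1 N) := by
        intro hx
        simp only [Finset.mem_filter, Finset.mem_Icc] at hx
        omega
      have := Finset.card_le_card hsub
      rw [Finset.card_insert_of_notMem hnot] at this
      omega

end Pool.Agent.L5helper12.GPD9
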