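import Pool.Agent.H126T.Field

/-!
# Families of hyperelliptic curves over finite fields: moments of the traces of the Frobenius
-/

set_option autoImplicit false

namespace Pool.Agent.L5helper12.JV

open Polynomial Finset
open Pool.Agent.H126T

/-- the indices of the coefficients of `r` polynomials of the degrees `n i` -/
abbrev Ix (r : ℕ) (n : Fin r → ℕ) : Type := Σ i : Fin r, Fin (n i)

section
variable {r D : ℕ} {n : Fin r → ℕ} (e : Fin D ≃ Ix r n)

/-- the polynomial number `i` -/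
noncomputable def fp {κ : Type} [Field κ] (u : Fin D → κ) (i : Fin r) : κ[X] :=
  X ^ n i + ∑ k : Fin (n i), C (u (e.symm ⟨i, k⟩)) * X ^ (k : ℕ)

lemma fp_map {κ κ' : Type} [Field κ] [Field κ'] (σ : κ →+* κ') (u : Fin D → κ) (i : Fin r) :
    (fp e u i).map σ = fp e (fun k => σ (u k)) i := by
  unfold fp
  simp only [Polynomial.map_add, Polynomial.map_sum, Polynomial.map_mul, Polynomial.map_pow, map_X, map_C]

lemma low_degree {κ : Type} [Field κ] (u : Fin D → κ) (i : Fin r) :
    (∑ k : Fin (n i), C (u (e.symm ⟨i, k⟩)) * X ^ (k : ℕ)).degree < ((n i : ℕ) : WithBot ℕ) := by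
  refine (degree_sum_le _ _).trans_lt ?_
  rw [Finset.sup_lt_iff (WithBot.bot_lt_coe _)]
  intro k _
  refine (degree_C_mul_X_pow_le _ _).trans_lt ?_
  exact_mod_cast k.2

lemma fp_natDegree {κ : Type} [Field κ] (u : Fin D → κ) (i : Fin r) : (fp e u i).natDegree = n i := by
  unfold fp
  rw [natDegree_add_eq_left_of_degree_lt, natDegree_X_pow]
  rw [degree_X_pow]
  exact low_degree e u i

lemma fp_ne_zero {κ : Type} [Field κ] (u : Fin D → κ) (i : Fin r) : fp e u i ≠ 0 := by
  intro h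
  have h1 : (fp e u i).degree = n i := by
    unfold fp
    rw [degree_add_eq_left_of_degree_lt, degree_X_pow]
    rw [degree_X_pow]
    exact low_degree e u i
  rw [h, degree_zero] at h1
  exact absurd h1 (by simp)

/-- direction of a change of the constant coefficient of the polynomial number `i` -/
noncomputable def dir (i : Fin r) (h : 0 < n i) {κ : Type} [Field κ] : Fin D → κ := Pi.single (e.symm ⟨i, ⟨0, h⟩⟩) 1

/-- direction of a change of the linear coefficient of the polynomial number `i` -/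
noncomputable def dir1 (i : Fin r) (h : 1 < n i) {κ : Type} [Field κ] : Fin D → κ := Pi.single (e.symm ⟨i, ⟨1, h⟩⟩) 1

lemma fp_add {κ : Type} [Field κ] (u w : Fin D → κ) (i : Fin r) :
    fp e (u + w) i = fp e u i + ∑ k : Fin (n i), C (w (e.symm ⟨i, k⟩)) * X ^ (k : ℕ) := by
  unfold fp
  rw [add_assoc, ← sum_add_distrib]
  congr 1
  refine sum_congr rfl fun k _ => ?_
  rw [Pi.add_apply, C_add, add_mul]

lemma dir_self {κ : Type} [Field κ] (i : Fin r) (h : 0 < n i) (t : κ) :
    ∑ k : Fin (n i), C ((t • dir e i h : Fin D → κ) (e.symm ⟨i, k⟩)) * X ^ (k : ℕ) = C t := by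
  rw [sum_eq_single (⟨0, h⟩ : Fin (n i))]
  · simp [dir]
  · intro k _ hk
    have : e.symm ⟨i, k⟩ ≠ e.symm ⟨i, ⟨0, h⟩⟩ := fun h' => hk (by simpa using h')
    simp [dir, Pi.single_eq_of_ne this]
  · intro h'
    exact absurd (mem_univ _) h'

lemma dir1_self {κ : Type} [Field κ] (i : Fin r) (h : 1 < n i) (t : κ) :
    ∑ k : Fin (n i), C ((t • dir1 e i h : Fin D → κ) (e.symm ⟨i, k⟩)) * X ^ (k : ℕ) = C t * X := by
  rw [sum_eq_single (⟨1, h⟩ : Fin (n i))]
  · simp [dir1]
  · intro k _ hk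
    have : e.symm ⟨i, k⟩ ≠ e.symm ⟨i, ⟨1, h⟩⟩ := fun h' => hk (by simpa using h')
    simp [dir1, Pi.single_eq_of_ne this]
  · intro h'
    exact absurd (mem_univ _) h'

lemma dir_other {κ : Type} [Field κ] (i j : Fin r) (h : 0 < n i) (hij : i ≠ j) (t : κ) :
    ∑ k : Fin (n j), C ((t • dir e i h : Fin D → κ) (e.symm ⟨j, k⟩)) * X ^ (k : ℕ) = 0 := by
  refine sum_eq_zero fun k _ => ?_
  have : e.symm ⟨j, k⟩ ≠ e.symm ⟨i, ⟨0, h⟩⟩ := fun h' => by
    have h2 := e.symm.injective h'
    exact hij (congrArg Sigma.fst h2).symm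
  simp [dir, Pi.single_eq_of_ne this]

lemma fp_dir {κ : Type} [Field κ] (u : Fin D → κ) (i : Fin r) (h : 0 < n i) (t : κ) :
    fp e (u + t • dir e i h) i = fp e u i + C t := by
  rw [fp_add, dir_self]

lemma fp_dir1 {κ : Type} [Field κ] (u : Fin D → κ) (i : Fin r) (h : 1 < n i) (t : κ) :
    fp e (u + t • dir1 e i h) i = fp e u i + C t * X := by
  rw [fp_add, dir1_self]

lemma fp_dir_other {κ : Type} [Field κ] (u : Fin D → κ) (i j : Fin r) (h : 0 < n i) (hij : i ≠ j) (t : κ) :
    fp e (u + t • dir e i h) j = fp e u j := by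
  rw [fp_add, dir_other e i j h hij, add_zero]

end

section shift
variable {κ : Type} [Field κ] [Fintype κ] [DecidableEq κ] {D : ℕ}

lemma shift (w : Fin D → κ) (g : (Fin D → κ) → ℝ) : (Fintype.card κ : ℝ) * ∑ u, g u = ∑ u, ∑ t : κ, g (u + t • w) := by
  rw [sum_comm]
  have h : ∀ t : κ, ∑ x, g (x + t • w) = ∑ u, g u := fun t => Equiv.sum_comp (Equiv.addRight (t • w)) g
  rw [sum_congr rfl fun t _ => h t, sum_const, card_univ, nsmul_eq_mul]

end shift

section mom
variable {κ : Type} [Field κ] [Fintype κ] [DecidableEq κ] {r D : ℕ} {n : Fin r → ℕ} (e : Fin D ≃ Ix r n)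

lemma chi_shift (hκ : ringChar κ ≠ 2) (c a : κ) (ha : a ≠ 0) : ∑ t : κ, (quadraticChar κ (c + t * a) : ℝ) = 0 := by
  have h1 : ∑ t : κ, (quadraticChar κ (c + t * a) : ℝ) = ∑ t : κ, (quadraticChar κ t : ℝ) := by
    refine Fintype.sum_bijective (fun t => c + t * a) ?_ _ _ fun t => rfl
    refine (Equiv.bijective ((Equiv.mulRight₀ a ha).trans (Equiv.addLeft c)))
  rw [h1]
  exact_mod_cast quadraticChar_sum_zero hκ

lemma mom_other (hκ : ringChar κ ≠ 2) (i j : Fin r) (hi : 0 < n i) (hij : i ≠ j) (x y : κ) :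
    ∑ u : Fin D → κ, (quadraticChar κ ((fp e u i).eval x) : ℝ) * quadraticChar κ ((fp e u j).eval y) = 0 := by
  have h := shift (dir e i hi) (fun u : Fin D → κ => (quadraticChar κ ((fp e u i).eval x) : ℝ) * quadraticChar κ ((fp e u j).eval y))
  have h1 : ∀ u : Fin D → κ, ∑ t : κ, (quadraticChar κ ((fp e (u + t • dir e i hi) i).eval x) : ℝ) *
      quadraticChar κ ((fp e (u + t • dir e i hi) j).eval y) = 0 := by
    intro u
    simp only [fp_dir, fp_dir_other e u i j hi hij, eval_add, eval_C]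
    rw [← sum_mul]
    have := chi_shift hκ ((fp e u i).eval x) 1 one_ne_zero
    simp only [mul_one] at this
    rw [this, zero_mul]
  rw [sum_congr rfl fun u _ => h1 u, sum_const_zero] at h
  have hc : (Fintype.card κ : ℝ) ≠ 0 := by exact_mod_cast Fintype.card_ne_zero
  exact (mul_eq_zero.1 h).resolve_left hc

lemma mom_same (hκ : ringChar κ ≠ 2) (i : Fin r) (hi : 1 < n i) (x y : κ) (hxy : x ≠ y) :
    ∑ u : Fin D → κ, (quadraticChar κ ((fp e u i).eval x) : ℝ) * quadraticChar κ ((fp e u i).eval y) = 0 := by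
  have hi0 : 0 < n i := by omega
  have h := shift (dir1 e i hi - y • dir e i hi0)
    (fun u : Fin D → κ => (quadraticChar κ ((fp e u i).eval x) : ℝ) * quadraticChar κ ((fp e u i).eval y))
  have h2 : ∀ (u : Fin D → κ) (t : κ), fp e (u + t • (dir1 e i hi - y • dir e i hi0)) i = fp e u i + C t * (X - C y) := by
    intro u t
    have e1 : u + t • (dir1 e i hi - y • dir e i hi0) = (u + t • dir1 e i hi) + (-(t * y)) • dir e i hi0 := by
      rw [smul_sub, smul_smul, neg_smul]
      abel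
    rw [e1, fp_dir, fp_dir1, map_neg, C_mul]
    ring
  have h1 : ∀ u : Fin D → κ, ∑ t : κ, (quadraticChar κ ((fp e (u + t • (dir1 e i hi - y • dir e i hi0)) i).eval x) : ℝ) *
      quadraticChar κ ((fp e (u + t • (dir1 e i hi - y • dir e i hi0)) i).eval y) = 0 := by
    intro u
    simp only [h2, eval_add, eval_mul, eval_C, eval_sub, eval_X, sub_self, mul_zero, add_zero]
    rw [← sum_mul, chi_shift hκ ((fp e u i).eval x) (x - y) (sub_ne_zero.2 hxy), zero_mul]
  rw [sum_congr rfl fun u _ => h1 u, sum_const_zero] at h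
  have hc : (Fintype.card κ : ℝ) ≠ 0 := by exact_mod_cast Fintype.card_ne_zero
  exact (mul_eq_zero.1 h).resolve_left hc

lemma card_ne (c : κ) : ∑ t : κ, (if c + t ≠ 0 then (1 : ℝ) else 0) = (Fintype.card κ : ℝ) - 1 := by
  rw [← sum_filter_add_sum_filter_not (univ : Finset κ) (fun t => c + t = 0)]
  rw [sum_congr rfl (g := fun _ => (0 : ℝ)) (fun t ht => by rw [if_neg]; simpa using (mem_filter.1 ht).2)]
  rw [sum_congr rfl (s₁ := univ.filter fun t => ¬ c + t = 0) (g := fun _ => (1 : ℝ)) (fun t ht => by rw [if_pos]; simpa using (mem_filter.1 ht).2)]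
  rw [sum_const_zero, zero_add, sum_const, nsmul_eq_mul, mul_one]
  have h1 : (univ.filter fun t : κ => ¬ c + t = 0) = univ.erase (-c) := by
    ext t
    simp only [mem_filter, mem_univ, true_and, mem_erase, and_true]
    rw [add_eq_zero_iff_eq_neg', ← ne_eq]
  rw [h1, card_erase_of_mem (mem_univ _), card_univ, Nat.cast_sub Fintype.card_pos, Nat.cast_one]

lemma nonzero_count (i : Fin r) (hi : 0 < n i) (x : κ) :
    (Fintype.card κ : ℝ) * ∑ u : Fin D → κ, (if (fp e u i).eval x ≠ 0 then (1 : ℝ) else 0) =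
      (Fintype.card κ : ℝ) ^ D * (Fintype.card κ - 1) := by
  rw [shift (dir e i hi)]
  have h1 : ∀ u : Fin D → κ, ∑ t : κ, (if (fp e (u + t • dir e i hi) i).eval x ≠ 0 then (1 : ℝ) else 0) = (Fintype.card κ : ℝ) - 1 := by
    intro u
    simp only [fp_dir, eval_add, eval_C]
    exact card_ne _
  rw [sum_congr rfl fun u _ => h1 u, sum_const, card_univ, nsmul_eq_mul, Fintype.card_fun, Fintype.card_fin]
  push_cast
  ring

lemma chi_sq (a : κ) : (quadraticChar κ a : ℝ) * quadraticChar κ a = if a ≠ 0 then 1 else 0 := by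
  by_cases h : a = 0
  · simp [h]
  · rw [if_pos h]
    rcases quadraticChar_dichotomy h with h1 | h1 <;> simp [h1]

/-- the second moment of the traces -/
lemma mom_sq (hκ : ringChar κ ≠ 2) (i : Fin r) (hi : 1 < n i) :
    ∑ u : Fin D → κ, (∑ x : κ, (quadraticChar κ ((fp e u i).eval x) : ℝ)) * (∑ x : κ, (quadraticChar κ ((fp e u i).eval x) : ℝ)) =
      (Fintype.card κ : ℝ) ^ D * (Fintype.card κ - 1) := by
  have h1 : ∀ u : Fin D → κ, (∑ x : κ, (quadraticChar κ ((fp e u i).eval x) : ℝ)) * (∑ x : κ, (quadraticChar κ ((fp e u i).eval x) : ℝ)) =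
      ∑ x : κ, ∑ y : κ, (quadraticChar κ ((fp e u i).eval x) : ℝ) * quadraticChar κ ((fp e u i).eval y) := by
    intro u
    rw [sum_mul_sum]
  rw [sum_congr rfl fun u _ => h1 u, sum_comm]
  have h2 : ∀ x : κ, ∑ u : Fin D → κ, ∑ y : κ, (quadraticChar κ ((fp e u i).eval x) : ℝ) * quadraticChar κ ((fp e u i).eval y) =
      ∑ u : Fin D → κ, (if (fp e u i).eval x ≠ 0 then (1 : ℝ) else 0) := by
    intro x
    rw [sum_comm, sum_eq_single x]
    · exact sum_congr rfl fun u _ => chi_sq _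
    · intro y _ hy
      exact mom_same e hκ i hi x y (Ne.symm hy)
    · intro h
      exact absurd (mem_univ _) h
  rw [sum_congr rfl fun x _ => h2 x]
  have hc : (Fintype.card κ : ℝ) ≠ 0 := by exact_mod_cast Fintype.card_ne_zero
  have h3 : ∀ x : κ, ∑ u : Fin D → κ, (if (fp e u i).eval x ≠ 0 then (1 : ℝ) else 0) =
      (Fintype.card κ : ℝ) ^ D * (Fintype.card κ - 1) / Fintype.card κ := by
    intro x
    rw [eq_div_iff hc, mul_comm]
    exact nonzero_count e i (by omega) x
  rw [sum_congr rfl fun x _ => h3 x, sum_const, card_univ, nsmul_eq_mul]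
  field_simp

lemma mom_cross (hκ : ringChar κ ≠ 2) (i j : Fin r) (hi : 0 < n i) (hij : i ≠ j) :
    ∑ u : Fin D → κ, (∑ x : κ, (quadraticChar κ ((fp e u i).eval x) : ℝ)) * (∑ x : κ, (quadraticChar κ ((fp e u j).eval x) : ℝ)) = 0 := by
  have h1 : ∀ u : Fin D → κ, (∑ x : κ, (quadraticChar κ ((fp e u i).eval x) : ℝ)) * (∑ x : κ, (quadraticChar κ ((fp e u j).eval x) : ℝ)) =
      ∑ x : κ, ∑ y : κ, (quadraticChar κ ((fp e u i).eval x) : ℝ) * quadraticChar κ ((fp e u j).eval y) := by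
    intro u
    rw [sum_mul_sum]
  rw [sum_congr rfl fun u _ => h1 u, sum_comm]
  refine sum_eq_zero fun x _ => ?_
  rw [sum_comm]
  exact sum_eq_zero fun y _ => mom_other e hκ i j hi hij x y

end mom

end Pool.Agent.L5helper12.JV
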