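import Pool.Agent.L5helper12.JVa

/-!
# Families of hyperelliptic curves over finite fields: the points over the quadratic extension, and the separable members
-/

set_option autoImplicit false

namespace Pool.Agent.L5helper12.JV

open Polynomial Finset
open Pool.Agent.H126T

section ext
variable {κ : Type} [Field κ] [Fintype κ] [DecidableEq κ] {E : Type} [Field E] [Fintype E] [DecidableEq E] [Algebra κ E]
  {r D : ℕ} {n : Fin r → ℕ} (e : Fin D ≃ Ix r n)

lemma chi_base (hE : Fintype.card E = Fintype.card κ ^ 2) (hκ : ringChar κ ≠ 2) (a : κ) :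
    (quadraticChar E (algebraMap κ E a) : ℝ) = if a ≠ 0 then 1 else 0 := by
  by_cases ha : a = 0
  · simp [ha]
  · rw [if_pos ha]
    have hE2 : ringChar E ≠ 2 := by rwa [← Algebra.ringChar_eq κ E]
    have ha' : algebraMap κ E a ≠ 0 := by rwa [Ne, FaithfulSMul.algebraMap_eq_zero_iff]
    have h1 : quadraticChar E (algebraMap κ E a) = 1 := by
      rw [quadraticChar_one_iff_isSquare ha', FiniteField.isSquare_iff hE2 ha', hE]
      have h2 := FiniteField.odd_card_of_char_ne_two hκ
      obtain ⟨k, hk⟩ : ∃ k, Fintype.card κ = 2 * k + 1 := ⟨Fintype.card κ / 2, by omega⟩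
      have h3 : Fintype.card κ ^ 2 / 2 = (Fintype.card κ - 1) * (k + 1) := by
        rw [hk]
        have : (2 * k + 1) ^ 2 = 2 * ((2 * k + 1 - 1) * (k + 1)) + 1 := by
          rw [Nat.add_sub_cancel]
          ring
        omega
      rw [h3, pow_mul, ← map_pow, FiniteField.pow_card_sub_one_eq_one a ha, map_one, one_pow]
    rw [h1, Int.cast_one]

lemma bij (hE : Fintype.card E = Fintype.card κ ^ 2) (x : E) (hx : x ∉ Set.range (algebraMap κ E)) (c : E) :
    Function.Bijective (fun st : κ × κ => c + algebraMap κ E st.1 + algebraMap κ E st.2 * x) := by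
  rw [Fintype.bijective_iff_injective_and_card]
  refine ⟨?_, by rw [Fintype.card_prod, hE, sq]⟩
  rintro ⟨s, t⟩ ⟨s', t'⟩ h
  simp only at h
  have h1 : algebraMap κ E (s - s') = algebraMap κ E (t' - t) * x := by
    rw [map_sub, map_sub]
    linear_combination h
  by_cases ht : t' - t = 0
  · rw [ht, map_zero, zero_mul, FaithfulSMul.algebraMap_eq_zero_iff] at h1
    exact Prod.ext (sub_eq_zero.1 h1) (sub_eq_zero.1 ht).symm
  · exfalso
    apply hx
    refine ⟨(s - s') / (t' - t), ?_⟩
    have ht' : algebraMap κ E (t' - t) ≠ 0 := by rwa [Ne, FaithfulSMul.algebraMap_eq_zero_iff]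
    rw [map_div₀, h1]
    field_simp

lemma ext_out (hE : Fintype.card E = Fintype.card κ ^ 2) (hκ : ringChar κ ≠ 2) (i : Fin r) (hi : 1 < n i) (x : E)
    (hx : x ∉ Set.range (algebraMap κ E)) :
    ∑ u : Fin D → κ, (quadraticChar E (((fp e u i).map (algebraMap κ E)).eval x) : ℝ) = 0 := by
  have hE2 : ringChar E ≠ 2 := by rwa [← Algebra.ringChar_eq κ E]
  have hi0 : 0 < n i := by omega
  have h1 := shift (dir1 e i hi) (fun u : Fin D → κ => (quadraticChar E (((fp e u i).map (algebraMap κ E)).eval x) : ℝ))
  have h2 := shift (dir e i hi0) (fun u : Fin D → κ => ∑ t : κ,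
    (quadraticChar E (((fp e (u + t • dir1 e i hi) i).map (algebraMap κ E)).eval x) : ℝ))
  rw [← h1] at h2
  have h3 : ∀ u : Fin D → κ, ∑ s : κ, ∑ t : κ,
      (quadraticChar E (((fp e (u + s • dir e i hi0 + t • dir1 e i hi) i).map (algebraMap κ E)).eval x) : ℝ) = 0 := by
    intro u
    have e1 : ∀ s t : κ, ((fp e (u + s • dir e i hi0 + t • dir1 e i hi) i).map (algebraMap κ E)).eval x =
        ((fp e u i).map (algebraMap κ E)).eval x + algebraMap κ E s + algebraMap κ E t * x := by
      intro s t
      rw [fp_dir1, fp_dir]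
      simp
    simp only [e1]
    have h4 := Fintype.sum_bijective _ (bij hE x hx (((fp e u i).map (algebraMap κ E)).eval x))
      (fun st : κ × κ => (quadraticChar E (((fp e u i).map (algebraMap κ E)).eval x + algebraMap κ E st.1 + algebraMap κ E st.2 * x) : ℝ))
      (fun z : E => (quadraticChar E z : ℝ)) (fun st => rfl)
    rw [Fintype.sum_prod_type] at h4
    rw [h4]
    exact_mod_cast quadraticChar_sum_zero hE2
  rw [sum_congr rfl fun u _ => h3 u, sum_const_zero] at h2
  have hc : (Fintype.card κ : ℝ) ≠ 0 := by exact_mod_cast Fintype.card_ne_zero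
  exact (mul_eq_zero.1 ((mul_eq_zero.1 h2).resolve_left hc)).resolve_left hc

/-- the mean value of the second traces -/
lemma ext_mean (hE : Fintype.card E = Fintype.card κ ^ 2) (hκ : ringChar κ ≠ 2) (i : Fin r) (hi : 1 < n i) :
    ∑ u : Fin D → κ, ∑ x : E, (quadraticChar E (((fp e u i).map (algebraMap κ E)).eval x) : ℝ) =
      (Fintype.card κ : ℝ) ^ D * (Fintype.card κ - 1) := by
  rw [sum_comm]
  have hinj : Function.Injective (algebraMap κ E) := (algebraMap κ E).injective
  rw [← sum_subset (subset_univ (univ.image (algebraMap κ E)))]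
  · rw [sum_image fun a _ b _ h => hinj h]
    have h1 : ∀ y : κ, ∑ u : Fin D → κ, (quadraticChar E (((fp e u i).map (algebraMap κ E)).eval (algebraMap κ E y)) : ℝ) =
        (Fintype.card κ : ℝ) ^ D * (Fintype.card κ - 1) / Fintype.card κ := by
      intro y
      have hc : (Fintype.card κ : ℝ) ≠ 0 := by exact_mod_cast Fintype.card_ne_zero
      rw [eq_div_iff hc, mul_comm, ← nonzero_count e i (by omega) y]
      congr 1
      refine sum_congr rfl fun u _ => ?_
      rw [eval_map_algebraMap, aeval_algebraMap_apply, coe_aeval_eq_eval]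
      exact chi_base hE hκ _
    rw [sum_congr rfl fun y _ => h1 y, sum_const, card_univ, nsmul_eq_mul]
    have hc : (Fintype.card κ : ℝ) ≠ 0 := by exact_mod_cast Fintype.card_ne_zero
    field_simp
  · intro x _ hx
    refine ext_out e hE hκ i hi x fun hx' => hx ?_
    obtain ⟨y, hy⟩ := hx'
    exact mem_image.2 ⟨y, mem_univ _, hy⟩

end ext

section sep
variable {κ : Type} [Field κ] [Fintype κ] [DecidableEq κ] {r D : ℕ} {n : Fin r → ℕ} (e : Fin D ≃ Ix r n)

open Classical in
lemma sep_line (f : κ[X]) (hf : derivative f ≠ 0) :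
    (univ.filter fun t : κ => ¬ (f + C t).Separable).card ≤ (derivative f).natDegree := by
  let Ω := AlgebraicClosure κ
  have h1 : (univ.filter fun t : κ => ¬ (f + C t).Separable).image (algebraMap κ Ω) ⊆
      (((derivative f).map (algebraMap κ Ω)).roots.toFinset).image (fun α => -(aeval α f)) := by
    intro z hz
    rw [mem_image] at hz
    obtain ⟨t, ht, rfl⟩ := hz
    rw [mem_filter] at ht
    have h2 := ht.2
    rw [separable_def, derivative_add, derivative_C, add_zero, isCoprime_iff_aeval_ne_zero_of_isAlgClosed κ Ω] at h2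
    push Not at h2
    obtain ⟨α, h3, h4⟩ := h2
    rw [mem_image]
    refine ⟨α, ?_, ?_⟩
    · rw [Multiset.mem_toFinset, mem_roots (map_ne_zero hf), IsRoot.def, eval_map_algebraMap]
      exact h4
    · rw [map_add, aeval_C] at h3
      linear_combination -h3
  have h2 := card_le_card h1
  rw [card_image_of_injective _ (algebraMap κ Ω).injective] at h2
  refine h2.trans (card_image_le.trans ((Multiset.toFinset_card_le _).trans ?_))
  refine (card_roots' _).trans ?_
  rw [natDegree_map]

open Classical in
lemma bad_count (i : Fin r) (hi : 1 < n i) :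
    (Fintype.card κ : ℝ) * ∑ u : Fin D → κ, (if (fp e u i).Separable then (0 : ℝ) else 1) ≤ n i * (Fintype.card κ : ℝ) ^ D := by
  have hi0 : 0 < n i := by omega
  have hq : (0 : ℝ) < Fintype.card κ := by exact_mod_cast Fintype.card_pos
  rw [shift (dir e i hi0)]
  have h1 : ∀ u : Fin D → κ, ∑ t : κ, (if (fp e (u + t • dir e i hi0) i).Separable then (0 : ℝ) else 1) ≤
      ((n i : ℝ) - 1) + Fintype.card κ * (if derivative (fp e u i) = 0 then (1 : ℝ) else 0) := by
    intro u
    have e1 : ∑ t : κ, (if (fp e (u + t • dir e i hi0) i).Separable then (0 : ℝ) else 1) =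
        ((univ.filter fun t : κ => ¬ (fp e u i + C t).Separable).card : ℝ) := by
      rw [card_filter]
      push_cast
      refine sum_congr rfl fun t _ => ?_
      rw [fp_dir]
      split_ifs <;> simp_all
    rw [e1]
    by_cases h0 : derivative (fp e u i) = 0
    · rw [if_pos h0, mul_one]
      have h2 : ((univ.filter fun t : κ => ¬ (fp e u i + C t).Separable).card : ℝ) ≤ Fintype.card κ := by
        exact_mod_cast card_le_univ _
      have h3 : (1 : ℝ) ≤ n i := by exact_mod_cast hi0
      linarith
    · rw [if_neg h0, mul_zero, add_zero]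
      have h2 := sep_line (fp e u i) h0
      have h3 : (derivative (fp e u i)).natDegree ≤ n i - 1 := by
        have := natDegree_derivative_le (fp e u i)
        rwa [fp_natDegree] at this
      have h4 : ((n i - 1 : ℕ) : ℝ) = (n i : ℝ) - 1 := by rw [Nat.cast_sub hi0, Nat.cast_one]
      rw [← h4]
      exact_mod_cast h2.trans h3
  refine (sum_le_sum fun u _ => h1 u).trans ?_
  rw [sum_add_distrib, sum_const, card_univ, nsmul_eq_mul, ← mul_sum, Fintype.card_fun, Fintype.card_fin]
  have h5 : (Fintype.card κ : ℝ) * ∑ u : Fin D → κ, (if derivative (fp e u i) = 0 then (1 : ℝ) else 0) ≤ (Fintype.card κ : ℝ) ^ D := by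
    rw [shift (dir1 e i hi)]
    have e2 : ∀ u : Fin D → κ, ∑ t : κ, (if derivative (fp e (u + t • dir1 e i hi) i) = 0 then (1 : ℝ) else 0) ≤ 1 := by
      intro u
      have e3 : ∀ t : κ, (if derivative (fp e (u + t • dir1 e i hi) i) = 0 then (1 : ℝ) else 0) =
          if derivative (fp e u i) + C t = 0 then 1 else 0 := by
        intro t
        rw [fp_dir1, derivative_add, derivative_C_mul, derivative_X, mul_one]
      rw [sum_congr rfl fun t _ => e3 t, ← sum_filter, sum_const, nsmul_eq_mul, mul_one]
      have e4 : (univ.filter fun t : κ => derivative (fp e u i) + C t = 0).card ≤ 1 := by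
        rw [card_le_one]
        intro a ha b hb
        rw [mem_filter] at ha hb
        have : C a = C b := by
          have h6 := ha.2
          have h7 := hb.2
          linear_combination h6 - h7
        exact C_injective this
      exact_mod_cast e4
    refine (sum_le_sum fun u _ => e2 u).trans ?_
    rw [sum_const, card_univ, nsmul_eq_mul, mul_one, Fintype.card_fun, Fintype.card_fin]
    push_cast
    exact le_rfl
  push_cast
  linarith

end sep

end Pool.Agent.L5helper12.JV
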