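import Pool.Agent.L5helper12.JVb

/-!
# The trace of the Frobenius on `H²` of products of hyperelliptic curves and Jacobians: the mean value
-/

set_option autoImplicit false

namespace Pool.Agent.L5helper12.JV

open Polynomial Finset
open Pool.Agent.H126T

lemma affPts_congr {κ κ' : Type} [Field κ] [Field κ'] (σ : κ ≃+* κ') (f : κ[X]) (m : ℕ) :
    affPts κ' (f.map (σ : κ →+* κ')) 1 m = affPts κ f 1 m := by
  have hc : Nat.card κ' = Nat.card κ := (Nat.card_congr σ.toEquiv).symm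
  let τ := IsAlgClosure.equivOfEquiv (AlgebraicClosure κ) (AlgebraicClosure κ') σ
  have hτ : ∀ a, τ (algebraMap κ (AlgebraicClosure κ) a) = algebraMap κ' (AlgebraicClosure κ') (σ a) := fun a =>
    IsAlgClosure.equivOfEquiv_algebraMap _ _ σ a
  have hτ' : ((τ : AlgebraicClosure κ →+* AlgebraicClosure κ').comp (algebraMap κ (AlgebraicClosure κ))) =
      (algebraMap κ' (AlgebraicClosure κ')).comp (σ : κ →+* κ') := RingHom.ext hτ
  have hev : ∀ x, aeval (τ x) (f.map (σ : κ →+* κ')) = τ (aeval x f) := by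
    intro x
    rw [aeval_def, eval₂_map, ← hτ', aeval_def]
    exact (hom_eval₂ f (algebraMap κ (AlgebraicClosure κ)) (τ : AlgebraicClosure κ →+* AlgebraicClosure κ') x).symm
  unfold affPts
  rw [hc]
  symm
  refine Nat.card_congr (Equiv.subtypeEquiv (Equiv.prodCongr τ.toEquiv τ.toEquiv) fun P => ?_)
  show P.1 ^ (Nat.card κ ^ m) = P.1 ∧ P.2 ^ (Nat.card κ ^ m) = P.2 ∧ _ ↔
    (τ P.1) ^ (Nat.card κ ^ m) = τ P.1 ∧ (τ P.2) ^ (Nat.card κ ^ m) = τ P.2 ∧ _ * (τ P.2) ^ 2 = aeval (τ P.1) (f.map (σ : κ →+* κ'))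
  rw [hev, ← map_pow, ← map_pow, ← map_pow, τ.injective.eq_iff, τ.injective.eq_iff, map_one, map_one, one_mul, one_mul, τ.injective.eq_iff]

section
variable {r D : ℕ} {n : Fin r → ℕ} (e : Fin D ≃ Ix r n)

/-- the trace of the `m`-th power of the Frobenius on `H¹` of the curve number `i` -/
noncomputable def tr (κ : Type) [Field κ] (u : Fin D → κ) (i : Fin r) (m : ℕ) : ℝ :=
  (Nat.card κ : ℝ) ^ m + 1 - (affPts κ (fp e u i) 1 m + 1)

open Classical in
/-- the trace of the Frobenius on `H²` of the product of the Jacobians of the curves number `i` with `jac i` and of the other curves -/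
noncomputable def b2 (jac : Fin r → Prop) (κ : Type) [Field κ] (u : Fin D → κ) : ℝ :=
  ∑ i, (if jac i then ((tr e κ u i 1) ^ 2 - tr e κ u i 2) / 2 else (Nat.card κ : ℝ)) +
    ∑ p ∈ (univ : Finset (Fin r × Fin r)).filter (fun p => p.1 < p.2), tr e κ u p.1 1 * tr e κ u p.2 1

/-- the curves have good reduction -/
def Gd (κ : Type) [Field κ] (u : Fin D → κ) : Prop := (2 : κ) ≠ 0 ∧ ∀ i, (fp e u i).Separable

open Classical in
/-- the normalised trace, and `0` in the case of bad reduction -/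
noncomputable def Fb (jac : Fin r → Prop) (κ : Type) [Field κ] (u : Fin D → κ) : ℝ :=
  if Gd e κ u then b2 e jac κ u / Nat.card κ else 0

lemma tr_congr {κ κ' : Type} [Field κ] [Field κ'] (σ : κ ≃+* κ') (u : Fin D → κ) (i : Fin r) (m : ℕ) :
    tr e κ' (fun k => σ (u k)) i m = tr e κ u i m := by
  unfold tr
  have h1 : fp e (fun k => σ (u k)) i = (fp e u i).map (σ : κ →+* κ') := (fp_map e (σ : κ →+* κ') u i).symm
  rw [h1, affPts_congr, (Nat.card_congr σ.toEquiv).symm]

lemma Gd_congr {κ κ' : Type} [Field κ] [Field κ'] (σ : κ ≃+* κ') (u : Fin D → κ) : Gd e κ' (fun k => σ (u k)) ↔ Gd e κ u := by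
  unfold Gd
  have h0 : (2 : κ') = σ 2 := (map_ofNat σ 2).symm
  have h1 : ∀ i, fp e (fun k => σ (u k)) i = (fp e u i).map (σ : κ →+* κ') := fun i => (fp_map e (σ : κ →+* κ') u i).symm
  rw [h0]
  refine and_congr (not_congr (map_eq_zero_iff σ σ.injective)) (forall_congr' fun i => ?_)
  rw [h1, separable_map]

lemma Fb_congr (jac : Fin r → Prop) (κ κ' : Type) [Field κ] [Field κ'] (σ : κ ≃+* κ') (u : Fin D → κ) :
    Fb e jac κ' (fun k => σ (u k)) = Fb e jac κ u := by
  classical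
  unfold Fb b2
  simp only [tr_congr, Gd_congr, (Nat.card_congr σ.toEquiv).symm]

lemma char_of_two {κ : Type} [Field κ] (h : (2 : κ) ≠ 0) : ringChar κ ≠ 2 := by
  intro h2
  apply h
  have := ringChar.Nat.cast_ringChar (R := κ)
  rw [h2] at this
  exact_mod_cast this

lemma tr_bound {κ : Type} [Field κ] [Finite κ] (hκ : ringChar κ ≠ 2) (u : Fin D → κ) (i : Fin r) (hodd : Odd (n i)) (m : ℕ) (hm : m ≠ 0) :
    |tr e κ u i m| ≤ n i * Real.sqrt ((Nat.card κ : ℝ) ^ m) := by
  classical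
  let _ := Fintype.ofFinite κ
  have h := trace_bound hκ (fp e u i) (by rw [fp_natDegree]; exact hodd) 1 one_ne_zero m hm
  rw [fp_natDegree] at h
  have h1 : tr e κ u i m = (((Nat.card κ : ℤ) ^ m + 1 - (affPts κ (fp e u i) 1 m + 1) : ℤ) : ℝ) := by
    unfold tr
    push_cast
    ring
  rw [h1]
  refine h.trans ?_
  exact mul_le_mul_of_nonneg_right (by linarith) (Real.sqrt_nonneg _)

/-- the constant in the bound -/
noncomputable def Cb (n : Fin r → ℕ) : ℝ :=
  ∑ i, (1 + (n i : ℝ) ^ 2) + ∑ p ∈ (univ : Finset (Fin r × Fin r)).filter (fun p => p.1 < p.2), (n p.1 : ℝ) * n p.2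

lemma Cb_nonneg : 0 ≤ Cb n := by
  unfold Cb
  positivity

lemma b2_bound (jac : Fin r → Prop) {κ : Type} [Field κ] [Finite κ] (hκ : ringChar κ ≠ 2) (hodd : ∀ i, Odd (n i)) (u : Fin D → κ) :
    |b2 e jac κ u| ≤ Cb n * Nat.card κ := by
  classical
  have hq : (0 : ℝ) ≤ Nat.card κ := Nat.cast_nonneg _
  have h1 : ∀ i, |tr e κ u i 1| ≤ n i * Real.sqrt (Nat.card κ) := by
    intro i
    have := tr_bound e hκ u i (hodd i) 1 one_ne_zero
    rwa [pow_one] at this
  have h2 : ∀ i, |tr e κ u i 2| ≤ n i * Nat.card κ := by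
    intro i
    have := tr_bound e hκ u i (hodd i) 2 two_ne_zero
    rwa [Real.sqrt_sq hq] at this
  unfold b2 Cb
  rw [add_mul, sum_mul, sum_mul]
  refine (abs_add_le _ _).trans (add_le_add ((abs_sum_le_sum_abs _ _).trans (sum_le_sum fun i _ => ?_))
    ((abs_sum_le_sum_abs _ _).trans (sum_le_sum fun p _ => ?_)))
  · have hn : (1 : ℝ) ≤ n i := by exact_mod_cast (hodd i).pos
    split_ifs with hj
    · have e1 : (tr e κ u i 1) ^ 2 ≤ (n i : ℝ) ^ 2 * Nat.card κ := by
        rw [← sq_abs]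
        calc |tr e κ u i 1| ^ 2 ≤ (n i * Real.sqrt (Nat.card κ)) ^ 2 := pow_le_pow_left₀ (abs_nonneg _) (h1 i) 2
          _ = _ := by rw [mul_pow, Real.sq_sqrt hq]
      have e2 := abs_le.1 (h2 i)
      have e3 : (n i : ℝ) * Nat.card κ ≤ (n i : ℝ) ^ 2 * Nat.card κ := mul_le_mul_of_nonneg_right (by nlinarith) hq
      have e4 : 0 ≤ (tr e κ u i 1) ^ 2 := sq_nonneg _
      rw [abs_le]
      constructor <;> nlinarith [e2.1, e2.2]
    · rw [abs_of_nonneg hq]
      have e5 : (0 : ℝ) ≤ (n i : ℝ) ^ 2 * Nat.card κ := by positivity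
      nlinarith
  · rw [abs_mul]
    calc |tr e κ u p.1 1| * |tr e κ u p.2 1| ≤ (n p.1 * Real.sqrt (Nat.card κ)) * (n p.2 * Real.sqrt (Nat.card κ)) :=
          mul_le_mul (h1 _) (h1 _) (abs_nonneg _) (by positivity)
      _ = n p.1 * n p.2 * (Real.sqrt (Nat.card κ) * Real.sqrt (Nat.card κ)) := by ring
      _ = _ := by rw [Real.mul_self_sqrt hq]

lemma Fb_bound (jac : Fin r → Prop) (hodd : ∀ i, Odd (n i)) (κ : Type) [Field κ] [Finite κ] (u : Fin D → κ) :
    |Fb e jac κ u| ≤ Cb n * (Nat.card κ : ℝ) ^ (0 : ℝ) := by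
  classical
  rw [Real.rpow_zero, mul_one]
  unfold Fb
  split_ifs with h
  · have hq : (0 : ℝ) < Nat.card κ := by exact_mod_cast Nat.card_pos
    rw [abs_div, abs_of_pos hq, div_le_iff₀ hq]
    exact b2_bound e jac (char_of_two h.1) hodd u
  · rw [abs_zero]
    exact Cb_nonneg

section mean
variable {κ : Type} [Field κ] [Fintype κ] [DecidableEq κ]

lemma tr_one (hκ : ringChar κ ≠ 2) (u : Fin D → κ) (i : Fin r) :
    tr e κ u i 1 = -∑ x : κ, (quadraticChar κ ((fp e u i).eval x) : ℝ) := by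
  have h := trace_one hκ (fp e u i) 1 one_ne_zero
  have h1 : tr e κ u i 1 = (((Nat.card κ : ℤ) ^ 1 + 1 - (affPts κ (fp e u i) 1 1 + 1) : ℤ) : ℝ) := by
    unfold tr
    push_cast
    ring
  rw [h1, h]
  push_cast
  simp

lemma tr_two_mean (hκ : ringChar κ ≠ 2) (i : Fin r) (hi : 1 < n i) :
    ∑ u : Fin D → κ, tr e κ u i 2 = -((Fintype.card κ : ℝ) ^ D * (Fintype.card κ - 1)) := by
  classical
  obtain ⟨E, i1, i2, i3, hE⟩ := exists_ext (k := κ) 2 two_ne_zero
  let _ := Fintype.ofFinite E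
  have hE2 : ringChar E ≠ 2 := by rwa [← Algebra.ringChar_eq κ E]
  have hE' : Fintype.card E = Fintype.card κ ^ 2 := by
    rw [← Nat.card_eq_fintype_card, hE, Nat.card_eq_fintype_card]
  rw [← ext_mean e hE' hκ i hi, ← sum_neg_distrib]
  refine sum_congr rfl fun u _ => ?_
  unfold tr
  rw [affPts_eq (fp e u i) 1 2 E hE]
  have e1 : {P : E × E // algebraMap κ E 1 * P.2 ^ 2 = aeval P.1 (fp e u i)} =
      {P : E × E // (1 : E) * P.2 ^ 2 = ((fp e u i).map (algebraMap κ E)).eval P.1} := by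
    congr 1
    funext P
    rw [eval_map_algebraMap, map_one]
  rw [e1]
  have h1 := card_aff hE2 ((fp e u i).map (algebraMap κ E)) 1 one_ne_zero
  rw [map_one, one_mul] at h1
  have h2 : (Nat.card {P : E × E // (1 : E) * P.2 ^ 2 = ((fp e u i).map (algebraMap κ E)).eval P.1} : ℝ) =
      Fintype.card E + ∑ x : E, (quadraticChar E (((fp e u i).map (algebraMap κ E)).eval x) : ℝ) := by
    exact_mod_cast h1
  rw [h2, hE', Nat.card_eq_fintype_card]
  push_cast
  ring

/-- the mean value of the traces on `H²` -/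
lemma b2_mean (jac : Fin r → Prop) [DecidablePred jac] (hκ : ringChar κ ≠ 2) (hn : ∀ i, 1 < n i) :
    ∑ u : Fin D → κ, b2 e jac κ u = (Fintype.card κ : ℝ) ^ D * (r * Fintype.card κ - ((univ.filter fun i => jac i).card : ℝ)) := by
  have h1 : ∀ i, ∑ u : Fin D → κ, (tr e κ u i 1) ^ 2 = (Fintype.card κ : ℝ) ^ D * (Fintype.card κ - 1) := by
    intro i
    rw [← mom_sq e hκ i (hn i)]
    refine sum_congr rfl fun u _ => ?_
    rw [tr_one e hκ]
    ring
  have h2 : ∀ i j, i ≠ j → ∑ u : Fin D → κ, tr e κ u i 1 * tr e κ u j 1 = 0 := by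
    intro i j hij
    rw [← mom_cross e hκ i j (by have := hn i; omega) hij]
    refine sum_congr rfl fun u _ => ?_
    rw [tr_one e hκ, tr_one e hκ]
    ring
  have h3 : ∀ i, ∑ u : Fin D → κ, (if jac i then ((tr e κ u i 1) ^ 2 - tr e κ u i 2) / 2 else (Nat.card κ : ℝ)) =
      (Fintype.card κ : ℝ) ^ D * (Fintype.card κ - if jac i then 1 else 0) := by
    intro i
    split_ifs with hj
    · rw [← sum_div, sum_sub_distrib, h1 i, tr_two_mean e hκ i (hn i)]
      ring
    · rw [sum_const, card_univ, nsmul_eq_mul, Fintype.card_fun, Fintype.card_fin, Nat.card_eq_fintype_card]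
      push_cast
      ring
  unfold b2
  rw [sum_add_distrib, sum_comm]
  have h4 : ∑ u : Fin D → κ, ∑ p ∈ (univ : Finset (Fin r × Fin r)).filter (fun p => p.1 < p.2), tr e κ u p.1 1 * tr e κ u p.2 1 = 0 := by
    rw [sum_comm]
    refine sum_eq_zero fun p hp => ?_
    rw [mem_filter] at hp
    exact h2 _ _ (ne_of_lt hp.2)
  rw [h4, add_zero]
  have h5 : ∀ i : Fin r, ∑ u : Fin D → κ, (@ite ℝ (jac i) (Classical.propDecidable _) (((tr e κ u i 1) ^ 2 - tr e κ u i 2) / 2) (Nat.card κ : ℝ)) =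
      (Fintype.card κ : ℝ) ^ D * (Fintype.card κ - if jac i then 1 else 0) := by
    intro i
    rw [← h3 i]
    refine sum_congr rfl fun u _ => ?_
    congr
  rw [sum_congr rfl fun i _ => h5 i, ← mul_sum, sum_sub_distrib, sum_const, card_univ, Fintype.card_fin, nsmul_eq_mul, card_filter]
  push_cast
  rfl

end mean

/-- the mean value of the normalised traces over the prime fields -/
lemma Fb_mean (jac : Fin r → Prop) (hodd : ∀ i, Odd (n i)) (hn : ∀ i, 1 < n i) : ∃ C : ℝ, 0 ≤ C ∧ ∀ (p : ℕ) [Fact p.Prime],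
    |(∑ u : Fin D → ZMod p, Fb e jac (ZMod p) u) / (p : ℝ) ^ D - r| ≤ C / Real.sqrt p := by
  classical
  obtain ⟨S, hS⟩ : ∃ S : ℝ, S = ∑ i, (n i : ℝ) := ⟨_, rfl⟩
  have hS0 : 0 ≤ S := by rw [hS]; positivity
  have hC0 := Cb_nonneg (n := n)
  refine ⟨2 * r + Cb n * S, by positivity, fun p hp => ?_⟩
  have hp0 : (0 : ℝ) < p := by exact_mod_cast hp.out.pos
  have hp1 : (1 : ℝ) ≤ p := by exact_mod_cast hp.out.one_lt.le
  have hsq : (0 : ℝ) < Real.sqrt p := Real.sqrt_pos.2 hp0
  have hsq1 : (1 : ℝ) ≤ Real.sqrt p := by rw [Real.one_le_sqrt]; exact hp1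
  have hsq2 : Real.sqrt p ≤ p := by
    rw [Real.sqrt_le_left hp0.le]
    nlinarith
  have hr0 : (0 : ℝ) ≤ r := Nat.cast_nonneg _
  by_cases h2 : p = 2
  · subst h2
    have h0 : ∀ u : Fin D → ZMod 2, Fb e jac (ZMod 2) u = 0 := by
      intro u
      unfold Fb
      rw [if_neg]
      intro h
      apply h.1
      have h3 : ((2 : ℕ) : ZMod 2) = 0 := ZMod.natCast_self 2
      exact_mod_cast h3
    rw [sum_congr rfl fun u _ => h0 u, sum_const_zero, zero_div, zero_sub, abs_neg, abs_of_nonneg hr0, le_div_iff₀ hsq]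
    have h3 : Real.sqrt ((2 : ℕ) : ℝ) ≤ 2 := by
      rw [Real.sqrt_le_left (by norm_num)]
      norm_num
    have h4 : 0 ≤ Cb n * S := by positivity
    nlinarith
  · have hκ : ringChar (ZMod p) ≠ 2 := by rwa [ZMod.ringChar_zmod_n]
    have h20 : (2 : ZMod p) ≠ 0 := by
      intro h
      have h3 : ((2 : ℕ) : ZMod p) = 0 := by exact_mod_cast h
      rw [ZMod.natCast_eq_zero_iff] at h3
      exact h2 ((Nat.prime_dvd_prime_iff_eq hp.out Nat.prime_two).1 h3)
    have hpD : (0 : ℝ) < (p : ℝ) ^ D := by positivity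
    have hb := b2_mean e jac hκ hn
    rw [ZMod.card] at hb
    -- the members with bad reduction
    have hbad : ∑ u : Fin D → ZMod p, (if Gd e (ZMod p) u then (0 : ℝ) else 1) ≤ S * (p : ℝ) ^ D / p := by
      have h3 : ∀ u : Fin D → ZMod p, (if Gd e (ZMod p) u then (0 : ℝ) else 1) ≤ ∑ i, (if (fp e u i).Separable then (0 : ℝ) else 1) := by
        intro u
        split_ifs with hg
        · exact sum_nonneg fun i _ => by split_ifs <;> norm_num
        · have h4 : ∃ i, ¬ (fp e u i).Separable := by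
            by_contra hcon
            push Not at hcon
            exact hg ⟨h20, hcon⟩
          obtain ⟨i, hi⟩ := h4
          have h5 := single_le_sum (f := fun i => if (fp e u i).Separable then (0 : ℝ) else 1) (fun j _ => by split_ifs <;> norm_num) (mem_univ i)
          simp only [if_neg hi] at h5
          exact h5
      refine (sum_le_sum fun u _ => h3 u).trans ?_
      rw [sum_comm, hS, sum_mul, sum_div]
      refine sum_le_sum fun i _ => ?_
      rw [le_div_iff₀ hp0, mul_comm]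
      have h6 := bad_count (κ := ZMod p) e i (hn i)
      rw [ZMod.card] at h6
      exact h6
    have hsplit : ∀ u : Fin D → ZMod p, |Fb e jac (ZMod p) u - b2 e jac (ZMod p) u / p| ≤ Cb n * (if Gd e (ZMod p) u then (0 : ℝ) else 1) := by
      intro u
      unfold Fb
      rw [Nat.card_zmod]
      split_ifs with hg
      · rw [sub_self, abs_zero, mul_zero]
      · rw [zero_sub, abs_neg, mul_one, abs_div, abs_of_pos hp0, div_le_iff₀ hp0]
        have h7 := b2_bound e jac hκ hodd u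
        rwa [Nat.card_zmod] at h7
    have h8 : |∑ u : Fin D → ZMod p, Fb e jac (ZMod p) u - (∑ u : Fin D → ZMod p, b2 e jac (ZMod p) u) / p| ≤ Cb n * (S * (p : ℝ) ^ D / p) := by
      rw [sum_div, ← sum_sub_distrib]
      refine (abs_sum_le_sum_abs _ _).trans ((sum_le_sum fun u _ => hsplit u).trans ?_)
      rw [← mul_sum]
      exact mul_le_mul_of_nonneg_left hbad hC0
    obtain ⟨J, hJ⟩ : ∃ J : ℝ, J = ((univ.filter fun i => jac i).card : ℝ) := ⟨_, rfl⟩
    have hJ0 : 0 ≤ J := by rw [hJ]; positivity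
    have hJr : J ≤ r := by
      rw [hJ]
      have := card_le_univ (univ.filter fun i : Fin r => jac i)
      rw [Fintype.card_fin] at this
      exact_mod_cast this
    rw [hb, ← hJ] at h8
    have h9 : |(∑ u : Fin D → ZMod p, Fb e jac (ZMod p) u) / (p : ℝ) ^ D - r| ≤ (Cb n * S + r) / p := by
      have e1 : (∑ u : Fin D → ZMod p, Fb e jac (ZMod p) u) / (p : ℝ) ^ D - r =
          (∑ u : Fin D → ZMod p, Fb e jac (ZMod p) u - (p : ℝ) ^ D * (r * p - J) / p) / (p : ℝ) ^ D - J / p := by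
        field_simp
        ring
      rw [e1]
      refine (abs_sub _ _).trans ?_
      rw [abs_div, abs_of_pos hpD, abs_of_nonneg (div_nonneg hJ0 hp0.le), add_div]
      apply add_le_add
      · rw [div_le_iff₀ hpD]
        refine h8.trans (le_of_eq ?_)
        field_simp
      · exact div_le_div_of_nonneg_right hJr hp0.le
    refine h9.trans ?_
    rw [div_le_div_iff₀ hp0 hsq]
    have h10 : 0 ≤ Cb n * S := by positivity
    nlinarith

end

end Pool.Agent.L5helper12.JV
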