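import Pool.Agent.TH163.AC3.Sw

/-!
# Families of functions computed without modular gates, under random restrictions
-/

set_option autoImplicit false

namespace Pool.Agent.L5helper12.MD

open Finset H568R2 Pool.Agent.TH163.AC3

variable {I ι : Type} [Fintype I] [DecidableEq I]

/-- the functions computed at the nodes of circuits with AND, OR and NOT gates -/
structure Fam (I ι : Type) where
  /-- the functions -/
  f : ι → (I → Bool) → Bool
  /-- the depths -/
  dep : ι → ℕ
  /-- the positions -/
  rk : ι → ℕ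
  /-- the AND gates and the OR gates -/
  gates : Finset ι
  /-- the rule -/
  rule : ∀ g, (g ∉ gates ∧ ∃ b, ∀ x, f g x = b) ∨ (g ∉ gates ∧ ∃ l, ∀ x, f g x = x l) ∨
    (g ∉ gates ∧ ∃ g', rk g' < rk g ∧ dep g' ≤ dep g ∧ ∀ x, f g x = !f g' x) ∨
    (g ∈ gates ∧ ∃ J : Finset ι, (∀ j ∈ J, rk j < rk g ∧ dep j < dep g) ∧
      ((∀ x, f g x = decide (∀ j ∈ J, f j x = true)) ∨
        ∀ x, f g x = decide (∃ j ∈ J, f j x = true)))

/-- all functions of depth at most `j` have shallow decision trees under `ρ` -/
def Shallow (F : Fam I ι) (s j : ℕ) (ρ : Restr I) : Prop :=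
  ∀ g, F.dep g ≤ j → HasDT s (rs (F.f g) ρ)

lemma literal {s : ℕ} (hs : 1 ≤ s) (ρ : Restr I) (l : I) : HasDT s (rs (fun x => x l) ρ) := by
  cases hρ : ρ l with
  | none =>
    refine ⟨Pool.Agent.TH163.AC3.Tree.node l (Pool.Agent.TH163.AC3.Tree.leaf false)
      (Pool.Agent.TH163.AC3.Tree.leaf true), ?_, ?_⟩
    · unfold Pool.Agent.TH163.AC3.Tree.depth
      simp only [Pool.Agent.TH163.AC3.Tree.depth]
      omega
    · intro x
      have h1 : rs (fun x : I → Bool => x l) ρ x = x l := by
        show ov ρ x l = x l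
        unfold ov
        rw [hρ]
        rfl
      rw [h1]
      unfold Pool.Agent.TH163.AC3.Tree.eval
      rcases hx : x l with _ | _
      · simp [Pool.Agent.TH163.AC3.Tree.eval]
      · simp [Pool.Agent.TH163.AC3.Tree.eval]
  | some b =>
    apply hasDT_const b
    intro x
    show ov ρ x l = b
    unfold ov
    rw [hρ]
    rfl

lemma shallow_of_gates (F : Fam I ι) {s j : ℕ} (hs : 1 ≤ s) {ρ : Restr I}
    (h : ∀ g ∈ F.gates, F.dep g ≤ j → HasDT s (rs (F.f g) ρ)) : Shallow F s j ρ := by
  have key : ∀ N g, F.rk g < N → F.dep g ≤ j → HasDT s (rs (F.f g) ρ) := by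
    intro N
    induction N with
    | zero => intro g hg; omega
    | succ N ih =>
      intro g hg hd
      rcases F.rule g with ⟨_, b, hb⟩ | ⟨_, l, hl⟩ | ⟨_, g', hr, hd', hg'⟩ | ⟨hg1, _⟩
      · exact hasDT_const b (fun x => hb _) s
      · have : F.f g = fun x => x l := funext hl
        rw [this]
        exact literal hs ρ l
      · have h1 := (ih g' (by omega) (by omega)).not
        have h2 : rs (F.f g) ρ = fun x => !rs (F.f g') ρ x := by
          funext x
          exact hg' _
        rw [h2]
        exact h1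
      · exact h g hg1 hd
  exact fun g hd => key (F.rk g + 1) g (Nat.lt_succ_self _) hd

lemma cert_and {s : ℕ} {ρ : Restr I} (F : Fam I ι) (J : Finset ι)
    (hJ : ∀ j ∈ J, HasDT s (rs (F.f j) ρ)) {f : (I → Bool) → Bool}
    (hf : ∀ x, f x = decide (∀ j ∈ J, F.f j x = true)) : Cert s false (rs f ρ) := by
  intro x hx
  have hx' : f (ov ρ x) = false := hx
  rw [hf] at hx'
  simp only [decide_eq_false_iff_not, not_forall] at hx'
  obtain ⟨v, hv, hvx⟩ := hx'
  have hv' : rs (F.f v) ρ x = false := by
    show F.f v (ov ρ x) = false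
    simpa using hvx
  obtain ⟨A, hA, hy⟩ := (hJ v hv).cert false x hv'
  refine ⟨A, hA, fun y hxy => ?_⟩
  show f (ov ρ y) = false
  rw [hf]
  simp only [decide_eq_false_iff_not, not_forall]
  exact ⟨v, hv, by have := hy y hxy; simpa [rs] using this⟩

lemma cert_or {s : ℕ} {ρ : Restr I} (F : Fam I ι) (J : Finset ι)
    (hJ : ∀ j ∈ J, HasDT s (rs (F.f j) ρ)) {f : (I → Bool) → Bool}
    (hf : ∀ x, f x = decide (∃ j ∈ J, F.f j x = true)) : Cert s true (rs f ρ) := by
  intro x hx
  have hx' : f (ov ρ x) = true := hx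
  rw [hf] at hx'
  simp only [decide_eq_true_eq] at hx'
  obtain ⟨v, hv, hvx⟩ := hx'
  obtain ⟨A, hA, hy⟩ := (hJ v hv).cert true x hvx
  refine ⟨A, hA, fun y hxy => ?_⟩
  show f (ov ρ y) = true
  rw [hf]
  simp only [decide_eq_true_eq]
  exact ⟨v, hv, hy y hxy⟩

open Classical in
/-- Hastad's collapse of a circuit of depth `j`. -/
theorem collapse (F : Fam I ι) {q : ℝ} (h0 : 0 ≤ q) (h1 : q ≤ 1 / 3) {s : ℕ}
    (hs : 1 ≤ s) : ∀ j : ℕ,
    Ex (wq (q ^ j)) (fun ρ : Restr I => if ¬ Shallow F s j ρ then (1 : ℝ) else 0) ≤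
      j * F.gates.card * (12 * s * q) ^ (s + 1) := by
  intro j
  induction j with
  | zero =>
    have hgood : ∀ ρ : Restr I, Shallow F s 0 ρ := by
      intro ρ
      refine shallow_of_gates F hs fun g hg hd => ?_
      rcases F.rule g with ⟨h, _⟩ | ⟨h, _⟩ | ⟨h, _⟩ | ⟨_, J, hJ, h⟩
      · exact absurd hg h
      · exact absurd hg h
      · exact absurd hg h
      · have hJ0 : J = ∅ := by
          refine Finset.eq_empty_iff_forall_notMem.2 fun j hj => ?_
          have := (hJ j hj).2
          omega
        subst hJ0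
        rcases h with h | h
        · refine hasDT_const true (fun x => ?_) s
          show F.f g _ = true
          rw [h]
          simp
        · refine hasDT_const false (fun x => ?_) s
          show F.f g _ = false
          rw [h]
          simp
    simp only [hgood, not_true, if_false]
    unfold Ex
    simp
  | succ j ih =>
    rw [pow_succ, wq_cmp]
    set ε : ℝ := (12 * s * q) ^ (s + 1) with hε
    have hε0 : 0 ≤ ε := by positivity
    have hwj : ∀ a, 0 ≤ wq (q ^ j) a :=
      wq_nonneg (pow_nonneg h0 j) (pow_le_one₀ h0 (by linarith))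
    have hw1 : ∀ a, 0 ≤ wq q a := wq_nonneg h0 (by linarith)
    have hin : ∀ ρ : Restr I, Ex (wq q) (fun τ : Restr I =>
        if ¬ Shallow F s (j + 1) (cmp ρ τ) then (1 : ℝ) else 0) ≤
        (if ¬ Shallow F s j ρ then (1 : ℝ) else 0) + F.gates.card * ε := by
      intro ρ
      by_cases hG : Shallow F s j ρ
      · simp only [hG, not_true, if_false, zero_add]
        have hpt : ∀ τ : Restr I, (if ¬ Shallow F s (j + 1) (cmp ρ τ) then (1 : ℝ) else 0) ≤
            ∑ g ∈ F.gates.filter (fun g => F.dep g ≤ j + 1),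
              (if ¬ HasDT s (rs (rs (F.f g) ρ) τ) then (1 : ℝ) else 0) := by
          intro τ
          have hnn : ∀ g ∈ F.gates.filter (fun g => F.dep g ≤ j + 1),
              (0 : ℝ) ≤ (if ¬ HasDT s (rs (rs (F.f g) ρ) τ) then (1 : ℝ) else 0) := by
            intro g _
            split_ifs <;> norm_num
          by_cases hGG : Shallow F s (j + 1) (cmp ρ τ)
          · simp only [hGG, not_true, if_false]
            exact Finset.sum_nonneg hnn
          · simp only [hGG, not_false_iff, if_true]
            have hex : ∃ g ∈ F.gates, F.dep g ≤ j + 1 ∧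
                ¬ HasDT s (rs (F.f g) (cmp ρ τ)) := by
              by_contra hcon
              apply hGG
              refine shallow_of_gates F hs fun g hg hd => ?_
              by_contra hJ
              exact hcon ⟨g, hg, hd, hJ⟩
            obtain ⟨g, hg, hgd, hJ⟩ := hex
            rw [rs_cmp] at hJ
            refine le_trans ?_ (Finset.single_le_sum hnn
              (Finset.mem_filter.2 ⟨hg, hgd⟩))
            rw [if_pos hJ]
        refine (Ex_mono hw1 hpt).trans ?_
        rw [Ex_sum]
        have hterm : ∀ g ∈ F.gates.filter (fun g => F.dep g ≤ j + 1),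
            Ex (wq q) (fun τ : Restr I => (if ¬ HasDT s
                (rs (rs (F.f g) ρ) τ) then (1 : ℝ) else 0)) ≤ ε := by
          intro g hgi
          have hgd : F.dep g ≤ j + 1 := (Finset.mem_filter.1 hgi).2
          have hgg : g ∈ F.gates := (Finset.mem_filter.1 hgi).1
          have hb : ∃ b, Cert s b (rs (F.f g) ρ) := by
            rcases F.rule g with ⟨h, _⟩ | ⟨h, _⟩ | ⟨h, _⟩ | ⟨_, J, hJ, h⟩
            · exact absurd hgg h
            · exact absurd hgg h
            · exact absurd hgg h
            · have hJ' : ∀ j' ∈ J, HasDT s (rs (F.f j') ρ) := by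
                intro j' hj'
                have := (hJ j' hj').2
                exact hG j' (by omega)
              rcases h with h | h
              · exact ⟨false, cert_and F J hJ' h⟩
              · exact ⟨true, cert_or F J hJ' h⟩
          obtain ⟨b, hb⟩ := hb
          exact switching' h0 h1 hb
        refine (Finset.sum_le_card_nsmul _ _ _ hterm).trans ?_
        rw [nsmul_eq_mul]
        apply mul_le_mul_of_nonneg_right _ hε0
        exact_mod_cast Finset.card_filter_le _ _
      · simp only [hG, not_false_iff, if_true]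
        have h2 : Ex (wq q) (fun τ : Restr I =>
            if ¬ Shallow F s (j + 1) (cmp ρ τ) then (1 : ℝ) else 0) ≤
            Ex (wq q) (fun _ : Restr I => (1 : ℝ)) := by
          apply Ex_mono hw1
          intro τ
          split_ifs <;> norm_num
        rw [Ex_const (wq_sum q)] at h2
        have : 0 ≤ F.gates.card * ε := by positivity
        linarith
    refine (Ex_mono hwj hin).trans ?_
    rw [Ex_add, Ex_const (wq_sum (q ^ j))]
    push_cast at ih ⊢
    linarith

/-- few stars in a set of coordinates -/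
lemma few_stars (U : Finset I) {p : ℝ} (h0 : 0 ≤ p) (h1 : p ≤ 1) (s0 : ℕ) :
    Ex (wq p) (fun ρ : Restr I => if (U.filter fun i => ρ i = none).card < s0 then (1 : ℝ)
      else 0) ≤ 2 ^ s0 * (1 - p / 2) ^ U.card := by
  classical
  have hw := wq_nonneg h0 h1
  have hpt : ∀ ρ : Restr I, (if (U.filter fun i => ρ i = none).card < s0 then (1 : ℝ) else 0) ≤
      2 ^ s0 * ∏ i : I, (if i ∈ U ∧ ρ i = none then (1 / 2 : ℝ) else 1) := by
    intro ρ
    have h2 : ∏ i : I, (if i ∈ U ∧ ρ i = none then (1 / 2 : ℝ) else 1) =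
        (1 / 2) ^ (U.filter fun i => ρ i = none).card := by
      rw [Finset.prod_ite, Finset.prod_const, Finset.prod_const_one, mul_one]
      congr 2
      ext i
      simp
    rw [h2]
    split_ifs with h3
    · rw [one_div, inv_pow, ← div_eq_mul_inv, le_div_iff₀ (by positivity), one_mul]
      exact pow_le_pow_right₀ (by norm_num) h3.le
    · positivity
  refine (Ex_mono hw hpt).trans ?_
  rw [Ex_smul]
  apply mul_le_mul_of_nonneg_left _ (by positivity)
  have h4 : Ex (wq p) (fun ω : Restr I => ∏ i, (if i ∈ U ∧ ω i = none then (1 / 2 : ℝ) else 1)) =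
      ∏ i : I, ∑ a : Option Bool, wq p a * (if i ∈ U ∧ a = none then (1 / 2 : ℝ) else 1) := by
    unfold Ex
    rw [Finset.prod_univ_sum, Fintype.piFinset_univ]
    apply Finset.sum_congr rfl
    intro ω _
    rw [Finset.prod_mul_distrib]
  rw [h4]
  have h5 : ∀ i : I, ∑ a : Option Bool, wq p a *
      (if i ∈ U ∧ a = none then (1 / 2 : ℝ) else 1) = if i ∈ U then 1 - p / 2 else 1 := by
    intro i
    by_cases hi : i ∈ U
    · simp only [Fintype.sum_option, Fintype.sum_bool, hi, true_and, if_true]
      simp [wq]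
      ring
    · simp only [hi, false_and, if_false, mul_one]
      exact wq_sum p
  rw [Finset.prod_congr rfl (fun i _ => h5 i), Finset.prod_ite, Finset.prod_const,
    Finset.prod_const_one, mul_one]
  have : (univ.filter fun i => i ∈ U) = U := by
    ext i
    simp
  rw [this]

open Classical in
/-- a restriction with both properties -/
theorem exists_restr (F : Fam I ι) {q : ℝ} (h0 : 0 ≤ q) (h1 : q ≤ 1 / 3) {s : ℕ}
    (hs : 1 ≤ s) (j : ℕ) (U : Finset I) (s0 : ℕ)
    (hlt : j * F.gates.card * (12 * s * q) ^ (s + 1) +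
      2 ^ s0 * (1 - q ^ j / 2) ^ U.card < 1) :
    ∃ ρ : Restr I, Shallow F s j ρ ∧ s0 ≤ (U.filter fun i => ρ i = none).card := by
  by_contra hcon
  push Not at hcon
  have hw := wq_nonneg (pow_nonneg h0 j) (pow_le_one₀ h0 (by linarith) : q ^ j ≤ 1)
  have h2 := collapse F h0 h1 hs j
  have h3 := few_stars U (pow_nonneg h0 j) (pow_le_one₀ h0 (by linarith) : q ^ j ≤ 1) s0
  have h4 : Ex (wq (q ^ j)) (fun _ : Restr I => (1 : ℝ)) ≤
      Ex (wq (q ^ j)) (fun ρ : Restr I => (if ¬ Shallow F s j ρ then (1 : ℝ) else 0) +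
        (if (U.filter fun i => ρ i = none).card < s0 then (1 : ℝ) else 0)) := by
    refine Ex_mono hw fun ρ => ?_
    by_cases hS : Shallow F s j ρ
    · rw [if_neg (not_not.2 hS), if_pos (hcon ρ hS)]
      norm_num
    · rw [if_pos hS]
      split_ifs <;> norm_num
  rw [Ex_const (wq_sum _), Ex_add] at h4
  linarith

end Pool.Agent.L5helper12.MD
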