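import Pool.Agent.L5helper12.MFMain

/-!
# The choice of the parameters
-/

set_option autoImplicit false

namespace Pool.Agent.L5helper12.MF

open Finset Pool.Agent.W856.Corner

lemma need_le (a K : ℕ) (ha : 1 ≤ a) (hK : 1 ≤ K) (t : ℕ) :
    a * need a K t ≤ (a ^ 2 * K) ^ t.factorial ∨ (t = 0 ∧ need a K t = K) := by
  induction t with
  | zero => exact Or.inr ⟨rfl, rfl⟩
  | succ t ih =>
    left
    rcases ih with h | ⟨h, _⟩
    · rcases Nat.eq_zero_or_pos t with h0 | h0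
      · subst h0
        show a * (a * need a K 0 ^ (0 + 1)) ≤ _
        rw [show need a K 0 = K from rfl]
        simp only [zero_add, pow_one, Nat.factorial_one]
        apply le_of_eq; ring
      · show a * (a * need a K t ^ (t + 1)) ≤ _
        have h1 : a * a ≤ a ^ (t + 1) := by
          calc a * a = a ^ 2 := by ring
            _ ≤ a ^ (t + 1) := Nat.pow_le_pow_right ha (by omega)
        calc a * (a * need a K t ^ (t + 1)) = (a * a) * need a K t ^ (t + 1) := by ring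
          _ ≤ a ^ (t + 1) * need a K t ^ (t + 1) := Nat.mul_le_mul_right _ h1
          _ = (a * need a K t) ^ (t + 1) := by rw [mul_pow]
          _ ≤ ((a ^ 2 * K) ^ t.factorial) ^ (t + 1) := Nat.pow_le_pow_left h _
          _ = _ := by rw [← pow_mul, Nat.factorial_succ, mul_comm t.factorial]
    · subst h
      show a * (a * need a K 0 ^ (0 + 1)) ≤ _
      rw [show need a K 0 = K from rfl]
      simp only [zero_add, pow_one, Nat.factorial_one]
      apply le_of_eq; ring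

lemma need_le' (a K : ℕ) (ha : 1 ≤ a) (hK : 1 ≤ K) (t : ℕ) :
    need a K t ≤ (a ^ 2 * K) ^ t.factorial := by
  rcases need_le a K ha hK t with h | ⟨h, h'⟩
  · exact (Nat.le_mul_of_pos_left _ (by omega)).trans h
  · subst h
    rw [h']
    simp only [Nat.factorial_zero, pow_one]
    exact Nat.le_mul_of_pos_left _ (by positivity)

/-- The main theorem with real parameters: there are parameters such that everything follows from
`2 * need a0 K t ≤ n`. -/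
theorem fibre_real {p n t m k d : ℕ} {A : Type} [AddCommGroup A] [Fintype A]
    (hm0 : 0 < m) (hm : ∀ a : A, m • a = 0) (Φ : V n → A)
    (hΦ : Deg t fun X => Φ (ind X)) (hp : p.Prime) (s : ℝ) (hs : 1 ≤ s) (hk : (k : ℝ) ≤ s)
    (hn2 : 2 ≤ n)
    (hn : ∀ h L a0 : ℕ, 1 ≤ h → 1 ≤ L → 1 ≤ a0 →
      (h : ℝ) ≤ 9 * (4 * (p : ℝ)) ^ (2 * d) * s ^ (2 * d + 2) → (L : ℝ) ≤ 3 * Real.log n →
      (a0 : ℝ) ≤ (h * L) * (m * Real.log (Fintype.card A) + 1) →
      2 * (need a0 (2 * h * (h * L) + 1) t : ℝ) ≤ n) :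
    ∃ a : A, ∀ C : Circuit p n k, (C.andOr.card : ℝ) ≤ (2 : ℝ) ^ s → (∀ i, C.depth i ≤ d) →
      ∀ i : Fin C.N, ∃ y, Φ y = a ∧ ¬ (C.val i y = true ↔ n ≤ 2 * (sup y).card) := by
  have hp2 : (2 : ℝ) ≤ p := by exact_mod_cast hp.two_le
  set S : ℕ := ⌊(2 : ℝ) ^ s⌋₊ with hSdef
  set τ : ℕ := ⌊s⌋₊ + 3 with hτdef
  have hs0 : 0 ≤ s := by linarith
  have hτle : (τ : ℝ) ≤ 4 * s := by
    have := Nat.floor_le hs0
    rw [hτdef]; push_cast; linarith
  have hτ1 : 1 ≤ τ := by omega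
  have hτgt : s + 2 < τ := by
    have := Nat.lt_floor_add_one s
    rw [hτdef]; push_cast; linarith
  have hS : 4 * S < 2 ^ τ := by
    have h1 : (S : ℝ) ≤ (2 : ℝ) ^ s := Nat.floor_le (by positivity)
    have h2 : (4 : ℝ) * 2 ^ s < 2 ^ τ := by
      calc (4 : ℝ) * 2 ^ s = 2 ^ (s + 2) := by
            rw [Real.rpow_add (by norm_num)]; norm_num; ring
        _ < (2 : ℝ) ^ (τ : ℝ) := Real.rpow_lt_rpow_of_exponent_lt (by norm_num) hτgt
        _ = 2 ^ τ := Real.rpow_natCast _ _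
    have h3 : ((4 * S : ℕ) : ℝ) < ((2 ^ τ : ℕ) : ℝ) := by
      push_cast
      linarith
    exact_mod_cast h3
  set D : ℕ := k * ((p - 1) * τ) ^ d with hDdef
  set h : ℕ := 8 * D ^ 2 + 1 with hhdef
  have hD : 16 * (k * ((p - 1) * τ) ^ d) ^ 2 ≤ 2 * h + 3 := by
    rw [← hDdef, hhdef]; omega
  have hDle : (D : ℝ) ≤ (4 * (p : ℝ)) ^ d * s ^ (d + 1) := by
    have h1 : (((p - 1 : ℕ) * τ : ℕ) : ℝ) ≤ 4 * p * s := by
      push_cast
      have h2 : ((p - 1 : ℕ) : ℝ) ≤ p := by exact_mod_cast Nat.sub_le p 1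
      calc ((p - 1 : ℕ) : ℝ) * τ ≤ p * (4 * s) := by gcongr
        _ = _ := by ring
    have h2 : (D : ℝ) = k * ((((p - 1 : ℕ) * τ : ℕ) : ℝ)) ^ d := by
      rw [hDdef]; push_cast; ring
    rw [h2]
    calc (k : ℝ) * ((((p - 1 : ℕ) * τ : ℕ) : ℝ)) ^ d ≤ s * (4 * p * s) ^ d := by gcongr
      _ = _ := by rw [mul_pow, pow_succ]; ring
  have hone : (1 : ℝ) ≤ (4 * (p : ℝ)) ^ (2 * d) * s ^ (2 * d + 2) := by
    have h1 : (1 : ℝ) ≤ (4 * (p : ℝ)) ^ (2 * d) := one_le_pow₀ (by linarith)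
    have h2 : (1 : ℝ) ≤ s ^ (2 * d + 2) := one_le_pow₀ hs
    nlinarith
  have hhle : (h : ℝ) ≤ 9 * (4 * (p : ℝ)) ^ (2 * d) * s ^ (2 * d + 2) := by
    have h1 : (h : ℝ) = 8 * (D : ℝ) ^ 2 + 1 := by rw [hhdef]; push_cast; ring
    have h2 : (D : ℝ) ^ 2 ≤ (4 * (p : ℝ)) ^ (2 * d) * s ^ (2 * d + 2) := by
      calc (D : ℝ) ^ 2 ≤ ((4 * (p : ℝ)) ^ d * s ^ (d + 1)) ^ 2 := by gcongr
        _ = _ := by rw [mul_pow, ← pow_mul, ← pow_mul]; ring_nf
    rw [h1]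
    nlinarith
  set L : ℕ := Nat.log 2 n + 1 with hLdef
  have hL : n < 2 ^ L := Nat.lt_pow_succ_log_self (by norm_num) n
  have hLle : (L : ℝ) ≤ 3 * Real.log n := by
    have h1 : (2 : ℝ) ^ (Nat.log 2 n) ≤ n := by
      exact_mod_cast Nat.pow_log_le_self 2 (by omega)
    have h2 : (Nat.log 2 n : ℝ) * Real.log 2 ≤ Real.log n := by
      rw [← Real.log_pow]
      exact Real.log_le_log (by positivity) h1
    have h3 : Real.log 2 ≤ Real.log n := Real.log_le_log (by norm_num) (by exact_mod_cast hn2)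
    have h4 : (0.6931471803 : ℝ) < Real.log 2 := Real.log_two_gt_d9
    rw [hLdef]
    push_cast
    have h5 : (0 : ℝ) ≤ Nat.log 2 n := Nat.cast_nonneg _
    nlinarith
  have hlog0 : 0 ≤ Real.log (Fintype.card A) := Real.log_natCast_nonneg _
  set a0 : ℕ := ⌊(m : ℝ) * ((h * L : ℕ) * Real.log (Fintype.card A))⌋₊ + 1 with ha0def
  have ha : (m : ℝ) * ((h * L : ℕ) * Real.log (Fintype.card A)) < a0 := by
    rw [ha0def]; push_cast
    have := Nat.lt_floor_add_one ((m : ℝ) * (((h * L : ℕ) : ℝ) * Real.log (Fintype.card A)))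
    push_cast at this
    exact this
  have ha0le : (a0 : ℝ) ≤ (h * L) * (m * Real.log (Fintype.card A) + 1) := by
    have h1 : ((⌊(m : ℝ) * ((h * L : ℕ) * Real.log (Fintype.card A))⌋₊ : ℕ) : ℝ) ≤
        (m : ℝ) * ((h * L : ℕ) * Real.log (Fintype.card A)) := Nat.floor_le (by positivity)
    have h2 : (1 : ℝ) ≤ (h : ℝ) * L := by
      have h3 : (1 : ℝ) ≤ h := by
        have : 1 ≤ h := by omega
        exact_mod_cast this
      have h4 : (1 : ℝ) ≤ L := by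
        have : 1 ≤ L := by omega
        exact_mod_cast this
      nlinarith
    rw [ha0def]
    push_cast at h1 ⊢
    nlinarith
  refine ?_
  have hneed := hn h L a0 (by omega) (by omega) (by omega) hhle hLle ha0le
  have hneed' : need a0 (2 * h * (h * L) + 1) t ≤ n / 2 := by
    have h1 : 2 * need a0 (2 * h * (h * L) + 1) t ≤ n := by exact_mod_cast hneed
    omega
  obtain ⟨a, hfin⟩ := fibre hm0 hm Φ hΦ (by omega) hL ha hneed' hp hτ1 hS hD
  refine ⟨a, fun C hC => hfin C ?_⟩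
  exact Nat.le_floor hC

/-- the case of maps of degree one -/
theorem fibre_linear {p n m k d : ℕ} {A : Type} [AddCommGroup A] [Fintype A]
    (hm0 : 0 < m) (hm : ∀ a : A, m • a = 0) (Φ : V n → A)
    (hΦ : Deg 1 fun X => Φ (ind X)) (hp : p.Prime) (s : ℝ) (hs : 1 ≤ s) (hk : (k : ℝ) ≤ s)
    (hn2 : 2 ≤ n)
    (hn : 40000 * (4 * (p : ℝ)) ^ (6 * d) * s ^ (6 * d + 6) * Real.log n ^ 2 *
      (m * Real.log (Fintype.card A) + 1) ≤ n) :
    ∃ a : A, ∀ C : Circuit p n k, (C.andOr.card : ℝ) ≤ (2 : ℝ) ^ s → (∀ i, C.depth i ≤ d) →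
      ∀ i : Fin C.N, ∃ y, Φ y = a ∧ ¬ (C.val i y = true ↔ n ≤ 2 * (sup y).card) := by
  refine fibre_real hm0 hm Φ hΦ hp s hs hk hn2 ?_
  intro h L a0 hh hL1 ha0 hhle hLle ha0le
  refine le_trans ?_ hn
  have hlog0 : 0 ≤ Real.log (Fintype.card A) := Real.log_natCast_nonneg _
  set ℓ : ℝ := m * Real.log (Fintype.card A) + 1 with hℓ
  have hℓ1 : 1 ≤ ℓ := by
    have : 0 ≤ (m : ℝ) * Real.log (Fintype.card A) := mul_nonneg (Nat.cast_nonneg _) hlog0
    linarith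
  have hh1 : (1 : ℝ) ≤ h := by exact_mod_cast hh
  have hL1' : (1 : ℝ) ≤ L := by exact_mod_cast hL1
  have e : (need a0 (2 * h * (h * L) + 1) 1 : ℝ) = a0 * (2 * h * (h * L) + 1) := by
    show ((a0 * (2 * h * (h * L) + 1) ^ (0 + 1) : ℕ) : ℝ) = _
    push_cast
    ring
  rw [e]
  have h1 : (2 * (h : ℝ) * (h * L) + 1) ≤ 3 * h * (h * L) := by
    have : 1 ≤ (h : ℝ) * (h * L) := by
      have : 1 ≤ (h : ℝ) * L := by nlinarith
      nlinarith
    linarith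
  set H : ℝ := 9 * (4 * (p : ℝ)) ^ (2 * d) * s ^ (2 * d + 2) with hH
  have hH0 : 0 ≤ H := by positivity
  have hlogn : 0 ≤ Real.log n := Real.log_natCast_nonneg _
  calc 2 * ((a0 : ℝ) * (2 * h * (h * L) + 1)) ≤ 2 * (((h * L) * ℓ) * (3 * h * (h * L))) := by
        gcongr
    _ = 6 * (h : ℝ) ^ 3 * (L : ℝ) ^ 2 * ℓ := by ring
    _ ≤ 6 * H ^ 3 * (3 * Real.log n) ^ 2 * ℓ := by gcongr
    _ = 39366 * ((4 * (p : ℝ)) ^ (6 * d) * s ^ (6 * d + 6) * Real.log n ^ 2 * ℓ) := by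
        rw [hH, mul_pow, mul_pow, ← pow_mul, ← pow_mul]
        ring_nf
    _ ≤ 40000 * ((4 * (p : ℝ)) ^ (6 * d) * s ^ (6 * d + 6) * Real.log n ^ 2 * ℓ) := by
        refine mul_le_mul_of_nonneg_right (by norm_num) (by positivity)
    _ = _ := by ring

/-- the general case -/
theorem fibre_general {p n t m k d : ℕ} {A : Type} [AddCommGroup A] [Fintype A]
    (hm0 : 0 < m) (hm : ∀ a : A, m • a = 0) (Φ : V n → A)
    (hΦ : Deg t fun X => Φ (ind X)) (hp : p.Prime) (s : ℝ) (hs : 1 ≤ s) (hk : (k : ℝ) ≤ s)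
    (hn2 : 2 ≤ n)
    (hn : 2 * (600000 * (4 * (p : ℝ)) ^ (8 * d) * s ^ (8 * d + 8) * Real.log n ^ 3 *
      (m * Real.log (Fintype.card A) + 1) ^ 2) ^ t.factorial ≤ n) :
    ∃ a : A, ∀ C : Circuit p n k, (C.andOr.card : ℝ) ≤ (2 : ℝ) ^ s → (∀ i, C.depth i ≤ d) →
      ∀ i : Fin C.N, ∃ y, Φ y = a ∧ ¬ (C.val i y = true ↔ n ≤ 2 * (sup y).card) := by
  refine fibre_real hm0 hm Φ hΦ hp s hs hk hn2 ?_
  intro h L a0 hh hL1 ha0 hhle hLle ha0le
  refine le_trans ?_ hn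
  have hlog0 : 0 ≤ Real.log (Fintype.card A) := Real.log_natCast_nonneg _
  set ℓ : ℝ := m * Real.log (Fintype.card A) + 1 with hℓ
  have hℓ1 : 1 ≤ ℓ := by
    have : 0 ≤ (m : ℝ) * Real.log (Fintype.card A) := mul_nonneg (Nat.cast_nonneg _) hlog0
    linarith
  have hh1 : (1 : ℝ) ≤ h := by exact_mod_cast hh
  have hL1' : (1 : ℝ) ≤ L := by exact_mod_cast hL1
  have e := need_le' a0 (2 * h * (h * L) + 1) ha0 (by omega) t
  have e' : (need a0 (2 * h * (h * L) + 1) t : ℝ) ≤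
      ((a0 : ℝ) ^ 2 * (2 * h * (h * L) + 1)) ^ t.factorial := by exact_mod_cast e
  have h1 : (2 * (h : ℝ) * (h * L) + 1) ≤ 3 * h * (h * L) := by
    have : 1 ≤ (h : ℝ) * (h * L) := by
      have : 1 ≤ (h : ℝ) * L := by nlinarith
      nlinarith
    linarith
  set H : ℝ := 9 * (4 * (p : ℝ)) ^ (2 * d) * s ^ (2 * d + 2) with hH
  have hH0 : 0 ≤ H := by positivity
  have hlogn : 0 ≤ Real.log n := Real.log_natCast_nonneg _
  refine mul_le_mul_of_nonneg_left (e'.trans (pow_le_pow_left₀ (by positivity) ?_ _)) (by norm_num)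
  calc ((a0 : ℝ) ^ 2 * (2 * h * (h * L) + 1)) ≤ ((h * L) * ℓ) ^ 2 * (3 * h * (h * L)) := by
        gcongr
    _ = 3 * (h : ℝ) ^ 4 * (L : ℝ) ^ 3 * ℓ ^ 2 := by ring
    _ ≤ 3 * H ^ 4 * (3 * Real.log n) ^ 3 * ℓ ^ 2 := by gcongr
    _ = 531441 * ((4 * (p : ℝ)) ^ (8 * d) * s ^ (8 * d + 8) * Real.log n ^ 3 * ℓ ^ 2) := by
        rw [hH, mul_pow, mul_pow, ← pow_mul, ← pow_mul]
        ring_nf
    _ ≤ 600000 * ((4 * (p : ℝ)) ^ (8 * d) * s ^ (8 * d + 8) * Real.log n ^ 3 * ℓ ^ 2) := by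
        refine mul_le_mul_of_nonneg_right (by norm_num) (by positivity)
    _ = _ := by ring

end Pool.Agent.L5helper12.MF
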