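import Pool.Agent.L5helper12.MDStage
import Pool.Agent.L5helper12.MFNum

/-!
# The induction over the levels of composite gates
-/

set_option autoImplicit false

namespace Pool.Agent.L5helper12.MD

open Finset Pool.Agent.W856.Corner Pool.Agent.L5helper12.MF

lemma to_circuit {p n : ℕ} [Fact p.Prime] {A : Type} [AddCommGroup A] (C : Mixed p n A)
    (hC : C.comp = ∅) :
    ∃ C' : Circuit p n 1, C'.andOr.card = C.andOr.card ∧
      (∀ d, (∀ i, C.depth i ≤ d) → ∀ i, C'.depth i ≤ d) ∧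
      ∃ f : Fin C.N → Fin C'.N, ∀ i y, C'.val (f i) y = C.val i y := by
  have rule' : ∀ i : Fin C.N, (i ∉ C.andOr ∧ HasDegree p 1 (C.val i)) ∨
      (i ∉ C.andOr ∧ ∃ j : Fin C.N, j < i ∧ C.depth j ≤ C.depth i ∧
        ∀ y, C.val i y = !C.val j y) ∨
      (i ∉ C.andOr ∧ ∃ (J : Finset (Fin C.N)) (r : ZMod p),
        (∀ j ∈ J, j < i ∧ C.depth j < C.depth i) ∧
        ∀ y, C.val i y = decide (((J.filter fun j => C.val j y = true).card : ZMod p) = r)) ∨
      (i ∈ C.andOr ∧ ∃ J : Finset (Fin C.N), (∀ j ∈ J, j < i ∧ C.depth j < C.depth i) ∧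
        ((∀ y, C.val i y = decide (∀ j ∈ J, C.val j y = true)) ∨
          ∀ y, C.val i y = decide (∃ j ∈ J, C.val j y = true))) := by
    intro i
    rcases C.rule i with ⟨hi, l, h⟩ | ⟨hi, b, h⟩ | ⟨hic, hi, J, w, g, hJ, h⟩ |
      ⟨hi, j, hj, hd, hl, h⟩ | ⟨hi, hlow, J, r, hJ, h⟩ | ⟨hi, J, hJ, h⟩
    · refine Or.inl ⟨hi, MvPolynomial.X l, (MvPolynomial.totalDegree_X l).le, fun y => ?_⟩
      rw [MvPolynomial.eval_X]
      refine if_congr ?_ rfl rfl
      rw [h]
      exact decide_eq_true_iff.symm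
    · refine Or.inl ⟨hi, MvPolynomial.C (if b = true then 1 else 0), ?_, fun y => ?_⟩
      · rw [MvPolynomial.totalDegree_C]; exact Nat.zero_le _
      · rw [MvPolynomial.eval_C, h]
    · rw [hC] at hic
      exact absurd hic (Finset.notMem_empty i)
    · exact Or.inr (Or.inl ⟨hi, j, hj, hd, h⟩)
    · exact Or.inr (Or.inr (Or.inl ⟨hi, J, r, hJ, h⟩))
    · exact Or.inr (Or.inr (Or.inr ⟨hi, J, fun j hj => ⟨(hJ j hj).1, (hJ j hj).2.1⟩, h⟩))
  exact ⟨⟨C.N, C.val, C.depth, C.andOr, rule'⟩, rfl, fun d hd => hd, id, fun i y => rfl⟩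

/-- no composite gates: Razborov–Smolensky -/
theorem base {p : ℕ} (hp : p.Prime) (d c : ℕ) : ∃ n0 : ℕ, ∀ n, n0 ≤ n →
    ∀ (A : Type) [AddCommGroup A] (C : Mixed p n A), C.comp = ∅ → (∀ i, C.depth i ≤ d) →
      C.andOr.card ≤ n ^ c → ∀ i0, ¬ ∀ y, C.val i0 y = true ↔ n ≤ 2 * (sup y).card := by
  have : Fact p.Prime := ⟨hp⟩
  set K : ℝ := 40000 * (4 * (p : ℝ)) ^ (6 * d) * (2 * c + 2) ^ (6 * d + 6) with hK
  have hp1 : (0 : ℝ) < p := by exact_mod_cast hp.pos
  have hK0 : 0 < K := by positivity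
  have h1 := (Real.isLittleO_pow_log_id_atTop (n := 6 * d + 8)).def (c := 1 / K) (by positivity)
  obtain ⟨x0, hx0⟩ := Filter.eventually_atTop.1 h1
  refine ⟨max 3 ⌈x0⌉₊, fun n hn A _ C hC hCd hCS i0 hmaj => ?_⟩
  have hn3 : 3 ≤ n := (le_max_left _ _).trans hn
  have hnx : x0 ≤ n := (Nat.le_ceil x0).trans (by exact_mod_cast (le_max_right _ _).trans hn)
  have h2 := hx0 n hnx
  have hlog1 : 1 ≤ Real.log n := by
    rw [Real.le_log_iff_exp_le (by positivity)]
    have h3 : Real.exp 1 < 2.7182818286 := Real.exp_one_lt_d9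
    have h4 : (3 : ℝ) ≤ n := by exact_mod_cast hn3
    linarith
  have hlog0 : 0 ≤ Real.log n := by linarith
  obtain ⟨C', hC1, hC2, f, hf⟩ := to_circuit C hC
  set s : ℝ := (2 * c + 2) * Real.log n with hs
  have hs1 : 1 ≤ s := by
    have hc : (0 : ℝ) ≤ c := Nat.cast_nonneg c
    rw [hs]
    nlinarith
  obtain ⟨a, ha⟩ := fibre_linear (A := PUnit) (p := p) (n := n) (m := 1) (k := 1) (d := d)
    one_pos (fun a => Subsingleton.elim _ _) (fun _ => PUnit.unit) (deg_const 1 _) hp s hs1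
    (by push_cast; exact hs1) (by omega) (by
      have e1 : Real.log (Fintype.card PUnit) = 0 := by simp
      rw [e1]
      simp only [mul_zero, zero_add, mul_one]
      simp only [id_eq, Real.norm_eq_abs] at h2
      rw [abs_of_nonneg (by positivity), abs_of_nonneg (by positivity)] at h2
      have h3 : K * Real.log n ^ (6 * d + 8) ≤ n := by
        have := mul_le_mul_of_nonneg_left h2 hK0.le
        rwa [← mul_assoc, mul_one_div_cancel hK0.ne', one_mul] at this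
      refine le_trans (le_of_eq ?_) h3
      have e2 : ((2 * (c : ℝ) + 2) * Real.log n) ^ (6 * d + 6) =
          (2 * (c : ℝ) + 2) ^ (6 * d + 6) * Real.log n ^ (6 * d + 6) := mul_pow _ _ _
      have e3 : Real.log n ^ (6 * d + 8) = Real.log n ^ (6 * d + 6) * Real.log n ^ 2 := by
        rw [← pow_add]
      rw [hK, hs, e2, e3]
      generalize (2 * (c : ℝ) + 2) ^ (6 * d + 6) = z1
      generalize Real.log n ^ (6 * d + 6) = z2
      ring)
  obtain ⟨y, _, hy⟩ := ha C' (by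
    rw [hC1]
    have h3 : (C.andOr.card : ℝ) ≤ (n : ℝ) ^ c := by exact_mod_cast hCS
    refine h3.trans ?_
    have hn0 : (0 : ℝ) < n := by positivity
    have h4 : (n : ℝ) ^ c = Real.exp (c * Real.log n) := by
      rw [← Real.log_pow, Real.exp_log (by positivity)]
    rw [h4, Real.rpow_def_of_pos (by norm_num)]
    apply Real.exp_le_exp.2
    have h5 : (0.6931471803 : ℝ) < Real.log 2 := Real.log_two_gt_d9
    have hc : (0 : ℝ) ≤ c := Nat.cast_nonneg c
    rw [hs]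
    have h6 : (c : ℝ) ≤ Real.log 2 * (2 * c + 2) := by nlinarith
    calc (c : ℝ) * Real.log n ≤ (Real.log 2 * (2 * c + 2)) * Real.log n :=
          mul_le_mul_of_nonneg_right h6 hlog0
      _ = _ := by ring) (hC2 d hCd) (f i0)
  apply hy
  rw [hf]
  exact hmaj y

/-- the numerical part of the inductive step -/
lemma step_num {n b e c s g Q L X : ℕ} (hb : 27 ≤ b) (hg : g = 20 * s.factorial)
    (hs : s + 1 = 4 * (e + 1) * (c + 4)) (hQ : Q = 4 * (e + 1) * g) (hb1 : b ^ Q ≤ n)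
    (hb2 : n < (b + 1) ^ Q) (hL : L ≤ b) (hX : X ≤ n ^ c)
    (hE : 4 * (e * (2 ^ (Q * (c + 2)) * (12 * s) ^ (s + 1))) ≤ b) :
    (e : ℝ) * ((b * L * (n / 2 + 1) * X : ℕ) : ℝ) * (12 * s * (1 / (b : ℝ) ^ g)) ^ (s + 1) +
      2 ^ (b ^ (10 * s.factorial)) * (1 - (1 / (b : ℝ) ^ g) ^ e / 2) ^ (n / 2) < 1 := by
  have hb0 : (0 : ℝ) < b := by
    have : 0 < b := by omega
    exact_mod_cast this
  have hb27 : (27 : ℝ) ≤ b := by exact_mod_cast hb
  have hf1 : 1 ≤ s.factorial := Nat.factorial_pos s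
  have hg1 : 20 ≤ g := by omega
  have hQ2 : 80 ≤ Q := by
    rw [hQ]
    calc 80 = 4 * 1 * 20 := by norm_num
      _ ≤ 4 * (e + 1) * g := Nat.mul_le_mul (by omega) hg1
  -- first term
  have hbn : b * L ≤ n := by
    calc b * L ≤ b * b := Nat.mul_le_mul_left _ hL
      _ = b ^ 2 := by ring
      _ ≤ b ^ Q := Nat.pow_le_pow_right (by omega) (by omega)
      _ ≤ n := hb1
  have hn2 : 2 ≤ n := by
    calc 2 ≤ b := by omega
      _ = b ^ 1 := (pow_one b).symm
      _ ≤ b ^ Q := Nat.pow_le_pow_right (by omega) (by omega)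
      _ ≤ n := hb1
  have hnb : n ≤ (2 * b) ^ Q := hb2.le.trans (Nat.pow_le_pow_left (by omega) _)
  have h1 : b * L * (n / 2 + 1) * X ≤ 2 ^ (Q * (c + 2)) * b ^ (Q * (c + 2)) := by
    calc b * L * (n / 2 + 1) * X ≤ n * n * n ^ c := by
          gcongr
          omega
      _ = n ^ (c + 2) := by ring
      _ ≤ ((2 * b) ^ Q) ^ (c + 2) := Nat.pow_le_pow_left hnb _
      _ = _ := by rw [← pow_mul, mul_pow]
  have h2 : (12 * (s : ℝ) * (1 / (b : ℝ) ^ g)) ^ (s + 1) =
      (12 * (s : ℝ)) ^ (s + 1) / ((b : ℝ) ^ (Q * (c + 2)) * (b : ℝ) ^ (2 * Q)) := by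
    rw [mul_one_div, div_pow, ← pow_mul, ← pow_add]
    congr 2
    rw [hs, hQ]
    ring
  have hT1 : (e : ℝ) * ((b * L * (n / 2 + 1) * X : ℕ) : ℝ) *
      (12 * s * (1 / (b : ℝ) ^ g)) ^ (s + 1) ≤ 1 / 4 := by
    have h3 : ((b * L * (n / 2 + 1) * X : ℕ) : ℝ) ≤
        (2 : ℝ) ^ (Q * (c + 2)) * (b : ℝ) ^ (Q * (c + 2)) := by exact_mod_cast h1
    have h4 : 4 * ((e : ℝ) * ((2 : ℝ) ^ (Q * (c + 2)) * (12 * (s : ℝ)) ^ (s + 1))) ≤ b := by
      exact_mod_cast hE
    have h5 : (b : ℝ) ≤ (b : ℝ) ^ (2 * Q) := by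
      calc (b : ℝ) = (b : ℝ) ^ 1 := (pow_one _).symm
        _ ≤ _ := pow_le_pow_right₀ (by linarith) (by omega)
    rw [h2]
    have hpos : (0 : ℝ) < (b : ℝ) ^ (Q * (c + 2)) * (b : ℝ) ^ (2 * Q) := by positivity
    rw [mul_div_assoc', div_le_iff₀ hpos]
    calc (e : ℝ) * ((b * L * (n / 2 + 1) * X : ℕ) : ℝ) * (12 * (s : ℝ)) ^ (s + 1)
        ≤ (e : ℝ) * ((2 : ℝ) ^ (Q * (c + 2)) * (b : ℝ) ^ (Q * (c + 2))) *
          (12 * (s : ℝ)) ^ (s + 1) := by gcongr
      _ = (b : ℝ) ^ (Q * (c + 2)) *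
          ((e : ℝ) * ((2 : ℝ) ^ (Q * (c + 2)) * (12 * (s : ℝ)) ^ (s + 1))) := by ring
      _ ≤ (b : ℝ) ^ (Q * (c + 2)) * (1 / 4 * (b : ℝ) ^ (2 * Q)) := by
          refine mul_le_mul_of_nonneg_left ?_ (by positivity)
          linarith
      _ = _ := by ring
  -- second term
  have hq1 : (1 / (b : ℝ) ^ g) ^ e = 1 / (b : ℝ) ^ (g * e) := by
    rw [one_div, inv_pow, ← pow_mul, one_div]
  set s0 : ℕ := b ^ (10 * s.factorial) with hs0
  have hs01 : (1 : ℝ) ≤ s0 := by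
    have : 1 ≤ s0 := Nat.one_le_pow _ _ (by omega)
    exact_mod_cast this
  have hT2 : (2 : ℝ) ^ s0 * (1 - (1 / (b : ℝ) ^ g) ^ e / 2) ^ (n / 2) ≤ 1 / 2 := by
    rw [hq1]
    set y : ℝ := 1 / (b : ℝ) ^ (g * e) / 2 with hy
    have hy0 : 0 ≤ y := by positivity
    have hy1 : y ≤ 1 := by
      have h3 : (1 : ℝ) ≤ (b : ℝ) ^ (g * e) := one_le_pow₀ (by linarith)
      have h4 : 1 / (b : ℝ) ^ (g * e) ≤ 1 := by
        rw [div_le_one (by positivity)]
        exact h3
      rw [hy]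
      linarith
    have h3 : (1 - y) ^ (n / 2) ≤ Real.exp (-(y * ((n / 2 : ℕ) : ℝ))) := by
      calc (1 - y) ^ (n / 2) ≤ (Real.exp (-y)) ^ (n / 2) :=
            pow_le_pow_left₀ (by linarith) (Real.one_sub_le_exp_neg y) _
        _ = _ := by rw [← Real.exp_nat_mul]; congr 1; ring
    have h4 : (2 : ℝ) ^ s0 ≤ Real.exp s0 := by
      have h5 : (2 : ℝ) ≤ Real.exp 1 := by
        have := Real.exp_one_gt_d9
        linarith
      calc (2 : ℝ) ^ s0 ≤ (Real.exp 1) ^ s0 := pow_le_pow_left₀ (by norm_num) h5 _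
        _ = Real.exp s0 := by rw [← Real.exp_nat_mul, mul_one]
    have h5 : 3 * (s0 : ℝ) ≤ y * ((n / 2 : ℕ) : ℝ) := by
      have h6 : (b : ℝ) ^ Q / 4 ≤ ((n / 2 : ℕ) : ℝ) := by
        have h7 : n ≤ 4 * (n / 2) := by omega
        have h8 : (b : ℝ) ^ Q ≤ n := by exact_mod_cast hb1
        have h9 : (n : ℝ) ≤ 4 * ((n / 2 : ℕ) : ℝ) := by exact_mod_cast h7
        linarith
      have h7 : Q = g * e + (10 * s.factorial + 1 + (g * (3 * e + 4) - (10 * s.factorial + 1))) := by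
        have h8 : 10 * s.factorial + 1 ≤ g * (3 * e + 4) := by
          calc 10 * s.factorial + 1 ≤ g := by omega
            _ = g * 1 := (mul_one g).symm
            _ ≤ g * (3 * e + 4) := Nat.mul_le_mul_left _ (by omega)
        rw [Nat.add_sub_of_le h8, hQ]
        ring
      have h8 : (b : ℝ) ^ (g * e) * (27 * (s0 : ℝ)) ≤ (b : ℝ) ^ Q := by
        rw [h7, pow_add]
        refine mul_le_mul_of_nonneg_left ?_ (by positivity)
        rw [pow_add, pow_succ]
        have e1 : (s0 : ℝ) = (b : ℝ) ^ (10 * s.factorial) := by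
          rw [hs0]; push_cast; ring
        rw [e1]
        have h9 : (1 : ℝ) ≤ (b : ℝ) ^ (g * (3 * e + 4) - (10 * s.factorial + 1)) :=
          one_le_pow₀ (by linarith)
        calc 27 * (b : ℝ) ^ (10 * s.factorial) ≤ (b : ℝ) ^ (10 * s.factorial) * b * 1 := by
              rw [mul_one, mul_comm]
              exact mul_le_mul_of_nonneg_left hb27 (by positivity)
          _ ≤ _ := mul_le_mul_of_nonneg_left h9 (by positivity)
      calc 3 * (s0 : ℝ) ≤ 27 * (s0 : ℝ) / 8 := by linarith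
        _ = 1 / (b : ℝ) ^ (g * e) / 2 * ((b : ℝ) ^ (g * e) * (27 * (s0 : ℝ)) / 4) := by
            field_simp
            ring
        _ ≤ 1 / (b : ℝ) ^ (g * e) / 2 * ((b : ℝ) ^ Q / 4) := by
            refine mul_le_mul_of_nonneg_left ?_ (by positivity)
            linarith
        _ ≤ _ := mul_le_mul_of_nonneg_left h6 hy0
    calc (2 : ℝ) ^ s0 * (1 - y) ^ (n / 2)
        ≤ Real.exp s0 * Real.exp (-(y * ((n / 2 : ℕ) : ℝ))) :=
          mul_le_mul h4 h3 (by
            have : 0 ≤ 1 - y := by linarith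
            positivity) (Real.exp_pos _).le
      _ = Real.exp ((s0 : ℝ) - y * ((n / 2 : ℕ) : ℝ)) := by
          rw [← Real.exp_add]; congr 1
      _ ≤ Real.exp (-1) := Real.exp_le_exp.2 (by linarith)
      _ ≤ 1 / 2 := by
          have h5 := Real.exp_one_gt_d9
          rw [Real.exp_neg, one_div]
          exact inv_anti₀ (by norm_num) (by linarith)
  linarith

lemma log_le {b Q : ℕ} (hb : 8 * Q ^ 2 ≤ b) (hb1 : 1 ≤ b) : Q * (Nat.log 2 (b + 1) + 1) ≤ b := by
  set k := Nat.log 2 (b + 1) with hk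
  have h1 : 2 ^ k ≤ b + 1 := Nat.pow_log_le_self 2 (by omega)
  have h2 : ∀ k : ℕ, (k + 1) ^ 2 ≤ 4 * 2 ^ k := by
    intro k
    induction k with
    | zero => norm_num
    | succ k ih =>
      rcases Nat.lt_or_ge k 2 with h | h
      · interval_cases k <;> norm_num
      · rw [pow_succ 2 k]
        nlinarith
  have h3 : (Q * (k + 1)) ^ 2 ≤ b ^ 2 := by
    calc (Q * (k + 1)) ^ 2 = Q ^ 2 * (k + 1) ^ 2 := by ring
      _ ≤ Q ^ 2 * (4 * (b + 1)) := Nat.mul_le_mul_left _ ((h2 k).trans (Nat.mul_le_mul_left _ h1))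
      _ ≤ Q ^ 2 * (8 * b) := Nat.mul_le_mul_left _ (by omega)
      _ = (8 * Q ^ 2) * b := by ring
      _ ≤ b * b := Nat.mul_le_mul_right _ hb
      _ = b ^ 2 := by ring
  exact (Nat.pow_le_pow_iff_left (by norm_num)).1 h3

lemma exists_root (Q : ℕ) (hQ : 1 ≤ Q) (b0 n : ℕ) (hn : (b0 + 1) ^ Q ≤ n) :
    ∃ b, b0 < b ∧ b ^ Q ≤ n ∧ n < (b + 1) ^ Q := by
  let b := Nat.findGreatest (fun b => b ^ Q ≤ n) n
  have h1 : b ^ Q ≤ n := Nat.findGreatest_spec (P := fun b => b ^ Q ≤ n) (m := 0)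
    (Nat.zero_le _) (by rw [zero_pow (by omega)]; exact Nat.zero_le _)
  have hle : ∀ c, c ^ Q ≤ n → c ≤ n := fun c hc => by
    refine le_trans ?_ hc
    calc c = c ^ 1 := (pow_one c).symm
      _ ≤ c ^ Q := by
        rcases Nat.eq_zero_or_pos c with h | h
        · subst h
          simp
        · exact Nat.pow_le_pow_right h hQ
  have h2 : ∀ c, c ^ Q ≤ n → c ≤ b := fun c hc => Nat.le_findGreatest (hle c hc) hc
  refine ⟨b, h2 _ hn, h1, ?_⟩
  by_contra h
  push Not at h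
  have := h2 _ h
  omega

/-- the induction -/
theorem main {p : ℕ} (hp : p.Prime) (d : ℕ) : ∀ k e : ℕ, e + k = d → ∀ c : ℕ,
    ∃ δ : ℝ, 0 < δ ∧ ∃ n0 : ℕ, ∀ n, n0 ≤ n →
    ∀ (A : Type) [AddCommGroup A] [Fintype A] (m : ℕ), 0 < m → (∀ a : A, m • a = 0) →
    ∀ C : Mixed p n A, (∀ i, C.depth i ≤ d) → (∀ i ∈ C.comp, e < C.depth i) →
      C.andOr.card ≤ n ^ c → (m : ℝ) * (C.comp.card * Real.log (Fintype.card A)) ≤ (n : ℝ) ^ δ →
      ∀ i0, ¬ ∀ y, C.val i0 y = true ↔ n ≤ 2 * (sup y).card := by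
  intro k
  induction k with
  | zero =>
    intro e he c
    obtain ⟨n0, hn0⟩ := base hp d c
    refine ⟨1, one_pos, n0, fun n hn A _ _ m hm0 hm C hCd hCe hCS _ i0 => ?_⟩
    refine hn0 n hn A C ?_ hCd hCS i0
    refine Finset.eq_empty_iff_forall_notMem.2 fun i hi => ?_
    have h1 := hCe i hi
    have h2 := hCd i
    omega
  | succ k ih =>
    intro e he c
    obtain ⟨s, hs⟩ : ∃ s, s + 1 = 4 * (e + 1) * (c + 4) := by
      refine ⟨4 * (e + 1) * (c + 4) - 1, Nat.sub_add_cancel ?_⟩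
      exact Nat.mul_pos (by omega) (by omega)
    obtain ⟨g, hg⟩ : ∃ g, g = 20 * s.factorial := ⟨_, rfl⟩
    obtain ⟨Q, hQ⟩ : ∃ Q, Q = 4 * (e + 1) * g := ⟨_, rfl⟩
    have hs1 : 1 ≤ s := by
      have : 16 ≤ s + 1 := by
        rw [hs]
        calc 16 = 4 * 1 * 4 := by norm_num
          _ ≤ 4 * (e + 1) * (c + 4) := Nat.mul_le_mul (by omega) (by omega)
      omega
    have hf1 : 1 ≤ s.factorial := Nat.factorial_pos s
    have hQ1 : 1 ≤ Q := by
      rw [hQ]
      exact Nat.mul_pos (by omega) (by omega)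
    obtain ⟨δ', hδ', n0', hih⟩ := ih (e + 1) (by omega) (Q * c)
    set E : ℕ := 4 * (e * (2 ^ (Q * (c + 2)) * (12 * s) ^ (s + 1))) with hE
    set b0 : ℕ := 27 + 8 * Q ^ 2 + E + n0' with hb0
    have hQr : (0 : ℝ) < Q := by
      have : 0 < Q := hQ1
      exact_mod_cast this
    have hmin : 0 < min δ' 1 := lt_min hδ' one_pos
    refine ⟨min δ' 1 / Q, div_pos hmin hQr, (b0 + 1) ^ Q, ?_⟩
    intro n hn A _ _ m hm0 hm C hCd hCe hCS hCc i0 hmaj
    obtain ⟨b, hbb, hb1, hb2⟩ := exists_root Q hQ1 b0 n hn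
    have hb27 : 27 ≤ b := by omega
    have hbE : E ≤ b := by omega
    have hbQ : 8 * Q ^ 2 ≤ b := by omega
    set L : ℕ := Q * (Nat.log 2 (b + 1) + 1) with hLd
    have hLb : L ≤ b := log_le hbQ (by omega)
    have hL : n < 2 ^ L := by
      refine hb2.trans_le ?_
      rw [hLd, mul_comm, pow_mul]
      exact Nat.pow_le_pow_left (Nat.lt_pow_succ_log_self (by norm_num) _).le _
    have hb1r : (1 : ℝ) ≤ b := by
      have : 1 ≤ b := by omega
      exact_mod_cast this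
    -- the power of n
    have hnb : (n : ℝ) ^ (min δ' 1 / Q) ≤ (2 * (b : ℝ)) ^ (min δ' 1) := by
      have h1 : (n : ℝ) ≤ (2 * (b : ℝ)) ^ Q := by
        have h2 : n ≤ (2 * b) ^ Q := hb2.le.trans (Nat.pow_le_pow_left (by omega) _)
        exact_mod_cast h2
      calc (n : ℝ) ^ (min δ' 1 / Q) ≤ ((2 * (b : ℝ)) ^ Q) ^ (min δ' 1 / Q) :=
            Real.rpow_le_rpow (Nat.cast_nonneg _) h1 (div_pos hmin hQr).le
        _ = (2 * (b : ℝ)) ^ (min δ' 1) := by
            rw [← Real.rpow_natCast, ← Real.rpow_mul (by positivity),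
              mul_div_cancel₀ _ hQr.ne']
    have hℓ : (m : ℝ) * (C.comp.card * Real.log (Fintype.card A)) ≤ 2 * b := by
      refine hCc.trans (hnb.trans ?_)
      calc (2 * (b : ℝ)) ^ (min δ' 1) ≤ (2 * (b : ℝ)) ^ (1 : ℝ) :=
            Real.rpow_le_rpow_of_exponent_le (by linarith) (min_le_right _ _)
        _ = 2 * b := Real.rpow_one _
    have hlog0 : 0 ≤ Real.log (Fintype.card A) := Real.log_natCast_nonneg _
    -- the stage
    obtain ⟨C', hC1, hC2, hC3, hC4, i1, hi1⟩ := stage C hm0 hm e hCe i0 hmaj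
      (h := b) (L := L) (a0 := 2 * b * (b * L) + 1) (s := s) (s0 := b ^ (10 * s.factorial))
      (q := 1 / (b : ℝ) ^ g) (by omega) hL hs1 (by positivity) (by
        have h1 : (3 : ℝ) ≤ (b : ℝ) ^ g := by
          calc (3 : ℝ) ≤ b := by
                have : 3 ≤ b := by omega
                exact_mod_cast this
            _ = (b : ℝ) ^ 1 := (pow_one _).symm
            _ ≤ _ := pow_le_pow_right₀ hb1r (by omega)
        exact one_div_le_one_div_of_le (by norm_num) h1) (by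
        push_cast
        have h1 : (0 : ℝ) ≤ (b : ℝ) * L := by positivity
        calc (m : ℝ) * ((b : ℝ) * L * (C.comp.card * Real.log (Fintype.card A)))
            = ((b : ℝ) * L) * (m * (C.comp.card * Real.log (Fintype.card A))) := by ring
          _ ≤ ((b : ℝ) * L) * (2 * b) := mul_le_mul_of_nonneg_left hℓ h1
          _ < 2 * b * (b * L) + 1 := by linarith) (by
        refine (need_le' _ _ (by omega) (by omega) s).trans ?_
        rw [pow_mul b 10]
        refine Nat.pow_le_pow_left ?_ _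
        have h1 : 2 * b * (b * L) + 1 ≤ 3 * b ^ 3 := by
          have h2 : 2 * b * (b * L) ≤ 2 * b ^ 3 := by
            calc 2 * b * (b * L) ≤ 2 * b * (b * b) := by gcongr
              _ = 2 * b ^ 3 := by ring
          have h3 : 1 ≤ b ^ 3 := Nat.one_le_pow _ _ (by omega)
          omega
        calc (2 * b * (b * L) + 1) ^ 2 * (2 * b * (b * L) + 1)
            = (2 * b * (b * L) + 1) ^ 3 := by ring
          _ ≤ (3 * b ^ 3) ^ 3 := Nat.pow_le_pow_left h1 3
          _ = 27 * b ^ 9 := by ring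
          _ ≤ b * b ^ 9 := Nat.mul_le_mul_right _ hb27
          _ = b ^ 10 := by ring)
      (step_num hb27 hg hs hQ hb1 hb2 hLb hCS hbE)
    refine hih (2 * b + 1) (by omega) A m hm0 hm C' (hC3 d hCd) hC4 ?_ ?_ i1 hi1
    · rw [hC1]
      refine hCS.trans ?_
      calc n ^ c ≤ ((2 * b + 1) ^ Q) ^ c :=
            Nat.pow_le_pow_left (hb2.le.trans (Nat.pow_le_pow_left (by omega) _)) _
        _ = _ := by rw [← pow_mul]
    · have h1 : (m : ℝ) * (C'.comp.card * Real.log (Fintype.card A)) ≤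
          m * (C.comp.card * Real.log (Fintype.card A)) := by
        have : (C'.comp.card : ℝ) ≤ C.comp.card := by exact_mod_cast hC2
        gcongr
      refine h1.trans (hCc.trans (hnb.trans ?_))
      calc (2 * (b : ℝ)) ^ (min δ' 1) ≤ (2 * (b : ℝ)) ^ δ' :=
            Real.rpow_le_rpow_of_exponent_le (by linarith) (min_le_left _ _)
        _ ≤ _ := by
            refine Real.rpow_le_rpow (by positivity) ?_ hδ'.le
            push_cast
            linarith

end Pool.Agent.L5helper12.MD
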