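import Pool.Agent.L5helper12.MFBlock
import Pool.Agent.L5helper12.MDCol

/-!
# Shallow decision trees are polynomials of small degree
-/

set_option autoImplicit false

namespace Pool.Agent.L5helper12.MD

open Finset Pool.Agent.L5helper12.MF Pool.Agent.TH163.AC3

section

variable {ι A : Type} [DecidableEq ι] [AddCommGroup A]

lemma deg_const (t : ℕ) (a : A) : Deg t (fun _ : Finset ι => a) := by
  refine ⟨fun S => if S = ∅ then a else 0, fun S hS => if_neg ?_, fun X => ?_⟩
  · rintro rfl
    simp at hS
  · rw [Finset.sum_ite_eq', if_pos (Finset.empty_mem_powerset X)]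

lemma deg_mono {t t' : ℕ} (h : t ≤ t') {F : Finset ι → A} (hF : Deg t F) : Deg t' F := by
  obtain ⟨c, hc, hF⟩ := hF
  exact ⟨c, fun S hS => hc S (by omega), hF⟩

lemma deg_sum {κ : Type} (K : Finset κ) {t : ℕ} (F : κ → Finset ι → A)
    (hF : ∀ k ∈ K, Deg t (F k)) : Deg t (fun X => ∑ k ∈ K, F k X) := by
  classical
  have : ∀ k, ∃ c : Finset ι → A, k ∈ K → (∀ S, t < S.card → c S = 0) ∧
      ∀ X, F k X = ∑ S ∈ X.powerset, c S := by
    intro k
    by_cases hk : k ∈ K
    · obtain ⟨c, hc⟩ := hF k hk
      exact ⟨c, fun _ => hc⟩
    · exact ⟨fun _ => 0, fun h => absurd h hk⟩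
  choose c hc using this
  refine ⟨fun S => ∑ k ∈ K, c k S, fun S hS => Finset.sum_eq_zero fun k hk => (hc k hk).1 S hS,
    fun X => ?_⟩
  rw [Finset.sum_comm]
  exact Finset.sum_congr rfl fun k hk => (hc k hk).2 X

lemma deg_ite {t : ℕ} (i : ι) {F G : Finset ι → A} (hF : Deg t F) (hG : Deg t G) :
    Deg (t + 1) (fun X => if i ∈ X then F X else G X) := by
  obtain ⟨c, hc, hF⟩ := hF
  obtain ⟨d, hd, hG⟩ := hG
  refine ⟨fun S => d S + if i ∈ S then (c S - d S) + (c (S.erase i) - d (S.erase i)) else 0,
    fun S hS => ?_, fun X => ?_⟩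
  · have h1 : t < S.card := by omega
    have h2 : t < (S.erase i).card := by
      have := Finset.pred_card_le_card_erase (s := S) (a := i)
      omega
    simp only [hc S h1, hd S h1, hc _ h2, hd _ h2]
    simp
  · show (if i ∈ X then F X else G X) = _
    rw [Finset.sum_add_distrib]
    by_cases hi : i ∈ X
    · have hX : X = insert i (X.erase i) := (Finset.insert_erase hi).symm
      have hni : i ∉ X.erase i := Finset.notMem_erase i X
      have key : ∑ S ∈ X.powerset, (if i ∈ S then (c S - d S) + (c (S.erase i) - d (S.erase i))
          else 0) = ∑ S ∈ X.powerset, (c S - d S) := by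
        rw [hX, Finset.sum_powerset_insert hni, Finset.sum_powerset_insert hni]
        have h1 : ∑ S ∈ (X.erase i).powerset, (if i ∈ S then (c S - d S) +
            (c (S.erase i) - d (S.erase i)) else 0) = 0 := by
          refine Finset.sum_eq_zero fun S hS => if_neg fun h => ?_
          exact hni (Finset.mem_powerset.1 hS h)
        rw [h1, zero_add, ← Finset.sum_add_distrib]
        refine Finset.sum_congr rfl fun S hS => ?_
        have hiS : i ∉ S := fun h => hni (Finset.mem_powerset.1 hS h)
        rw [if_pos (Finset.mem_insert_self i S), Finset.erase_insert hiS]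
        abel
      rw [key, if_pos hi, hF, Finset.sum_sub_distrib]
      abel
    · have key : ∑ S ∈ X.powerset, (if i ∈ S then (c S - d S) + (c (S.erase i) - d (S.erase i))
          else 0) = 0 :=
        Finset.sum_eq_zero fun S hS => if_neg fun h => hi (Finset.mem_powerset.1 hS h)
      rw [key, if_neg hi, hG, add_zero]

/-- the characteristic function -/
def chi (X : Finset ι) : ι → Bool := fun i => decide (i ∈ X)

lemma tree_deg (T : Pool.Agent.TH163.AC3.Tree ι) (w : A) :
    Deg T.depth (fun X => if T.eval (chi X) = true then w else 0) := by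
  induction T with
  | leaf b =>
    have : (fun X : Finset ι => if (Pool.Agent.TH163.AC3.Tree.leaf b).eval (chi X) = true then w
        else 0) = fun _ => if b = true then w else 0 := rfl
    rw [this]
    exact deg_const _ _
  | node i a b iha ihb =>
    have : (fun X : Finset ι => if (Pool.Agent.TH163.AC3.Tree.node i a b).eval (chi X) = true
        then w else 0) = fun X => if i ∈ X then (if b.eval (chi X) = true then w else 0) else
          (if a.eval (chi X) = true then w else 0) := by
      funext X
      show (if (if chi X i = true then b.eval (chi X) else a.eval (chi X)) = true then w else 0) = _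
      have h1 : chi X i = true ↔ i ∈ X := by
        unfold chi
        exact decide_eq_true_iff
      by_cases h : i ∈ X
      · rw [if_pos (h1.2 h), if_pos h]
      · rw [if_neg (fun h' => h (h1.1 h')), if_neg h]
    rw [this]
    have h2 : (Pool.Agent.TH163.AC3.Tree.node i a b).depth = max a.depth b.depth + 1 := rfl
    rw [h2]
    exact deg_ite i (deg_mono (le_max_right _ _) ihb) (deg_mono (le_max_left _ _) iha)

lemma hasDT_deg {s : ℕ} {f : (ι → Bool) → Bool} (h : HasDT s f) (w : A) :
    Deg s (fun X => if f (chi X) = true then w else 0) := by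
  obtain ⟨T, hT, he⟩ := h
  have h1 := deg_mono hT (tree_deg T w)
  have h2 : (fun X => if T.eval (chi X) = true then w else (0 : A)) =
      fun X => if f (chi X) = true then w else 0 := by
    funext X
    rw [he]
  rwa [h2] at h1

end

end Pool.Agent.L5helper12.MD
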