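import Pool.Agent.L5helper12.MDSub
import Pool.Agent.L5helper12.MDTree

/-!
# Removing the lowest composite gates
-/

set_option autoImplicit false

namespace Pool.Agent.L5helper12.MD

open Finset Pool.Agent.W856.Corner Pool.Agent.L5helper12.MF Pool.Agent.TH163.AC3 H568R2

/-- A circuit with gates of unbounded fan-in: AND, OR, NOT, MOD `p`, and composite gates. The nodes
are `0, …, N - 1`; `val i` is the Boolean function of the `n` input bits which is computed at the
node `i`. A node is an input bit, or a constant, or a composite gate: an arbitrary Boolean function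
of a weighted sum of the true inputs, with arbitrary weights in the finite abelian group `A` (for
example an arbitrary function of the number of true inputs modulo `m`, `A = Z/m`), or the negation of
an earlier node, or a MOD `p` gate (is the number of true inputs congruent to `r` modulo `p`?), or an
AND or an OR gate. The function `depth` grows along every wire into a composite, MOD `p`, AND or OR
gate. The inputs of the composite gates are nodes in `low`, and a node in `low` does not depend on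
MOD `p` gates. -/
structure Mixed (p n : ℕ) (A : Type) [AddCommGroup A] where
  /-- the number of nodes -/
  N : ℕ
  /-- the functions computed at the nodes -/
  val : Fin N → V n → Bool
  /-- the depth of the nodes -/
  depth : Fin N → ℕ
  /-- the AND gates and the OR gates -/
  andOr : Finset (Fin N)
  /-- the composite gates -/
  comp : Finset (Fin N)
  /-- nodes which do not depend on MOD `p` gates -/
  low : Finset (Fin N)
  /-- every node is of one of the allowed kinds -/
  rule : ∀ i : Fin N,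
    (i ∉ andOr ∧ ∃ l : Fin n, ∀ y, val i y = decide (y l = 1)) ∨
    (i ∉ andOr ∧ ∃ b : Bool, ∀ y, val i y = b) ∨
    (i ∈ comp ∧ i ∉ andOr ∧ ∃ (J : Finset (Fin N)) (w : Fin N → A) (g : A → Bool),
      (∀ j ∈ J, j < i ∧ j ∈ low ∧ depth j < depth i) ∧
      ∀ y, val i y = g (∑ j ∈ J.filter (fun j => val j y = true), w j)) ∨
    (i ∉ andOr ∧ ∃ j : Fin N, j < i ∧ depth j ≤ depth i ∧ (i ∈ low → j ∈ low) ∧
      ∀ y, val i y = !val j y) ∨
    (i ∉ andOr ∧ i ∉ low ∧ ∃ (J : Finset (Fin N)) (r : ZMod p),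
      (∀ j ∈ J, j < i ∧ depth j < depth i) ∧
      ∀ y, val i y = decide (((J.filter fun j => val j y = true).card : ZMod p) = r)) ∨
    (i ∈ andOr ∧ ∃ J : Finset (Fin N),
      (∀ j ∈ J, j < i ∧ depth j < depth i ∧ (i ∈ low → j ∈ low)) ∧
      ((∀ y, val i y = decide (∀ j ∈ J, val j y = true)) ∨
        ∀ y, val i y = decide (∃ j ∈ J, val j y = true)))

lemma deg_pi {ι K B : Type} [DecidableEq ι] [AddCommGroup B] {t : ℕ} (F : Finset ι → K → B)
    (h : ∀ k, Deg t fun X => F X k) : Deg t F := by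
  choose c hc hF using h
  refine ⟨fun S k => c k S, fun S hS => funext fun k => hc k S hS, fun X => ?_⟩
  funext k
  rw [Finset.sum_apply]
  exact hF k X

section

variable {p n : ℕ} {A : Type} [AddCommGroup A]

/-- the circuit on a subcube on which the composite gates of depth `e + 1` are constant -/
lemma restrict (C : Mixed p n A) {e n' : ℕ} (hcomp : ∀ i ∈ C.comp, e < C.depth i)
    (x : V n' → V n) (hx : ∀ l, (∃ c, ∀ y, x y l = c) ∨ ∃ j, ∀ y, x y l = y j)
    (hconst : ∀ i ∈ C.comp, C.depth i = e + 1 →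
      (∃ (J : Finset (Fin C.N)) (w : Fin C.N → A) (g : A → Bool),
        (∀ j ∈ J, j < i ∧ j ∈ C.low ∧ C.depth j < C.depth i) ∧
        ∀ y, C.val i y = g (∑ j ∈ J.filter (fun j => C.val j y = true), w j)) →
      ∃ b, ∀ y, C.val i (x y) = b) :
    ∃ C' : Mixed p n' A, C'.andOr.card = C.andOr.card ∧ C'.comp.card ≤ C.comp.card ∧
      (∀ d, (∀ i, C.depth i ≤ d) → ∀ i, C'.depth i ≤ d) ∧ (∀ i ∈ C'.comp, e + 1 < C'.depth i) ∧
      ∃ f : Fin C.N → Fin C'.N, ∀ i y, C'.val (f i) y = C.val i (x y) := by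
  classical
  have rule' : ∀ i : Fin C.N,
      (i ∉ C.andOr ∧ ∃ l : Fin n', ∀ y : V n', C.val i (x y) = decide (y l = 1)) ∨
      (i ∉ C.andOr ∧ ∃ b : Bool, ∀ y : V n', C.val i (x y) = b) ∨
      (i ∈ C.comp.filter (fun i => e + 1 < C.depth i) ∧ i ∉ C.andOr ∧
        ∃ (J : Finset (Fin C.N)) (w : Fin C.N → A) (g : A → Bool),
        (∀ j ∈ J, j < i ∧ j ∈ C.low ∧ C.depth j < C.depth i) ∧
        ∀ y : V n', C.val i (x y) = g (∑ j ∈ J.filter (fun j => C.val j (x y) = true), w j)) ∨
      (i ∉ C.andOr ∧ ∃ j : Fin C.N, j < i ∧ C.depth j ≤ C.depth i ∧ (i ∈ C.low → j ∈ C.low) ∧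
        ∀ y : V n', C.val i (x y) = !C.val j (x y)) ∨
      (i ∉ C.andOr ∧ i ∉ C.low ∧ ∃ (J : Finset (Fin C.N)) (r : ZMod p),
        (∀ j ∈ J, j < i ∧ C.depth j < C.depth i) ∧
        ∀ y : V n', C.val i (x y) =
          decide (((J.filter fun j => C.val j (x y) = true).card : ZMod p) = r)) ∨
      (i ∈ C.andOr ∧ ∃ J : Finset (Fin C.N),
        (∀ j ∈ J, j < i ∧ C.depth j < C.depth i ∧ (i ∈ C.low → j ∈ C.low)) ∧
        ((∀ y : V n', C.val i (x y) = decide (∀ j ∈ J, C.val j (x y) = true)) ∨
          ∀ y : V n', C.val i (x y) = decide (∃ j ∈ J, C.val j (x y) = true))) := by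
    intro i
    rcases C.rule i with ⟨hi, l, h⟩ | ⟨hi, b, h⟩ | ⟨hic, hi, J, w, g, hJ, h⟩ |
      ⟨hi, j, hj, hd, hl, h⟩ | ⟨hi, hlow, J, r, hJ, h⟩ | ⟨hi, J, hJ, h⟩
    · rcases hx l with ⟨c, hc⟩ | ⟨j, hj⟩
      · exact Or.inr (Or.inl ⟨hi, decide (c = 1), fun y => by rw [h, hc]⟩)
      · exact Or.inl ⟨hi, j, fun y => by rw [h, hj]⟩
    · exact Or.inr (Or.inl ⟨hi, b, fun y => h _⟩)
    · by_cases hd : e + 1 < C.depth i
      · exact Or.inr (Or.inr (Or.inl ⟨Finset.mem_filter.2 ⟨hic, hd⟩, hi, J, w, g, hJ,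
          fun y => h _⟩))
      · have h1 := hcomp i hic
        obtain ⟨b, hb⟩ := hconst i hic (by omega) ⟨J, w, g, hJ, h⟩
        exact Or.inr (Or.inl ⟨hi, b, hb⟩)
    · exact Or.inr (Or.inr (Or.inr (Or.inl ⟨hi, j, hj, hd, hl, fun y => h _⟩)))
    · exact Or.inr (Or.inr (Or.inr (Or.inr (Or.inl ⟨hi, hlow, J, r, hJ, fun y => h _⟩))))
    · refine Or.inr (Or.inr (Or.inr (Or.inr (Or.inr ⟨hi, J, hJ, ?_⟩))))
      rcases h with h | h
      · exact Or.inl fun y => h _
      · exact Or.inr fun y => h _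
  exact ⟨⟨C.N, fun i y => C.val i (x y), C.depth, C.andOr,
    C.comp.filter (fun i => e + 1 < C.depth i), C.low, rule'⟩, rfl,
    Finset.card_filter_le _ _, fun d hd => hd, fun i hi => (Finset.mem_filter.1 hi).2, id,
    fun i y => rfl⟩

/-- the point of the cube with given values on `U` and given ones outside -/
def asm (U Z : Finset (Fin n)) (x : Fin n → Bool) : V n := fun l =>
  if l ∈ U then (if x l = true then 1 else 0) else if l ∈ Z then 1 else 0

/-- the functions below the lowest composite gates, for several assignments outside `U` -/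
noncomputable def fam (C : Mixed p n A) (e : ℕ) (hcomp : ∀ i ∈ C.comp, e < C.depth i)
    {κ : Type} [Fintype κ] (U : Finset (Fin n)) (Z : κ → Finset (Fin n)) :
    Fam (Fin n) (κ × Fin C.N) := by
  classical
  exact
  { f := fun g x => if g.2 ∈ C.low ∧ C.depth g.2 ≤ e then C.val g.2 (asm U (Z g.1) x) else false
    dep := fun g => if g.2 ∈ C.low ∧ C.depth g.2 ≤ e then C.depth g.2 else 0
    rk := fun g => g.2.val
    gates := univ ×ˢ (C.andOr.filter fun i => i ∈ C.low ∧ C.depth i ≤ e)
    rule := by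
      rintro ⟨k, i⟩
      have hmem : ∀ i, (k, i) ∈ (univ : Finset κ) ×ˢ
          (C.andOr.filter fun i => i ∈ C.low ∧ C.depth i ≤ e) ↔
          i ∈ C.andOr ∧ i ∈ C.low ∧ C.depth i ≤ e := by
        intro i
        rw [Finset.mem_product, Finset.mem_filter]
        exact and_iff_right (Finset.mem_univ _)
      by_cases hi : i ∈ C.low ∧ C.depth i ≤ e
      · have hf : ∀ i, (i ∈ C.low ∧ C.depth i ≤ e) → ∀ x : Fin n → Bool,
            (if i ∈ C.low ∧ C.depth i ≤ e then C.val i (asm U (Z k) x) else false) =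
            C.val i (asm U (Z k) x) := fun i hi x => if_pos hi
        have hdp : ∀ i, (i ∈ C.low ∧ C.depth i ≤ e) →
            (if i ∈ C.low ∧ C.depth i ≤ e then C.depth i else 0) = C.depth i :=
          fun i hi => if_pos hi
        simp only [hmem]
        rcases C.rule i with ⟨hia, l, h⟩ | ⟨hia, b, h⟩ | ⟨hic, hia, J, w, g, hJ, h⟩ |
          ⟨hia, j, hj, hd, hl, h⟩ | ⟨hia, hlow, J, r, hJ, h⟩ | ⟨hia, J, hJ, h⟩
        · by_cases hlU : l ∈ U
          · refine Or.inr (Or.inl ⟨fun h' => hia h'.1, l, fun x => ?_⟩)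
            rw [hf i hi, h]
            have : asm U (Z k) x l = if x l = true then 1 else 0 := if_pos hlU
            rw [this]
            rcases x l with _ | _ <;> decide
          · refine Or.inl ⟨fun h' => hia h'.1, decide (l ∈ Z k), fun x => ?_⟩
            rw [hf i hi, h]
            have : asm U (Z k) x l = if l ∈ Z k then 1 else 0 := if_neg hlU
            rw [this]
            by_cases hlZ : l ∈ Z k
            · rw [if_pos hlZ, decide_eq_true hlZ, decide_eq_true rfl]
            · rw [if_neg hlZ, decide_eq_false hlZ, decide_eq_false zero_ne_one]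
        · exact Or.inl ⟨fun h' => hia h'.1, b, fun x => by rw [hf i hi, h]⟩
        · have := hcomp i hic
          omega
        · have hjj : j ∈ C.low ∧ C.depth j ≤ e := ⟨hl hi.1, by omega⟩
          refine Or.inr (Or.inr (Or.inl ⟨fun h' => hia h'.1, (k, j), hj, ?_, fun x => ?_⟩))
          · rw [hdp i hi, hdp j hjj]
            exact hd
          · rw [hf i hi, hf j hjj, h]
        · exact absurd hi.1 hlow
        · have hJJ : ∀ j ∈ J, j ∈ C.low ∧ C.depth j ≤ e := fun j hj =>
            ⟨(hJ j hj).2.2 hi.1, by have := (hJ j hj).2.1; omega⟩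
          refine Or.inr (Or.inr (Or.inr ⟨⟨hia, hi⟩, J.image fun j => (k, j), ?_, ?_⟩))
          · intro g hg
            obtain ⟨j, hj, rfl⟩ := Finset.mem_image.1 hg
            refine ⟨(hJ j hj).1, ?_⟩
            rw [hdp i hi, hdp j (hJJ j hj)]
            exact (hJ j hj).2.1
          · rcases h with h | h
            · refine Or.inl fun x => ?_
              rw [hf i hi, h]
              congr 1
              refine propext ⟨fun h1 g hg => ?_, fun h1 j hj => ?_⟩
              · obtain ⟨j, hj, rfl⟩ := Finset.mem_image.1 hg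
                rw [hf j (hJJ j hj)]
                exact h1 j hj
              · have h2 := h1 (k, j) (Finset.mem_image_of_mem _ hj)
                rwa [hf j (hJJ j hj)] at h2
            · refine Or.inr fun x => ?_
              rw [hf i hi, h]
              congr 1
              refine propext ⟨?_, ?_⟩
              · rintro ⟨j, hj, h1⟩
                refine ⟨(k, j), Finset.mem_image_of_mem _ hj, ?_⟩
                rw [hf j (hJJ j hj)]
                exact h1
              · rintro ⟨g, hg, h1⟩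
                obtain ⟨j, hj, rfl⟩ := Finset.mem_image.1 hg
                refine ⟨j, hj, ?_⟩
                rwa [hf j (hJJ j hj)] at h1
      · refine Or.inl ⟨fun h' => hi ((hmem i).1 h').2, false, fun x => if_neg hi⟩ }

lemma asm_ov (U Z : Finset (Fin n)) (ρ : Restr (Fin n)) (X : Finset (Fin n))
    (hZ : Z ⊆ Uᶜ) (hX : X ⊆ U.filter fun i => ρ i = none) :
    asm U Z (ov ρ (chi X)) = ind (X ∪ ((U.filter fun i => ρ i = some true) ∪ Z)) := by
  funext l
  show (if l ∈ U then (if ov ρ (chi X) l = true then (1 : ZMod 2) else 0) else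
    if l ∈ Z then 1 else 0) = if l ∈ X ∪ ((U.filter fun i => ρ i = some true) ∪ Z) then 1 else 0
  by_cases hU : l ∈ U
  · have hlZ : l ∉ Z := fun h => (Finset.mem_compl.1 (hZ h)) hU
    rw [if_pos hU]
    refine if_congr ?_ rfl rfl
    rw [Finset.mem_union, Finset.mem_union, Finset.mem_filter]
    unfold ov chi
    cases hρ : ρ l with
    | none =>
      simp only [Option.getD_none, decide_eq_true_eq]
      constructor
      · exact fun h => Or.inl h
      · rintro (h | h | h)
        · exact h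
        · exact absurd h.2 (by simp)
        · exact absurd h hlZ
    | some b =>
      simp only [Option.getD_some]
      constructor
      · intro h
        subst h
        exact Or.inr (Or.inl ⟨hU, rfl⟩)
      · rintro (h | h | h)
        · have := (Finset.mem_filter.1 (hX h)).2
          rw [hρ] at this
          exact absurd this (by simp)
        · have := h.2
          simpa using this
        · exact absurd h hlZ
  · rw [if_neg hU]
    refine if_congr ?_ rfl rfl
    rw [Finset.mem_union, Finset.mem_union, Finset.mem_filter]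
    constructor
    · exact fun h => Or.inr (Or.inr h)
    · rintro (h | h | h)
      · exact absurd (Finset.mem_filter.1 (hX h)).1 hU
      · exact absurd h.1 hU
      · exact h

/-- **Removing the lowest composite gates.** -/
theorem stage [Fintype A] (C : Mixed p n A) {m : ℕ} (hm0 : 0 < m) (hm : ∀ a : A, m • a = 0)
    (e : ℕ) (hcomp : ∀ i ∈ C.comp, e < C.depth i) (i0 : Fin C.N)
    (hmaj : ∀ y, C.val i0 y = true ↔ n ≤ 2 * (sup y).card) {h L a0 s s0 : ℕ} {q : ℝ}
    (hh : 1 ≤ h) (hL : n < 2 ^ L) (hs : 1 ≤ s) (h0 : 0 ≤ q) (h1 : q ≤ 1 / 3)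
    (ha : (m : ℝ) * ((h * L : ℕ) * (C.comp.card * Real.log (Fintype.card A))) < a0)
    (hn : need a0 (2 * h * (h * L) + 1) s ≤ s0)
    (hlt : e * ((h * L * (n / 2 + 1) * C.andOr.card : ℕ) : ℝ) * (12 * s * q) ^ (s + 1) +
      2 ^ s0 * (1 - q ^ e / 2) ^ (n / 2) < 1) :
    ∃ C' : Mixed p (2 * h + 1) A, C'.andOr.card = C.andOr.card ∧ C'.comp.card ≤ C.comp.card ∧
      (∀ d, (∀ i, C.depth i ≤ d) → ∀ i, C'.depth i ≤ d) ∧ (∀ i ∈ C'.comp, e + 1 < C'.depth i) ∧
      ∃ i0', ∀ y, C'.val i0' y = true ↔ 2 * h + 1 ≤ 2 * (sup y).card := by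
  classical
  obtain ⟨r, hr⟩ : ∃ r, r = h * L := ⟨_, rfl⟩
  rw [← hr] at ha hn hlt
  -- the two halves
  obtain ⟨U, hUc⟩ : ∃ U : Finset (Fin n), U.card = n / 2 := by
    obtain ⟨U, _, hU⟩ := Finset.exists_subset_card_eq (s := (univ : Finset (Fin n))) (n := n / 2)
      (by rw [Finset.card_univ, Fintype.card_fin]; exact Nat.div_le_self n 2)
    exact ⟨U, hU⟩
  have hUcc : (Uᶜ).card = n - n / 2 := by
    rw [Finset.card_compl, hUc, Fintype.card_fin]
  have hZ : ∀ κ o : ℕ, ∃ Z : Finset (Fin n), Z ⊆ Uᶜ ∧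
      Z.card = (n - n / 2) - (sz h κ + o) := by
    intro κ o
    exact Finset.exists_subset_card_eq (by rw [hUcc]; omega)
  choose Z hZU hZc using hZ
  let F := fam C e hcomp (κ := Fin r × Fin (n / 2 + 1)) U (fun k => Z k.1 k.2)
  have hFg : (F.gates.card : ℝ) ≤ ((r * (n / 2 + 1) * C.andOr.card : ℕ) : ℝ) := by
    have h2 : F.gates.card ≤ r * (n / 2 + 1) * C.andOr.card := by
      show ((univ : Finset (Fin r × Fin (n / 2 + 1))) ×ˢ
        (C.andOr.filter fun i => i ∈ C.low ∧ C.depth i ≤ e)).card ≤ _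
      rw [Finset.card_product, Finset.card_univ, Fintype.card_prod, Fintype.card_fin,
        Fintype.card_fin]
      exact Nat.mul_le_mul_left _ (Finset.card_filter_le _ _)
    exact_mod_cast h2
  obtain ⟨ρ, hρ1, hρ2⟩ := exists_restr F h0 h1 hs e U s0 (by
    refine lt_of_le_of_lt ?_ hlt
    rw [hUc]
    have hnn : (0 : ℝ) ≤ (12 * s * q) ^ (s + 1) := by positivity
    have he : (0 : ℝ) ≤ e := Nat.cast_nonneg e
    gcongr)
  set S := U.filter fun i => ρ i = none with hS
  set O := U.filter fun i => ρ i = some true with hO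
  have hSO : Disjoint S O := by
    rw [Finset.disjoint_left]
    intro i hi hi'
    have h3 := (Finset.mem_filter.1 hi).2
    have h4 := (Finset.mem_filter.1 hi').2
    rw [h3] at h4
    exact absurd h4 (by simp)
  have hOle : O.card < n / 2 + 1 := by
    have := Finset.card_filter_le U fun i => ρ i = some true
    rw [hUc] at this
    exact Nat.lt_succ_of_le this
  let o : Fin (n / 2 + 1) := ⟨O.card, hOle⟩
  -- the composite gates of depth e + 1
  let Rep : Fin C.N → Prop := fun i => C.depth i = e + 1 ∧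
    ∃ (J : Finset (Fin C.N)) (w : Fin C.N → A) (g : A → Bool),
      (∀ j ∈ J, j < i ∧ j ∈ C.low ∧ C.depth j < C.depth i) ∧
      ∀ y, C.val i y = g (∑ j ∈ J.filter (fun j => C.val j y = true), w j)
  let JJ : Fin C.N → Finset (Fin C.N) := fun i => if hi : Rep i then hi.2.choose else ∅
  let ww : Fin C.N → Fin C.N → A := fun i => if hi : Rep i then hi.2.choose_spec.choose else 0
  have hJJ : ∀ i, ∀ j ∈ JJ i, j ∈ C.low ∧ C.depth j ≤ e := by
    intro i j hj
    by_cases hi : Rep i
    · have e1 : JJ i = hi.2.choose := dif_pos hi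
      rw [e1] at hj
      have := hi.2.choose_spec.choose_spec.choose_spec.1 j hj
      refine ⟨this.2.1, ?_⟩
      have h5 := this.2.2
      rw [hi.1] at h5
      omega
    · have e1 : JJ i = ∅ := dif_neg hi
      rw [e1] at hj
      exact absurd hj (Finset.notMem_empty j)
  let Φ : V n → ({i // i ∈ C.comp} → A) := fun y i =>
    ∑ j ∈ JJ i.1, if C.val j y = true then ww i.1 j else 0
  let Ψ : Finset (Fin n) → (Fin r → {i // i ∈ C.comp} → A) := fun X κ i =>
    ∑ j ∈ JJ i.1, if rs (F.f ((κ, o), j)) ρ (chi X) = true then ww i.1 j else 0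
  have hΨ : Deg s Ψ := by
    refine deg_pi _ fun κ => deg_pi _ fun i => ?_
    refine deg_sum (JJ i.1) (fun j X => if rs (F.f ((κ, o), j)) ρ (chi X) = true then
      ww i.1 j else 0) fun j hj => ?_
    refine hasDT_deg (hρ1 ((κ, o), j) ?_) _
    show (if j ∈ C.low ∧ C.depth j ≤ e then C.depth j else 0) ≤ e
    split_ifs with h'
    · exact h'.2
    · exact Nat.zero_le _
  have hΨv : ∀ X, X ⊆ S → ∀ κ : Fin r, Ψ X κ = Φ (ind (X ∪ (O ∪ Z κ O.card))) := by
    intro X hX κ
    funext i
    show (∑ j ∈ JJ i.1, if rs (F.f ((κ, o), j)) ρ (chi X) = true then ww i.1 j else 0) =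
      ∑ j ∈ JJ i.1, if C.val j (ind (X ∪ (O ∪ Z κ O.card))) = true then ww i.1 j else 0
    refine Finset.sum_congr rfl fun j hj => ?_
    have e1 : rs (F.f ((κ, o), j)) ρ (chi X) = C.val j (ind (X ∪ (O ∪ Z κ O.card))) := by
      show (if j ∈ C.low ∧ C.depth j ≤ e then C.val j (asm U (Z κ o) (ov ρ (chi X))) else
        false) = _
      rw [if_pos (hJJ i.1 j hj)]
      have h5 := asm_ov U (Z κ o) ρ X (hZU κ o) hX
      rw [h5]
    rw [e1]
  have hlog : (m : ℝ) * (r * Real.log (Fintype.card ({i // i ∈ C.comp} → A))) < a0 := by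
    rw [Fintype.card_fun, Fintype.card_coe, Nat.cast_pow, Real.log_pow]
    exact ha
  obtain ⟨x, a, hx1, hx2, hx3⟩ := subcube' hm0 (fun a => by funext i; exact hm _) Φ hh hL hr hlog
    U S O hUc (Finset.filter_subset _ _) (Finset.filter_subset _ _) hSO (fun κ => Z κ O.card)
    (fun κ => hZU κ _) (fun κ => hZc κ _) Ψ hΨ hΨv (hn.trans hρ2)
  obtain ⟨C', hC1, hC2, hC3, hC4, f, hf⟩ := restrict C hcomp x hx1 (by
    intro i hi hd hrep
    have hR : Rep i := ⟨hd, hrep⟩
    refine ⟨hR.2.choose_spec.choose_spec.choose (a ⟨i, hi⟩), fun y => ?_⟩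
    rw [hR.2.choose_spec.choose_spec.choose_spec.2 (x y), ← hx2 y]
    refine congrArg _ ?_
    show _ = ∑ j ∈ JJ i, if C.val j (x y) = true then ww i j else 0
    have e1 : JJ i = hR.2.choose := dif_pos hR
    have e2 : ww i = hR.2.choose_spec.choose := dif_pos hR
    rw [e1, e2, Finset.sum_filter])
  refine ⟨C', hC1, hC2, hC3, hC4, f i0, fun y => ?_⟩
  rw [hf, hmaj, hx3]
  omega

end

end Pool.Agent.L5helper12.MD
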