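import Pool.Agent.L5helper12.MFDav

/-!
# Blocks of coordinates on which a polynomial map of low degree into an abelian group is constant
-/

set_option autoImplicit false

namespace Pool.Agent.L5helper12.MF

open Finset

/-- `f` is a polynomial map of degree at most `t` from the finite sets (the supports of the points
of the cube) to the group `A` -/
def Deg {ι A : Type} [DecidableEq ι] [AddCommGroup A] (t : ℕ) (f : Finset ι → A) : Prop :=
  ∃ c : Finset ι → A, (∀ S, t < S.card → c S = 0) ∧ ∀ X, f X = ∑ S ∈ X.powerset, c S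

section

variable {ι A : Type} [DecidableEq ι] [AddCommGroup A]

/-- the coefficients after the substitution of blocks -/
def cB (c : Finset ι → A) (B : ℕ → Finset ι) (T : Finset ℕ) : A :=
  ∑ S ∈ (T.biUnion B).powerset, if ∀ j ∈ T, (S ∩ B j).Nonempty then c S else 0

lemma card_meet {B : ℕ → Finset ι} (hB : ∀ i j, i ≠ j → Disjoint (B i) (B j)) {S : Finset ι}
    {T : Finset ℕ} (h : ∀ j ∈ T, (S ∩ B j).Nonempty) : T.card ≤ (S ∩ T.biUnion B).card := by
  have h1 : (T.biUnion fun j => S ∩ B j) ⊆ S ∩ T.biUnion B := by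
    intro x hx
    rw [Finset.mem_biUnion] at hx
    obtain ⟨j, hj, hx⟩ := hx
    rw [Finset.mem_inter] at hx ⊢
    exact ⟨hx.1, Finset.mem_biUnion.2 ⟨j, hj, hx.2⟩⟩
  refine le_trans ?_ (Finset.card_le_card h1)
  rw [Finset.card_biUnion]
  · rw [Finset.card_eq_sum_ones]
    exact Finset.sum_le_sum fun j hj => Finset.card_pos.2 (h j hj)
  · intro i _ j _ hij
    exact (hB i j hij).mono Finset.inter_subset_right Finset.inter_subset_right

/-- the expansion in the blocks -/
lemma expand {c : Finset ι → A} {B : ℕ → Finset ι} (hB : ∀ i j, i ≠ j → Disjoint (B i) (B j))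
    (Y : Finset ℕ) : ∑ S ∈ (Y.biUnion B).powerset, c S = ∑ T ∈ Y.powerset, cB c B T := by
  classical
  have h1 : ∀ S ∈ (Y.biUnion B).powerset, (Y.filter fun j => (S ∩ B j).Nonempty) ∈ Y.powerset :=
    fun S _ => Finset.mem_powerset.2 (Finset.filter_subset _ _)
  rw [← Finset.sum_fiberwise_of_maps_to h1]
  refine Finset.sum_congr rfl fun T hT => ?_
  rw [Finset.mem_powerset] at hT
  unfold cB
  rw [← Finset.sum_filter]
  refine Finset.sum_congr ?_ fun _ _ => rfl
  ext S
  rw [Finset.mem_filter, Finset.mem_filter, Finset.mem_powerset, Finset.mem_powerset]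
  constructor
  · rintro ⟨hS, hT'⟩
    constructor
    · intro x hx
      obtain ⟨j, hj, hxj⟩ := Finset.mem_biUnion.1 (hS hx)
      refine Finset.mem_biUnion.2 ⟨j, ?_, hxj⟩
      rw [← hT', Finset.mem_filter]
      exact ⟨hj, ⟨x, Finset.mem_inter.2 ⟨hx, hxj⟩⟩⟩
    · intro j hj
      rw [← hT', Finset.mem_filter] at hj
      exact hj.2
  · rintro ⟨hS, hT'⟩
    refine ⟨hS.trans (Finset.biUnion_subset_biUnion_of_subset_left _ hT), ?_⟩
    ext j
    rw [Finset.mem_filter]
    constructor
    · rintro ⟨_, ⟨x, hx⟩⟩
      rw [Finset.mem_inter] at hx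
      obtain ⟨k, hk, hxk⟩ := Finset.mem_biUnion.1 (hS hx.1)
      by_cases hjk : j = k
      · rw [hjk]; exact hk
      · exact absurd hxk (Finset.disjoint_left.1 (hB j k hjk) hx.2)
    · intro hj
      exact ⟨hT hj, hT' j hj⟩

lemma cB_high {c : Finset ι → A} {B : ℕ → Finset ι} (hB : ∀ i j, i ≠ j → Disjoint (B i) (B j))
    {t : ℕ} (hc : ∀ S, t < S.card → c S = 0) {T : Finset ℕ} (hT : t < T.card) : cB c B T = 0 := by
  refine Finset.sum_eq_zero fun S _ => ?_
  split_ifs with h
  · have h1 := card_meet hB h
    have h2 := Finset.card_le_card (Finset.inter_subset_left (s₁ := S) (s₂ := T.biUnion B))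
    exact hc S (by omega)
  · rfl

/-- the linear form of the new block -/
def lam (c : Finset ι → A) (B : ℕ → Finset ι) (T : Finset ℕ) (l : ι) : A :=
  ∑ S ∈ (T.biUnion B).powerset, if ∀ j ∈ T, (S ∩ B j).Nonempty then c (insert l S) else 0

lemma sum_powerset_union {P Q : Finset ι} (h : Disjoint P Q) (F : Finset ι → A) :
    ∑ S ∈ (P ∪ Q).powerset, F S = ∑ S1 ∈ P.powerset, ∑ S2 ∈ Q.powerset, F (S1 ∪ S2) := by
  rw [← Finset.sum_product']
  refine Finset.sum_nbij' (fun S => (S ∩ P, S ∩ Q)) (fun q => q.1 ∪ q.2) ?_ ?_ ?_ ?_ ?_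
  · intro S _
    rw [Finset.mem_product, Finset.mem_powerset, Finset.mem_powerset]
    exact ⟨Finset.inter_subset_right, Finset.inter_subset_right⟩
  · rintro ⟨S1, S2⟩ hS
    rw [Finset.mem_product, Finset.mem_powerset, Finset.mem_powerset] at hS
    rw [Finset.mem_powerset]
    exact Finset.union_subset_union hS.1 hS.2
  · intro S hS
    rw [Finset.mem_powerset] at hS
    show S ∩ P ∪ S ∩ Q = S
    rw [← Finset.inter_union_distrib_left]
    exact Finset.inter_eq_left.2 hS
  · rintro ⟨S1, S2⟩ hS
    rw [Finset.mem_product, Finset.mem_powerset, Finset.mem_powerset] at hS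
    simp only at hS
    have e1 : (S1 ∪ S2) ∩ P = S1 := by
      ext x
      rw [Finset.mem_inter, Finset.mem_union]
      constructor
      · rintro ⟨h1 | h1, h2⟩
        · exact h1
        · exact absurd (hS.2 h1) (Finset.disjoint_left.1 h h2)
      · intro h1
        exact ⟨Or.inl h1, hS.1 h1⟩
    have e2 : (S1 ∪ S2) ∩ Q = S2 := by
      ext x
      rw [Finset.mem_inter, Finset.mem_union]
      constructor
      · rintro ⟨h1 | h1, h2⟩
        · exact absurd h2 (Finset.disjoint_left.1 h (hS.1 h1))
        · exact h1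
      · intro h1
        exact ⟨Or.inr h1, hS.2 h1⟩
    simp only [e1, e2]
  · intro S hS
    rw [Finset.mem_powerset] at hS
    rw [← Finset.inter_union_distrib_left, Finset.inter_eq_left.2 hS]

/-- the top coefficients are additive in the last block -/
lemma cB_insert {c : Finset ι → A} {B : ℕ → Finset ι} (hB : ∀ i j, i ≠ j → Disjoint (B i) (B j))
    {t : ℕ} (hc : ∀ S, t + 1 < S.card → c S = 0) {T : Finset ℕ} (hT : T.card = t) {k : ℕ}
    (hk : k ∉ T) : cB c B (insert k T) = ∑ l ∈ B k, lam c B T l := by
  classical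
  have hdis : Disjoint (B k) (T.biUnion B) := by
    rw [Finset.disjoint_biUnion_right]
    intro j hj
    exact hB k j (fun h => hk (h ▸ hj))
  unfold cB
  rw [Finset.biUnion_insert, sum_powerset_union hdis]
  have hcond : ∀ S1 ∈ (B k).powerset, ∀ S2 ∈ (T.biUnion B).powerset,
      (if ∀ j ∈ insert k T, ((S1 ∪ S2) ∩ B j).Nonempty then c (S1 ∪ S2) else 0) =
      if S1.Nonempty ∧ ∀ j ∈ T, (S2 ∩ B j).Nonempty then c (S1 ∪ S2) else 0 := by
    intro S1 h1 S2 h2
    rw [Finset.mem_powerset] at h1 h2
    refine if_congr ?_ rfl rfl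
    rw [Finset.forall_mem_insert]
    have e1 : (S1 ∪ S2) ∩ B k = S1 := by
      ext x
      rw [Finset.mem_inter, Finset.mem_union]
      constructor
      · rintro ⟨h3 | h3, h4⟩
        · exact h3
        · exact absurd (h2 h3) (Finset.disjoint_left.1 hdis h4)
      · intro h3
        exact ⟨Or.inl h3, h1 h3⟩
    have e2 : ∀ j ∈ T, (S1 ∪ S2) ∩ B j = S2 ∩ B j := by
      intro j hj
      ext x
      rw [Finset.mem_inter, Finset.mem_inter, Finset.mem_union]
      constructor
      · rintro ⟨h3 | h3, h4⟩
        · have hkj : k ≠ j := fun h => hk (h ▸ hj)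
          exact absurd h4 (Finset.disjoint_left.1 (hB k j hkj) (h1 h3))
        · exact ⟨h3, h4⟩
      · rintro ⟨h3, h4⟩
        exact ⟨Or.inr h3, h4⟩
    rw [e1]
    refine and_congr Iff.rfl (forall₂_congr fun j hj => ?_)
    rw [e2 j hj]
  rw [Finset.sum_congr rfl fun S1 h1 => Finset.sum_congr rfl fun S2 h2 => hcond S1 h1 S2 h2]
  -- only singletons contribute
  have hsub : (B k).image (fun l => ({l} : Finset ι)) ⊆ (B k).powerset := by
    intro S hS
    rw [Finset.mem_image] at hS
    obtain ⟨l, hl, rfl⟩ := hS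
    rw [Finset.mem_powerset, Finset.singleton_subset_iff]
    exact hl
  rw [← Finset.sum_subset hsub]
  · rw [Finset.sum_image (fun l _ l' _ h => Finset.singleton_injective h)]
    refine Finset.sum_congr rfl fun l _ => ?_
    unfold lam
    refine Finset.sum_congr rfl fun S _ => ?_
    rw [Finset.insert_eq]
    refine if_congr ?_ rfl rfl
    exact and_iff_right (Finset.singleton_nonempty l)
  · intro S1 h1 h1'
    refine Finset.sum_eq_zero fun S2 h2 => ?_
    rw [Finset.mem_powerset] at h1 h2
    split_ifs with h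
    · apply hc
      have h3 := card_meet hB h.2
      have h4 : S2 ∩ T.biUnion B = S2 := Finset.inter_eq_left.2 h2
      rw [h4, hT] at h3
      have h5 : 2 ≤ S1.card := by
        by_contra h6
        have h7 : S1.card = 1 := by
          have := Finset.card_pos.2 h.1
          omega
        obtain ⟨l, hl⟩ := Finset.card_eq_one.1 h7
        apply h1'
        rw [Finset.mem_image]
        refine ⟨l, ?_, hl.symm⟩
        apply h1
        rw [hl]
        exact Finset.mem_singleton_self l
      have h8 : Disjoint S1 S2 := hdis.mono h1 h2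
      rw [Finset.card_union_of_disjoint h8]
      omega
    · rfl

lemma cB_congr {c : Finset ι → A} {B B' : ℕ → Finset ι} {T : Finset ℕ}
    (h : ∀ j ∈ T, B j = B' j) : cB c B T = cB c B' T := by
  unfold cB
  have e : T.biUnion B = T.biUnion B' := Finset.biUnion_congr rfl h
  rw [e]
  refine Finset.sum_congr rfl fun S _ => ?_
  refine if_congr ?_ rfl rfl
  exact forall₂_congr fun j hj => by rw [h j hj]

lemma lam_congr {c : Finset ι → A} {B B' : ℕ → Finset ι} {T : Finset ℕ}
    (h : ∀ j ∈ T, B j = B' j) (l : ι) : lam c B T l = lam c B' T l := by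
  unfold lam
  have e : T.biUnion B = T.biUnion B' := Finset.biUnion_congr rfl h
  rw [e]
  refine Finset.sum_congr rfl fun S _ => ?_
  refine if_congr ?_ rfl rfl
  exact forall₂_congr fun j hj => by rw [h j hj]

lemma cB_empty {c : Finset ι → A} {B : ℕ → Finset ι} {T : Finset ℕ} {j : ℕ} (hj : j ∈ T)
    (h : B j = ∅) : cB c B T = 0 := by
  refine Finset.sum_eq_zero fun S _ => ?_
  rw [if_neg]
  intro h'
  have := h' j hj
  rw [h, Finset.inter_empty] at this
  exact Finset.not_nonempty_empty this

end

section

variable {ι A : Type} [DecidableEq ι] [AddCommGroup A] [Fintype A]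

/-- choice of the blocks one after the other -/
theorem blocks {c : Finset ι → A} {t m : ℕ} (hm0 : 0 < m) (hm : ∀ a : A, m • a = 0)
    (hc : ∀ S, t + 1 < S.card → c S = 0) (N D : ℕ)
    (hD : (m : ℝ) * (((N : ℝ) ^ t) * Real.log (Fintype.card A)) < D) (M : ℕ) (hMN : M ≤ N)
    (U : Finset ι) (hU : M * D ≤ U.card) :
    ∃ B : ℕ → Finset ι, (∀ i j, i ≠ j → Disjoint (B i) (B j)) ∧ (∀ j, j < M → (B j).Nonempty) ∧
      (∀ j, M ≤ j → B j = ∅) ∧ (∀ j, B j ⊆ U) ∧ ∀ T : Finset ℕ, T.card = t + 1 → cB c B T = 0 := by
  classical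
  induction M generalizing U with
  | zero =>
    refine ⟨fun _ => ∅, fun _ _ _ => Finset.disjoint_empty_left _, fun j hj => absurd hj (by omega),
      fun _ _ => rfl, fun _ => Finset.empty_subset _, ?_⟩
    intro T hT
    obtain ⟨j, hj⟩ : T.Nonempty := Finset.card_pos.1 (by omega)
    exact cB_empty hj rfl
  | succ M ih =>
    -- reserve a chunk of size `D`
    obtain ⟨C, hCU, hC⟩ := Finset.exists_subset_card_eq (s := U) (n := D) (by
      calc D ≤ (M + 1) * D := Nat.le_mul_of_pos_left _ (by omega)
        _ ≤ _ := hU)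
    have hUC : M * D ≤ (U \ C).card := by
      rw [Finset.card_sdiff_of_subset hCU, hC]
      have : (M + 1) * D = M * D + D := by ring
      omega
    obtain ⟨B, hB1, hB2, hB3, hB4, hB5⟩ := ih (by omega) (U \ C) hUC
    -- the linear conditions
    let I : Finset (Finset ℕ) := (Finset.range M).powersetCard t
    let g : ι → ({T // T ∈ I} → A) := fun l T => lam c B T.1 l
    have hlog : (m : ℝ) * Real.log (Fintype.card ({T // T ∈ I} → A)) < C.card := by
      rw [Fintype.card_fun, Fintype.card_coe, Nat.cast_pow, Real.log_pow, hC]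
      refine lt_of_le_of_lt ?_ hD
      refine mul_le_mul_of_nonneg_left ?_ (Nat.cast_nonneg _)
      refine mul_le_mul_of_nonneg_right ?_ (Real.log_natCast_nonneg _)
      have h1 : I.card ≤ N ^ t := by
        show ((Finset.range M).powersetCard t).card ≤ N ^ t
        rw [Finset.card_powersetCard, Finset.card_range]
        exact (Nat.choose_le_pow M t).trans (Nat.pow_le_pow_left (by omega) _)
      exact_mod_cast h1
    obtain ⟨B', hB'C, hB'n, hB's⟩ := zero_sum (A := {T // T ∈ I} → A) hm0
      (fun a => by funext T; exact hm _) g C hlog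
    have hB'dis : ∀ j, Disjoint B' (B j) := fun j =>
      Finset.disjoint_of_subset_left hB'C
        (Finset.disjoint_of_subset_right (hB4 j) Finset.disjoint_sdiff)
    set B2 : ℕ → Finset ι := Function.update B M B' with hB2def
    have hB2M : B2 M = B' := Function.update_self _ _ _
    have hB2ne : ∀ j, j ≠ M → B2 j = B j := fun j hj => Function.update_of_ne hj _ _
    have hdis : ∀ i j, i ≠ j → Disjoint (B2 i) (B2 j) := by
      intro i j hij
      by_cases hi : i = M
      · have hj : j ≠ M := fun h => hij (hi.trans h.symm)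
        rw [hi, hB2M, hB2ne j hj]
        exact hB'dis j
      · by_cases hj : j = M
        · rw [hj, hB2M, hB2ne i hi]
          exact (hB'dis i).symm
        · rw [hB2ne i hi, hB2ne j hj]
          exact hB1 i j hij
    refine ⟨B2, hdis, ?_, ?_, ?_, ?_⟩
    · intro j hj
      by_cases h : j = M
      · rw [h, hB2M]; exact hB'n
      · rw [hB2ne j h]; exact hB2 j (by omega)
    · intro j hj
      rw [hB2ne j (by omega)]
      exact hB3 j (by omega)
    · intro j
      by_cases h : j = M
      · rw [h, hB2M]; exact hB'C.trans hCU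
      · rw [hB2ne j h]; exact (hB4 j).trans Finset.sdiff_subset
    · intro T hT
      by_cases hMT : M ∈ T
      · have hins : insert M (T.erase M) = T := Finset.insert_erase hMT
        have hTc : (T.erase M).card = t := by
          rw [Finset.card_erase_of_mem hMT, hT]; omega
        by_cases hsub : T.erase M ⊆ Finset.range M
        · rw [← hins, cB_insert hdis hc hTc (Finset.notMem_erase _ _), hB2M]
          have h1 : ∀ l ∈ B', lam c B2 (T.erase M) l = lam c B (T.erase M) l := fun l _ =>
            lam_congr (fun j hj => hB2ne j (Finset.ne_of_mem_erase hj)) l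
          rw [Finset.sum_congr rfl h1]
          have hTI : T.erase M ∈ I := Finset.mem_powersetCard.2 ⟨hsub, hTc⟩
          have h2 := congrFun hB's ⟨T.erase M, hTI⟩
          rw [Finset.sum_apply] at h2
          exact h2
        · rw [Finset.not_subset] at hsub
          obtain ⟨j, hj, hjM⟩ := hsub
          rw [Finset.mem_range, not_lt] at hjM
          have hjne : j ≠ M := Finset.ne_of_mem_erase hj
          refine cB_empty (Finset.mem_of_mem_erase hj) ?_
          rw [hB2ne j hjne]
          exact hB3 j hjM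
      · rw [cB_congr (B' := B) fun j hj => hB2ne j fun h => hMT (h ▸ hj)]
        exact hB5 T hT

/-- one step of the reduction of the degree -/
theorem reduce {f : Finset ι → A} {t m : ℕ} (hm0 : 0 < m) (hm : ∀ a : A, m • a = 0)
    (hf : Deg (t + 1) f) (M D : ℕ)
    (hD : (m : ℝ) * (((M : ℝ) ^ t) * Real.log (Fintype.card A)) < D)
    (U : Finset ι) (hU : M * D ≤ U.card) :
    ∃ B : ℕ → Finset ι, (∀ i j, i ≠ j → Disjoint (B i) (B j)) ∧ (∀ j, j < M → (B j).Nonempty) ∧
      (∀ j, B j ⊆ U) ∧ Deg t fun Y : Finset ℕ => f (Y.biUnion B) := by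
  obtain ⟨c, hc, hfc⟩ := hf
  obtain ⟨B, h1, h2, h3, h4, h5⟩ := blocks hm0 hm hc M D hD M le_rfl U hU
  refine ⟨B, h1, h2, h4, cB c B, ?_, ?_⟩
  · intro T hT
    rcases Nat.lt_or_ge (t + 1) T.card with h | h
    · exact cB_high h1 hc h
    · exact h5 T (by omega)
  · intro Y
    show f (Y.biUnion B) = _
    rw [hfc, expand h1]

/-- the number of coordinates which are sufficient for `K` blocks -/
def need (a K : ℕ) : ℕ → ℕ
  | 0 => K
  | t + 1 => a * need a K t ^ (t + 1)

/-- the reduction to degree zero -/
theorem constant_blocks {m : ℕ} (hm0 : 0 < m) (hm : ∀ a : A, m • a = 0) (a K : ℕ)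
    (ha : (m : ℝ) * Real.log (Fintype.card A) < a) (t : ℕ) :
    ∀ {ι : Type} [DecidableEq ι] (f : Finset ι → A), Deg t f → ∀ U : Finset ι,
      need a K t ≤ U.card →
      ∃ B : ℕ → Finset ι, (∀ i j, i ≠ j → Disjoint (B i) (B j)) ∧
        (∀ j, j < K → (B j).Nonempty) ∧ (∀ j, B j ⊆ U) ∧
        ∀ Y : Finset ℕ, Y ⊆ Finset.range K → f (Y.biUnion B) = f ∅ := by
  induction t with
  | zero =>
    intro ι _ f hf U hU
    obtain ⟨c, hc, hfc⟩ := hf
    have hU' : K ≤ U.card := hU
    -- singletons
    obtain ⟨e⟩ : Nonempty (Fin U.card ≃ U) := ⟨(Fintype.equivFinOfCardEq (by simp)).symm⟩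
    refine ⟨fun j => if h : j < U.card then {(e ⟨j, h⟩).1} else ∅, ?_, ?_, ?_, ?_⟩
    · intro i j hij
      show Disjoint (if h : i < U.card then {(e ⟨i, h⟩).1} else ∅)
        (if h : j < U.card then {(e ⟨j, h⟩).1} else ∅)
      split_ifs with hi hj
      · rw [Finset.disjoint_singleton]
        intro h
        apply hij
        have h1 := e.injective (Subtype.ext h)
        exact congrArg Fin.val h1
      · exact Finset.disjoint_empty_right _
      · exact Finset.disjoint_empty_left _
      · exact Finset.disjoint_empty_left _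
    · intro j hj
      show (if h : j < U.card then {(e ⟨j, h⟩).1} else ∅ : Finset ι).Nonempty
      rw [dif_pos (lt_of_lt_of_le hj hU')]
      exact Finset.singleton_nonempty _
    · intro j
      show (if h : j < U.card then {(e ⟨j, h⟩).1} else ∅ : Finset ι) ⊆ U
      split_ifs with hj
      · rw [Finset.singleton_subset_iff]
        exact (e ⟨j, hj⟩).2
      · exact Finset.empty_subset _
    · intro Y _
      rw [hfc, hfc]
      have h1 : ∀ X : Finset ι, ∑ S ∈ X.powerset, c S = c ∅ := by
        intro X
        rw [Finset.sum_eq_single ∅]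
        · intro S _ hS
          exact hc S (Finset.card_pos.2 (Finset.nonempty_iff_ne_empty.2 hS))
        · intro h
          exact absurd (Finset.empty_mem_powerset X) h
      rw [h1, h1]
  | succ t ih =>
    intro ι _ f hf U hU
    have hU' : a * need a K t ^ (t + 1) ≤ U.card := hU
    set M := need a K t with hM
    have hD : (m : ℝ) * (((M : ℝ) ^ t) * Real.log (Fintype.card A)) < ((a * M ^ t : ℕ) : ℝ) ∨
        M = 0 := by
      rcases Nat.eq_zero_or_pos M with h | h
      · exact Or.inr h
      · left
        have h1 : (0 : ℝ) < (M : ℝ) ^ t := by positivity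
        push_cast
        calc (m : ℝ) * (((M : ℝ) ^ t) * Real.log (Fintype.card A))
            = (m * Real.log (Fintype.card A)) * (M : ℝ) ^ t := by ring
          _ < a * (M : ℝ) ^ t := mul_lt_mul_of_pos_right ha h1
    rcases hD with hD | hM0
    · obtain ⟨B1, h1, h2, h3, h4⟩ := reduce hm0 hm hf M (a * M ^ t) hD U (by
        refine le_trans (le_of_eq ?_) hU'
        ring)
      obtain ⟨B2, g1, g2, g3, g4⟩ := ih (fun Y : Finset ℕ => f (Y.biUnion B1)) h4
        (Finset.range M) (by rw [Finset.card_range])
      refine ⟨fun j => (B2 j).biUnion B1, ?_, ?_, ?_, ?_⟩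
      · intro i j hij
        rw [Finset.disjoint_biUnion_left]
        intro x hx
        rw [Finset.disjoint_biUnion_right]
        intro y hy
        apply h1
        rintro rfl
        exact Finset.disjoint_left.1 (g1 i j hij) hx hy
      · intro j hj
        obtain ⟨x, hx⟩ := g2 j hj
        obtain ⟨y, hy⟩ := h2 x (Finset.mem_range.1 (g3 j hx))
        exact ⟨y, Finset.mem_biUnion.2 ⟨x, hx, hy⟩⟩
      · intro j
        exact Finset.biUnion_subset.2 fun x _ => h3 x
      · intro Y hY
        have h5 := g4 Y hY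
        have h6 : f ((Y.biUnion B2).biUnion B1) = f ((∅ : Finset ℕ).biUnion B1) := h5
        rw [Finset.biUnion_biUnion, Finset.biUnion_empty] at h6
        exact h6
    · -- then `K = 0`
      have hK : K = 0 := by
        by_contra hK
        have : ∀ s, 0 < need a K s := by
          intro s
          have ha0 : 0 < a := by
            have h1 : (0 : ℝ) ≤ m * Real.log (Fintype.card A) :=
              mul_nonneg (Nat.cast_nonneg _) (Real.log_natCast_nonneg _)
            have h2 : (0 : ℝ) < a := lt_of_le_of_lt h1 ha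
            exact_mod_cast h2
          induction s with
          | zero => exact Nat.pos_of_ne_zero hK
          | succ s ihs => exact Nat.mul_pos ha0 (pow_pos ihs _)
        have := this t
        omega
      subst hK
      refine ⟨fun _ => ∅, fun _ _ _ => Finset.disjoint_empty_left _,
        fun j hj => absurd hj (by omega), fun _ => Finset.empty_subset _, ?_⟩
      intro Y hY
      rw [Finset.range_zero, Finset.subset_empty] at hY
      rw [hY, Finset.biUnion_empty]

end

end Pool.Agent.L5helper12.MF
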