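import Mathlib

/-!
# Zero-sum subsequences (van Emde Boas–Kruyswijk, Meshulam), with the constant `m log |A|`
-/

set_option autoImplicit false

namespace Pool.Agent.L5helper12.MF

open Finset

variable {A : Type} [AddCommGroup A] [Fintype A]

omit [Fintype A] in
/-- the values of characters are `m`-th roots of unity -/
lemma char_pow {m : ℕ} (hm : ∀ a : A, m • a = 0) (χ : AddChar A ℂ) (a : A) : χ a ^ m = 1 := by
  rw [← AddChar.map_nsmul_eq_pow, hm, AddChar.map_zero_eq_one]

omit [Fintype A] in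
/-- one step: some value kills a proportion `1 / m` of the characters -/
lemma pop {m : ℕ} (hm0 : 0 < m) (hm : ∀ a : A, m • a = 0) (X : Finset (AddChar A ℂ)) (g : A) :
    ∃ z : ℂ, z ≠ 0 ∧ ∃ X' : Finset (AddChar A ℂ), (∀ χ ∈ X, z ≠ χ g → χ ∈ X') ∧
      (X'.card : ℝ) ≤ X.card * (1 - 1 / (m : ℝ)) := by
  classical
  have hmr : (0 : ℝ) < m := by exact_mod_cast hm0
  set R : Finset ℂ := Polynomial.nthRootsFinset m (1 : ℂ) with hR
  have hRc : R.card ≤ m := by
    rw [hR]
    unfold Polynomial.nthRootsFinset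
    exact (Multiset.toFinset_card_le _).trans (Polynomial.card_nthRoots m 1)
  have hmem : ∀ χ ∈ X, χ g ∈ R := by
    intro χ _
    rw [hR, Polynomial.mem_nthRootsFinset hm0]
    exact char_pow hm χ g
  have h1 : ∑ z ∈ R, (X.filter fun χ => χ g = z).card = X.card :=
    (Finset.card_eq_sum_card_fiberwise hmem).symm
  by_cases hX : X = ∅
  · exact ⟨1, one_ne_zero, ∅, by rw [hX]; simp, by rw [hX]; simp⟩
  have hRne : R.Nonempty := by
    obtain ⟨χ, hχ⟩ := Finset.nonempty_iff_ne_empty.2 hX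
    exact ⟨_, hmem χ hχ⟩
  obtain ⟨z, hz, hmax⟩ := Finset.exists_max_image R (fun z => (X.filter fun χ => χ g = z).card) hRne
  have h2 : X.card ≤ m * (X.filter fun χ => χ g = z).card := by
    rw [← h1]
    calc ∑ z ∈ R, (X.filter fun χ => χ g = z).card
        ≤ ∑ _w ∈ R, (X.filter fun χ => χ g = z).card := Finset.sum_le_sum fun w hw => hmax w hw
      _ = R.card * (X.filter fun χ => χ g = z).card := by rw [Finset.sum_const, smul_eq_mul]
      _ ≤ _ := Nat.mul_le_mul_right _ hRc
  refine ⟨z, ?_, X.filter (fun χ => ¬ χ g = z), ?_, ?_⟩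
  · intro h0
    rw [hR, Polynomial.mem_nthRootsFinset hm0, h0, zero_pow hm0.ne'] at hz
    exact zero_ne_one hz
  · intro χ hχ h
    rw [Finset.mem_filter]
    exact ⟨hχ, fun h' => h h'.symm⟩
  · have h3 := Finset.card_filter_add_card_filter_not (s := X) (fun χ => χ g = z)
    have h4 : (X.card : ℝ) ≤ m * ((X.filter fun χ => χ g = z).card : ℝ) := by exact_mod_cast h2
    have h5 : ((X.filter fun χ => χ g = z).card : ℝ) + ((X.filter fun χ => ¬ χ g = z).card : ℝ) =
        X.card := by exact_mod_cast h3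
    have h6 : (X.card : ℝ) / m ≤ (X.filter fun χ => χ g = z).card := by
      rw [div_le_iff₀ hmr]; linarith
    have h7 : (X.card : ℝ) * (1 - 1 / (m : ℝ)) = X.card - X.card / m := by ring
    rw [h7]
    linarith

omit [Fintype A] in
/-- the greedy choice -/
lemma greedy {ι : Type} {m : ℕ} (hm0 : 0 < m) (hm : ∀ a : A, m • a = 0)
    (X : Finset (AddChar A ℂ)) (g : ι → A) (U : Finset ι) :
    ∃ a : ι → ℂ, (∀ i, a i ≠ 0) ∧ ∃ X' : Finset (AddChar A ℂ),
      (∀ χ ∈ X, (∀ i ∈ U, a i ≠ χ (g i)) → χ ∈ X') ∧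
      (X'.card : ℝ) ≤ X.card * (1 - 1 / (m : ℝ)) ^ U.card := by
  classical
  have hmr : (0 : ℝ) ≤ 1 - 1 / (m : ℝ) := by
    have h1 : (1 : ℝ) ≤ m := by exact_mod_cast hm0
    have : 1 / (m : ℝ) ≤ 1 := by rw [div_le_one (by linarith)]; exact h1
    linarith
  induction U using Finset.induction_on with
  | empty => exact ⟨fun _ => 1, fun _ => one_ne_zero, X, fun χ h _ => h, by simp⟩
  | insert i U hi ih =>
    obtain ⟨a, ha, X1, hX1, hle⟩ := ih
    obtain ⟨z, hz, X2, hX2, hzle⟩ := pop hm0 hm X1 (g i)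
    refine ⟨Function.update a i z, ?_, X2, ?_, ?_⟩
    · intro j
      by_cases hj : j = i
      · subst hj; rw [Function.update_self]; exact hz
      · rw [Function.update_of_ne hj]; exact ha j
    · intro χ hχ h
      refine hX2 χ (hX1 χ hχ fun j hj => ?_) ?_
      · have h1 := h j (Finset.mem_insert_of_mem hj)
        have : j ≠ i := fun h => hi (h ▸ hj)
        rwa [Function.update_of_ne this] at h1
      · have h1 := h i (Finset.mem_insert_self _ _)
        rwa [Function.update_self] at h1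
    · rw [Finset.card_insert_of_notMem hi, pow_succ, ← mul_assoc]
      exact hzle.trans (mul_le_mul_of_nonneg_right hle hmr)

omit [Fintype A] in
lemma map_sum' {ι : Type} (χ : AddChar A ℂ) (B : Finset ι) (g : ι → A) :
    χ (∑ i ∈ B, g i) = ∏ i ∈ B, χ (g i) := by
  classical
  induction B using Finset.induction_on with
  | empty => simp
  | insert i B hi ih => rw [Finset.sum_insert hi, Finset.prod_insert hi, AddChar.map_add_eq_mul, ih]

/-- **Zero-sum lemma.** If `m a = 0` for all `a ∈ A` then every family of more than `m log |A|`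
elements of `A` has a nonempty subfamily with sum zero. -/
theorem zero_sum {ι : Type} {m : ℕ} (hm0 : 0 < m) (hm : ∀ a : A, m • a = 0)
    (g : ι → A) (U : Finset ι) (hU : (m : ℝ) * Real.log (Fintype.card A) < U.card) :
    ∃ B : Finset ι, B ⊆ U ∧ B.Nonempty ∧ ∑ i ∈ B, g i = 0 := by
  classical
  by_contra hcon
  push Not at hcon
  have hmr : (0 : ℝ) < m := by exact_mod_cast hm0
  obtain ⟨a, ha, X', hX', hle⟩ := greedy hm0 hm (Finset.univ : Finset (AddChar A ℂ)) g U
  -- no character survives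
  have hcardpos : (0 : ℝ) < Fintype.card A := by exact_mod_cast Fintype.card_pos
  have hsmall : (X'.card : ℝ) < 1 := by
    refine lt_of_le_of_lt hle ?_
    rw [Finset.card_univ, AddChar.card_eq]
    have h1 : (1 - 1 / (m : ℝ)) ^ U.card ≤ Real.exp (-(U.card / m)) := by
      have h2 : 1 - 1 / (m : ℝ) ≤ Real.exp (-(1 / (m : ℝ))) := by
        have := Real.add_one_le_exp (-(1 / (m : ℝ)))
        linarith
      have h3 : (0 : ℝ) ≤ 1 - 1 / (m : ℝ) := by
        have h1 : (1 : ℝ) ≤ m := by exact_mod_cast hm0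
        have : 1 / (m : ℝ) ≤ 1 := by rw [div_le_one (by linarith)]; exact h1
        linarith
      calc (1 - 1 / (m : ℝ)) ^ U.card ≤ (Real.exp (-(1 / (m : ℝ)))) ^ U.card :=
            pow_le_pow_left₀ h3 h2 _
        _ = Real.exp (-(U.card / m)) := by
            rw [← Real.exp_nat_mul]
            congr 1
            ring
    have h4 : (Fintype.card A : ℝ) < Real.exp (U.card / m) := by
      rw [← Real.log_lt_iff_lt_exp hcardpos, lt_div_iff₀ hmr]
      linarith
    calc (Fintype.card A : ℝ) * (1 - 1 / (m : ℝ)) ^ U.card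
        ≤ Fintype.card A * Real.exp (-(U.card / m)) :=
          mul_le_mul_of_nonneg_left h1 hcardpos.le
      _ < Real.exp (U.card / m) * Real.exp (-(U.card / m)) :=
          mul_lt_mul_of_pos_right h4 (Real.exp_pos _)
      _ = 1 := by rw [← Real.exp_add, add_neg_cancel, Real.exp_zero]
  have hempty : ∀ χ : AddChar A ℂ, ∃ i ∈ U, a i = χ (g i) := by
    intro χ
    by_contra h
    push Not at h
    have h1 : χ ∈ X' := hX' χ (Finset.mem_univ _) h
    have h2 : 1 ≤ X'.card := Finset.card_pos.2 ⟨χ, h1⟩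
    have h3 : (1 : ℝ) ≤ X'.card := by exact_mod_cast h2
    linarith
  -- the alternating sum
  have hz : ∑ χ : AddChar A ℂ, ∏ i ∈ U, (χ (g i) - a i) = 0 := by
    refine Finset.sum_eq_zero fun χ _ => ?_
    obtain ⟨i, hi, h⟩ := hempty χ
    exact Finset.prod_eq_zero hi (by rw [h, sub_self])
  have hexp : ∀ χ : AddChar A ℂ, ∏ i ∈ U, (χ (g i) - a i) =
      ∑ B ∈ U.powerset, (∏ i ∈ U \ B, (-a i)) * χ (∑ i ∈ B, g i) := by
    intro χ
    have h1 : ∀ i ∈ U, χ (g i) - a i = χ (g i) + (-a i) := fun i _ => by ring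
    rw [Finset.prod_congr rfl h1, Finset.prod_add]
    refine Finset.sum_congr rfl fun B _ => ?_
    have h2 : χ (∑ i ∈ B, g i) = ∏ i ∈ B, χ (g i) := by
      exact Pool.Agent.L5helper12.MF.map_sum' χ B g
    rw [h2, mul_comm]
  rw [Finset.sum_congr rfl fun χ _ => hexp χ, Finset.sum_comm] at hz
  have h0 : ∀ B ∈ U.powerset, ∑ χ : AddChar A ℂ, (∏ i ∈ U \ B, (-a i)) * χ (∑ i ∈ B, g i) =
      if B = ∅ then (∏ i ∈ U, (-a i)) * Fintype.card A else 0 := by
    intro B hB
    rw [← Finset.mul_sum, AddChar.sum_apply_eq_ite]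
    by_cases hBe : B = ∅
    · subst hBe
      simp
    · rw [if_neg hBe]
      have := hcon B (Finset.mem_powerset.1 hB) (Finset.nonempty_iff_ne_empty.2 hBe)
      rw [if_neg this]
      simp
  rw [Finset.sum_congr rfl h0, Finset.sum_ite_eq' U.powerset ∅, if_pos (Finset.empty_mem_powerset _)]
    at hz
  rcases mul_eq_zero.1 hz with h | h
  · rw [Finset.prod_eq_zero_iff] at h
    obtain ⟨i, _, hi⟩ := h
    exact ha i (neg_eq_zero.1 hi)
  · exact hcardpos.ne' (by exact_mod_cast h)

end Pool.Agent.L5helper12.MF
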