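import Pool.Agent.L5helper12.MFMaj
import Pool.Agent.L5helper12.MFBlock

/-!
# Majority on the fibres of a polynomial map into a finite abelian group
-/

set_option autoImplicit false

namespace Pool.Agent.L5helper12.MF

open Finset Pool.Agent.W856.Corner

/-- the point with the given set of ones -/
def ind {n : ℕ} (X : Finset (Fin n)) : V n := fun i => if i ∈ X then 1 else 0

lemma sup_ind {n : ℕ} (X : Finset (Fin n)) : sup (ind X) = X := by
  ext i
  rw [mem_sup]
  unfold ind
  split_ifs with h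
  · exact iff_of_true rfl h
  · exact iff_of_false zero_ne_one h

lemma class_exists (β : ℕ → ℝ) (r : ℕ) (b : ℝ) (h0 : β 0 ≤ b) (hr : b < β r) :
    ∃ κ, κ < r ∧ β κ ≤ b ∧ b < β (κ + 1) := by
  induction r with
  | zero => exact absurd hr (not_lt.2 h0)
  | succ r ih =>
    rcases lt_or_ge b (β r) with h | h
    · obtain ⟨κ, h1, h2⟩ := ih h
      exact ⟨κ, by omega, h2⟩
    · exact ⟨r, Nat.lt_succ_self r, h, hr⟩

/-- The blocks: a subcube of dimension `2 h + 1` on which `Φ` is constant and the majority is the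
majority of the parameters. -/
theorem subcube {n t m h L a0 : ℕ} {A : Type} [AddCommGroup A] [Fintype A]
    (hm0 : 0 < m) (hm : ∀ a : A, m • a = 0) (Φ : V n → A)
    (hΦ : Deg t fun X => Φ (ind X)) (hh : 1 ≤ h) (hL : n < 2 ^ L)
    (ha : (m : ℝ) * ((h * L : ℕ) * Real.log (Fintype.card A)) < a0)
    (hn : need a0 (2 * h * (h * L) + 1) t ≤ n / 2) :
    ∃ (x : V (2 * h + 1) → V n) (a : A),
      (∀ l, (∃ c, ∀ y, x y l = c) ∨ ∃ j, ∀ y, x y l = y j) ∧ (∀ y, Φ (x y) = a) ∧
      ∀ y, n ≤ 2 * (sup (x y)).card ↔ h < (sup y).card := by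
  classical
  set r := h * L with hr
  set K := 2 * h * r + 1 with hK
  obtain ⟨c, hc, hfc⟩ := hΦ
  have hhr : (0 : ℝ) < h := by exact_mod_cast hh
  -- the classes of sizes
  let β : ℕ → ℝ := fun κ => (1 + 1 / (h : ℝ)) ^ κ
  have hβpos : ∀ κ, 0 < β κ := fun κ => by positivity
  have hβ1 : ∀ κ, 1 ≤ β κ := fun κ => one_le_pow₀ (by
    have : 0 < 1 / (h : ℝ) := by positivity
    linarith)
  have hβs : ∀ κ, (h : ℝ) * β (κ + 1) = (h + 1) * β κ := by
    intro κ
    show (h : ℝ) * (1 + 1 / (h : ℝ)) ^ (κ + 1) = (h + 1) * (1 + 1 / (h : ℝ)) ^ κ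
    rw [pow_succ]
    field_simp
  have hβr : (n : ℝ) < β r := by
    have h1 : (2 : ℝ) ≤ (1 + 1 / (h : ℝ)) ^ h := by
      have h2 := one_add_mul_le_pow (a := 1 / (h : ℝ)) (by
        have : 0 < 1 / (h : ℝ) := by positivity
        linarith) h
      have h3 : (h : ℝ) * (1 / (h : ℝ)) = 1 := by field_simp
      linarith
    show (n : ℝ) < (1 + 1 / (h : ℝ)) ^ (h * L)
    rw [pow_mul]
    calc (n : ℝ) < 2 ^ L := by exact_mod_cast hL
      _ ≤ _ := pow_le_pow_left₀ (by norm_num) h1 _
  -- the two halves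
  let U : Finset (Fin n) := univ.filter fun i => i.val < n / 2
  have hUc : U.card = n / 2 := by
    have : U.card = ((univ : Finset (Fin n)).filter fun i => i.val < n / 2).card := rfl
    rw [this, Fin.card_filter_val_lt]
    omega
  have hUcc : (Uᶜ).card = n - n / 2 := by
    rw [Finset.card_compl, hUc, Fintype.card_fin]
  -- the assignments of the second half
  let s : ℕ → ℕ := fun κ => ⌈(h + 1) * β κ⌉₊
  have hZ : ∀ κ, ∃ Z : Finset (Fin n), Z ⊆ Uᶜ ∧ Z.card = (n - n / 2) - s κ := by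
    intro κ
    exact Finset.exists_subset_card_eq (by rw [hUcc]; omega)
  choose Z hZU hZc using hZ
  -- the combined map
  let cΨ : Finset (Fin n) → (Fin r → A) := fun S κ =>
    if S ⊆ U then ∑ S2 ∈ (Z κ).powerset, c (S ∪ S2) else 0
  let Ψ : Finset (Fin n) → (Fin r → A) := fun X => ∑ S ∈ X.powerset, cΨ S
  have hΨ : Deg t Ψ := by
    refine ⟨cΨ, ?_, fun X => rfl⟩
    intro S hS
    funext κ
    show (if S ⊆ U then ∑ S2 ∈ (Z κ).powerset, c (S ∪ S2) else 0) = 0
    split_ifs
    · refine Finset.sum_eq_zero fun S2 _ => hc _ ?_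
      exact lt_of_lt_of_le hS (Finset.card_le_card Finset.subset_union_left)
    · rfl
  have hΨv : ∀ X, X ⊆ U → ∀ κ : Fin r, Ψ X κ = Φ (ind (X ∪ Z κ)) := by
    intro X hX κ
    have hdis : Disjoint X (Z κ) :=
      Finset.disjoint_of_subset_left hX (Finset.disjoint_of_subset_right (hZU κ) disjoint_compl_right)
    have h1 : Φ (ind (X ∪ Z κ)) = ∑ S ∈ (X ∪ Z κ).powerset, c S := hfc (X ∪ Z κ)
    rw [h1, sum_powerset_union hdis]
    show (∑ S ∈ X.powerset, cΨ S) κ = _
    rw [Finset.sum_apply]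
    refine Finset.sum_congr rfl fun S hS => ?_
    exact if_pos ((Finset.mem_powerset.1 hS).trans hX)
  -- the blocks
  have hlog : (m : ℝ) * Real.log (Fintype.card (Fin r → A)) < a0 := by
    rw [Fintype.card_fun, Fintype.card_fin, Nat.cast_pow, Real.log_pow]
    exact ha
  obtain ⟨B, hB1, hB2, hB3, hB4⟩ := constant_blocks (A := Fin r → A) hm0
    (fun a => by funext κ; exact hm _) a0 K hlog t Ψ hΨ U (by rw [hUc]; exact hn)
  -- the sizes
  have hcl : ∀ j : ℕ, j < K → ∃ κ : ℕ, κ < r ∧ β κ ≤ (B j).card ∧ ((B j).card : ℝ) < β (κ + 1) := by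
    intro j hj
    refine class_exists β r _ ?_ ?_
    · show (1 + 1 / (h : ℝ)) ^ 0 ≤ _
      rw [pow_zero]
      exact_mod_cast Finset.card_pos.2 (hB2 j hj)
    · refine lt_of_le_of_lt ?_ hβr
      have h1 := Finset.card_le_card (hB3 j)
      rw [hUc] at h1
      exact_mod_cast h1.trans (Nat.div_le_self n 2)
  choose! cl hcl1 hcl2 hcl3 using hcl
  obtain ⟨κ, hκ, hκf⟩ := Finset.exists_lt_card_fiber_of_mul_lt_card_of_maps_to
    (s := Finset.range K) (t := Finset.range r) (f := cl) (n := 2 * h)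
    (fun j hj => Finset.mem_range.2 (hcl1 j (Finset.mem_range.1 hj)))
    (by rw [Finset.card_range, Finset.card_range, hK, mul_comm]; omega)
  obtain ⟨J, hJ, hJc⟩ := Finset.exists_subset_card_eq
    (s := (Finset.range K).filter fun j => cl j = κ) (n := 2 * h + 1) (by omega)
  have hκr : κ < r := Finset.mem_range.1 hκ
  let e : Fin (2 * h + 1) ≃ J := (Fintype.equivFinOfCardEq (by simp [hJc])).symm
  let σ : Fin (2 * h + 1) → ℕ := fun j => (e j).1
  have hσinj : Function.Injective σ := fun i j hij => e.injective (Subtype.ext hij)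
  have hσK : ∀ j, σ j < K := fun j =>
    Finset.mem_range.1 (Finset.mem_filter.1 (hJ (e j).2)).1
  have hσκ : ∀ j, cl (σ j) = κ := fun j => (Finset.mem_filter.1 (hJ (e j).2)).2
  have hb1 : ∀ j, β κ ≤ (B (σ j)).card := fun j => by
    have := hcl2 (σ j) (hσK j)
    rwa [hσκ j] at this
  have hb2 : ∀ j, ((B (σ j)).card : ℝ) < β (κ + 1) := fun j => by
    have := hcl3 (σ j) (hσK j)
    rwa [hσκ j] at this
  -- the points
  let Yf : V (2 * h + 1) → Finset ℕ := fun y => (sup y).image σ
  let W : V (2 * h + 1) → Finset (Fin n) := fun y => (Yf y).biUnion B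
  have hWU : ∀ y, W y ⊆ U := fun y => Finset.biUnion_subset.2 fun j _ => hB3 j
  have hWc : ∀ y, (W y).card = ∑ j ∈ sup y, (B (σ j)).card := by
    intro y
    show (((sup y).image σ).biUnion B).card = _
    rw [Finset.card_biUnion fun i _ j _ hij => hB1 i j hij,
      Finset.sum_image fun i _ j _ hij => hσinj hij]
  have hdisZ : ∀ y, Disjoint (W y) (Z κ) := fun y =>
    Finset.disjoint_of_subset_left (hWU y)
      (Finset.disjoint_of_subset_right (hZU κ) disjoint_compl_right)
  have hxc : ∀ y, (sup (ind (W y ∪ Z κ))).card =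
      (∑ j ∈ sup y, (B (σ j)).card) + ((n - n / 2) - s κ) := by
    intro y
    rw [sup_ind, Finset.card_union_of_disjoint (hdisZ y), hWc, hZc]
  -- the target
  have hsle : s κ ≤ n - n / 2 := by
    have h1 : (W 1).card ≤ n / 2 := by
      rw [← hUc]; exact Finset.card_le_card (hWU 1)
    rw [hWc] at h1
    have h2 : sup (1 : V (2 * h + 1)) = univ := by
      ext j
      rw [mem_sup]
      exact iff_of_true rfl (Finset.mem_univ _)
    rw [h2] at h1
    have h3 : ((2 * h + 1 : ℕ) : ℝ) * β κ ≤ ((n / 2 : ℕ) : ℝ) := by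
      calc ((2 * h + 1 : ℕ) : ℝ) * β κ = ∑ _j : Fin (2 * h + 1), β κ := by
            rw [Finset.sum_const, Finset.card_univ, Fintype.card_fin, nsmul_eq_mul]
        _ ≤ ∑ j : Fin (2 * h + 1), ((B (σ j)).card : ℝ) := Finset.sum_le_sum fun j _ => hb1 j
        _ ≤ _ := by exact_mod_cast h1
    have h4 : s κ ≤ n / 2 := by
      refine Nat.ceil_le.2 (le_trans ?_ h3)
      refine mul_le_mul_of_nonneg_right ?_ (hβpos κ).le
      push_cast
      linarith
    omega
  refine ⟨fun y => ind (W y ∪ Z κ), Ψ ∅ ⟨κ, hκr⟩, ?_, ?_, ?_⟩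
  · intro l
    by_cases hlZ : l ∈ Z κ
    · left
      refine ⟨1, fun y => ?_⟩
      show (if l ∈ W y ∪ Z κ then (1 : ZMod 2) else 0) = 1
      exact if_pos (Finset.mem_union_right _ hlZ)
    · by_cases hlB : ∃ j, l ∈ B (σ j)
      · right
        obtain ⟨j, hj⟩ := hlB
        refine ⟨j, fun y => ?_⟩
        have h1 : l ∈ W y ∪ Z κ ↔ y j = 1 := by
          rw [Finset.mem_union, ← mem_sup]
          constructor
          · rintro (h | h)
            · obtain ⟨j', hj', hl⟩ := Finset.mem_biUnion.1 h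
              obtain ⟨i, hi, rfl⟩ := Finset.mem_image.1 hj'
              by_cases hij : σ i = σ j
              · rw [← hσinj hij]; exact hi
              · exact absurd hj (Finset.disjoint_left.1 (hB1 _ _ hij) hl)
            · exact absurd h hlZ
          · intro h
            exact Or.inl (Finset.mem_biUnion.2 ⟨σ j, Finset.mem_image_of_mem σ h, hj⟩)
        show (if l ∈ W y ∪ Z κ then (1 : ZMod 2) else 0) = y j
        rcases zmod2_c (y j) with hy | hy
        · rw [hy, if_neg]
          rw [h1, hy]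
          exact zero_ne_one
        · rw [hy, if_pos]
          rw [h1, hy]
      · left
        refine ⟨0, fun y => ?_⟩
        show (if l ∈ W y ∪ Z κ then (1 : ZMod 2) else 0) = 0
        rw [if_neg]
        intro h
        rcases Finset.mem_union.1 h with h | h
        · obtain ⟨j', hj', hl⟩ := Finset.mem_biUnion.1 h
          obtain ⟨i, _, rfl⟩ := Finset.mem_image.1 hj'
          exact hlB ⟨i, hl⟩
        · exact hlZ h
  · intro y
    have h1 := hΨv (W y) (hWU y) ⟨κ, hκr⟩
    have h2 : Ψ (W y) = Ψ ∅ := by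
      refine hB4 (Yf y) ?_
      intro j hj
      obtain ⟨i, _, rfl⟩ := Finset.mem_image.1 hj
      exact Finset.mem_range.2 (hσK i)
    rw [← h2, h1]
  · intro y
    show n ≤ 2 * (sup (ind (W y ∪ Z κ))).card ↔ _
    rw [hxc y]
    have h0 : n ≤ 2 * ((∑ j ∈ sup y, (B (σ j)).card) + ((n - n / 2) - s κ)) ↔
        s κ ≤ ∑ j ∈ sup y, (B (σ j)).card := by omega
    rw [h0]
    constructor
    · intro h1
      by_contra h2
      push Not at h2
      have h3 : ((∑ j ∈ sup y, (B (σ j)).card : ℕ) : ℝ) < (h + 1) * β κ := by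
        rcases (sup y).eq_empty_or_nonempty with he | hne
        · rw [he, Finset.sum_empty, Nat.cast_zero]
          have := hβpos κ
          positivity
        · push_cast
          calc ∑ j ∈ sup y, ((B (σ j)).card : ℝ) < ∑ _j ∈ sup y, β (κ + 1) :=
                Finset.sum_lt_sum_of_nonempty hne fun j _ => hb2 j
            _ = (sup y).card * β (κ + 1) := by rw [Finset.sum_const, nsmul_eq_mul]
            _ ≤ h * β (κ + 1) := by
                refine mul_le_mul_of_nonneg_right ?_ (hβpos _).le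
                exact_mod_cast h2
            _ = _ := hβs κ
      have h4 : (s κ : ℝ) ≤ ((∑ j ∈ sup y, (B (σ j)).card : ℕ) : ℝ) := by exact_mod_cast h1
      have h5 : (h + 1) * β κ ≤ s κ := Nat.le_ceil _
      linarith
    · intro h1
      refine Nat.ceil_le.2 ?_
      push_cast
      calc ((h : ℝ) + 1) * β κ ≤ (sup y).card * β κ := by
            refine mul_le_mul_of_nonneg_right ?_ (hβpos κ).le
            exact_mod_cast h1
        _ = ∑ _j ∈ sup y, β κ := by rw [Finset.sum_const, nsmul_eq_mul]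
        _ ≤ _ := Finset.sum_le_sum fun j _ => hb1 j

/-- The main theorem with all the parameters. -/
theorem fibre {p n t m h L a0 k d S τ : ℕ} {A : Type} [AddCommGroup A] [Fintype A]
    (hm0 : 0 < m) (hm : ∀ a : A, m • a = 0) (Φ : V n → A)
    (hΦ : Deg t fun X => Φ (ind X)) (hh : 1 ≤ h) (hL : n < 2 ^ L)
    (ha : (m : ℝ) * ((h * L : ℕ) * Real.log (Fintype.card A)) < a0)
    (hn : need a0 (2 * h * (h * L) + 1) t ≤ n / 2)
    (hp : p.Prime) (hτ : 1 ≤ τ) (hS : 4 * S < 2 ^ τ)
    (hD : 16 * (k * ((p - 1) * τ) ^ d) ^ 2 ≤ 2 * h + 3) :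
    ∃ a : A, ∀ C : Circuit p n k, C.andOr.card ≤ S → (∀ i, C.depth i ≤ d) → ∀ i : Fin C.N,
      ∃ y, Φ y = a ∧ ¬ (C.val i y = true ↔ n ≤ 2 * (sup y).card) := by
  obtain ⟨x, a, hx, hxa, hmaj⟩ := subcube hm0 hm Φ hΦ hh hL ha hn
  refine ⟨a, fun C hCS hCd i => ?_⟩
  by_contra hcon
  push Not at hcon
  exact no_circuit hp hτ hS hD C hCS hCd i x hx fun y => (hcon (x y) (hxa y)).trans (hmaj y)

end Pool.Agent.L5helper12.MF
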