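import Pool.Agent.L5helper57.AP.Dim
import Pool.Agent.W856.Corner7

/-!
# The majority function and circuits of bounded depth with MOD `p` gates (Razborov, Smolensky)
-/

set_option autoImplicit false

namespace Pool.Agent.L5helper12.MF

open Finset Pool.Agent.W856.Corner

/-- the set of the ones of a point of the cube -/
def sup {n : ℕ} (y : V n) : Finset (Fin n) := Finset.univ.filter fun i => y i = 1

lemma mem_sup {n : ℕ} (y : V n) (i : Fin n) : i ∈ sup y ↔ y i = 1 := by
  unfold sup
  rw [Finset.mem_filter]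
  exact and_iff_right (Finset.mem_univ _)

lemma mobius {ι K : Type} [DecidableEq ι] [AddCommGroup K] (F : Finset ι → K) :
    ∃ c : Finset ι → K, ∀ Y, F Y = ∑ S ∈ Y.powerset, c S := by
  classical
  let c : Finset ι → K := Finset.strongInduction
    (fun S ih => F S - ∑ T ∈ S.ssubsets.attach, ih T.1 (Finset.mem_ssubsets.1 T.2))
  have hc : ∀ S, c S = F S - ∑ T ∈ S.ssubsets, c T := by
    intro S
    show Finset.strongInduction _ S = _
    rw [Finset.strongInduction_eq]
    congr 1
    exact Finset.sum_attach S.ssubsets c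
  refine ⟨c, fun Y => ?_⟩
  have h1 : Y.powerset = insert Y Y.ssubsets := by
    ext S
    rw [Finset.mem_insert, Finset.mem_powerset, Finset.mem_ssubsets]
    constructor
    · intro h
      rcases eq_or_ne S Y with h' | h'
      · exact Or.inl h'
      · exact Or.inr (Finset.ssubset_iff_subset_ne.2 ⟨h, h'⟩)
    · rintro (h | h)
      · exact h ▸ subset_rfl
      · exact h.1
  rw [h1, Finset.sum_insert (fun h => (Finset.mem_ssubsets.1 h).2 subset_rfl), hc Y]
  abel

variable {K : Type} [Field K]

lemma mon_sup {n : ℕ} (s : Finset (Fin n)) (y : V n) :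
    mon K s y = if s ⊆ sup y then 1 else 0 := by
  unfold mon bit
  split_ifs with h
  · exact Finset.prod_eq_one fun i hi => if_pos ((mem_sup y i).1 (h hi))
  · rw [Finset.not_subset] at h
    obtain ⟨i, hi, hn⟩ := h
    exact Finset.prod_eq_zero hi (if_neg fun h' => hn ((mem_sup y i).2 h'))

/-- interpolation on the lower half -/
lemma low {n : ℕ} (h : ℕ) (F : V n → K) :
    ∃ f ∈ LK K n h, ∀ y : V n, (sup y).card ≤ h → f y = F y := by
  classical
  let G : Finset (Fin n) → K := fun s => F fun i => if i ∈ s then 1 else 0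
  obtain ⟨c, hc⟩ := mobius G
  have hG : ∀ y : V n, G (sup y) = F y := by
    intro y
    show F _ = F y
    congr 1
    funext i
    rcases zmod2_c (y i) with hy | hy
    · rw [if_neg, hy]
      rw [mem_sup, hy]
      exact zero_ne_one
    · rw [if_pos, hy]
      rw [mem_sup, hy]
  refine ⟨∑ S ∈ univ.filter (fun S : Finset (Fin n) => S.card ≤ h), c S • mon K S, ?_, ?_⟩
  · refine Submodule.sum_mem _ fun S hS => Submodule.smul_mem _ _ (mon_mem _ ?_)
    exact (Finset.mem_filter.1 hS).2
  · intro y hy
    rw [← hG y, hc, Finset.sum_apply]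
    simp only [Pi.smul_apply, smul_eq_mul, mon_sup, mul_ite, mul_one, mul_zero]
    rw [← Finset.sum_filter, Finset.filter_filter]
    refine Finset.sum_congr ?_ fun _ _ => rfl
    ext S
    rw [Finset.mem_filter, Finset.mem_powerset]
    constructor
    · rintro ⟨_, _, h2⟩; exact h2
    · intro h2
      exact ⟨Finset.mem_univ _, (Finset.card_le_card h2).trans hy, h2⟩

/-- interpolation on the upper half -/
lemma high {n : ℕ} (h : ℕ) (F : V n → K) :
    ∃ f ∈ LK K n h, ∀ y : V n, n ≤ (sup y).card + h → f y = F y := by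
  classical
  obtain ⟨f, hf, hfF⟩ := low (K := K) h (fun y : V n => F (y + 1))
  refine ⟨fun y => f (y + 1), ?_, ?_⟩
  · -- complementing the bits does not change the degree
    clear hfF
    refine Submodule.span_induction (p := fun g _ => (fun y : V n => g (y + 1)) ∈ LK K n h)
      ?_ ?_ ?_ ?_ hf
    · rintro _ ⟨⟨s, hs⟩, rfl⟩
      have h1 := Pool.Agent.L5helper57.AP.prod_mem (K := K) s
        (fun _ c => if c + 1 = 1 then 1 else 0)
      exact LK_mono hs h1
    · exact Submodule.zero_mem _
    · intro a b _ _ ha hb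
      exact Submodule.add_mem _ ha hb
    · intro a b _ hb
      exact Submodule.smul_mem _ _ hb
  · intro y hy
    have h2 : ∀ z : ZMod 2, z + 1 + 1 = z := by decide
    have h1 : (sup (y + 1)).card ≤ h := by
      have h3 : sup (y + 1) = (sup y)ᶜ := by
        ext i
        rw [Finset.mem_compl, mem_sup, mem_sup, Pi.add_apply, Pi.one_apply]
        revert i
        intro i
        generalize y i = z
        revert z
        decide
      rw [h3, Finset.card_compl, Fintype.card_fin]
      omega
    show f (y + 1) = F y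
    rw [hfF _ h1]
    congr 1
    funext i
    simp only [Pi.add_apply, Pi.one_apply]
    exact h2 _

/-- **Smolensky's bound for majority.** -/
theorem maj_dim (h D : ℕ) (Q : V (2 * h + 1) → K) (hQ : Q ∈ LK K (2 * h + 1) D)
    (E : Finset (V (2 * h + 1)))
    (hE : ∀ y, y ∉ E → Q y = if h < (sup y).card then 1 else 0) :
    2 ^ (2 * h + 1) ≤ E.card + ∑ i ∈ range (h + D + 1), (2 * h + 1).choose i := by
  classical
  let Ac : Finset (V (2 * h + 1)) := Eᶜ
  let res : (V (2 * h + 1) → K) →ₗ[K] (Ac → K) := LinearMap.funLeft K K (fun a : Ac => a.1)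
  have hsurj : Function.Surjective res :=
    LinearMap.funLeft_surjective_of_injective K K _ Subtype.val_injective
  have htop : (LK K (2 * h + 1) (h + D)).map res = ⊤ := by
    rw [eq_top_iff]
    rintro φ -
    obtain ⟨F, rfl⟩ := hsurj φ
    obtain ⟨lo, hlo, hlo'⟩ := low (K := K) h F
    obtain ⟨hi, hhi, hhi'⟩ := high (K := K) h F
    refine ⟨lo + (hi - lo) * Q, ?_, ?_⟩
    · exact Submodule.add_mem _ (LK_mono (Nat.le_add_right _ _) hlo)
        (LK_mul (Submodule.sub_mem _ hhi hlo) hQ)
    · funext a
      show (lo + (hi - lo) * Q) a.1 = F a.1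
      have ha : a.1 ∉ E := Finset.mem_compl.1 a.2
      rw [Pi.add_apply, Pi.mul_apply, Pi.sub_apply, hE _ ha]
      split_ifs with hc
      · rw [mul_one, add_sub_cancel]
        exact hhi' _ (by omega)
      · rw [mul_zero, add_zero]
        exact hlo' _ (by omega)
  have h2 : Module.finrank K (Ac → K) = Ac.card := by
    rw [Module.finrank_fintype_fun_eq_card, Fintype.card_coe]
  have h3 : Module.finrank K (Ac → K) ≤ Module.finrank K (LK K (2 * h + 1) (h + D)) := by
    rw [← finrank_top (R := K) (M := Ac → K), ← htop]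
    exact Submodule.finrank_map_le res _
  have h4 := finrank_LK (K := K) (2 * h + 1) (h + D)
  have h5 : Ac.card + E.card = 2 ^ (2 * h + 1) := by
    show (Eᶜ).card + E.card = _
    rw [Finset.card_compl, Nat.sub_add_cancel (Finset.card_le_univ E), Fintype.card_fun,
      Fintype.card_fin, ZMod.card]
  rw [← h5]
  have h6 := (h2 ▸ h3).trans h4
  omega

/-- the middle binomial coefficient -/
lemma central (h : ℕ) : ((2 * h + 1).choose h) ^ 2 * (2 * h + 3) ≤ 4 * 16 ^ h := by
  have h2 : 2 * (2 * h + 1).choose h = Nat.centralBinom (h + 1) := by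
    rw [Nat.centralBinom_eq_two_mul_choose]
    have e : 2 * (h + 1) = 2 * h + 1 + 1 := by ring
    rw [e, Nat.choose_succ_succ, Nat.choose_symm_half]
    ring
  have h1 : Nat.centralBinom (h + 1) ^ 2 * (2 * h + 3) ≤ 16 * 16 ^ h := by
    clear h2
    induction h with
    | zero => decide
    | succ h ih =>
      have e := Nat.succ_mul_centralBinom_succ (h + 1)
      -- (h+2) c' = 2 (2h+3) c
      have e' : (h + 2) * Nat.centralBinom (h + 2) = 2 * (2 * h + 3) * Nat.centralBinom (h + 1) := by
        have : 2 * (2 * (h + 1) + 1) = 2 * (2 * h + 3) := by ring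
        rw [this] at e
        exact e
      have e2 : (h + 2) ^ 2 * (Nat.centralBinom (h + 2) ^ 2 * (2 * (h + 1) + 3)) =
          4 * ((2 * h + 3) * (2 * h + 5)) * (Nat.centralBinom (h + 1) ^ 2 * (2 * h + 3)) := by
        calc (h + 2) ^ 2 * (Nat.centralBinom (h + 2) ^ 2 * (2 * (h + 1) + 3))
            = ((h + 2) * Nat.centralBinom (h + 2)) ^ 2 * (2 * h + 5) := by ring
          _ = (2 * (2 * h + 3) * Nat.centralBinom (h + 1)) ^ 2 * (2 * h + 5) := by rw [e']
          _ = _ := by ring
      have e3 : 4 * ((2 * h + 3) * (2 * h + 5)) ≤ 16 * (h + 2) ^ 2 := by nlinarith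
      have e4 : (h + 2) ^ 2 * (Nat.centralBinom (h + 2) ^ 2 * (2 * (h + 1) + 3)) ≤
          (h + 2) ^ 2 * (16 * 16 ^ (h + 1)) := by
        rw [e2]
        calc 4 * ((2 * h + 3) * (2 * h + 5)) * (Nat.centralBinom (h + 1) ^ 2 * (2 * h + 3))
            ≤ (16 * (h + 2) ^ 2) * (16 * 16 ^ h) := Nat.mul_le_mul e3 ih
          _ = _ := by ring
      exact Nat.le_of_mul_le_mul_left e4 (by positivity)
  rw [← h2] at h1
  nlinarith [h1]

/-- polynomials of small degree are wrong on a quarter of the cube -/
theorem maj_quarter (h D : ℕ) (hD : 16 * D ^ 2 ≤ 2 * h + 3) (Q : V (2 * h + 1) → K)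
    (hQ : Q ∈ LK K (2 * h + 1) D) (E : Finset (V (2 * h + 1)))
    (hE : ∀ y, y ∉ E → Q y = if h < (sup y).card then 1 else 0) :
    2 ^ (2 * h + 1) ≤ 4 * E.card := by
  have h1 := maj_dim h D Q hQ E hE
  have h2 : ∑ i ∈ range (h + D + 1), (2 * h + 1).choose i ≤ 4 ^ h + D * (2 * h + 1).choose h := by
    have e : h + D + 1 = (h + 1) + D := by ring
    rw [e, Finset.sum_range_add, Nat.sum_range_choose_halfway]
    refine Nat.add_le_add_left ?_ _
    calc ∑ x ∈ range D, (2 * h + 1).choose (h + 1 + x)
        ≤ ∑ _x ∈ range D, (2 * h + 1).choose h := by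
          refine Finset.sum_le_sum fun x _ => ?_
          have h3 := Nat.choose_le_middle (h + 1 + x) (2 * h + 1)
          have h4 : (2 * h + 1) / 2 = h := by omega
          rwa [h4] at h3
      _ = _ := by rw [Finset.sum_const, Finset.card_range, smul_eq_mul]
  have h3 : 2 * (D * (2 * h + 1).choose h) ≤ 4 ^ h := by
    have h4 := central h
    have h5 : (2 * (D * (2 * h + 1).choose h)) ^ 2 ≤ (4 ^ h) ^ 2 := by
      have h6 : (4 ^ h) ^ 2 = 16 ^ h := by
        rw [← pow_mul, mul_comm, pow_mul]; norm_num
      rw [h6]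
      have h7 : 4 * ((2 * (D * (2 * h + 1).choose h)) ^ 2) * (2 * h + 3) ≤
          4 * 16 ^ h * (2 * h + 3) := by
        calc 4 * ((2 * (D * (2 * h + 1).choose h)) ^ 2) * (2 * h + 3)
            = (16 * D ^ 2) * (((2 * h + 1).choose h) ^ 2 * (2 * h + 3)) := by ring
          _ ≤ (2 * h + 3) * (4 * 16 ^ h) := Nat.mul_le_mul hD h4
          _ = _ := by ring
      have h8 := Nat.le_of_mul_le_mul_right h7 (by omega)
      omega
    exact (Nat.pow_le_pow_iff_left (by norm_num)).1 h5
  have h4 : 2 ^ (2 * h + 1) = 2 * 4 ^ h := by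
    rw [pow_succ, pow_mul]; norm_num; ring
  omega

/-- substitution of constants and coordinates does not increase the degree -/
lemma LK_subst {n n' D : ℕ} (x : V n' → V n)
    (hx : ∀ l, (∃ c, ∀ y, x y l = c) ∨ ∃ j, ∀ y, x y l = y j) {f : V n → K} (hf : f ∈ LK K n D) :
    (fun y => f (x y)) ∈ LK K n' D := by
  refine Submodule.span_induction (p := fun g _ => (fun y => g (x y)) ∈ LK K n' D) ?_ ?_ ?_ ?_ hf
  · rintro _ ⟨⟨s, hs⟩, rfl⟩
    have h1 := LK_prod (K := K) (n := n') s (fun _ => 1) (fun l y => bit K (x y) l) (by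
      intro l _
      rcases hx l with ⟨c, hc⟩ | ⟨j, hj⟩
      · have : (fun y => bit K (x y) l) = fun _ : V n' => (if c = 1 then 1 else 0 : K) := by
          funext y
          unfold bit
          rw [hc]
        rw [this]
        exact LK_const _ _
      · have : (fun y => bit K (x y) l) = mon K {j} := by
          funext y
          unfold bit mon
          rw [hj, Finset.prod_singleton]
          rfl
        rw [this]
        exact mon_mem _ (by simp))
    have e : (∏ l ∈ s, fun y => bit K (x y) l) = fun y => mon K s (x y) := by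
      funext y
      rw [Finset.prod_apply]
      rfl
    rw [e] at h1
    refine LK_mono ?_ h1
    simpa using hs
  · exact Submodule.zero_mem _
  · intro a b _ _ ha hb
    exact Submodule.add_mem _ ha hb
  · intro a b _ hb
    exact Submodule.smul_mem _ _ hb

/-- A small circuit with MOD `p` gates does not compute the majority on a subcube. -/
theorem no_circuit {p n k d S t h : ℕ} (hp : p.Prime) (ht : 1 ≤ t) (hS : 4 * S < 2 ^ t)
    (hh : 16 * (k * ((p - 1) * t) ^ d) ^ 2 ≤ 2 * h + 3)
    (C : Circuit p n k) (hCS : C.andOr.card ≤ S) (hCd : ∀ i, C.depth i ≤ d) (i : Fin C.N)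
    (x : V (2 * h + 1) → V n) (hx : ∀ l, (∃ c, ∀ y, x y l = c) ∨ ∃ j, ∀ y, x y l = y j)
    (hval : ∀ y, C.val i (x y) = true ↔ h < (sup y).card) : False := by
  classical
  have : Fact p.Prime := ⟨hp⟩
  obtain ⟨P, hP1, hP2⟩ := approx C t ht
  let err : Om p C.N t → Finset (V (2 * h + 1)) := fun w =>
    univ.filter fun y => P w i (x y) ≠ C.val i (x y)
  -- a good choice of the random bits
  have hex : ∃ w, (err w).card * 2 ^ t ≤ S * 2 ^ (2 * h + 1) := by
    by_contra hcon
    push Not at hcon
    have hsum : ∑ w : Om p C.N t, (err w).card =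
        ∑ y : V (2 * h + 1), (univ.filter fun w : Om p C.N t =>
          P w i (x y) ≠ C.val i (x y)).card := by
      simp only [err, Finset.card_filter]
      exact Finset.sum_comm
    have h1 : (∑ w : Om p C.N t, (err w).card) * 2 ^ t ≤
        2 ^ (2 * h + 1) * (S * Fintype.card (Om p C.N t)) := by
      rw [hsum, Finset.sum_mul]
      calc ∑ y : V (2 * h + 1), (univ.filter fun w : Om p C.N t =>
            P w i (x y) ≠ C.val i (x y)).card * 2 ^ t
          ≤ ∑ _y : V (2 * h + 1), S * Fintype.card (Om p C.N t) := by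
            refine Finset.sum_le_sum fun y _ => ?_
            refine le_trans ?_ ((hP2 (x y)).trans (Nat.mul_le_mul_right _ hCS))
            refine Nat.mul_le_mul_right _ ?_
            rw [Nat.card_eq_fintype_card, Fintype.card_subtype]
            refine Finset.card_le_card fun w hw => ?_
            rw [Finset.mem_filter] at hw ⊢
            exact ⟨hw.1, i, hw.2⟩
        _ = _ := by
            rw [Finset.sum_const, smul_eq_mul, Finset.card_univ, Fintype.card_fun,
              Fintype.card_fin, ZMod.card]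
    have h2 : Fintype.card (Om p C.N t) * (S * 2 ^ (2 * h + 1)) <
        (∑ w : Om p C.N t, (err w).card) * 2 ^ t := by
      rw [Finset.sum_mul, ← smul_eq_mul, ← Finset.card_univ, ← Finset.sum_const]
      refine Finset.sum_lt_sum_of_nonempty ⟨fun _ _ => 0, Finset.mem_univ _⟩ fun w _ => hcon w
    have h3 : 2 ^ (2 * h + 1) * (S * Fintype.card (Om p C.N t)) =
        Fintype.card (Om p C.N t) * (S * 2 ^ (2 * h + 1)) := by ring
    omega
  obtain ⟨w, hw⟩ := hex
  have hQ : (fun y => bi (ZMod p) (P w i (x y))) ∈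
      LK (ZMod p) (2 * h + 1) (k * ((p - 1) * t) ^ d) := by
    have h1 : LB (ZMod p) (k * ((p - 1) * t) ^ C.depth i) (P w i) := hP1 w i
    have h2 := LK_subst x hx h1
    refine LK_mono ?_ h2
    refine Nat.mul_le_mul_left _ (Nat.pow_le_pow_right ?_ (hCd i))
    have := hp.two_le
    exact Nat.mul_pos (by omega) ht
  have h1 := maj_quarter h _ hh _ hQ (err w) (by
    intro y hy
    have h2 : P w i (x y) = C.val i (x y) := by
      by_contra h3
      exact hy (Finset.mem_filter.2 ⟨Finset.mem_univ _, h3⟩)
    show bi (ZMod p) (P w i (x y)) = _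
    rw [h2]
    unfold bi
    exact if_congr (hval y) rfl rfl)
  have h2 : 0 < (err w).card := by
    have : 0 < 2 ^ (2 * h + 1) := by positivity
    omega
  have h3 : (err w).card * 2 ^ t ≤ (err w).card * (4 * S) := by
    calc (err w).card * 2 ^ t ≤ S * 2 ^ (2 * h + 1) := hw
      _ ≤ S * (4 * (err w).card) := Nat.mul_le_mul_left _ h1
      _ = _ := by ring
  have h4 := Nat.le_of_mul_le_mul_left h3 h2
  omega

end Pool.Agent.L5helper12.MF
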