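import Pool.Agent.L5helper12.SNAverage

/-!
# The asymptotic form
-/

namespace Pool.Agent.L5helper12.SN

open Finset Relation Real

/-- choice of the primes -/
theorem exists_params (lam δ ε : ℝ) (hlam : 0 < lam) (hε : 0 < ε) (hδ : δ = 2 * lam + 2 * ε)
    (hδ1 : δ ≤ 1) (n : ℕ) (hn4 : 4 ≤ n) (hn : 68 ≤ (n : ℝ) ^ ε) (L : ℕ) (hL : (L : ℝ) ≤ (n : ℝ) ^ lam) :
    ∃ q Q : ℕ, q.Prime ∧ Q.Prime ∧ L ≤ q ∧ q ≤ Q ∧ 4 * ⌊(n : ℝ) ^ (1 - δ)⌋₊ * q ≤ Q - 1 ∧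
      L * Q + 2 ≤ n ∧ (n : ℝ) ^ (lam + ε) ≤ q := by
  have hn0 : (0 : ℝ) < n := by
    have : 0 < n := by omega
    exact_mod_cast this
  have hn1 : (1 : ℝ) ≤ n := by
    have : 1 ≤ n := by omega
    exact_mod_cast this
  have h1 : (1 : ℝ) ≤ (n : ℝ) ^ (lam + ε) := Real.one_le_rpow hn1 (by linarith)
  set m := ⌈(n : ℝ) ^ (lam + ε)⌉₊ with hm
  have hm1 : (n : ℝ) ^ (lam + ε) ≤ m := Nat.le_ceil _
  have hm2 : (m : ℝ) ≤ (n : ℝ) ^ (lam + ε) + 1 := (Nat.ceil_lt_add_one (by positivity)).le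
  have hm0 : m ≠ 0 := by
    intro h
    rw [h] at hm1
    norm_num at hm1
    linarith
  obtain ⟨q, hq, hmq, hq2⟩ := Nat.exists_prime_lt_and_le_two_mul m hm0
  have hqlow : (n : ℝ) ^ (lam + ε) ≤ q := hm1.trans (by exact_mod_cast hmq.le)
  have hqup : (q : ℝ) ≤ 4 * (n : ℝ) ^ (lam + ε) := by
    have : (q : ℝ) ≤ 2 * m := by exact_mod_cast hq2
    linarith
  set m' := ⌊(n : ℝ) ^ (1 - lam) / 4⌋₊ with hm'
  have hbig : 68 ≤ (n : ℝ) ^ (1 - lam) := by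
    refine hn.trans (Real.rpow_le_rpow_of_exponent_le hn1 ?_)
    linarith
  have hm'1 : (m' : ℝ) ≤ (n : ℝ) ^ (1 - lam) / 4 := Nat.floor_le (by positivity)
  have hm'2 : (n : ℝ) ^ (1 - lam) / 4 - 1 ≤ m' := by
    have := Nat.lt_floor_add_one ((n : ℝ) ^ (1 - lam) / 4)
    linarith
  have hm'0 : m' ≠ 0 := by
    intro h
    rw [h] at hm'2
    norm_num at hm'2
    linarith
  obtain ⟨Q, hQ, hmQ, hQ2⟩ := Nat.exists_prime_lt_and_le_two_mul m' hm'0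
  have hkey : (4 : ℝ) * (n : ℝ) ^ (1 - δ) * q ≤ m' := by
    have e1 : (n : ℝ) ^ (1 - δ) * (n : ℝ) ^ (lam + ε) = (n : ℝ) ^ (1 - lam - ε) := by
      rw [← Real.rpow_add hn0]
      congr 1
      rw [hδ]; ring
    have e2 : (n : ℝ) ^ (1 - lam) = (n : ℝ) ^ (1 - lam - ε) * (n : ℝ) ^ ε := by
      rw [← Real.rpow_add hn0]
      congr 1
      ring
    have e3 : (1 : ℝ) ≤ (n : ℝ) ^ (1 - lam - ε) := Real.one_le_rpow hn1 (by linarith)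
    have e4 : (0 : ℝ) < (n : ℝ) ^ (1 - δ) := by positivity
    calc (4 : ℝ) * (n : ℝ) ^ (1 - δ) * q ≤ 4 * (n : ℝ) ^ (1 - δ) * (4 * (n : ℝ) ^ (lam + ε)) := by
          gcongr
      _ = 16 * (n : ℝ) ^ (1 - lam - ε) := by rw [← e1]; ring
      _ ≤ (n : ℝ) ^ (1 - lam) / 4 - 1 := by
          rw [e2]
          nlinarith
      _ ≤ m' := hm'2
  have hr0 : (⌊(n : ℝ) ^ (1 - δ)⌋₊ : ℝ) ≤ (n : ℝ) ^ (1 - δ) := Nat.floor_le (by positivity)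
  have hr1 : 1 ≤ ⌊(n : ℝ) ^ (1 - δ)⌋₊ := by
    apply Nat.le_floor
    push_cast
    exact Real.one_le_rpow hn1 (by linarith)
  have hmain : 4 * ⌊(n : ℝ) ^ (1 - δ)⌋₊ * q ≤ m' := by
    have : (4 : ℝ) * (⌊(n : ℝ) ^ (1 - δ)⌋₊ : ℝ) * q ≤ m' := by
      refine le_trans ?_ hkey
      gcongr
    exact_mod_cast this
  refine ⟨q, Q, hq, hQ, ?_, ?_, ?_, ?_, hqlow⟩
  · have : (L : ℝ) ≤ q := by
      refine hL.trans (le_trans ?_ hqlow)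
      exact Real.rpow_le_rpow_of_exponent_le hn1 (by linarith)
    exact_mod_cast this
  · calc q = 1 * q := (one_mul q).symm
      _ ≤ (4 * ⌊(n : ℝ) ^ (1 - δ)⌋₊) * q := Nat.mul_le_mul_right _ (by omega)
      _ ≤ m' := hmain
      _ ≤ Q := hmQ.le
  · omega
  · have hQr : (Q : ℝ) ≤ (n : ℝ) ^ (1 - lam) / 2 := by
      have : (Q : ℝ) ≤ 2 * m' := by exact_mod_cast hQ2
      linarith
    have e5 : (n : ℝ) ^ lam * (n : ℝ) ^ (1 - lam) = n := by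
      rw [← Real.rpow_add hn0, add_sub_cancel, Real.rpow_one]
    have h6 : (L : ℝ) * Q ≤ n / 2 := by
      calc (L : ℝ) * Q ≤ (n : ℝ) ^ lam * ((n : ℝ) ^ (1 - lam) / 2) := by
            gcongr
        _ = ((n : ℝ) ^ lam * (n : ℝ) ^ (1 - lam)) / 2 := by ring
        _ = n / 2 := by rw [e5]
    have h7 : ((L * Q + 2 : ℕ) : ℝ) ≤ n := by
      push_cast
      have : (4 : ℝ) ≤ n := by exact_mod_cast hn4
      linarith
    exact_mod_cast h7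

/-- the final inequality between the parameters -/
theorem final_ineq (lam ε η : ℝ) (hlam : 0 < lam) (hε : 0 < ε) (hη : 0 < η) (ℓ : ℝ) (h1 : 1 ≤ ℓ)
    (h2 : 8 ≤ ε * ℓ) (h3 : 3 + 4 * lam + 3 * ε ≤ η * ε * ℓ / 4) (L N q : ℝ) (d : ℕ) (hL1 : 1 ≤ L)
    (hL : L ≤ exp (lam * ℓ)) (hd : η * ℓ ≤ (d : ℝ) + 4) (hq : exp ((lam + ε) * ℓ) ≤ q)
    (hN0 : 0 ≤ N) (hN : N ≤ exp (η * ε / 16 * ℓ ^ 2)) :
    2 * (4 * N ^ 3 * (L + 1) * (9 * (L + 2) + 1) ^ (d + 4)) ≤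
      exp (-(η * ε / 16 * ℓ ^ 2)) * q ^ (d + 1) := by
  have a1 : L + 1 ≤ 2 * exp (lam * ℓ) := by linarith
  have a2 : 9 * (L + 2) + 1 ≤ 28 * exp (lam * ℓ) := by linarith
  have a3 : 28 * exp (lam * ℓ) ≤ exp (4 + lam * ℓ) := by
    rw [exp_add]
    have : (28 : ℝ) ≤ exp 4 := by
      have := Real.add_one_le_exp (1 : ℝ)
      have h4 : exp 4 = exp 1 ^ 4 := by rw [← Real.exp_nat_mul]; norm_num
      have h5 : (2.7 : ℝ) ≤ exp 1 := by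
        have := Real.exp_one_gt_d9
        linarith
      rw [h4]
      calc (28 : ℝ) ≤ 2.7 ^ 4 := by norm_num
        _ ≤ exp 1 ^ 4 := by gcongr
    have h0 := Real.exp_pos (lam * ℓ)
    nlinarith
  have a4 : (9 * (L + 2) + 1) ^ (d + 4) ≤ exp ((4 + lam * ℓ) * (d + 4)) := by
    calc (9 * (L + 2) + 1) ^ (d + 4) ≤ (exp (4 + lam * ℓ)) ^ (d + 4) := by
          apply pow_le_pow_left₀ (by linarith) (a2.trans a3)
      _ = exp ((4 + lam * ℓ) * (d + 4)) := by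
          rw [← Real.exp_nat_mul]
          push_cast
          ring_nf
  have a5 : N ^ 3 ≤ exp (3 * (η * ε / 16 * ℓ ^ 2)) := by
    calc N ^ 3 ≤ (exp (η * ε / 16 * ℓ ^ 2)) ^ 3 := pow_le_pow_left₀ hN0 hN 3
      _ = _ := by rw [← Real.exp_nat_mul]; norm_num
  have a6 : exp ((lam + ε) * ℓ * (d + 1)) ≤ q ^ (d + 1) := by
    calc exp ((lam + ε) * ℓ * (d + 1)) = (exp ((lam + ε) * ℓ)) ^ (d + 1) := by
          rw [← Real.exp_nat_mul]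
          push_cast
          ring_nf
      _ ≤ q ^ (d + 1) := pow_le_pow_left₀ (Real.exp_pos _).le hq _
  have a7 : (16 : ℝ) ≤ exp 3 := by
    have h4 : exp 3 = exp 1 ^ 3 := by rw [← Real.exp_nat_mul]; norm_num
    have h5 : (2.7 : ℝ) ≤ exp 1 := by
      have := Real.exp_one_gt_d9
      linarith
    rw [h4]
    calc (16 : ℝ) ≤ 2.7 ^ 3 := by norm_num
      _ ≤ exp 1 ^ 3 := by gcongr
  calc 2 * (4 * N ^ 3 * (L + 1) * (9 * (L + 2) + 1) ^ (d + 4))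
      ≤ 2 * (4 * exp (3 * (η * ε / 16 * ℓ ^ 2)) * (2 * exp (lam * ℓ)) * exp ((4 + lam * ℓ) * (d + 4))) := by
        gcongr
    _ = 16 * (exp (3 * (η * ε / 16 * ℓ ^ 2)) * exp (lam * ℓ) * exp ((4 + lam * ℓ) * (d + 4))) := by ring
    _ ≤ exp 3 * (exp (3 * (η * ε / 16 * ℓ ^ 2)) * exp (lam * ℓ) * exp ((4 + lam * ℓ) * (d + 4))) := by
        gcongr
    _ = exp (3 + (3 * (η * ε / 16 * ℓ ^ 2) + lam * ℓ + (4 + lam * ℓ) * (d + 4))) := by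
        rw [exp_add, exp_add, exp_add]
    _ ≤ exp (-(η * ε / 16 * ℓ ^ 2) + (lam + ε) * ℓ * (d + 1)) := by
        apply Real.exp_le_exp.mpr
        -- `3 + 4 c ℓ² + 4 lam ℓ + 3 ε ℓ + (d + 4) (4 - ε ℓ) ≤ 0`
        have b1 : ((d : ℝ) + 4) * (4 - ε * ℓ) ≤ -(η * ε * ℓ ^ 2 / 2) := by
          have c1 : (4 - ε * ℓ) ≤ -(ε * ℓ / 2) := by linarith
          have c2 : (0 : ℝ) < (d : ℝ) + 4 := by positivity
          calc ((d : ℝ) + 4) * (4 - ε * ℓ) ≤ ((d : ℝ) + 4) * (-(ε * ℓ / 2)) :=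
                mul_le_mul_of_nonneg_left c1 c2.le
            _ ≤ (η * ℓ) * (-(ε * ℓ / 2)) := by
                have : 0 ≤ ε * ℓ / 2 := by positivity
                nlinarith
            _ = _ := by ring
        have b2 : (3 + 4 * lam + 3 * ε) * ℓ ≤ η * ε * ℓ ^ 2 / 4 := by
          calc (3 + 4 * lam + 3 * ε) * ℓ ≤ (η * ε * ℓ / 4) * ℓ := by gcongr
            _ = _ := by ring
        nlinarith
    _ = exp (-(η * ε / 16 * ℓ ^ 2)) * exp ((lam + ε) * ℓ * (d + 1)) := by rw [exp_add]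
    _ ≤ exp (-(η * ε / 16 * ℓ ^ 2)) * q ^ (d + 1) := by gcongr

end Pool.Agent.L5helper12.SN
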