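import Pool.Agent.L5helper12.SNCount

/-!
# Averaging over the permutations of the inner vertices
-/

namespace Pool.Agent.L5helper12.SN

open Finset Relation

theorem exists_perm {X : Type*} [Fintype X] [DecidableEq X] {L : ℕ} (u u' : Fin L ↪ X) :
    ∃ τ : Equiv.Perm X, ∀ i, τ (u i) = u' i := by
  classical
  let e1 : Fin L ≃ {x // x ∈ Set.range u} := Equiv.ofInjective u u.injective
  let e2 : Fin L ≃ {x // x ∈ Set.range u'} := Equiv.ofInjective u' u'.injective
  refine ⟨(e1.symm.trans e2).extendSubtype, fun i => ?_⟩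
  rw [Equiv.extendSubtype_apply_of_mem _ (u i) ⟨i, rfl⟩]
  have h1 : (⟨u i, ⟨i, rfl⟩⟩ : {x // x ∈ Set.range u}) = e1 i := rfl
  rw [h1]
  simp [e2]

open Classical in
theorem orbit_count {X : Type*} [Fintype X] [DecidableEq X] {L : ℕ} (u : Fin L ↪ X)
    (S : Finset (Fin L ↪ X)) :
    (univ.filter (fun σ : Equiv.Perm X => u.trans σ.toEmbedding ∈ S)).card *
      Fintype.card (Fin L ↪ X) = S.card * Fintype.card (Equiv.Perm X) := by
  set c := (univ.filter (fun σ : Equiv.Perm X => u.trans σ.toEmbedding = u)).card with hc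
  have h1 : ∀ u' : Fin L ↪ X,
      (univ.filter (fun σ : Equiv.Perm X => u.trans σ.toEmbedding = u')).card = c := by
    intro u'
    obtain ⟨τ, hτ⟩ := exists_perm u u'
    symm
    apply card_bij (fun σ _ => τ * σ)
    · intro σ hσ
      rw [mem_filter] at hσ ⊢
      refine ⟨mem_univ _, ?_⟩
      ext i
      have := DFunLike.congr_fun hσ.2 i
      simp only [Function.Embedding.trans_apply, Equiv.coe_toEmbedding] at this ⊢
      rw [Equiv.Perm.mul_apply, this, hτ]
    · intro σ _ σ' _ h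
      exact mul_left_cancel h
    · intro σ hσ
      rw [mem_filter] at hσ
      refine ⟨τ⁻¹ * σ, ?_, by simp⟩
      rw [mem_filter]
      refine ⟨mem_univ _, ?_⟩
      ext i
      have := DFunLike.congr_fun hσ.2 i
      simp only [Function.Embedding.trans_apply, Equiv.coe_toEmbedding] at this ⊢
      rw [Equiv.Perm.mul_apply, this, ← hτ]
      simp
  have h2 : (univ.filter (fun σ : Equiv.Perm X => u.trans σ.toEmbedding ∈ S)).card = S.card * c := by
    rw [card_eq_sum_card_fiberwise (f := fun σ : Equiv.Perm X => u.trans σ.toEmbedding) (t := S)]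
    · rw [sum_congr rfl (g := fun _ => c), sum_const, smul_eq_mul]
      intro u' hu'
      rw [← h1 u']
      congr 1
      ext σ
      simp only [mem_filter, mem_univ, true_and]
      constructor
      · intro h; exact h.2
      · intro h; exact ⟨h ▸ hu', h⟩
    · intro σ hσ
      exact (mem_filter.mp (mem_coe.mp hσ)).2
  have h3 : Fintype.card (Equiv.Perm X) = Fintype.card (Fin L ↪ X) * c := by
    rw [← card_univ, card_eq_sum_card_fiberwise (f := fun σ : Equiv.Perm X => u.trans σ.toEmbedding)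
      (t := (univ : Finset (Fin L ↪ X)))]
    · rw [sum_congr rfl (g := fun _ => c), sum_const, smul_eq_mul, card_univ]
      intro u' _
      exact h1 u'
    · intro σ _
      simp
  rw [h2, h3]
  ring

open Classical in
/-- **The main estimate.** -/
theorem cheap_count {V : Type} [Fintype V] [DecidableEq V] {s t : V} {L q Q : ℕ}
    (hq : q.Prime) (hQ : Q.Prime) (N : Network V) (hst : s ≠ t) (hN : N.Sound s t) (r d : ℕ)
    (hLq : L ≤ q) (hqQ : q ≤ Q) (hrq : 4 * r * q ≤ Q - 1) (hL : 2 ^ (d + 3) ≤ L + 1)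
    (hn : L * Q + 2 ≤ Fintype.card V) :
    ((univ.filter (fun u : Fin L ↪ {v : V // v ≠ s ∧ v ≠ t} => Cheap N s t r (fun i => (u i : V)))).card : ℝ) *
      (q : ℝ) ^ (d + 1) ≤
      2 * (Fintype.card (Fin L ↪ {v : V // v ≠ s ∧ v ≠ t}) : ℝ) *
        (4 * (N.size : ℝ) ^ 3 * (L + 1) * (9 * (L + 2 : ℕ) + 1) ^ (d + 4)) := by
  haveI : Fact q.Prime := ⟨hq⟩
  haveI : Fact Q.Prime := ⟨hQ⟩
  set Bd : ℝ := 4 * (N.size : ℝ) ^ 3 * (L + 1) * (9 * (L + 2 : ℕ) + 1) ^ (d + 4) with hBd
  let X := {v : V // v ≠ s ∧ v ≠ t}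
  have hX : Fintype.card X = Fintype.card V - 2 := by
    have h1 : Fintype.card X = (univ.filter (fun v : V => v ≠ s ∧ v ≠ t)).card := Fintype.card_subtype _
    have h2 : univ.filter (fun v : V => v ≠ s ∧ v ≠ t) = (univ.erase s).erase t := by
      ext v; simp [and_comm]
    rw [h1, h2, card_erase_of_mem (by simp [hst.symm]), card_erase_of_mem (mem_univ _), card_univ]
    omega
  have hemb : Nonempty ((Fin L × ZMod Q) ↪ X) := by
    apply Function.Embedding.nonempty_of_card_le
    rw [Fintype.card_prod, Fintype.card_fin, ZMod.card, hX]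
    omega
  obtain ⟨lam0⟩ := hemb
  set S : Finset (Fin L ↪ X) := univ.filter (fun u : Fin L ↪ X => Cheap N s t r (fun i => (u i : V))) with hS
  let uv : (Fin L → ZMod Q) → (Fin L ↪ X) := fun v => ⟨fun i => lam0 (i, v i), fun i j h =>
    (Prod.ext_iff.mp (lam0.injective h)).1⟩
  have hlay : ∀ σ : Equiv.Perm X,
      ((univ.filter (fun v : Fin L → ZMod Q => (uv v).trans σ.toEmbedding ∈ S)).card : ℝ) *
      (q : ℝ) ^ (d + 1) ≤ 2 * (Q : ℝ) ^ L * Bd := by
    intro σ
    let lam : (Fin L × ZMod Q) ↪ V := (lam0.trans σ.toEmbedding).trans (Function.Embedding.subtype _)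
    have h1 := layer_count (d := d) N hst hN lam (fun x => (σ (lam0 x)).2.1) (fun x => (σ (lam0 x)).2.2)
      r hLq hqQ hrq hL
    refine le_trans (le_of_eq ?_) h1
    congr 3
    ext v
    rw [hS]
    simp only [mem_filter, mem_univ, true_and]
    rfl
  have hsum : (∑ σ : Equiv.Perm X, ((univ.filter (fun v : Fin L → ZMod Q =>
      (uv v).trans σ.toEmbedding ∈ S)).card : ℝ)) * Fintype.card (Fin L ↪ X) =
      (Q : ℝ) ^ L * (S.card * Fintype.card (Equiv.Perm X)) := by
    have h1 : (∑ σ : Equiv.Perm X, ((univ.filter (fun v : Fin L → ZMod Q =>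
      (uv v).trans σ.toEmbedding ∈ S)).card : ℝ)) = ∑ v : Fin L → ZMod Q,
        ((univ.filter (fun σ : Equiv.Perm X => (uv v).trans σ.toEmbedding ∈ S)).card : ℝ) := by
      simp only [← sum_boole]
      rw [sum_comm]
    rw [h1, sum_mul]
    have h2 : ∀ v : Fin L → ZMod Q,
        ((univ.filter (fun σ : Equiv.Perm X => (uv v).trans σ.toEmbedding ∈ S)).card : ℝ) *
        Fintype.card (Fin L ↪ X) = S.card * Fintype.card (Equiv.Perm X) := by
      intro v
      exact_mod_cast orbit_count (uv v) S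
    rw [sum_congr rfl (fun v _ => h2 v), sum_const, card_univ, Fintype.card_fun, ZMod.card,
      Fintype.card_fin, nsmul_eq_mul]
    push_cast
    ring
  have hP : (0 : ℝ) < Fintype.card (Equiv.Perm X) := by exact_mod_cast Fintype.card_pos
  have hQL : (0 : ℝ) < (Q : ℝ) ^ L := by
    have : (0 : ℝ) < Q := by exact_mod_cast hQ.pos
    positivity
  have h5 : ((Q : ℝ) ^ L * Fintype.card (Equiv.Perm X)) * ((S.card : ℝ) * (q : ℝ) ^ (d + 1)) ≤
      ((Q : ℝ) ^ L * Fintype.card (Equiv.Perm X)) * (2 * (Fintype.card (Fin L ↪ X) : ℝ) * Bd) := by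
    calc ((Q : ℝ) ^ L * Fintype.card (Equiv.Perm X)) * ((S.card : ℝ) * (q : ℝ) ^ (d + 1))
        = ((Q : ℝ) ^ L * (S.card * Fintype.card (Equiv.Perm X))) * (q : ℝ) ^ (d + 1) := by ring
      _ = (∑ σ : Equiv.Perm X, ((univ.filter (fun v : Fin L → ZMod Q =>
          (uv v).trans σ.toEmbedding ∈ S)).card : ℝ)) * Fintype.card (Fin L ↪ X) * (q : ℝ) ^ (d + 1) := by
          rw [hsum]
      _ = (∑ σ : Equiv.Perm X, ((univ.filter (fun v : Fin L → ZMod Q =>
          (uv v).trans σ.toEmbedding ∈ S)).card : ℝ) * (q : ℝ) ^ (d + 1)) * Fintype.card (Fin L ↪ X) := by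
          rw [← sum_mul]; ring
      _ ≤ (∑ _σ : Equiv.Perm X, 2 * (Q : ℝ) ^ L * Bd) * Fintype.card (Fin L ↪ X) := by
          apply mul_le_mul_of_nonneg_right _ (by positivity)
          exact sum_le_sum fun σ _ => hlay σ
      _ = _ := by
          rw [sum_const, card_univ, nsmul_eq_mul]; ring
  exact le_of_mul_le_mul_left h5 (by positivity)

end Pool.Agent.L5helper12.SN
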