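import Pool.Agent.L5helper12.SNFourier

/-!
# The number of the nodes of a network and families of paths
-/

namespace Pool.Agent.L5helper12.SN

open Finset Relation

variable {V : Type*} [Fintype V] [DecidableEq V]

/-- Two nodes `a`, `b` with the cut functions `J a`, `J b` are related along the path `w` if these agree
on all cuts which do not cut a certain edge of `w`. -/
def Rel {W : Type*} (J : W → (V → Bool) → ℝ) (w : ℕ → V) (L : ℕ) (a b : W) : Prop :=
  ∃ i, i ≤ L ∧ ∀ c : V → Bool, ¬ (c (w i) = true ∧ c (w (i + 1)) = false) → J a c = J b c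

theorem ip_gf_eq {W : Type*} (J : W → (V → Bool) → ℝ) (k L : ℕ) (w : ℕ → V)
    (hw : Set.InjOn w (range (L + 2))) (i : ℕ) (hi : i ≤ L) (a b : W)
    (h : ∀ c : V → Bool, ¬ (c (w i) = true ∧ c (w (i + 1)) = false) → J a c = J b c) :
    ip (gf k L w i) (J a) = ip (gf k L w i) (J b) := by
  unfold ip
  congr 1
  apply sum_congr rfl
  intro c _
  by_cases hc : c (w i) = true ∧ c (w (i + 1)) = false
  · rw [gf_vanish k L w hw i hi c hc.1 hc.2]; ring
  · rw [h c hc]

theorem walk_bound {W : Type*} (G : SimpleGraph W) (v : W → ℝ) (δ : ℝ)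
    (h : ∀ a b, G.Adj a b → |v a - v b| ≤ δ) {a b : W} (p : G.Walk a b) : |v a - v b| ≤ p.length * δ := by
  induction p with
  | nil => simp
  | @cons x y z hxy q ih =>
    have h1 := h _ _ hxy
    have h2 : |v x - v z| ≤ |v x - v y| + |v y - v z| := by
      have : v x - v z = (v x - v y) + (v y - v z) := by ring
      rw [this]; exact abs_add_le _ _
    rw [SimpleGraph.Walk.length_cons]
    push_cast
    linarith

theorem exists_large {W : Type*} [Fintype W] (J : W → (V → Bool) → ℝ) (k L : ℕ) (hk : 3 ≤ k)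
    (hL : 2 ^ k ≤ L + 1) (w : ℕ → V) (hw : Set.InjOn w (range (L + 2))) (src snk : W)
    (hsrc : J src = sep (w 0) (w (L + 1))) (hsnk : ∀ c, J snk c = 0)
    (hwalk : ReflTransGen (Rel J w L) src snk) :
    ∃ a : W, ∃ i ∈ range (L + 1), 1 / (2 * (Fintype.card W : ℝ)) ≤ |ip (hf k L w i) (J a)| := by
  classical
  by_contra hcon
  push Not at hcon
  set N : ℝ := (Fintype.card W : ℝ) with hN
  have hNpos : 0 < N := by
    have : 0 < Fintype.card W := Fintype.card_pos_iff.mpr ⟨src⟩
    rw [hN]; exact_mod_cast this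
  set v : W → ℝ := fun a => ip (gf k L w 0) (J a) with hv
  let G : SimpleGraph W := SimpleGraph.fromRel (Rel J w L)
  have hrel : ∀ a b, Rel J w L a b → |v a - v b| ≤ 1 / N := by
    rintro a b ⟨i, hi, h⟩
    have e := ip_gf_eq J k L w hw i hi a b h
    have ha : v a = ip (gf k L w i) (J a) - ip (hf k L w i) (J a) := by
      have : hf k L w i = fun c => gf k L w i c - gf k L w 0 c := by
        ext c; exact hf_eq k L w i c
      rw [this, ip_sub_left]; simp [hv]
    have hb : v b = ip (gf k L w i) (J b) - ip (hf k L w i) (J b) := by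
      have : hf k L w i = fun c => gf k L w i c - gf k L w 0 c := by
        ext c; exact hf_eq k L w i c
      rw [this, ip_sub_left]; simp [hv]
    have h1 := hcon a i (by simp; omega)
    have h2 := hcon b i (by simp; omega)
    have h3 : 1 / (2 * N) + 1 / (2 * N) = 1 / N := by field_simp; norm_num
    rw [ha, hb, e]
    rw [abs_lt] at h1 h2
    rw [abs_le]
    constructor <;> linarith
  have hadj : ∀ a b, G.Adj a b → |v a - v b| ≤ 1 / N := by
    intro a b hab
    rw [SimpleGraph.fromRel_adj] at hab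
    rcases hab.2 with h | h
    · exact hrel a b h
    · rw [abs_sub_comm]; exact hrel b a h
  have hreach : G.Reachable src snk := by
    clear hsnk
    induction hwalk with
    | refl => exact SimpleGraph.Reachable.refl _
    | @tail a b _ h ih =>
      by_cases hab : a = b
      · rw [← hab]; exact ih
      · refine ih.trans (SimpleGraph.Adj.reachable ?_)
        rw [SimpleGraph.fromRel_adj]
        exact ⟨hab, Or.inl h⟩
  obtain ⟨p⟩ := hreach
  have hp := (p.toPath).2.length_lt
  have hb := walk_bound G v (1 / N) hadj (p.toPath : G.Walk src snk)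
  have hv1 : v src = 1 := by
    simp only [hv]
    rw [hsrc]
    exact ip_start k L hk hL w hw 0
  have hv0 : v snk = 0 := by
    simp only [hv]
    unfold ip
    simp [hsnk]
  rw [hv1, hv0] at hb
  have h4 : ((p.toPath : G.Walk src snk).length : ℝ) < N := by
    rw [hN]; exact_mod_cast hp
  have h5 : ((p.toPath : G.Walk src snk).length : ℝ) * (1 / N) < 1 := by
    rw [mul_one_div, div_lt_one hNpos]; exact h4
  simp at hb
  linarith [hb, h5, (by simp : ((p.toPath : G.Walk src snk).length : ℝ) * N⁻¹ = ((p.toPath : G.Walk src snk).length : ℝ) * (1 / N))]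

/-- **Core theorem.** `W` are the nodes of the network, `J a` is the indicator of the cuts for which
the node `a` is connected to the source. -/
theorem core {W ι : Type*} [Fintype W] [Fintype ι] (s t : V) (k L : ℕ) (hk : 3 ≤ k)
    (hL : 2 ^ k ≤ L + 1) (J : W → (V → Bool) → ℝ) (hJ : ∀ a c, J a c = 0 ∨ J a c = 1)
    (src snk : W) (hsrc : J src = sep s t) (hsnk : ∀ c, J snk c = 0)
    (w : ι → ℕ → V) (hw : ∀ p, Set.InjOn (w p) (range (L + 2)))
    (h0 : ∀ p, w p 0 = s) (h1 : ∀ p, w p (L + 1) = t)
    (hint : ∀ p p', p ≠ p' →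
      (((range (L + 2)).image (w p)) ∩ ((range (L + 2)).image (w p'))).card < k)
    (hwalk : ∀ p, ReflTransGen (Rel J (w p) L) src snk) :
    (Fintype.card ι : ℝ) ≤
      4 * (Fintype.card W : ℝ) ^ 3 * (L + 1) * (9 * (L + 2 : ℕ) + 1) ^ (k + 1) := by
  classical
  set N : ℝ := (Fintype.card W : ℝ) with hN
  have hNpos : 0 < N := by
    have : 0 < Fintype.card W := Fintype.card_pos_iff.mpr ⟨src⟩
    rw [hN]; exact_mod_cast this
  set B : ℝ := (9 * (L + 2 : ℕ) + 1) ^ (k + 1) with hB
  have hBpos : 0 < B := by positivity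
  have hJn : ∀ a, ip (J a) (J a) ≤ 1 := by
    intro a
    unfold ip
    rw [div_le_one (by positivity)]
    calc ∑ c, J a c * J a c ≤ ∑ _c : V → Bool, (1 : ℝ) := by
          apply sum_le_sum
          intro c _
          rcases hJ a c with h | h <;> rw [h] <;> norm_num
      _ = 2 ^ Fintype.card V := by simp
  have hbes : ∀ a i, ∑ p, ip (hf k L (w p) i) (J a) ^ 2 ≤ B := by
    intro a i
    apply bessel (fun p => hf k L (w p) i) B hBpos
    · intro p p' hpp
      exact ip_hf k L (w p) (w p') (hw p) (hw p') (hint p p' hpp) i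
    · intro p
      exact ip_hf_self k L (w p) (hw p) i
    · exact hJn a
  have hlow : ∀ p, (1 / (2 * N)) ^ 2 ≤ ∑ a : W, ∑ i ∈ range (L + 1), ip (hf k L (w p) i) (J a) ^ 2 := by
    intro p
    obtain ⟨a, i, hi, h⟩ := exists_large J k L hk hL (w p) (hw p) src snk
      (by rw [h0, h1]; exact hsrc) hsnk (hwalk p)
    calc (1 / (2 * N)) ^ 2 ≤ |ip (hf k L (w p) i) (J a)| ^ 2 := by
          apply pow_le_pow_left₀ (by positivity) h
      _ = ip (hf k L (w p) i) (J a) ^ 2 := sq_abs _
      _ ≤ ∑ i ∈ range (L + 1), ip (hf k L (w p) i) (J a) ^ 2 :=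
          single_le_sum (f := fun i => ip (hf k L (w p) i) (J a) ^ 2) (fun _ _ => sq_nonneg _) hi
      _ ≤ _ := single_le_sum (f := fun a => ∑ i ∈ range (L + 1), ip (hf k L (w p) i) (J a) ^ 2)
          (fun _ _ => sum_nonneg fun _ _ => sq_nonneg _) (mem_univ a)
  have hsum : (Fintype.card ι : ℝ) * (1 / (2 * N)) ^ 2 ≤ N * ((L + 1) * B) := by
    calc (Fintype.card ι : ℝ) * (1 / (2 * N)) ^ 2 = ∑ _p : ι, (1 / (2 * N)) ^ 2 := by
          simp
      _ ≤ ∑ p, ∑ a : W, ∑ i ∈ range (L + 1), ip (hf k L (w p) i) (J a) ^ 2 :=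
          sum_le_sum fun p _ => hlow p
      _ = ∑ a : W, ∑ i ∈ range (L + 1), ∑ p, ip (hf k L (w p) i) (J a) ^ 2 := by
          rw [sum_comm]
          apply sum_congr rfl
          intro a _
          rw [sum_comm]
      _ ≤ ∑ _a : W, ∑ _i ∈ range (L + 1), B := by
          apply sum_le_sum
          intro a _
          apply sum_le_sum
          intro i _
          exact hbes a i
      _ = N * ((L + 1) * B) := by
          simp [hN]
  have h6 : (1 / (2 * N)) ^ 2 = 1 / (4 * N ^ 2) := by
    field_simp; norm_num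
  rw [h6, mul_one_div, div_le_iff₀ (by positivity)] at hsum
  calc (Fintype.card ι : ℝ) ≤ N * ((L + 1) * B) * (4 * N ^ 2) := hsum
    _ = 4 * N ^ 3 * (L + 1) * B := by ring

end Pool.Agent.L5helper12.SN
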