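import Pool.Agent.L5helper12.SNLayer

/-!
# Counting the paths accepted with few negative literals
-/

namespace Pool.Agent.L5helper12.SN

open Finset Relation

/-- The path with the inner vertices `u` is accepted by contacts with at most `r` negated variables. -/
def Cheap {V : Type} (N : Network V) (s t : V) {L : ℕ} (r : ℕ) (u : Fin L → V) : Prop :=
  ∃ D : Finset (V × V), D.card ≤ r ∧ N.AcceptsUsing (pathArcs (route s t u) L) (D : Set (V × V))

open Classical in
theorem layer_count {V : Type} [Fintype V] [DecidableEq V] {s t : V} {L q Q : ℕ} [Fact q.Prime]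
    [Fact Q.Prime] (N : Network V) (hst : s ≠ t) (hN : N.Sound s t) (lam : Fin L × ZMod Q ↪ V)
    (hs : ∀ x, lam x ≠ s) (ht : ∀ x, lam x ≠ t) (r d : ℕ) (hLq : L ≤ q) (hqQ : q ≤ Q)
    (hrq : 4 * r * q ≤ Q - 1) (hL : 2 ^ (d + 3) ≤ L + 1) :
    ((univ.filter (fun v : Fin L → ZMod Q => Cheap N s t r (fun i => lam (i, v i)))).card : ℝ) *
      (q : ℝ) ^ (d + 1) ≤
      2 * (Q : ℝ) ^ L * (4 * (N.size : ℝ) ^ 3 * (L + 1) * (9 * (L + 2 : ℕ) + 1) ^ (d + 4)) := by
  letI := N.fin
  set Bd : ℝ := 4 * (N.size : ℝ) ^ 3 * (L + 1) * (9 * (L + 2 : ℕ) + 1) ^ (d + 4) with hBd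
  set ch : (Fin L → ZMod Q) → Prop := fun v => Cheap N s t r (fun i => lam (i, v i)) with hch
  let Dv : (Fin L → ZMod Q) → Finset (V × V) := fun v => if h : ch v then h.choose else ∅
  have hDv : ∀ v, ch v → (Dv v).card ≤ r ∧
      N.AcceptsUsing (pathArcs (lroute s t lam v) L) (Dv v : Set (V × V)) := by
    intro v hv
    have h1 : Dv v = hv.choose := by simp only [Dv, dif_pos hv]
    rw [h1]
    exact hv.choose_spec
  let g : (Fin L → (ZMod Q)ˣ) → (Fin L → ZMod Q) → (Fin (d + 1) → ZMod q) → Prop := fun a b p =>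
    ch (aff q a b (pol L p)) ∧ ¬ Bad lam (Dv (aff q a b (pol L p))) (aff q a b (pol L p)) q a b
  have hcard1 : Fintype.card (Fin L → (ZMod Q)ˣ) = (Q - 1) ^ L := by
    rw [Fintype.card_fun, ZMod.card_units Q, Fintype.card_fin]
  have hcard2 : Fintype.card (Fin L → ZMod Q) = Q ^ L := by
    rw [Fintype.card_fun, ZMod.card, Fintype.card_fin]
  have hcard3 : Fintype.card (Fin (d + 1) → ZMod q) = q ^ (d + 1) := by
    rw [Fintype.card_fun, ZMod.card, Fintype.card_fin]
  -- upper bound
  have upper : ∀ a b, ∑ p, (if g a b p then (1 : ℝ) else 0) ≤ Bd := by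
    intro a b
    have h1 : ∑ p, (if g a b p then (1 : ℝ) else 0) = (Fintype.card {p // g a b p} : ℝ) := by
      rw [Fintype.card_subtype, sum_boole]
    rw [h1]
    have := core (ι := {p // g a b p}) s t (d + 3) L (by omega) hL
      (Jn N s t (slots s t lam (aff q a b))) (Jn_zero_or_one N s t _) N.source N.target
      (Jn_source N s t _) (Jn_target N s t _ hN) (fun p => lroute s t lam (aff q a b (pol L p.1)))
      (fun p => lroute_injOn hst lam hs ht _) (fun p => route_zero _ _ _) (fun p => route_last _ _ _)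
      (by
        intro p p' hpp
        have h2 := lroute_inter (s := s) (t := t) lam hs ht (aff q a b (pol L p.1)) (aff q a b (pol L p'.1))
        have h3 : (univ.filter (fun i : Fin L => aff q a b (pol L p.1) i = aff q a b (pol L p'.1) i)).card ≤ d := by
          refine le_trans (card_le_card ?_) (ev_agree hLq p.1 p'.1 (fun h => hpp (Subtype.ext h)))
          intro i hi
          rw [mem_filter] at hi ⊢
          refine ⟨mem_univ _, ?_⟩
          have h4 := hi.2
          unfold aff at h4
          have h5 := mul_left_cancel₀ (Units.ne_zero (a i)) (add_right_cancel h4)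
          exact cst_inj hqQ h5
        omega)
      (by
        intro p
        apply walk_of_accepts N s t _ _ L (Dv (aff q a b (pol L p.1)) : Set (V × V))
        · intro e he
          exact ⟨pol L p.1, he⟩
        · exact avoid_of_not_bad lam _ _ a b p.2.2
        · exact (hDv _ p.2.1).2)
    have e : Fintype.card N.Node = N.size := rfl
    rw [e] at this
    exact this
  -- lower bound
  have lower : ∀ p, ((univ.filter ch).card : ℝ) * ((Q - 1 : ℕ) : ℝ) ^ L / 2 ≤
      ∑ a, ∑ b, (if g a b p then (1 : ℝ) else 0) := by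
    intro p
    have h1 : ∀ a, ∑ b, (if g a b p then (1 : ℝ) else 0) =
        ∑ v, (if ch v ∧ ¬ Bad lam (Dv v) v q a (fun i => v i - (a i : ZMod Q) * cst q Q (pol L p i))
          then (1 : ℝ) else 0) := by
      intro a
      rw [← Equiv.sum_comp (Equiv.addLeft (fun i => (a i : ZMod Q) * cst q Q (pol L p i)))
        (fun v => if ch v ∧ ¬ Bad lam (Dv v) v q a (fun i => v i - (a i : ZMod Q) * cst q Q (pol L p i))
          then (1 : ℝ) else 0)]
      apply sum_congr rfl
      intro b _
      have e1 : (Equiv.addLeft (fun i => (a i : ZMod Q) * cst q Q (pol L p i))) b =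
          aff q a b (pol L p) := by
        ext i; simp [aff]
      rw [e1]
      have e2 : (fun i => aff q a b (pol L p) i - (a i : ZMod Q) * cst q Q (pol L p i)) = b := by
        ext i; simp [aff]
      rw [e2]
    rw [sum_congr rfl (fun a _ => h1 a), sum_comm]
    calc ((univ.filter ch).card : ℝ) * ((Q - 1 : ℕ) : ℝ) ^ L / 2
        = ∑ v ∈ univ.filter ch, ((Q - 1 : ℕ) : ℝ) ^ L / 2 := by
          rw [sum_const, nsmul_eq_mul]; ring
      _ ≤ ∑ v ∈ univ.filter ch, ∑ a : Fin L → (ZMod Q)ˣ,
          (if ch v ∧ ¬ Bad lam (Dv v) v q a (fun i => v i - (a i : ZMod Q) * cst q Q (pol L p i))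
          then (1 : ℝ) else 0) := by
          apply sum_le_sum
          intro v hv
          have hv' : ch v := (mem_filter.mp hv).2
          have hb := bad_count (q := q) lam (Dv v) v (pol L p) r (hDv v hv').1 hrq
          have e3 : ∑ a : Fin L → (ZMod Q)ˣ,
              (if ch v ∧ ¬ Bad lam (Dv v) v q a (fun i => v i - (a i : ZMod Q) * cst q Q (pol L p i))
              then (1 : ℝ) else 0) = ∑ a : Fin L → (ZMod Q)ˣ,
              (1 - (if Bad lam (Dv v) v q a (fun i => v i - (a i : ZMod Q) * cst q Q (pol L p i))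
              then (1 : ℝ) else 0)) := by
            apply sum_congr rfl
            intro a _
            by_cases hB : Bad lam (Dv v) v q a (fun i => v i - (a i : ZMod Q) * cst q Q (pol L p i))
            · simp [hB]
            · simp [hB, hv']
          rw [e3, sum_sub_distrib, sum_boole, sum_const, card_univ, hcard1, nsmul_eq_mul, mul_one]
          have hb' : (2 : ℝ) * ((univ.filter (fun a : Fin L → (ZMod Q)ˣ =>
              Bad lam (Dv v) v q a (fun i => v i - (a i : ZMod Q) * cst q Q (pol L p i)))).card : ℝ) ≤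
              ((Q - 1 : ℕ) : ℝ) ^ L := by exact_mod_cast hb
          push_cast
          push_cast at hb'
          linarith
      _ ≤ _ := by
          apply sum_le_sum_of_subset_of_nonneg (filter_subset _ _)
          intro v _ _
          apply sum_nonneg
          intro a _
          split_ifs <;> norm_num
  have hQ1 : 1 < Q := (Fact.out : Q.Prime).one_lt
  have hpos : (0 : ℝ) < ((Q - 1 : ℕ) : ℝ) ^ L := by
    have : (0 : ℝ) < ((Q - 1 : ℕ) : ℝ) := by exact_mod_cast Nat.sub_pos_of_lt hQ1
    positivity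
  have hA : (q : ℝ) ^ (d + 1) * (((univ.filter ch).card : ℝ) * ((Q - 1 : ℕ) : ℝ) ^ L / 2) ≤
      ((Q - 1 : ℕ) : ℝ) ^ L * ((Q : ℝ) ^ L * Bd) := by
    calc (q : ℝ) ^ (d + 1) * (((univ.filter ch).card : ℝ) * ((Q - 1 : ℕ) : ℝ) ^ L / 2)
        = ∑ _p : Fin (d + 1) → ZMod q, (((univ.filter ch).card : ℝ) * ((Q - 1 : ℕ) : ℝ) ^ L / 2) := by
          rw [sum_const, card_univ, hcard3, nsmul_eq_mul]
          push_cast
          ring
      _ ≤ ∑ p : Fin (d + 1) → ZMod q, ∑ a, ∑ b, (if g a b p then (1 : ℝ) else 0) :=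
          sum_le_sum fun p _ => lower p
      _ = ∑ a, ∑ b, ∑ p : Fin (d + 1) → ZMod q, (if g a b p then (1 : ℝ) else 0) := by
          rw [sum_comm]
          apply sum_congr rfl
          intro a _
          rw [sum_comm]
      _ ≤ ∑ _a : Fin L → (ZMod Q)ˣ, ∑ _b : Fin L → ZMod Q, Bd := by
          apply sum_le_sum
          intro a _
          apply sum_le_sum
          intro b _
          exact upper a b
      _ = ((Q - 1 : ℕ) : ℝ) ^ L * ((Q : ℝ) ^ L * Bd) := by
          rw [sum_const, sum_const, card_univ, card_univ, hcard1, hcard2, nsmul_eq_mul, nsmul_eq_mul]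
          push_cast
          ring
  have h7 : ((Q - 1 : ℕ) : ℝ) ^ L * ((q : ℝ) ^ (d + 1) * ((univ.filter ch).card : ℝ)) ≤
      ((Q - 1 : ℕ) : ℝ) ^ L * (2 * (Q : ℝ) ^ L * Bd) := by
    calc _ = 2 * ((q : ℝ) ^ (d + 1) * (((univ.filter ch).card : ℝ) * ((Q - 1 : ℕ) : ℝ) ^ L / 2)) := by ring
      _ ≤ 2 * (((Q - 1 : ℕ) : ℝ) ^ L * ((Q : ℝ) ^ L * Bd)) := by linarith
      _ = _ := by ring
  have h8 := le_of_mul_le_mul_left h7 hpos
  linarith

end Pool.Agent.L5helper12.SN
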