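import Mathlib

/-!
# Switching networks

A switching network over the digraphs on the vertex set `V` is an undirected graph of nodes with two
distinguished nodes. Its edges (contacts) are labelled by literals: a positive literal (the arc `e` is
present in the input digraph), a negative literal (the arc `e` is absent) or nothing. The network accepts
a digraph if the source is connected to the target by contacts that are closed for this digraph.
Polynomial size switching networks decide exactly the languages of nonuniform deterministic logarithmic
space.
-/

namespace Pool.Agent.L5helper12.SN

/-- The labels of the contacts: always closed, closed if the arc `e` is present in the input digraph,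
closed if the arc `e` is absent. -/
inductive Label (V : Type) : Type
  | free : Label V
  | pos (e : V × V) : Label V
  | neg (e : V × V) : Label V

/-- A contact with this label is closed for the input digraph with the set of arcs `G`. -/
def Label.Closed {V : Type} (G : Set (V × V)) : Label V → Prop
  | .free => True
  | .pos e => e ∈ G
  | .neg e => e ∉ G

/-- A switching network whose inputs are the digraphs on `V`. -/
structure Network (V : Type) where
  /-- the nodes -/
  Node : Type
  /-- there are finitely many nodes -/
  fin : Fintype Node
  /-- the source node -/
  source : Node
  /-- the target node -/
  target : Node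
  /-- the contacts: `contact x y l` if there is a contact with label `l` between `x` and `y` -/
  contact : Node → Node → Label V → Prop

/-- The size of a network is the number of its nodes. -/
def Network.size {V : Type} (N : Network V) : ℕ := @Fintype.card N.Node N.fin

/-- There is a contact between `x` and `y` which is closed for the input `G`, and if its label is a
negative literal then the variable of this literal is in `D`. -/
def Network.Joined {V : Type} (N : Network V) (G D : Set (V × V)) (x y : N.Node) : Prop :=
  ∃ l : Label V, N.contact x y l ∧ l.Closed G ∧ ∀ e, l = .neg e → e ∈ D

/-- For the input `G` the source is connected to the target by closed contacts, where only contacts are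
used that are unlabelled, or labelled by positive literals, or by negated variables from `D`. The contacts
may be passed in both directions. -/
def Network.AcceptsUsing {V : Type} (N : Network V) (G D : Set (V × V)) : Prop :=
  Relation.EqvGen (N.Joined G D) N.source N.target

/-- The network accepts `G`. -/
def Network.Accepts {V : Type} (N : Network V) (G : Set (V × V)) : Prop :=
  N.AcceptsUsing G Set.univ

/-- The digraph `G` contains a directed path from `s` to `t`. -/
def Connected {V : Type} (G : Set (V × V)) (s t : V) : Prop :=
  Relation.ReflTransGen (fun u v => (u, v) ∈ G) s t

/-- The network is sound for directed connectivity from `s` to `t`. -/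
def Network.Sound {V : Type} (N : Network V) (s t : V) : Prop :=
  ∀ G : Set (V × V), N.Accepts G → Connected G s t

/-- The network decides directed connectivity from `s` to `t`. -/
def Network.Decides {V : Type} (N : Network V) (s t : V) : Prop :=
  ∀ G : Set (V × V), N.Accepts G ↔ Connected G s t

/-- The arcs of the path `w 0 → w 1 → … → w (L + 1)`. -/
def pathArcs {V : Type} (w : ℕ → V) (L : ℕ) : Set (V × V) := {e | ∃ i ≤ L, e = (w i, w (i + 1))}

/-- The sequence `s, u 0, u 1, …, u (L - 1), t, t, …`. -/
def route {V : Type} (s t : V) {L : ℕ} (u : Fin L → V) (j : ℕ) : V :=
  if j = 0 then s else if h : j - 1 < L then u ⟨j - 1, h⟩ else t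

theorem AcceptsUsing.mono {V : Type} {N : Network V} {G D D' : Set (V × V)} (h : D ⊆ D')
    (ha : N.AcceptsUsing G D) : N.AcceptsUsing G D' := by
  unfold Network.AcceptsUsing at *
  refine Relation.EqvGen.mono (r := N.Joined G D) (p := N.Joined G D') ?_ _ _ ha
  rintro x y ⟨l, h1, h2, h3⟩
  exact ⟨l, h1, h2, fun e he => h (h3 e he)⟩

theorem route_zero {V : Type} (s t : V) {L : ℕ} (u : Fin L → V) : route s t u 0 = s := by
  simp [route]

theorem route_succ {V : Type} (s t : V) {L : ℕ} (u : Fin L → V) (i : Fin L) :
    route s t u (i + 1) = u i := by
  simp [route]

theorem route_last {V : Type} (s t : V) {L : ℕ} (u : Fin L → V) : route s t u (L + 1) = t := by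
  simp [route]

end Pool.Agent.L5helper12.SN
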