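import Pool.Agent.L5helper12.SNCore
import Pool.Agent.L5helper12.SNModel

/-!
# The cut functions of the nodes of a network
-/

namespace Pool.Agent.L5helper12.SN

open Finset Relation

/-- the digraph of the arcs in `U` that do not leave the side of `s` of the cut `c` -/
def inp {V : Type} (U : Set (V × V)) (c : V → Bool) : Set (V × V) :=
  {e | e ∈ U ∧ ¬ (c e.1 = true ∧ c e.2 = false)}

open Classical in
/-- the cut function of a node -/
noncomputable def Jn {V : Type} (N : Network V) (s t : V) (U : Set (V × V)) (a : N.Node)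
    (c : V → Bool) : ℝ :=
  if (c s = true ∧ c t = false) ∧ EqvGen (N.Joined (inp U c) Set.univ) N.source a then 1 else 0

theorem Jn_zero_or_one {V : Type} (N : Network V) (s t : V) (U : Set (V × V)) (a : N.Node)
    (c : V → Bool) : Jn N s t U a c = 0 ∨ Jn N s t U a c = 1 := by
  unfold Jn
  split_ifs <;> simp

theorem Jn_source {V : Type} (N : Network V) (s t : V) (U : Set (V × V)) :
    Jn N s t U N.source = sep s t := by
  ext c
  unfold Jn sep
  congr 1
  apply propext
  constructor
  · intro h; exact h.1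
  · intro h; exact ⟨h, EqvGen.refl _⟩

theorem Jn_target {V : Type} (N : Network V) (s t : V) (U : Set (V × V)) (hN : N.Sound s t)
    (c : V → Bool) : Jn N s t U N.target c = 0 := by
  unfold Jn
  rw [if_neg]
  rintro ⟨⟨h1, h2⟩, h3⟩
  have := hN _ h3
  have key : ∀ v, ReflTransGen (fun u v => (u, v) ∈ inp U c) s v → c v = true := by
    intro v hv
    induction hv with
    | refl => exact h1
    | @tail x y _ h ih =>
      have := h.2
      simp only [ih, true_and] at this
      simpa using this
  have h4 := key t this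
  rw [h4] at h2
  exact absurd h2 (by simp)

theorem rel_of_joined {V : Type} (N : Network V) (s t : V) (U : Set (V × V)) (w : ℕ → V) (L : ℕ)
    (D : Set (V × V)) (hU : pathArcs w L ⊆ U) (hD : ∀ e ∈ D, e ∉ pathArcs w L → e ∉ U)
    (x y : N.Node) (h : N.Joined (pathArcs w L) D x y) : Rel (Jn N s t U) w L x y := by
  obtain ⟨l, h1, h2, h3⟩ := h
  have step : ∀ c, l.Closed (inp U c) → Jn N s t U x c = Jn N s t U y c := by
    intro c hc
    have hj : N.Joined (inp U c) Set.univ x y := ⟨l, h1, hc, fun _ _ => trivial⟩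
    unfold Jn
    congr 1
    apply propext
    constructor
    · rintro ⟨h4, h5⟩
      exact ⟨h4, h5.trans _ _ _ (EqvGen.rel _ _ hj)⟩
    · rintro ⟨h4, h5⟩
      exact ⟨h4, h5.trans _ _ _ (EqvGen.symm _ _ (EqvGen.rel _ _ hj))⟩
  cases l with
  | free => exact ⟨0, Nat.zero_le _, fun c _ => step c trivial⟩
  | pos e =>
    obtain ⟨i, hi, he⟩ := h2
    refine ⟨i, hi, fun c hc => step c ?_⟩
    refine ⟨hU ⟨i, hi, he⟩, ?_⟩
    rw [he]; exact hc
  | neg e =>
    refine ⟨0, Nat.zero_le _, fun c _ => step c ?_⟩
    intro hin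
    exact hD e (h3 e rfl) h2 hin.1

theorem rel_symm {V W : Type*} (J : W → (V → Bool) → ℝ) (w : ℕ → V) (L : ℕ) (a b : W)
    (h : Rel J w L a b) : Rel J w L b a := by
  obtain ⟨i, hi, h⟩ := h
  exact ⟨i, hi, fun c hc => (h c hc).symm⟩

theorem walk_of_accepts {V : Type} (N : Network V) (s t : V) (U : Set (V × V)) (w : ℕ → V) (L : ℕ)
    (D : Set (V × V)) (hU : pathArcs w L ⊆ U) (hD : ∀ e ∈ D, e ∉ pathArcs w L → e ∉ U)
    (h : N.AcceptsUsing (pathArcs w L) D) :
    ReflTransGen (Rel (Jn N s t U) w L) N.source N.target := by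
  have key : ∀ x y, EqvGen (N.Joined (pathArcs w L) D) x y →
      ReflTransGen (Rel (Jn N s t U) w L) x y := by
    intro x y hxy
    induction hxy with
    | rel x y h => exact ReflTransGen.single (rel_of_joined N s t U w L D hU hD x y h)
    | refl x => exact ReflTransGen.refl
    | symm x y _ ih =>
      clear * - ih
      induction ih with
      | refl => exact ReflTransGen.refl
      | tail _ h2 ih => exact ReflTransGen.head (rel_symm _ _ _ _ _ h2) ih
    | trans x y z _ _ h1 h2 => exact h1.trans h2
  exact key _ _ h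

end Pool.Agent.L5helper12.SN
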