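import Pool.Agent.L5helper12.SNMono

/-!
# Contraction onto a complete digraph
-/

namespace Pool.Agent.L5helper12.SN

open Finset Relation

theorem sq_lt_exp (x : ℝ) (hx : 0 ≤ x) : x ^ 2 < Real.exp x := by
  have h1 := Real.quadratic_le_exp_of_nonneg (x := x / 2) (by linarith)
  have h2 : Real.exp x = Real.exp (x / 2) ^ 2 := by
    rw [← Real.exp_nat_mul]; congr 1; push_cast; ring
  rw [h2]
  have h3 : x < 1 + x / 2 + (x / 2) ^ 2 / 2 := by nlinarith [sq_nonneg (x - 2)]
  have h4 : x < Real.exp (x / 2) := lt_of_lt_of_le h3 h1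
  exact pow_lt_pow_left₀ h4 hx (by norm_num)

theorem avoid_count {V : Type} [Fintype V] [DecidableEq V] {κ : ℕ} (hκ : 2 ≤ κ) (N : Finset V)
    (hN : κ ^ 2 ≤ N.card) (j : Fin κ) :
    (((univ : Finset (V → Fin κ)).filter (fun f => ∀ u ∈ N, f u ≠ j)).card : ℝ) ≤
      Real.exp (-κ) * (κ : ℝ) ^ Fintype.card V := by
  have h1 : (univ : Finset (V → Fin κ)).filter (fun f => ∀ u ∈ N, f u ≠ j) =
      Fintype.piFinset (fun u => if u ∈ N then univ.erase j else univ) := by
    ext f
    simp only [mem_filter, mem_univ, true_and, Fintype.mem_piFinset]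
    constructor
    · intro h u
      by_cases hu : u ∈ N
      · rw [if_pos hu]; simp [h u hu]
      · rw [if_neg hu]; simp
    · intro h u hu
      have := h u
      rw [if_pos hu] at this
      exact (mem_erase.mp this).1
  rw [h1, Fintype.card_piFinset]
  have h2 : ∀ u : V, ((if u ∈ N then univ.erase j else univ : Finset (Fin κ)).card : ℝ) =
      κ * (if u ∈ N then (1 - 1 / (κ : ℝ)) else 1) := by
    intro u
    have hκ0 : (κ : ℝ) ≠ 0 := by
      have : κ ≠ 0 := by omega
      exact_mod_cast this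
    split_ifs
    · rw [card_erase_of_mem (mem_univ _), card_univ, Fintype.card_fin, Nat.cast_sub (by omega)]
      push_cast
      field_simp
    · simp
  push_cast
  rw [prod_congr rfl (fun u _ => h2 u), prod_mul_distrib, prod_const, card_univ,
    Finset.prod_ite_mem univ N]
  simp only [univ_inter, prod_const]
  rw [mul_comm]
  apply mul_le_mul_of_nonneg_right _ (by positivity)
  have h3 : (0 : ℝ) ≤ 1 - 1 / (κ : ℝ) := by
    have : (1 : ℝ) ≤ κ := by exact_mod_cast (by omega : 1 ≤ κ)
    rw [sub_nonneg, div_le_one (by linarith)]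
    exact this
  have h4 : 1 - 1 / (κ : ℝ) ≤ 1 := by
    have : 0 ≤ 1 / (κ : ℝ) := by positivity
    linarith
  have h5 : (1 - 1 / (κ : ℝ)) ^ κ ≤ Real.exp (-1) := by
    apply Real.one_sub_div_pow_le_exp_neg
    exact_mod_cast (by omega : 1 ≤ κ)
  calc (1 - 1 / (κ : ℝ)) ^ N.card ≤ (1 - 1 / (κ : ℝ)) ^ (κ ^ 2) :=
        pow_le_pow_of_le_one h3 h4 hN
    _ = ((1 - 1 / (κ : ℝ)) ^ κ) ^ κ := by rw [← pow_mul, sq]
    _ ≤ (Real.exp (-1)) ^ κ := pow_le_pow_left₀ (by positivity) h5 κ
    _ = Real.exp (-κ) := by rw [← Real.exp_nat_mul]; simp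

open Classical in
theorem exists_colouring {V : Type} [Fintype V] [DecidableEq V] {κ : ℕ} (hκ : 2 ≤ κ)
    (N : Fin κ → Finset V) (hN : ∀ i, κ ^ 2 ≤ (N i).card) :
    ∃ f : V → Fin κ, ∀ i j, ∃ u ∈ N i, f u = j := by
  by_contra hcon
  push Not at hcon
  have h1 : (univ : Finset (V → Fin κ)) ⊆ (univ : Finset (Fin κ × Fin κ)).biUnion
      (fun x => univ.filter (fun f => ∀ u ∈ N x.1, f u ≠ x.2)) := by
    intro f _
    obtain ⟨i, j, h⟩ := hcon f
    rw [mem_biUnion]
    exact ⟨(i, j), mem_univ _, by simpa using h⟩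
  have h2 := (card_le_card h1).trans card_biUnion_le
  rw [card_univ, Fintype.card_fun, Fintype.card_fin] at h2
  have h3 : ((κ : ℝ) ^ Fintype.card V) ≤ ∑ x : Fin κ × Fin κ,
      (((univ : Finset (V → Fin κ)).filter (fun f => ∀ u ∈ N x.1, f u ≠ x.2)).card : ℝ) := by
    exact_mod_cast h2
  have h4 : ∑ x : Fin κ × Fin κ,
      (((univ : Finset (V → Fin κ)).filter (fun f => ∀ u ∈ N x.1, f u ≠ x.2)).card : ℝ) ≤
      ∑ _x : Fin κ × Fin κ, Real.exp (-κ) * (κ : ℝ) ^ Fintype.card V := by
    apply sum_le_sum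
    intro x _
    exact avoid_count hκ (N x.1) (hN x.1) x.2
  rw [sum_const, card_univ, Fintype.card_prod, Fintype.card_fin, nsmul_eq_mul] at h4
  have hpos : (0 : ℝ) < (κ : ℝ) ^ Fintype.card V := by
    have : (0 : ℝ) < κ := by exact_mod_cast (by omega : 0 < κ)
    positivity
  have h5 : (1 : ℝ) ≤ (κ : ℝ) ^ 2 * Real.exp (-κ) := by
    have h6 := h3.trans h4
    push_cast at h6
    by_contra h7
    push Not at h7
    nlinarith
  have h6 := sq_lt_exp κ (by positivity)
  rw [Real.exp_neg, ← div_eq_mul_inv, one_le_div (Real.exp_pos _)] at h5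
  linarith

open Classical in
theorem exists_embed {n κ : ℕ} (hκ : 2 ≤ κ) (s t : Fin n) (P : Set (Fin n × Fin n))
    (hP : 3 * n * κ ^ 2 < P.ncard) : Nonempty (Embed P s t κ) := by
  have hκ2 : κ + 2 ≤ κ ^ 2 := by nlinarith
  let out : Fin n → Finset (Fin n) := fun v => univ.filter (fun u => (v, u) ∈ P)
  have hsum : P.ncard = ∑ v, (out v).card := by
    rw [Set.ncard_eq_toFinset_card' P]
    rw [← Finset.card_sigma]
    apply card_bij (fun e _ => (⟨e.1, e.2⟩ : Σ _ : Fin n, Fin n))
    · intro e he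
      simp only [mem_sigma, mem_univ, true_and, out, mem_filter]
      simpa using he
    · intro e _ e' _ h
      simp only [Sigma.mk.injEq, heq_eq_eq] at h
      exact Prod.ext h.1 h.2
    · rintro ⟨u, v⟩ h
      simp only [mem_sigma, mem_univ, true_and, out, mem_filter] at h
      exact ⟨(u, v), by simpa using h, rfl⟩
  set Hh : Finset (Fin n) := univ.filter (fun v => v ≠ s ∧ v ≠ t ∧ 2 * κ ^ 2 ≤ (out v).card) with hHh
  have hbig : κ ≤ Hh.card := by
    by_contra hcon
    push Not at hcon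
    have h1 : ∀ v, (out v).card ≤ (if v ∈ Hh ∪ {s, t} then n else 0) + 2 * κ ^ 2 := by
      intro v
      split_ifs with h
      · have := card_le_univ (out v)
        rw [Fintype.card_fin] at this
        omega
      · simp only [mem_union, mem_insert, mem_singleton, not_or] at h
        have h2 := h.1
        simp only [hHh, mem_filter, mem_univ, true_and, not_and, not_le] at h2
        have := h2 h.2.1 h.2.2
        omega
    have h2 : ∑ v, (out v).card ≤ (Hh ∪ {s, t}).card * n + n * (2 * κ ^ 2) := by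
      calc ∑ v, (out v).card ≤ ∑ v : Fin n, ((if v ∈ Hh ∪ {s, t} then n else 0) + 2 * κ ^ 2) :=
            sum_le_sum fun v _ => h1 v
        _ = _ := by
            rw [sum_add_distrib, sum_const, card_univ, Fintype.card_fin, smul_eq_mul,
              Finset.sum_ite_mem, univ_inter, sum_const, smul_eq_mul]
    have h3 : (Hh ∪ {s, t}).card ≤ κ + 1 := by
      have h4 := card_union_le Hh {s, t}
      have h5 : ({s, t} : Finset (Fin n)).card ≤ 2 := card_le_two
      omega
    rw [hsum] at hP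
    have h6 : (Hh ∪ {s, t}).card * n ≤ κ ^ 2 * n := Nat.mul_le_mul_right _ (by omega)
    have h7 : ∑ v, (out v).card ≤ 3 * n * κ ^ 2 := by
      calc ∑ v, (out v).card ≤ (Hh ∪ {s, t}).card * n + n * (2 * κ ^ 2) := h2
        _ ≤ κ ^ 2 * n + n * (2 * κ ^ 2) := by omega
        _ = 3 * n * κ ^ 2 := by ring
    omega
  obtain ⟨em⟩ : Nonempty (Fin κ ↪ {v // v ∈ Hh}) := by
    apply Function.Embedding.nonempty_of_card_le
    rw [Fintype.card_fin, Fintype.card_coe]
    exact hbig
  let a : Fin κ → Fin n := fun i => em i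
  have ainj : Function.Injective a := fun i j h => em.injective (Subtype.ext h)
  have ha : ∀ i, a i ≠ s ∧ a i ≠ t ∧ 2 * κ ^ 2 ≤ (out (a i)).card := by
    intro i
    exact (mem_filter.mp (em i).2).2
  let N : Fin κ → Finset (Fin n) := fun i => (out (a i)) \ ((univ.image a) ∪ {s, t})
  have hN : ∀ i, κ ^ 2 ≤ (N i).card := by
    intro i
    have h1 := (ha i).2.2
    have h2 : (out (a i)).card ≤ (N i).card + ((univ.image a) ∪ {s, t}).card := by
      exact card_le_card_sdiff_add_card (s := out (a i)) (t := (univ.image a) ∪ {s, t})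
    have h3 : ((univ.image a) ∪ {s, t}).card ≤ κ + 2 := by
      have h4 := card_union_le (univ.image a) {s, t}
      have h5 : ({s, t} : Finset (Fin n)).card ≤ 2 := card_le_two
      have h6 := card_image_le (s := (univ : Finset (Fin κ))) (f := a)
      rw [card_univ, Fintype.card_fin] at h6
      omega
    omega
  obtain ⟨f, hf⟩ := exists_colouring hκ N hN
  choose b hb hfb using hf
  have hb' : ∀ i j, (a i, b i j) ∈ P ∧ (∀ k, b i j ≠ a k) ∧ b i j ≠ s ∧ b i j ≠ t := by
    intro i j
    have h1 := hb i j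
    simp only [N, out, mem_sdiff, mem_filter, mem_univ, true_and, mem_union, mem_image,
      mem_insert, mem_singleton, not_or, not_exists] at h1
    exact ⟨h1.1, fun k h => h1.2.1 k h.symm, h1.2.2.1, h1.2.2.2⟩
  exact ⟨{ a := a, inj := ainj, as := fun i => (ha i).1, at' := fun i => (ha i).2.1, f := f, b := b,
           ba := fun i j k => (hb' i j).2.1 k, bs := fun i j => (hb' i j).2.2.1,
           bt := fun i j => (hb' i j).2.2.2, fb := hfb, mem := fun i j => (hb' i j).1 }⟩

end Pool.Agent.L5helper12.SN
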