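import Pool.Agent.L5helper12.SNPebble

/-!
# The functional of low degree given by the reversible pebble game
-/

namespace Pool.Agent.L5helper12.SN

open Finset Relation

open Classical in
/-- The indicator of the configurations (with the source `0` as a pebble) reachable with at most `k`
pebbles besides the source. -/
noncomputable def fR (k : ℕ) (S : Finset ℕ) : ℝ :=
  if 0 ∈ S ∧ ReflTransGen (Mv 0 k) ∅ (S.erase 0) then 1 else 0

theorem fR_zero (k : ℕ) : fR k {0} = 1 := by
  unfold fR
  rw [if_pos]
  refine ⟨by simp, ?_⟩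
  have : ({0} : Finset ℕ).erase 0 = ∅ := by simp
  rw [this]

theorem fR_far (k N : ℕ) (h : 2 ^ k ≤ N) : fR k {0, N} = 0 := by
  unfold fR
  rw [if_neg]
  rintro ⟨_, h2⟩
  have hN : N ≠ 0 := by
    have := Nat.one_le_two_pow (n := k)
    omega
  have := reach_lt k 0 _ h2 N (by simp [hN])
  omega

theorem fR_move (k i : ℕ) (S : Finset ℕ) (hi : i ∈ S) (hc : (insert (i + 1) S).card ≤ k + 1) :
    fR k (insert (i + 1) S) = fR k S := by
  unfold fR
  have h0 : (0 ∈ insert (i + 1) S) ↔ 0 ∈ S := by simp
  by_cases hz : 0 ∈ S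
  · have he : (insert (i + 1) S).erase 0 = insert (i + 1) (S.erase 0) := by
      rw [erase_insert_of_ne (by omega)]
    have hmv : Mv 0 k (S.erase 0) (insert (i + 1) (S.erase 0)) := by
      refine ⟨?_, ?_, i, ?_, Or.inl rfl⟩
      · have := card_erase_of_mem hz
        have h3 : S.card ≤ (insert (i + 1) S).card := card_le_card (subset_insert _ _)
        omega
      · rw [← he]
        have : 0 ∈ insert (i + 1) S := by simp [hz]
        have := card_erase_of_mem this
        omega
      · by_cases h : i = 0
        · left; exact h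
        · right; simp [h, hi]
    rw [he]
    congr 1
    simp only [h0, hz, true_and]
    apply propext
    constructor
    · intro h; exact h.tail hmv.symm
    · intro h; exact h.tail hmv
  · simp [hz]

theorem fR_abs (k : ℕ) (S : Finset ℕ) : |fR k S| ≤ 1 := by
  unfold fR
  split_ifs <;> simp

/-- the Fourier coefficients of the functional -/
noncomputable def phi (k : ℕ) (T : Finset ℕ) : ℝ := ∑ S ∈ T.powerset, (-2) ^ S.card * fR k S

theorem phi_abs (k : ℕ) (T : Finset ℕ) : |phi k T| ≤ 3 ^ T.card := by
  unfold phi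
  calc |∑ S ∈ T.powerset, (-2) ^ S.card * fR k S| ≤ ∑ S ∈ T.powerset, |(-2) ^ S.card * fR k S| :=
        abs_sum_le_sum_abs _ _
    _ ≤ ∑ S ∈ T.powerset, (2 : ℝ) ^ S.card := by
        apply sum_le_sum
        intro S _
        rw [abs_mul, abs_pow, abs_neg, abs_two]
        have := fR_abs k S
        have h2 : (0 : ℝ) < 2 ^ S.card := by positivity
        nlinarith
    _ = 3 ^ T.card := by
        have := Finset.sum_pow_mul_eq_add_pow (2 : ℝ) 1 T
        simp only [one_pow, mul_one] at this
        rw [this]
        norm_num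

/-- auxiliary sums -/
noncomputable def psi (k : ℕ) (A T : Finset ℕ) : ℝ := ∑ S ∈ T.powerset, (-2) ^ S.card * fR k (S ∪ A)

theorem psi_insert (k : ℕ) (A T : Finset ℕ) (i : ℕ) (hi : i ∉ T) :
    psi k A (insert i T) = psi k A T - 2 * psi k (insert i A) T := by
  unfold psi
  rw [Finset.sum_powerset_insert hi, sub_eq_add_neg, ← neg_mul, mul_sum]
  congr 1
  apply sum_congr rfl
  intro S hS
  have : i ∉ S := fun h => hi (mem_powerset.mp hS h)
  rw [card_insert_of_notMem this, insert_union, ← union_insert]
  ring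

theorem phi_eq_psi (k : ℕ) (T : Finset ℕ) : phi k T = psi k ∅ T := by
  unfold phi psi
  simp

/-- the crossing relation -/
theorem phi_rel (k i : ℕ) (S : Finset ℕ) (hi : i ∉ S) (hi1 : i + 1 ∉ S) (hc : S.card + 2 ≤ k + 1) :
    phi k S - phi k (insert i S) + phi k (insert (i + 1) S) - phi k (insert i (insert (i + 1) S)) = 0 := by
  have hi2 : i ∉ insert (i + 1) S := by simp [hi]
  simp only [phi_eq_psi]
  rw [psi_insert k ∅ _ i hi2, psi_insert k ∅ S i hi, psi_insert k ∅ S (i + 1) hi1,
    psi_insert k (insert i ∅) S (i + 1) hi1]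
  have : psi k (insert (i + 1) (insert i ∅)) S = psi k (insert i ∅) S := by
    unfold psi
    apply sum_congr rfl
    intro R hR
    have hR' := mem_powerset.mp hR
    congr 1
    rw [union_insert]
    apply fR_move
    · simp
    · have h1 : (insert (i + 1) (R ∪ insert i ∅)).card ≤ R.card + 2 := by
        calc (insert (i + 1) (R ∪ insert i ∅)).card ≤ (R ∪ insert i ∅).card + 1 := card_insert_le _ _
          _ ≤ (R.card + (insert i ∅ : Finset ℕ).card) + 1 := by
              have := card_union_le R (insert i ∅)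
              omega
          _ = R.card + 2 := by simp
      have h2 := card_le_card hR'
      omega
  rw [this]
  ring

theorem phi_start (k N : ℕ) (h : 2 ^ k ≤ N) :
    phi k ∅ - phi k {0} + phi k {N} - phi k {0, N} = 4 := by
  have hN : N ≠ 0 := by
    have := Nat.one_le_two_pow (n := k)
    omega
  have h0 : (0 : ℕ) ∉ ({N} : Finset ℕ) := by simp [hN.symm]
  have e1 : ({0} : Finset ℕ) = insert 0 ∅ := by simp
  have e2 : ({N} : Finset ℕ) = insert N ∅ := by simp
  have h0' : (0 : ℕ) ∉ (insert N ∅ : Finset ℕ) := by simp [hN.symm]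
  have h3 : ({0, N} : Finset ℕ) = insert 0 (insert N ∅) := by simp
  simp only [phi_eq_psi]
  rw [h3, e1, e2]
  rw [psi_insert k ∅ _ 0 h0', psi_insert k ∅ ∅ 0 (by simp), psi_insert k ∅ ∅ N (by simp),
    psi_insert k (insert 0 ∅) ∅ N (by simp)]
  have a1 : psi k (insert 0 ∅) ∅ = 1 := by
    unfold psi; simp [fR_zero]
  have a2 : psi k (insert N (insert 0 ∅)) ∅ = 0 := by
    unfold psi
    have : (insert N (insert 0 ∅) : Finset ℕ) = {0, N} := by
      ext x; simp; tauto
    simp only [powerset_empty, sum_singleton, card_empty, pow_zero, one_mul, empty_union]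
    rw [this, fR_far k N h]
  rw [a1, a2]
  ring

end Pool.Agent.L5helper12.SN
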