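import Mathlib

/-!
# Polynomials with few common values, counting functions
-/

namespace Pool.Agent.L5helper12.SN

open Finset

/-- value of the polynomial with coefficients `p` -/
def ev {q d : ℕ} (p : Fin (d + 1) → ZMod q) (x : ZMod q) : ZMod q := ∑ j : Fin (d + 1), p j * x ^ (j : ℕ)

theorem ev_agree {q d L : ℕ} [Fact q.Prime] (hL : L ≤ q) (p p' : Fin (d + 1) → ZMod q) (h : p ≠ p') :
    (univ.filter (fun i : Fin L => ev p (i : ℕ) = ev p' (i : ℕ))).card ≤ d := by
  by_contra hcon
  push Not at hcon
  apply h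
  set S := univ.filter (fun i : Fin L => ev p (i : ℕ) = ev p' (i : ℕ)) with hS
  set f : Polynomial (ZMod q) := ∑ j : Fin (d + 1), Polynomial.C (p j - p' j) * Polynomial.X ^ (j : ℕ) with hf
  have hinj : Set.InjOn (fun i : Fin L => ((i : ℕ) : ZMod q)) S := by
    intro i _ j _ hij
    have h1 : ((i : ℕ) : ZMod q) = ((j : ℕ) : ZMod q) := hij
    rw [ZMod.natCast_eq_natCast_iff] at h1
    have := Nat.ModEq.eq_of_lt_of_lt h1 (lt_of_lt_of_le i.2 hL) (lt_of_lt_of_le j.2 hL)
    exact Fin.ext this
  have hcard : (S.image (fun i : Fin L => ((i : ℕ) : ZMod q))).card = S.card := card_image_of_injOn hinj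
  have hdeg : f.degree < ((S.image (fun i : Fin L => ((i : ℕ) : ZMod q))).card : ℕ) := by
    rw [hcard]
    have h1 : f.degree < ((d + 1 : ℕ) : WithBot ℕ) := by
      rw [Polynomial.degree_lt_iff_coeff_zero]
      intro m hm
      rw [hf, Polynomial.finsetSum_coeff]
      apply sum_eq_zero
      intro j _
      rw [Polynomial.coeff_C_mul_X_pow]
      rw [if_neg]
      have := j.2
      omega
    refine lt_of_lt_of_le h1 ?_
    exact_mod_cast hcon
  have hev : ∀ x ∈ S.image (fun i : Fin L => ((i : ℕ) : ZMod q)), f.eval x = 0 := by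
    intro x hx
    obtain ⟨i, hi, rfl⟩ := mem_image.mp hx
    have h1 : ev p (i : ℕ) = ev p' (i : ℕ) := by
      rw [hS, mem_filter] at hi
      exact hi.2
    rw [hf, Polynomial.eval_finsetSum]
    simp only [Polynomial.eval_mul, Polynomial.eval_C, Polynomial.eval_pow, Polynomial.eval_X, sub_mul,
      sum_sub_distrib]
    unfold ev at h1
    rw [h1, sub_self]
  have hf0 := Polynomial.eq_zero_of_degree_lt_of_eval_finset_eq_zero _ hdeg hev
  ext j
  have h1 : f.coeff (j : ℕ) = p j - p' j := by
    rw [hf, Polynomial.finsetSum_coeff, sum_eq_single j]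
    · rw [Polynomial.coeff_C_mul_X_pow, if_pos rfl]
    · intro k _ hk
      rw [Polynomial.coeff_C_mul_X_pow, if_neg]
      intro h2
      exact hk (Fin.ext h2.symm)
    · simp
  rw [hf0, Polynomial.coeff_zero] at h1
  exact sub_eq_zero.mp h1.symm

theorem card_fun_mem {I G : Type*} [Fintype I] [DecidableEq I] [Fintype G] [DecidableEq G]
    (i : I) (T : Finset G) :
    (univ.filter (fun a : I → G => a i ∈ T)).card * Fintype.card G = T.card * Fintype.card G ^ Fintype.card I := by
  have h1 : univ.filter (fun a : I → G => a i ∈ T) =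
      Fintype.piFinset (fun j => if j = i then T else univ) := by
    ext a
    simp only [mem_filter, mem_univ, true_and, Fintype.mem_piFinset]
    constructor
    · intro h j
      by_cases hj : j = i
      · rw [if_pos hj, hj]; exact h
      · rw [if_neg hj]; exact mem_univ _
    · intro h
      have := h i
      simpa using this
  rw [h1, Fintype.card_piFinset, ← mul_prod_erase univ _ (mem_univ i)]
  simp only [if_pos]
  have h2 : ∏ x ∈ univ.erase i, (if x = i then T else univ : Finset G).card =
      Fintype.card G ^ (Fintype.card I - 1) := by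
    rw [prod_congr rfl (g := fun _ => Fintype.card G)]
    · rw [prod_const, card_erase_of_mem (mem_univ i), card_univ]
    · intro x hx
      rw [if_neg (ne_of_mem_erase hx), card_univ]
  rw [h2]
  have h3 : 0 < Fintype.card I := Fintype.card_pos_iff.mpr ⟨i⟩
  rw [mul_assoc, ← pow_succ]
  congr 2
  omega

/-- the cast of the residues modulo `q` to residues modulo `Q` -/
def cst (q Q : ℕ) (y : ZMod q) : ZMod Q := (y.val : ZMod Q)

theorem cst_inj {q Q : ℕ} [NeZero q] [NeZero Q] (h : q ≤ Q) : Function.Injective (cst q Q) := by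
  intro x y hxy
  unfold cst at hxy
  rw [ZMod.natCast_eq_natCast_iff] at hxy
  have := Nat.ModEq.eq_of_lt_of_lt hxy (lt_of_lt_of_le (ZMod.val_lt x) h) (lt_of_lt_of_le (ZMod.val_lt y) h)
  exact ZMod.val_injective q this

end Pool.Agent.L5helper12.SN
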