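import Pool.Agent.L5helper12.SNCuts
import Pool.Agent.L5helper12.SNPoly

/-!
# Layered families of paths
-/

namespace Pool.Agent.L5helper12.SN

open Finset Relation

set_option linter.unusedSectionVars false

section

variable {V : Type} [Fintype V] [DecidableEq V] {s t : V} {L q Q d : ℕ}

/-- the route through the layered vertices `lam (i, v i)` -/
def lroute (s t : V) (lam : Fin L × ZMod Q ↪ V) (v : Fin L → ZMod Q) : ℕ → V :=
  route s t (fun i => lam (i, v i))

theorem lroute_cases (lam : Fin L × ZMod Q ↪ V) (v : Fin L → ZMod Q) (j : ℕ) (hj : j < L + 2) :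
    (j = 0 ∧ lroute s t lam v j = s) ∨ (j = L + 1 ∧ lroute s t lam v j = t) ∨
      ∃ i : Fin L, j = i + 1 ∧ lroute s t lam v j = lam (i, v i) := by
  unfold lroute
  by_cases h0 : j = 0
  · left; subst h0; exact ⟨rfl, route_zero _ _ _⟩
  by_cases h1 : j = L + 1
  · right; left; subst h1; exact ⟨rfl, route_last _ _ _⟩
  · right; right
    refine ⟨⟨j - 1, by omega⟩, by simp; omega, ?_⟩
    have := route_succ s t (fun i => lam (i, v i)) ⟨j - 1, by omega⟩
    rw [← this]
    congr 1
    simp
    omega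

theorem lroute_injOn (hst : s ≠ t) (lam : Fin L × ZMod Q ↪ V) (hs : ∀ x, lam x ≠ s)
    (ht : ∀ x, lam x ≠ t) (v : Fin L → ZMod Q) : Set.InjOn (lroute s t lam v) (range (L + 2)) := by
  intro j hj j' hj' h
  have hj1 : j < L + 2 := by simpa using hj
  have hj1' : j' < L + 2 := by simpa using hj'
  rcases lroute_cases (s := s) (t := t) lam v j hj1 with ⟨a, b⟩ | ⟨a, b⟩ | ⟨i, a, b⟩ <;>
  rcases lroute_cases (s := s) (t := t) lam v j' hj1' with ⟨a', b'⟩ | ⟨a', b'⟩ | ⟨i', a', b'⟩ <;>
  rw [b, b'] at h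
  · omega
  · exact absurd h hst
  · exact absurd h.symm (hs _)
  · exact absurd h.symm hst
  · omega
  · exact absurd h.symm (ht _)
  · exact absurd h (hs _)
  · exact absurd h (ht _)
  · have := lam.injective h
    have h2 : i = i' := (Prod.ext_iff.mp this).1
    rw [a, a', h2]

theorem lroute_inter (lam : Fin L × ZMod Q ↪ V) (hs : ∀ x, lam x ≠ s) (ht : ∀ x, lam x ≠ t)
    (v v' : Fin L → ZMod Q) :
    (((range (L + 2)).image (lroute s t lam v)) ∩ ((range (L + 2)).image (lroute s t lam v'))).card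
      ≤ 2 + (univ.filter (fun i : Fin L => v i = v' i)).card := by
  have hsub : ((range (L + 2)).image (lroute s t lam v)) ∩ ((range (L + 2)).image (lroute s t lam v')) ⊆
      {s, t} ∪ (univ.filter (fun i : Fin L => v i = v' i)).image (fun i => lam (i, v i)) := by
    intro x hx
    rw [mem_inter, mem_image, mem_image] at hx
    obtain ⟨⟨j, hj, h1⟩, ⟨j', hj', h2⟩⟩ := hx
    rcases lroute_cases (s := s) (t := t) lam v j (by simpa using hj) with ⟨_, b⟩ | ⟨_, b⟩ | ⟨i, _, b⟩
    · rw [← h1, b]; simp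
    · rw [← h1, b]; simp
    · rcases lroute_cases (s := s) (t := t) lam v' j' (by simpa using hj') with ⟨_, b'⟩ | ⟨_, b'⟩ | ⟨i', _, b'⟩
      · rw [← h2, b']; simp
      · rw [← h2, b']; simp
      · have h3 : lam (i, v i) = lam (i', v' i') := by rw [← b, ← b', h1, h2]
        have h4 := lam.injective h3
        have h5 : i = i' := (Prod.ext_iff.mp h4).1
        have h6 : v i = v' i' := (Prod.ext_iff.mp h4).2
        rw [mem_union]; right
        rw [mem_image]
        refine ⟨i, ?_, by rw [← h1, b]⟩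
        simp only [mem_filter, mem_univ, true_and]
        rw [h6, h5]
  refine (card_le_card hsub).trans ((card_union_le _ _).trans ?_)
  have h1 : ({s, t} : Finset V).card ≤ 2 := card_le_two
  have h2 := card_image_le (s := univ.filter (fun i : Fin L => v i = v' i)) (f := fun i => lam (i, v i))
  omega

/-- the arcs of all routes through the chosen slots -/
def slots (s t : V) (lam : Fin L × ZMod Q ↪ V) (ps : (Fin L → ZMod q) → (Fin L → ZMod Q)) : Set (V × V) :=
  {e | ∃ y, e ∈ pathArcs (lroute s t lam (ps y)) L}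

/-- the affine choice of the slots -/
def aff (q : ℕ) (a : Fin L → (ZMod Q)ˣ) (b : Fin L → ZMod Q) (y : Fin L → ZMod q) (i : Fin L) : ZMod Q :=
  (a i : ZMod Q) * cst q Q (y i) + b i

/-- the polynomial functions on the layers -/
def pol {q d : ℕ} (L : ℕ) (p : Fin (d + 1) → ZMod q) (i : Fin L) : ZMod q := ev p ((i : ℕ) : ZMod q)

/-- the layered vertices which are end points of arcs in `D` -/
def ends (lam : Fin L × ZMod Q ↪ V) (D : Finset (V × V)) [NeZero Q] : Finset (Fin L × ZMod Q) :=
  univ.filter (fun x => ∃ e ∈ D, lam x = e.1 ∨ lam x = e.2)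

theorem ends_card [NeZero Q] (lam : Fin L × ZMod Q ↪ V) (D : Finset (V × V)) : (ends lam D).card ≤ 2 * D.card := by
  have h : (ends lam D).map lam ⊆ D.image Prod.fst ∪ D.image Prod.snd := by
    intro x hx
    rw [mem_map] at hx
    obtain ⟨y, hy, rfl⟩ := hx
    rw [ends, mem_filter] at hy
    obtain ⟨_, e, he, h | h⟩ := hy
    · rw [mem_union]; left; rw [mem_image]; exact ⟨e, he, h.symm⟩
    · rw [mem_union]; right; rw [mem_image]; exact ⟨e, he, h.symm⟩
  have h1 := card_le_card h
  rw [card_map] at h1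
  have h2 := card_union_le (D.image Prod.fst) (D.image Prod.snd)
  have h3 := card_image_le (s := D) (f := Prod.fst)
  have h4 := card_image_le (s := D) (f := Prod.snd)
  omega

/-- the bad event: the slots contain an end point, off the path, of an arc in `D` -/
def Bad [NeZero Q] (lam : Fin L × ZMod Q ↪ V) (D : Finset (V × V)) (v : Fin L → ZMod Q)
    (q : ℕ) (a : Fin L → (ZMod Q)ˣ) (b : Fin L → ZMod Q) : Prop :=
  ∃ x ∈ ends lam D, x.2 ≠ v x.1 ∧ ∃ y : ZMod q, x.2 = (a x.1 : ZMod Q) * cst q Q y + b x.1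

theorem avoid_of_not_bad [NeZero Q] (lam : Fin L × ZMod Q ↪ V) (D : Finset (V × V)) (v : Fin L → ZMod Q)
    (a : Fin L → (ZMod Q)ˣ) (b : Fin L → ZMod Q) (h : ¬ Bad lam D v q a b) :
    ∀ e ∈ (D : Set (V × V)), e ∉ pathArcs (lroute s t lam v) L → e ∉ slots s t lam (aff q a b) := by
  intro e he hne hin
  obtain ⟨y, j, hj, hej⟩ := hin
  apply h
  have key : ∀ j', j' < L + 2 → lroute s t lam (aff q a b y) j' ≠ lroute s t lam v j' →
      (lroute s t lam (aff q a b y) j' = e.1 ∨ lroute s t lam (aff q a b y) j' = e.2) →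
      ∃ x ∈ ends lam D, x.2 ≠ v x.1 ∧ ∃ y : ZMod q, x.2 = (a x.1 : ZMod Q) * cst q Q y + b x.1 := by
    intro j' hj' hd hee
    rcases lroute_cases (s := s) (t := t) lam (aff q a b y) j' hj' with ⟨c1, c2⟩ | ⟨c1, c2⟩ | ⟨i, c1, c2⟩
    · exfalso; apply hd; rw [c2, c1]; exact (route_zero _ _ _).symm
    · exfalso; apply hd; rw [c2, c1]; exact (route_last _ _ _).symm
    · refine ⟨(i, aff q a b y i), ?_, ?_, y i, rfl⟩
      · rw [ends, mem_filter]
        refine ⟨mem_univ _, e, he, ?_⟩
        rw [← c2]; exact hee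
      · intro h2
        apply hd
        rw [c2, c1]
        have h2' : aff q a b y i = v i := h2
        rw [h2']
        exact (route_succ s t (fun i => lam (i, v i)) i).symm
  by_cases h1 : lroute s t lam (aff q a b y) j = lroute s t lam v j
  · by_cases h2 : lroute s t lam (aff q a b y) (j + 1) = lroute s t lam v (j + 1)
    · exfalso
      apply hne
      exact ⟨j, hj, by rw [hej, h1, h2]⟩
    · exact key (j + 1) (by omega) h2 (Or.inr (by rw [hej]))
  · exact key j (by omega) h1 (Or.inl (by rw [hej]))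

open Classical in
theorem bad_count [Fact Q.Prime] [Fact q.Prime] (lam : Fin L × ZMod Q ↪ V) (D : Finset (V × V))
    (v : Fin L → ZMod Q) (y₀ : Fin L → ZMod q) (r : ℕ) (hr : D.card ≤ r) (hrq : 4 * r * q ≤ Q - 1) :
    2 * (univ.filter (fun a : Fin L → (ZMod Q)ˣ =>
      Bad lam D v q a (fun i => v i - (a i : ZMod Q) * cst q Q (y₀ i)))).card ≤ (Q - 1) ^ L := by
  have hQ1 : 1 < Q := (Fact.out : Q.Prime).one_lt
  have hU : Fintype.card (ZMod Q)ˣ = Q - 1 := ZMod.card_units Q
  -- the set of the bad values of the unit for one end point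
  let T : Fin L × ZMod Q → Finset (ZMod Q)ˣ := fun x =>
    univ.filter (fun α => x.2 ≠ v x.1 ∧ ∃ y : ZMod q, x.2 = (α : ZMod Q) * cst q Q y +
      (v x.1 - (α : ZMod Q) * cst q Q (y₀ x.1)))
  have hT : ∀ x, (T x).card ≤ q := by
    intro x
    have h1 : (T x).card ≤ (univ : Finset (ZMod q)).card := by
      apply card_le_card_of_injOn (s := T x) (t := (univ : Finset (ZMod q)))
        (fun α : (ZMod Q)ˣ => if h : ∃ y : ZMod q, x.2 = (α : ZMod Q) * cst q Q y +
        (v x.1 - (α : ZMod Q) * cst q Q (y₀ x.1)) then h.choose else (0 : ZMod q))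
      · intro _ _; simp
      · intro α hα β hβ hab
        have hα' := (mem_filter.mp (mem_coe.mp hα)).2
        have hβ' := (mem_filter.mp (mem_coe.mp hβ)).2
        simp only [dif_pos hα'.2, dif_pos hβ'.2] at hab
        have e1 := hα'.2.choose_spec
        have e2 := hβ'.2.choose_spec
        rw [← hab] at e2
        set y := hα'.2.choose with hy
        have e3 : (α : ZMod Q) * (cst q Q y - cst q Q (y₀ x.1)) = x.2 - v x.1 := by
          rw [e1]; ring
        have e4 : (β : ZMod Q) * (cst q Q y - cst q Q (y₀ x.1)) = x.2 - v x.1 := by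
          rw [e2]; ring
        have hne : cst q Q y - cst q Q (y₀ x.1) ≠ 0 := by
          intro h0
          rw [h0, mul_zero] at e3
          exact hα'.1 (sub_eq_zero.mp e3.symm)
        exact Units.ext (mul_right_cancel₀ hne (e3.trans e4.symm))
    rwa [card_univ, ZMod.card] at h1
  have hsub : univ.filter (fun a : Fin L → (ZMod Q)ˣ =>
      Bad lam D v q a (fun i => v i - (a i : ZMod Q) * cst q Q (y₀ i))) ⊆
      (ends lam D).biUnion (fun x => univ.filter (fun a : Fin L → (ZMod Q)ˣ => a x.1 ∈ T x)) := by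
    intro a ha
    rw [mem_filter] at ha
    obtain ⟨x, hx, h1, h2⟩ := ha.2
    rw [mem_biUnion]
    refine ⟨x, hx, ?_⟩
    rw [mem_filter]
    refine ⟨mem_univ _, ?_⟩
    rw [mem_filter]
    exact ⟨mem_univ _, h1, h2⟩
  have h3 : (univ.filter (fun a : Fin L → (ZMod Q)ˣ =>
      Bad lam D v q a (fun i => v i - (a i : ZMod Q) * cst q Q (y₀ i)))).card * (Q - 1) ≤
      2 * r * (q * (Q - 1) ^ L) := by
    calc _ ≤ (∑ x ∈ ends lam D, (univ.filter (fun a : Fin L → (ZMod Q)ˣ => a x.1 ∈ T x)).card) * (Q - 1) := by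
          apply Nat.mul_le_mul_right
          exact (card_le_card hsub).trans card_biUnion_le
      _ = ∑ x ∈ ends lam D, (T x).card * (Q - 1) ^ L := by
          rw [sum_mul]
          apply sum_congr rfl
          intro x _
          have := card_fun_mem (G := (ZMod Q)ˣ) x.1 (T x)
          rw [hU, Fintype.card_fin] at this
          exact this
      _ ≤ ∑ x ∈ ends lam D, q * (Q - 1) ^ L := by
          apply sum_le_sum
          intro x _
          exact Nat.mul_le_mul_right _ (hT x)
      _ = (ends lam D).card * (q * (Q - 1) ^ L) := by rw [sum_const, smul_eq_mul]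
      _ ≤ 2 * r * (q * (Q - 1) ^ L) := by
          apply Nat.mul_le_mul_right
          have := ends_card lam D
          omega
  have h4 : (2 * (univ.filter (fun a : Fin L → (ZMod Q)ˣ =>
      Bad lam D v q a (fun i => v i - (a i : ZMod Q) * cst q Q (y₀ i)))).card) * (Q - 1) ≤
      (Q - 1) ^ L * (Q - 1) := by
    calc _ = 2 * ((univ.filter (fun a : Fin L → (ZMod Q)ˣ =>
      Bad lam D v q a (fun i => v i - (a i : ZMod Q) * cst q Q (y₀ i)))).card * (Q - 1)) := by ring
      _ ≤ 2 * (2 * r * (q * (Q - 1) ^ L)) := Nat.mul_le_mul_left _ h3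
      _ = (4 * r * q) * (Q - 1) ^ L := by ring
      _ ≤ (Q - 1) * (Q - 1) ^ L := Nat.mul_le_mul_right _ hrq
      _ = _ := by ring
  exact Nat.le_of_mul_le_mul_right h4 (by omega)

end

end Pool.Agent.L5helper12.SN
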