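import Pool.Agent.L5helper12.SNNegInfo

/-!
# Networks which accept all paths without negative literals
-/

namespace Pool.Agent.L5helper12.SN

open Finset Relation

theorem mono_lower : ∃ c : ℝ, 0 < c ∧ ∃ κ₀ : ℕ, 2 ≤ κ₀ ∧ ∀ κ : ℕ, κ₀ ≤ κ → ∀ s t : Fin κ, s ≠ t →
    ∀ N : Network (Fin κ), N.Sound s t →
      (∀ (L : ℕ) (u : Fin L ↪ {v : Fin κ // v ≠ s ∧ v ≠ t}),
        N.AcceptsUsing (pathArcs (route s t (fun i => (u i : Fin κ))) L) ∅) →
      (κ : ℝ) ^ (c * Real.log κ) < N.size := by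
  obtain ⟨c, hc, n₀, h⟩ := Pool.Agent.L5helper12.SNNegInfo.result (1 / 8) (1 / 4) 1
    (by norm_num) (by norm_num) (by norm_num) le_rfl
  refine ⟨c, hc, max n₀ (2 ^ 16), le_max_of_le_right (by norm_num), ?_⟩
  intro κ hκ s t hst N hN hacc
  have hκ1 : n₀ ≤ κ := le_trans (le_max_left _ _) hκ
  have hκ2 : 2 ^ 16 ≤ κ := le_trans (le_max_right _ _) hκ
  have hκr : (2 : ℝ) ^ 16 ≤ κ := by exact_mod_cast hκ2
  have hκpos : (0 : ℝ) < κ := by linarith [pow_pos (by norm_num : (0 : ℝ) < 2) 16]
  by_contra hcon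
  push Not at hcon
  -- a length
  have h8 : (4 : ℝ) ≤ (κ : ℝ) ^ (1 / 8 : ℝ) := by
    have h1 : ((2 : ℝ) ^ 16) ^ (1 / 8 : ℝ) = 4 := by
      rw [← Real.rpow_natCast, ← Real.rpow_mul (by norm_num)]
      norm_num
    rw [← h1]
    exact Real.rpow_le_rpow (by norm_num) hκr (by norm_num)
  have h4 : (κ : ℝ) ^ (1 / 4 : ℝ) = (κ : ℝ) ^ (1 / 8 : ℝ) * (κ : ℝ) ^ (1 / 8 : ℝ) := by
    rw [← Real.rpow_add hκpos]
    norm_num
  set L : ℕ := ⌈(κ : ℝ) ^ (1 / 8 : ℝ)⌉₊ with hL
  have hL1 : (κ : ℝ) ^ (1 / 8 : ℝ) ≤ L := Nat.le_ceil _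
  have hL2 : (L : ℝ) ≤ (κ : ℝ) ^ (1 / 4 : ℝ) := by
    have := (Nat.ceil_lt_add_one (a := (κ : ℝ) ^ (1 / 8 : ℝ)) (by positivity)).le
    rw [h4]
    nlinarith
  have key := h κ hκ1 s t hst N hN hcon L hL1 hL2
  have hset : {u : Fin L ↪ {v : Fin κ // v ≠ s ∧ v ≠ t} | ∃ D : Finset (Fin κ × Fin κ),
      (D.card : ℝ) ≤ (κ : ℝ) ^ (1 - 1 : ℝ) ∧
      N.AcceptsUsing (pathArcs (route s t (fun i => (u i : Fin κ))) L) D} = Set.univ := by
    ext u
    simp only [Set.mem_ofPred_eq, Set.mem_univ, iff_true]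
    refine ⟨∅, by simp, ?_⟩
    have := hacc L u
    simpa using this
  rw [hset, Set.ncard_univ] at key
  have hpos : (0 : ℝ) < Nat.card (Fin L ↪ {v : Fin κ // v ≠ s ∧ v ≠ t}) := by
    rw [Nat.card_eq_fintype_card]
    have : Nonempty (Fin L ↪ {v : Fin κ // v ≠ s ∧ v ≠ t}) := by
      apply Function.Embedding.nonempty_of_card_le
      rw [Fintype.card_fin, Fintype.card_subtype]
      have h2 : univ.filter (fun v : Fin κ => v ≠ s ∧ v ≠ t) = (univ.erase s).erase t := by
        ext v; simp [and_comm]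
      rw [h2, card_erase_of_mem (by simp [hst.symm]), card_erase_of_mem (mem_univ _), card_univ,
        Fintype.card_fin]
      have h5 : (L : ℝ) + 2 ≤ κ := by
        have h6 : (κ : ℝ) ^ (1 / 4 : ℝ) * (κ : ℝ) ^ (1 / 4 : ℝ) ≤ κ := by
          rw [← Real.rpow_add hκpos]
          calc (κ : ℝ) ^ ((1 / 4 : ℝ) + 1 / 4) ≤ (κ : ℝ) ^ (1 : ℝ) := by
                apply Real.rpow_le_rpow_of_exponent_le _ (by norm_num)
                linarith [pow_pos (by norm_num : (0 : ℝ) < 2) 16]
            _ = κ := Real.rpow_one _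
        have h7 : (16 : ℝ) ≤ (κ : ℝ) ^ (1 / 4 : ℝ) := by
          rw [h4]; nlinarith
        nlinarith
      have h6 : L + 2 ≤ κ := by exact_mod_cast h5
      omega
    exact_mod_cast Fintype.card_pos
  have hlt : (κ : ℝ) ^ (-(c * Real.log κ)) < 1 := by
    apply Real.rpow_lt_one_of_one_lt_of_neg
    · linarith [pow_le_pow_right₀ (by norm_num : (1 : ℝ) ≤ 2) (by norm_num : 1 ≤ 16)]
    · have : 0 < Real.log κ := Real.log_pos (by linarith [pow_le_pow_right₀ (by norm_num : (1 : ℝ) ≤ 2) (by norm_num : 1 ≤ 16)])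
      have := mul_pos hc this
      linarith
  nlinarith

/-- The negated variables of a network. -/
def Network.negated {V : Type} (N : Network V) : Set (V × V) := {e | ∃ x y, N.contact x y (.neg e)}

/-- the structure used in the reduction -/
structure Embed {V : Type} (P : Set (V × V)) (s t : V) (κ : ℕ) where
  /-- representatives of the classes -/
  a : Fin κ → V
  inj : Function.Injective a
  as : ∀ i, a i ≠ s
  at' : ∀ i, a i ≠ t
  /-- the class of a vertex -/
  f : V → Fin κ
  /-- the connecting vertices -/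
  b : Fin κ → Fin κ → V
  ba : ∀ i j k, b i j ≠ a k
  bs : ∀ i j, b i j ≠ s
  bt : ∀ i j, b i j ≠ t
  fb : ∀ i j, f (b i j) = j
  mem : ∀ i j, (a i, b i j) ∈ P

namespace Embed

variable {V : Type} {P : Set (V × V)} {s t : V} {κ : ℕ} (E : Embed P s t κ) (is it : Fin κ)

/-- the arcs which are always present -/
def C : Set (V × V) := {e | e = (s, E.a is) ∨ e = (E.a it, t) ∨
  ((∀ i, e.1 ≠ E.a i) ∧ e.1 ≠ s ∧ e.1 ≠ t ∧ e.2 = E.a (E.f e.1))}

/-- the digraph on `V` of a digraph on the classes -/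
def G (H : Set (Fin κ × Fin κ)) : Set (V × V) := {e | e ∈ E.C is it ∨ ∃ i j, (i, j) ∈ H ∧ e = (E.a i, E.b i j)}

theorem connected_iff (hst : s ≠ t) (H : Set (Fin κ × Fin κ)) :
    Connected (E.G is it H) s t ↔ Connected H is it := by
  constructor
  · intro h
    have key : ∀ v, ReflTransGen (fun u v => (u, v) ∈ E.G is it H) s v →
        v = s ∨ (∃ i, v = E.a i ∧ Connected H is i) ∨
        ((∀ i, v ≠ E.a i) ∧ v ≠ s ∧ v ≠ t ∧ Connected H is (E.f v)) ∨ (v = t ∧ Connected H is it) := by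
      intro v hv
      induction hv with
      | refl => left; rfl
      | @tail u v _ huv ih =>
        rcases huv with (h1 | h1 | h1) | ⟨i, j, hij, h1⟩
        · right; left
          exact ⟨is, (Prod.ext_iff.mp h1).2, ReflTransGen.refl⟩
        · right; right; right
          refine ⟨(Prod.ext_iff.mp h1).2, ?_⟩
          have hu : u = E.a it := (Prod.ext_iff.mp h1).1
          rcases ih with h2 | ⟨k, h2, h3⟩ | h2 | h2
          · exact absurd (hu.symm.trans h2) (E.as it)
          · rw [hu] at h2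
            rw [E.inj h2]; exact h3
          · exact absurd hu (h2.1 it)
          · exact absurd (hu.symm.trans h2.1) (E.at' it)
        · right; left
          refine ⟨E.f u, h1.2.2.2, ?_⟩
          rcases ih with h2 | ⟨k, h2, h3⟩ | h2 | h2
          · exact absurd h2 h1.2.1
          · exact absurd h2 (h1.1 k)
          · exact h2.2.2.2
          · exact absurd h2.1 h1.2.2.1
        · right; right; left
          have hu : u = E.a i := (Prod.ext_iff.mp h1).1
          have hv : v = E.b i j := (Prod.ext_iff.mp h1).2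
          rw [hv]
          refine ⟨fun k => E.ba i j k, E.bs i j, E.bt i j, ?_⟩
          rw [E.fb]
          rcases ih with h2 | ⟨k, h2, h3⟩ | h2 | h2
          · exact absurd (hu.symm.trans h2) (E.as i)
          · rw [hu] at h2
            rw [← E.inj h2] at h3
            exact h3.tail hij
          · exact absurd hu (h2.1 i)
          · exact absurd (hu.symm.trans h2.1) (E.at' i)
    rcases key t h with h2 | ⟨k, h2, _⟩ | h2 | h2
    · exact absurd h2.symm hst
    · exact absurd h2.symm (E.at' k)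
    · exact absurd rfl h2.2.2.1
    · exact h2.2
  · intro h
    have key : ∀ i, ReflTransGen (fun u v => (u, v) ∈ H) is i →
        ReflTransGen (fun u v => (u, v) ∈ E.G is it H) s (E.a i) := by
      intro i hi
      induction hi with
      | refl => exact ReflTransGen.single (Or.inl (Or.inl rfl))
      | @tail i j _ hij ih =>
        refine (ih.tail (b := E.a i) (c := E.b i j) (Or.inr ⟨i, j, hij, rfl⟩)).tail ?_
        refine Or.inl (Or.inr (Or.inr ⟨fun k => E.ba i j k, E.bs i j, E.bt i j, ?_⟩))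
        simp only [E.fb]
    exact (key it h).tail (Or.inl (Or.inr (Or.inl rfl)))

/-- the contracted network -/
def net (N : Network V) : Network (Fin κ) where
  Node := N.Node
  fin := N.fin
  source := N.source
  target := N.target
  contact x y l := match l with
    | .free => ∃ l', N.contact x y l' ∧ (l' = .free ∨ (∃ e ∈ E.C is it, l' = .pos e) ∨
        ∃ e, e ∉ E.C is it ∧ l' = .neg e)
    | .pos e => N.contact x y (.pos (E.a e.1, E.b e.1 e.2))
    | .neg _ => False

theorem joined_iff (N : Network V) (hP : ∀ e ∈ P, e ∉ N.negated) (H : Set (Fin κ × Fin κ))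
    (D : Set (Fin κ × Fin κ)) (x y : N.Node) :
    (E.net is it N).Joined H D x y ↔ N.Joined (E.G is it H) Set.univ x y := by
  constructor
  · rintro ⟨l, h1, h2, _⟩
    cases l with
    | free =>
      obtain ⟨l', h3, h4⟩ := h1
      refine ⟨l', h3, ?_, fun _ _ => trivial⟩
      rcases h4 with h4 | ⟨e, he, h4⟩ | ⟨e, he, h4⟩
      · rw [h4]; trivial
      · rw [h4]; exact Or.inl he
      · rw [h4]
        rintro (h5 | ⟨i, j, _, h5⟩)
        · exact he h5
        · apply hP _ (E.mem i j)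
          rw [← h5]
          exact ⟨x, y, h4 ▸ h3⟩
    | pos e =>
      exact ⟨_, h1, Or.inr ⟨e.1, e.2, h2, rfl⟩, fun _ _ => trivial⟩
    | neg e => exact absurd h1 (by simp [net])
  · rintro ⟨l, h1, h2, _⟩
    cases l with
    | free => exact ⟨.free, ⟨.free, h1, Or.inl rfl⟩, trivial, by simp⟩
    | pos e =>
      rcases h2 with h2 | ⟨i, j, hij, h2⟩
      · exact ⟨.free, ⟨.pos e, h1, Or.inr (Or.inl ⟨e, h2, rfl⟩)⟩, trivial, by simp⟩
      · refine ⟨.pos (i, j), ?_, hij, by simp⟩
        change N.contact x y (.pos (E.a i, E.b i j))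
        rw [← h2]; exact h1
    | neg e =>
      exact ⟨.free, ⟨.neg e, h1, Or.inr (Or.inr ⟨e, fun h3 => h2 (Or.inl h3), rfl⟩)⟩, trivial, by simp⟩

theorem accepts_iff (N : Network V) (hP : ∀ e ∈ P, e ∉ N.negated) (H : Set (Fin κ × Fin κ))
    (D : Set (Fin κ × Fin κ)) :
    (E.net is it N).AcceptsUsing H D ↔ N.Accepts (E.G is it H) := by
  unfold Network.Accepts Network.AcceptsUsing
  have : (E.net is it N).Joined H D = N.Joined (E.G is it H) Set.univ := by
    funext x y
    exact propext (E.joined_iff is it N hP H D x y)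
  rw [this]
  rfl

end Embed

end Pool.Agent.L5helper12.SN
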