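import Pool.Agent.L5helper12.SNAsym

/-!
# Small switching networks for directed connectivity need much negative information

Polynomial size switching networks decide exactly the languages of nonuniform deterministic logarithmic
space (`L / poly`; undirected connectivity is in `L` by Reingold's theorem), and directed connectivity is
complete for `NL`. So `NL ⊆ L / poly` holds if and only if directed connectivity on `n` vertices has
switching networks with polynomially many nodes. Potechin proved that such networks do not exist if no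
negative literals are allowed: monotone networks have at least `n ^ (c log n)` nodes, and this is sharp
(Savitch). Here the negative literals are unrestricted, and we ask how many of them are needed in order to
accept one input.

Let `N` be any network with at most `n ^ (c log n)` nodes that is sound for directed connectivity from `s`
to `t` (in particular any network that decides it). Choose a random simple path from `s` to `t` with `L`
inner vertices, where `n ^ η ≤ L ≤ n ^ lam`, and consider the digraph that consists of this path. Then,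
with probability at least `1 - n ^ (- c log n)`, the source and the target of `N` are not connected by
closed contacts with at most `n ^ (1 - δ)` different negated variables: `N` has to verify the absence of
more than `n ^ (1 - δ)` arcs (if it accepts this digraph at all), whereas the digraph has only `L + 1` arcs
and the path itself is a certificate without negative information. Here `η, lam > 0` and `2 lam < δ ≤ 1`
are arbitrary, and `c > 0` depends only on them.

For networks of size `n ^ (C log n)` the bound fails totally: there are monotone ones. Networks of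
polynomial size accept all such paths with `n (L + 1)` negated variables (follow the only arc that
leaves the present vertex), so the exponent `1 - δ` is also nearly best possible.
-/

namespace Pool.Agent.L5helper12.SNNegInfo

open Pool.Agent.L5helper12.SN

theorem result : ∀ η lam δ : ℝ, 0 < η → 0 < lam → 2 * lam < δ → δ ≤ 1 →
    ∃ c : ℝ, 0 < c ∧ ∃ n₀ : ℕ, ∀ n : ℕ, n₀ ≤ n → ∀ s t : Fin n, s ≠ t →
      ∀ N : Network (Fin n), N.Sound s t → (N.size : ℝ) ≤ (n : ℝ) ^ (c * Real.log n) →
        ∀ L : ℕ, (n : ℝ) ^ η ≤ L → (L : ℝ) ≤ (n : ℝ) ^ lam →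
          ({u : Fin L ↪ {v : Fin n // v ≠ s ∧ v ≠ t} | ∃ D : Finset (Fin n × Fin n),
              (D.card : ℝ) ≤ (n : ℝ) ^ (1 - δ) ∧
              N.AcceptsUsing (pathArcs (route s t (fun i => (u i : Fin n))) L) D}.ncard : ℝ) ≤
            (n : ℝ) ^ (-(c * Real.log n)) * Nat.card (Fin L ↪ {v : Fin n // v ≠ s ∧ v ≠ t}) := by
  intro η lam δ hη hlam hδ hδ1
  set ε : ℝ := (δ - 2 * lam) / 2 with hε
  have hεpos : 0 < ε := by rw [hε]; linarith
  have hδ' : δ = 2 * lam + 2 * ε := by rw [hε]; ring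
  set c : ℝ := η * ε / 16 with hc
  have hcpos : 0 < c := by rw [hc]; positivity
  -- a bound for the logarithm
  set ℓ₀ : ℝ := 1 + 8 / ε + 4 * (3 + 4 * lam + 3 * ε) / (η * ε) with hℓ₀
  have hℓ₀pos : 0 < ℓ₀ := by rw [hℓ₀]; positivity
  refine ⟨c, hcpos, max 4 ⌈Real.exp ℓ₀⌉₊, ?_⟩
  intro n hn s t hst N hN hsize L hL1 hL2
  have hn4 : 4 ≤ n := le_trans (le_max_left _ _) hn
  have hnexp : Real.exp ℓ₀ ≤ n := by
    have h1 : ⌈Real.exp ℓ₀⌉₊ ≤ n := le_trans (le_max_right _ _) hn
    exact (Nat.le_ceil _).trans (by exact_mod_cast h1)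
  have hn0 : (0 : ℝ) < n := lt_of_lt_of_le (Real.exp_pos _) hnexp
  set ℓ : ℝ := Real.log n with hℓ
  have hℓℓ : ℓ₀ ≤ ℓ := by
    rw [hℓ, Real.le_log_iff_exp_le hn0]; exact hnexp
  have hpow : ∀ x : ℝ, (n : ℝ) ^ x = Real.exp (x * ℓ) := by
    intro x
    rw [Real.rpow_def_of_pos hn0, hℓ, mul_comm]
  have h8 : 8 ≤ ε * ℓ := by
    have h1 : 8 / ε ≤ ℓ := by
      refine le_trans ?_ hℓℓ
      rw [hℓ₀]
      have : 0 < 4 * (3 + 4 * lam + 3 * ε) / (η * ε) := by positivity
      linarith
    rw [div_le_iff₀ hεpos] at h1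
    linarith
  have h1ℓ : 1 ≤ ℓ := by
    refine le_trans ?_ hℓℓ
    rw [hℓ₀]
    have : 0 < 4 * (3 + 4 * lam + 3 * ε) / (η * ε) := by positivity
    have : 0 < 8 / ε := by positivity
    linarith
  have h3 : 3 + 4 * lam + 3 * ε ≤ η * ε * ℓ / 4 := by
    have h1 : 4 * (3 + 4 * lam + 3 * ε) / (η * ε) ≤ ℓ := by
      refine le_trans ?_ hℓℓ
      rw [hℓ₀]
      have : 0 < 8 / ε := by positivity
      linarith
    rw [div_le_iff₀ (by positivity)] at h1
    linarith
  have h68 : (68 : ℝ) ≤ (n : ℝ) ^ ε := by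
    rw [hpow]
    have h4 : Real.exp 8 ≤ Real.exp (ε * ℓ) := Real.exp_le_exp.mpr h8
    have h5 : Real.exp 8 = Real.exp 1 ^ 8 := by rw [← Real.exp_nat_mul]; norm_num
    have h6 : (2.7 : ℝ) ≤ Real.exp 1 := by
      have := Real.exp_one_gt_d9
      linarith
    calc (68 : ℝ) ≤ 2.7 ^ 8 := by norm_num
      _ ≤ Real.exp 1 ^ 8 := by gcongr
      _ = Real.exp 8 := h5.symm
      _ ≤ _ := h4
  obtain ⟨q, Q, hq, hQ, hLq, hqQ, hrq, hLQ, hqlow⟩ :=
    exists_params lam δ ε hlam hεpos hδ' hδ1 n hn4 h68 L hL2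
  -- the degree
  have hLpos : (1 : ℝ) ≤ L := by
    refine le_trans ?_ hL1
    rw [hpow]
    exact Real.one_le_exp (by positivity)
  have hLlog : η * ℓ ≤ Real.log (L + 1) := by
    have h1 : Real.exp (η * ℓ) ≤ L + 1 := by
      rw [← hpow]; linarith
    rwa [← Real.le_log_iff_exp_le (by positivity)] at h1
  set k : ℕ := Nat.log 2 (L + 1) with hk
  have hk1 : 2 ^ k ≤ L + 1 := Nat.pow_log_le_self 2 (by omega)
  have hk2 : L + 1 < 2 ^ (k + 1) := Nat.lt_pow_succ_log_self (by norm_num) _
  have hk3 : η * ℓ ≤ (k : ℝ) + 1 := by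
    have h1 : ((L : ℝ) + 1) ≤ 2 ^ (k + 1) := by exact_mod_cast hk2.le
    have h2 : Real.log ((L : ℝ) + 1) ≤ (k + 1) * Real.log 2 := by
      calc Real.log ((L : ℝ) + 1) ≤ Real.log (2 ^ (k + 1)) := Real.log_le_log (by positivity) h1
        _ = _ := by rw [Real.log_pow]; push_cast; ring
    have h4 : Real.log 2 ≤ 1 := by
      have := Real.log_two_lt_d9
      linarith
    have h5 : ((k : ℝ) + 1) * Real.log 2 ≤ ((k : ℝ) + 1) * 1 := by gcongr
    linarith
  have hk4 : 3 ≤ k := by
    have h1 : 12 ≤ η * ε * ℓ := by linarith [h3, hlam, hεpos]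
    have h2 : ε ≤ 1 := by rw [hε]; linarith
    have h5 : η * ε * ℓ ≤ η * ℓ := by
      have : 0 ≤ η * ℓ := by positivity
      nlinarith
    have h6 : (11 : ℝ) ≤ k := by linarith
    have : 11 ≤ k := by exact_mod_cast h6
    omega
  obtain ⟨d, hd⟩ : ∃ d, k = d + 3 := ⟨k - 3, by omega⟩
  have hmain := cheap_count (V := Fin n) (s := s) (t := t) (L := L) hq hQ N hst hN
    ⌊(n : ℝ) ^ (1 - δ)⌋₊ d hLq hqQ hrq (by rw [← hd]; exact hk1) (by rw [Fintype.card_fin]; exact hLQ)
  have hfin := final_ineq lam ε η hlam hεpos hη ℓ h1ℓ h8 h3 L N.size q d hLpos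
    (by rw [← hpow]; exact hL2)
    (by
      rw [hd] at hk3
      push_cast at hk3
      linarith)
    (by rw [← hpow]; exact hqlow) (by positivity)
    (by
      have : (n : ℝ) ^ (c * ℓ) = Real.exp (η * ε / 16 * ℓ ^ 2) := by
        rw [hpow, hc]; ring_nf
      rw [← this]; exact hsize)
  have hset : {u : Fin L ↪ {v : Fin n // v ≠ s ∧ v ≠ t} | ∃ D : Finset (Fin n × Fin n),
      (D.card : ℝ) ≤ (n : ℝ) ^ (1 - δ) ∧
      N.AcceptsUsing (pathArcs (route s t (fun i => (u i : Fin n))) L) D} =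
      {u : Fin L ↪ {v : Fin n // v ≠ s ∧ v ≠ t} | Cheap N s t ⌊(n : ℝ) ^ (1 - δ)⌋₊ (fun i => (u i : Fin n))} := by
    ext u
    simp only [Set.mem_ofPred_eq, Cheap]
    constructor
    · rintro ⟨D, h1, h2⟩
      exact ⟨D, Nat.le_floor h1, h2⟩
    · rintro ⟨D, h1, h2⟩
      exact ⟨D, (by exact_mod_cast h1 : (D.card : ℝ) ≤ (⌊(n : ℝ) ^ (1 - δ)⌋₊ : ℝ)).trans
        (Nat.floor_le (by positivity)), h2⟩
  classical
  rw [hset, Set.ncard_eq_toFinset_card', Nat.card_eq_fintype_card]
  have hfil : ({u : Fin L ↪ {v : Fin n // v ≠ s ∧ v ≠ t} |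
      Cheap N s t ⌊(n : ℝ) ^ (1 - δ)⌋₊ (fun i => (u i : Fin n))}).toFinset =
      Finset.univ.filter (fun u : Fin L ↪ {v : Fin n // v ≠ s ∧ v ≠ t} =>
        Cheap N s t ⌊(n : ℝ) ^ (1 - δ)⌋₊ (fun i => (u i : Fin n))) := by
    ext u; simp
  rw [hfil]
  have hqpos : (0 : ℝ) < (q : ℝ) ^ (d + 1) := by
    have : (0 : ℝ) < q := by exact_mod_cast hq.pos
    positivity
  have hexp : (n : ℝ) ^ (-(c * ℓ)) = Real.exp (-(η * ε / 16 * ℓ ^ 2)) := by
    rw [hpow, hc]; ring_nf
  rw [hexp]
  refine le_of_mul_le_mul_right ?_ hqpos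
  refine le_trans (le_of_eq ?_) (hmain.trans ?_)
  · congr
  · calc _ = (Fintype.card (Fin L ↪ {v : Fin n // v ≠ s ∧ v ≠ t}) : ℝ) *
        (2 * (4 * (N.size : ℝ) ^ 3 * (L + 1) * (9 * (L + 2) + 1) ^ (d + 4))) := by
          push_cast; ring
      _ ≤ (Fintype.card (Fin L ↪ {v : Fin n // v ≠ s ∧ v ≠ t}) : ℝ) *
        (Real.exp (-(η * ε / 16 * ℓ ^ 2)) * (q : ℝ) ^ (d + 1)) := by
          gcongr
      _ = _ := by ring

end Pool.Agent.L5helper12.SNNegInfo
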