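import Mathlib

/-!
# Reversible pebbling of a directed path

The pebbles stand on positions above the source `a`. A pebble may be put on or removed from `j + 1`
if `j` is the source or carries a pebble. With at most `m` pebbles on the path no position at distance
`2 ^ m` or more from the source can be reached from the empty configuration.
-/

namespace Pool.Agent.L5helper12.SN

open Finset Relation

/-- One move of the reversible pebble game with source `a` and at most `m` pebbles. -/
def Mv (a m : ℕ) (A B : Finset ℕ) : Prop :=
  A.card ≤ m ∧ B.card ≤ m ∧ ∃ j, (j = a ∨ (j ∈ A ∧ j ∈ B)) ∧ (B = insert (j + 1) A ∨ A = insert (j + 1) B)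

theorem Mv.symm {a m : ℕ} {A B : Finset ℕ} (h : Mv a m A B) : Mv a m B A := by
  obtain ⟨h1, h2, j, hj, h3⟩ := h
  exact ⟨h2, h1, j, hj.imp_right And.symm, h3.symm⟩

theorem reach_symm {a m : ℕ} {A B : Finset ℕ} (h : ReflTransGen (Mv a m) A B) :
    ReflTransGen (Mv a m) B A := by
  induction h with
  | refl => exact .refl
  | tail _ h2 ih => exact ReflTransGen.head h2.symm ih

theorem reach_gt {a m : ℕ} {A : Finset ℕ} (h : ReflTransGen (Mv a m) ∅ A) : ∀ x ∈ A, a < x := by
  induction h with
  | refl => simp
  | @tail B C _ h2 ih =>
    obtain ⟨_, _, j, hj, h3⟩ := h2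
    intro x hx
    rcases h3 with h3 | h3
    · rw [h3, mem_insert] at hx
      rcases hx with rfl | hx
      · rcases hj with rfl | hj
        · omega
        · have := ih j hj.1
          omega
      · exact ih x hx
    · exact ih x (h3 ▸ mem_insert_of_mem hx)

/-- the pebbles at distance at most `h` -/
def lft (b : ℕ) (A : Finset ℕ) : Finset ℕ := A.filter (· ≤ b)

/-- the pebbles at distance more than `h` -/
def rgt (b : ℕ) (A : Finset ℕ) : Finset ℕ := A.filter (b < ·)

theorem card_lft_rgt (b : ℕ) (A : Finset ℕ) : (lft b A).card + (rgt b A).card = A.card := by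
  unfold lft rgt
  rw [← Finset.card_filter_add_card_filter_not (s := A) (p := (· ≤ b))]
  congr 2
  ext x
  simp

theorem lft_insert {b j : ℕ} (A : Finset ℕ) (h : j ≤ b) : lft b (insert j A) = insert j (lft b A) := by
  unfold lft
  rw [filter_insert, if_pos h]

theorem lft_insert' {b j : ℕ} (A : Finset ℕ) (h : b < j) : lft b (insert j A) = lft b A := by
  unfold lft
  rw [filter_insert, if_neg (by omega)]

theorem rgt_insert {b j : ℕ} (A : Finset ℕ) (h : b < j) : rgt b (insert j A) = insert j (rgt b A) := by
  unfold rgt
  rw [filter_insert, if_pos h]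

theorem rgt_insert' {b j : ℕ} (A : Finset ℕ) (h : j ≤ b) : rgt b (insert j A) = rgt b A := by
  unfold rgt
  rw [filter_insert, if_neg (by omega)]

theorem reach_lt (m : ℕ) : ∀ (a : ℕ) (A : Finset ℕ), ReflTransGen (Mv a m) ∅ A →
    ∀ x ∈ A, x < a + 2 ^ m := by
  induction m with
  | zero =>
    intro a A h x hx
    have : A.card ≤ 0 := by
      rcases h.cases_tail with h | ⟨B, _, h⟩
      · simp [h]
      · exact h.2.1
    rw [Finset.card_eq_zero.mp (Nat.le_zero.mp this)] at hx
    simp at hx
  | succ m IH =>
    intro a A hA
    have h1 : 1 ≤ 2 ^ m := Nat.one_le_two_pow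
    -- first invariant
    have inv1 : ∀ A, ReflTransGen (Mv a (m + 1)) ∅ A → rgt (a + 2 ^ m) A = ∅ ∨
        ∃ S, a + 2 ^ m ∈ S ∧ ReflTransGen (Mv a m) S (lft (a + 2 ^ m) A) := by
      intro A hA
      induction hA with
      | refl => left; simp [rgt]
      | @tail A B _ h ih =>
        obtain ⟨cA, cB, j, hj, h3⟩ := h
        have kA := card_lft_rgt (a + 2 ^ m) A
        have kB := card_lft_rgt (a + 2 ^ m) B
        by_cases hlr : j + 1 ≤ a + 2 ^ m
        · have hr : rgt (a + 2 ^ m) A = rgt (a + 2 ^ m) B := by
            rcases h3 with h3 | h3
            · rw [h3, rgt_insert' _ hlr]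
            · rw [h3, rgt_insert' _ hlr]
          rcases ih with ih | ⟨S, hS, ih⟩
          · left; rw [← hr, ih]
          · by_cases hne : rgt (a + 2 ^ m) B = ∅
            · left; exact hne
            right
            refine ⟨S, hS, ih.tail ⟨?_, ?_, j, ?_, ?_⟩⟩
            · have := Finset.card_pos.mpr (Finset.nonempty_iff_ne_empty.mpr hne)
              rw [← hr] at this
              omega
            · have := Finset.card_pos.mpr (Finset.nonempty_iff_ne_empty.mpr hne)
              omega
            · rcases hj with hj | hj
              · left; exact hj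
              · right
                simp only [lft, mem_filter]
                exact ⟨⟨hj.1, by omega⟩, hj.2, by omega⟩
            · rcases h3 with h3 | h3
              · left; rw [h3, lft_insert _ hlr]
              · right; rw [h3, lft_insert _ hlr]
        · have hl : lft (a + 2 ^ m) A = lft (a + 2 ^ m) B := by
            rcases h3 with h3 | h3
            · rw [h3, lft_insert' _ (by omega)]
            · rw [h3, lft_insert' _ (by omega)]
          rcases ih with ih | ⟨S, hS, ih⟩
          · by_cases hne : rgt (a + 2 ^ m) B = ∅
            · left; exact hne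
            right
            have hjA : j ∈ A ∧ j ∈ B := by
              rcases hj with hj | hj
              · omega
              · exact hj
            have : j ≤ a + 2 ^ m := by
              by_contra hcon
              have : j ∈ rgt (a + 2 ^ m) A := by
                simp only [rgt, mem_filter]
                exact ⟨hjA.1, by omega⟩
              rw [ih] at this
              simp at this
            have hj' : j = a + 2 ^ m := by omega
            refine ⟨lft (a + 2 ^ m) B, ?_, .refl⟩
            simp only [lft, mem_filter]
            rw [← hj']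
            exact ⟨hjA.2, le_refl _⟩
          · right
            exact ⟨S, hS, hl ▸ ih⟩
    have inv2 : ∀ A, ReflTransGen (Mv a (m + 1)) ∅ A → rgt (a + 2 ^ m) A = ∅ ∨
        (lft (a + 2 ^ m) A).Nonempty := by
      intro A hA
      rcases inv1 A hA with h | ⟨S, hS, h⟩
      · left; exact h
      · right
        rw [Finset.nonempty_iff_ne_empty]
        intro h0
        rw [h0] at h
        have := IH a S (reach_symm h) _ hS
        omega
    have inv3 : ∀ A, ReflTransGen (Mv a (m + 1)) ∅ A → (rgt (a + 2 ^ m) A).card ≤ m := by
      intro A hA
      have hc : A.card ≤ m + 1 := by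
        rcases hA.cases_tail with h | ⟨B, _, h⟩
        · simp [h]
        · exact h.2.1
      have kA := card_lft_rgt (a + 2 ^ m) A
      rcases inv2 A hA with h | h
      · rw [h]; simp
      · have := Finset.card_pos.mpr h
        omega
    have inv4 : ∀ A, ReflTransGen (Mv a (m + 1)) ∅ A →
        ReflTransGen (Mv (a + 2 ^ m) m) ∅ (rgt (a + 2 ^ m) A) := by
      intro A hA
      induction hA with
      | refl => simp [rgt]; exact .refl
      | @tail A B hAA h ih =>
        have cA := inv3 A hAA
        have cB := inv3 B (hAA.tail h)
        obtain ⟨_, _, j, hj, h3⟩ := h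
        by_cases hlr : j + 1 ≤ a + 2 ^ m
        · have hr : rgt (a + 2 ^ m) A = rgt (a + 2 ^ m) B := by
            rcases h3 with h3 | h3
            · rw [h3, rgt_insert' _ hlr]
            · rw [h3, rgt_insert' _ hlr]
          rw [← hr]; exact ih
        · refine ih.tail ⟨cA, cB, j, ?_, ?_⟩
          · by_cases hj' : j = a + 2 ^ m
            · left; exact hj'
            · right
              have hjA : j ∈ A ∧ j ∈ B := by
                rcases hj with hj | hj
                · omega
                · exact hj
              simp only [rgt, mem_filter]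
              exact ⟨⟨hjA.1, by omega⟩, hjA.2, by omega⟩
          · rcases h3 with h3 | h3
            · left; rw [h3, rgt_insert _ (by omega)]
            · right; rw [h3, rgt_insert _ (by omega)]
    intro x hx
    have e : 2 ^ (m + 1) = 2 ^ m + 2 ^ m := by ring
    by_cases hxl : x ≤ a + 2 ^ m
    · omega
    · have := IH (a + 2 ^ m) _ (inv4 A hA) x (by simp only [rgt, mem_filter]; exact ⟨hx, by omega⟩)
      omega

end Pool.Agent.L5helper12.SN
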