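import Pool.Agent.L5helper12.AV
import Pool.Agent.L5helper12.JVa

/-!
# High moments of sums of local functions, and truncation
-/

set_option autoImplicit false

namespace Pool.Agent.L5helper12.TM

open Finset

section tuples
variable {I : Type} [Fintype I] [DecidableEq I]

/-- no value occurs exactly once -/
def Rep {n : ℕ} (s : Fin n → I) : Prop := ∀ k, ∃ l, l ≠ k ∧ s l = s k

instance {n : ℕ} (s : Fin n → I) : Decidable (Rep s) := by unfold Rep; infer_instance

lemma rep_image {k : ℕ} (s : Fin (2 * k) → I) (h : Rep s) : (univ.image s).card ≤ k := by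
  have h1 : ∀ b ∈ univ.image s, 2 ≤ ((univ : Finset (Fin (2 * k))).filter fun a => s a = b).card := by
    intro b hb
    obtain ⟨a, _, rfl⟩ := mem_image.1 hb
    obtain ⟨l, hl, hl2⟩ := h a
    have h3 : ({l, a} : Finset (Fin (2 * k))) ⊆ univ.filter fun x => s x = s a := by
      intro x hx
      rw [mem_insert, mem_singleton] at hx
      rcases hx with rfl | rfl
      · exact mem_filter.2 ⟨mem_univ _, hl2⟩
      · exact mem_filter.2 ⟨mem_univ _, rfl⟩
    calc 2 = ({l, a} : Finset (Fin (2 * k))).card := (card_pair hl).symm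
      _ ≤ _ := card_le_card h3
  have h2 := card_eq_sum_card_image s (univ : Finset (Fin (2 * k)))
  have h3 : (univ.image s).card • 2 ≤ ∑ b ∈ univ.image s, ((univ : Finset (Fin (2 * k))).filter fun a => s a = b).card :=
    card_nsmul_le_sum _ _ _ h1
  rw [← h2, card_univ, Fintype.card_fin, smul_eq_mul] at h3
  omega

lemma rep_card {k : ℕ} (hk : 1 ≤ k) :
    ((univ : Finset (Fin (2 * k) → I)).filter fun s => Rep s).card ≤ k ^ (2 * k) * Fintype.card I ^ k := by
  classical
  have h1 : ((univ : Finset (Fin (2 * k) → I)).filter fun s => Rep s) ⊆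
      (univ : Finset ((Fin (2 * k) → Fin k) × (Fin k → I))).image (fun q => q.2 ∘ q.1) := by
    intro s hs
    have hr : Rep s := (mem_filter.1 hs).2
    have hc := rep_image s hr
    have hne : Nonempty ((univ.image s : Finset I) ↪ Fin k) := by
      rw [Function.Embedding.nonempty_iff_card_le, Fintype.card_coe, Fintype.card_fin]
      exact hc
    obtain ⟨f⟩ := hne
    have hs0 : ∀ j, s j ∈ univ.image s := fun j => mem_image_of_mem _ (mem_univ _)
    have z : Fin (2 * k) := ⟨0, by omega⟩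
    rw [mem_image]
    refine ⟨(fun j => f ⟨s j, hs0 j⟩, Function.extend f (fun x => (x : I)) (fun _ => s z)), mem_univ _, ?_⟩
    funext j
    show Function.extend f (fun x => (x : I)) (fun _ => s z) (f ⟨s j, hs0 j⟩) = s j
    rw [f.injective.extend_apply]
  refine (card_le_card h1).trans (card_image_le.trans ?_)
  rw [card_univ, Fintype.card_prod, Fintype.card_fun, Fintype.card_fun, Fintype.card_fin, Fintype.card_fin]

end tuples

section moments
variable {κ : Type} [Field κ] [Fintype κ] [DecidableEq κ] {D : ℕ} {I : Type} [Fintype I] [DecidableEq I]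

/-- the sums over the members of a family which can be moved independently have small high moments -/
theorem moment_bound (X : I → (Fin D → κ) → ℝ) (L : ℝ) (hL0 : 0 ≤ L) (hL : ∀ i u, |X i u| ≤ L) (k : ℕ) (hk : 1 ≤ k)
    (hdir : ∀ (i : I) (J : Finset I), i ∉ J → J.card + 1 ≤ 2 * k →
      ∃ w : Fin D → κ, (∀ j ∈ J, ∀ (u : Fin D → κ) (t : κ), X j (u + t • w) = X j u) ∧ ∀ u : Fin D → κ, ∑ t : κ, X i (u + t • w) = 0) :
    ∑ u, (∑ i, X i u) ^ (2 * k) ≤ (Fintype.card κ : ℝ) ^ D * ((k : ℝ) ^ (2 * k) * (Fintype.card I : ℝ) ^ k * L ^ (2 * k)) := by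
  have h1 : ∀ u, (∑ i, X i u) ^ (2 * k) = ∑ s : Fin (2 * k) → I, ∏ j, X (s j) u := fun u => Fintype.sum_pow _ _
  rw [sum_congr rfl fun u _ => h1 u, sum_comm]
  have h2 : ∀ s : Fin (2 * k) → I, ∑ u, ∏ j, X (s j) u ≤ if Rep s then (Fintype.card κ : ℝ) ^ D * L ^ (2 * k) else 0 := by
    intro s
    by_cases hs : Rep s
    · rw [if_pos hs]
      have h3 : ∀ u : Fin D → κ, ∏ j, X (s j) u ≤ L ^ (2 * k) := by
        intro u
        refine (le_abs_self _).trans ?_
        rw [abs_prod]
        refine (prod_le_prod (fun _ _ => abs_nonneg _) (fun j _ => hL (s j) u)).trans ?_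
        rw [prod_const, card_univ, Fintype.card_fin]
      refine (sum_le_sum fun u _ => h3 u).trans ?_
      rw [sum_const, card_univ, nsmul_eq_mul, Fintype.card_fun, Fintype.card_fin]
      push_cast
      exact le_rfl
    · rw [if_neg hs]
      unfold Rep at hs
      push Not at hs
      obtain ⟨a, ha⟩ := hs
      obtain ⟨w, hw1, hw2⟩ := hdir (s a) ((univ.erase a).image s) (by
        intro h
        obtain ⟨l, hl, hl2⟩ := mem_image.1 h
        exact ha l (ne_of_mem_erase hl) hl2) (by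
        have h4 : ((univ.erase a).image s).card ≤ (univ.erase a).card := card_image_le
        rw [card_erase_of_mem (mem_univ _), card_univ, Fintype.card_fin] at h4
        omega)
      have h5 := Pool.Agent.L5helper12.JV.shift w (fun u => ∏ j, X (s j) u)
      have h6 : ∀ u : Fin D → κ, ∑ t : κ, ∏ j, X (s j) (u + t • w) = 0 := by
        intro u
        have h7 : ∀ t : κ, ∏ j, X (s j) (u + t • w) = X (s a) (u + t • w) * ∏ j ∈ univ.erase a, X (s j) u := by
          intro t
          rw [← mul_prod_erase univ (fun j => X (s j) (u + t • w)) (mem_univ a)]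
          congr 1
          exact prod_congr rfl fun j hj => hw1 (s j) (mem_image_of_mem _ hj) u t
        rw [sum_congr rfl fun t _ => h7 t, ← sum_mul, hw2 u, zero_mul]
      rw [sum_congr rfl fun u _ => h6 u, sum_const_zero] at h5
      have hc : (Fintype.card κ : ℝ) ≠ 0 := by exact_mod_cast Fintype.card_ne_zero
      exact ((mul_eq_zero.1 h5).resolve_left hc).le
  refine (sum_le_sum fun s _ => h2 s).trans ?_
  rw [← sum_filter, sum_const, nsmul_eq_mul]
  have h8 : (((univ : Finset (Fin (2 * k) → I)).filter fun s => Rep s).card : ℝ) ≤ (k : ℝ) ^ (2 * k) * (Fintype.card I : ℝ) ^ k := by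
    exact_mod_cast rep_card hk
  have h9 : (0 : ℝ) ≤ (Fintype.card κ : ℝ) ^ D * L ^ (2 * k) := by positivity
  calc _ ≤ ((k : ℝ) ^ (2 * k) * (Fintype.card I : ℝ) ^ k) * ((Fintype.card κ : ℝ) ^ D * L ^ (2 * k)) := mul_le_mul_of_nonneg_right h8 h9
    _ = _ := by ring

/-- the first moment vanishes -/
theorem mean_zero (X : I → (Fin D → κ) → ℝ)
    (hdir : ∀ (i : I), ∃ w : Fin D → κ, ∀ u : Fin D → κ, ∑ t : κ, X i (u + t • w) = 0) : ∑ u, ∑ i, X i u = 0 := by
  rw [sum_comm]
  refine sum_eq_zero fun i _ => ?_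
  obtain ⟨w, hw⟩ := hdir i
  have h5 := Pool.Agent.L5helper12.JV.shift w (fun u => X i u)
  rw [sum_congr rfl fun u _ => hw u, sum_const_zero] at h5
  have hc : (Fintype.card κ : ℝ) ≠ 0 := by exact_mod_cast Fintype.card_ne_zero
  exact (mul_eq_zero.1 h5).resolve_left hc

/-- the number of the vectors with a property which has at most `c` members on each line in the direction `w` -/
theorem line_count (P : (Fin D → κ) → Prop) [DecidablePred P] (w : Fin D → κ) (c : ℕ)
    (h : ∀ u : Fin D → κ, ((univ : Finset κ).filter fun t => P (u + t • w)).card ≤ c) :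
    (Fintype.card κ : ℝ) * ((univ : Finset (Fin D → κ)).filter P).card ≤ c * (Fintype.card κ : ℝ) ^ D := by
  have h1 := Pool.Agent.L5helper12.JV.shift w (fun u => if P u then (1 : ℝ) else 0)
  have h2 : ∑ u, (if P u then (1 : ℝ) else 0) = ((univ : Finset (Fin D → κ)).filter P).card := by
    rw [← sum_filter, sum_const, nsmul_eq_mul, mul_one]
  rw [h2] at h1
  rw [h1]
  refine (sum_le_sum (g := fun _ => (c : ℝ)) fun u _ => ?_).trans ?_
  · rw [← sum_filter, sum_const, nsmul_eq_mul, mul_one]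
    exact_mod_cast h u
  · rw [sum_const, card_univ, nsmul_eq_mul, Fintype.card_fun, Fintype.card_fin]
    push_cast
    rw [mul_comm]

end moments

section trunc

/-- the local function: truncated normalised trace at the good places -/
noncomputable def Fv {D : ℕ} (Good : ∀ (κ : Type) [Field κ], (Fin D → κ) → Prop) (τ : ∀ (κ : Type) [Field κ], (Fin D → κ) → ℝ) (M η : ℝ)
    (κ : Type) [Field κ] (u : Fin D → κ) : ℝ := by
  classical
  exact if Good κ u then (M + if |τ κ u| ≤ (Nat.card κ : ℝ) ^ η then τ κ u else 0) else 0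

lemma Fv_congr {D : ℕ} (Good : ∀ (κ : Type) [Field κ], (Fin D → κ) → Prop) (τ : ∀ (κ : Type) [Field κ], (Fin D → κ) → ℝ) (M η : ℝ)
    (κ κ' : Type) [Field κ] [Field κ'] (σ : κ ≃+* κ') (u : Fin D → κ)
    (h1 : Good κ' (fun k => σ (u k)) ↔ Good κ u) (h2 : τ κ' (fun k => σ (u k)) = τ κ u) :
    Fv Good τ M η κ' (fun k => σ (u k)) = Fv Good τ M η κ u := by
  classical
  unfold Fv
  rw [h2, Nat.card_congr σ.toEquiv.symm]
  by_cases h : Good κ u
  · rw [if_pos h, if_pos (h1.2 h)]
  · rw [if_neg h, if_neg (fun h' => h (h1.1 h'))]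

lemma Fv_bound {D : ℕ} (Good : ∀ (κ : Type) [Field κ], (Fin D → κ) → Prop) (τ : ∀ (κ : Type) [Field κ], (Fin D → κ) → ℝ) (M η : ℝ)
    (hη : 0 ≤ η) (κ : Type) [Field κ] [Finite κ] (u : Fin D → κ) :
    |Fv Good τ M η κ u| ≤ (|M| + 1) * (Nat.card κ : ℝ) ^ η := by
  classical
  have hc : (1 : ℝ) ≤ Nat.card κ := by exact_mod_cast Nat.card_pos
  have h1 : (1 : ℝ) ≤ (Nat.card κ : ℝ) ^ η := Real.one_le_rpow hc hη
  have h2 : |M| ≤ |M| * (Nat.card κ : ℝ) ^ η := le_mul_of_one_le_right (abs_nonneg _) h1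
  unfold Fv
  split_ifs with h3 h4
  · refine (abs_add_le _ _).trans ?_
    rw [add_mul, one_mul]
    exact add_le_add h2 h4
  · rw [add_zero, add_mul, one_mul]
    linarith
  · rw [abs_zero]
    positivity

/-- truncation of a function with bounded high moments -/
theorem trunc_mean (p : ℕ) [hp : Fact p.Prime] {D : ℕ} (Good : ∀ (κ : Type) [Field κ], (Fin D → κ) → Prop)
    (τ : ∀ (κ : Type) [Field κ], (Fin D → κ) → ℝ) (M C1 C2 C3 : ℝ) (k : ℕ) (hk : 1 ≤ k)
    (h1 : |∑ u : Fin D → ZMod p, τ (ZMod p) u| ≤ C1 * (p : ℝ) ^ D / Real.sqrt p)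
    (h2 : ∑ u : Fin D → ZMod p, (τ (ZMod p) u) ^ (2 * k) ≤ C2 * (p : ℝ) ^ D)
    (h3 : (Nat.card {u : Fin D → ZMod p // ¬ Good (ZMod p) u} : ℝ) * p ≤ C3 * (p : ℝ) ^ D) (η : ℝ) (hη : η = 1 / (2 * (2 * (k : ℝ) - 1))) :
    |(∑ u : Fin D → ZMod p, Fv Good τ M η (ZMod p) u) / (p : ℝ) ^ D - M| ≤ (C1 + 2 * C2 + 1 + (1 + |M|) * C3) / Real.sqrt p := by
  classical
  have hp1 : (1 : ℝ) ≤ p := by exact_mod_cast hp.out.one_lt.le
  have hp0 : (0 : ℝ) < p := by linarith
  obtain ⟨s, hs⟩ : ∃ s, s = Real.sqrt (p : ℝ) := ⟨_, rfl⟩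
  have hs1 : 1 ≤ s := by rw [hs]; exact Real.one_le_sqrt.2 hp1
  have hs0 : 0 < s := by linarith
  have hss : s * s = p := by rw [hs]; exact Real.mul_self_sqrt hp0.le
  have hP : (0 : ℝ) < (p : ℝ) ^ D := by positivity
  have hk1 : (1 : ℝ) ≤ k := by exact_mod_cast hk
  have h2k : (0 : ℝ) < 2 * (k : ℝ) - 1 := by linarith
  have hη0 : 0 < η := by rw [hη]; positivity
  obtain ⟨Z, hZ⟩ : ∃ Z, Z = (p : ℝ) ^ η := ⟨_, rfl⟩
  have hZ1 : 1 ≤ Z := by rw [hZ]; exact Real.one_le_rpow hp1 hη0.le
  have hZ0 : 0 < Z := by linarith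
  have hZk : Z ^ (2 * k - 1) = s := by
    rw [hZ, hs, Real.sqrt_eq_rpow, ← Real.rpow_natCast, ← Real.rpow_mul hp0.le]
    congr 1
    rw [hη, Nat.cast_sub (by omega)]
    push_cast
    field_simp
  -- the error at one vector
  have herr : ∀ u : Fin D → ZMod p, |Fv Good τ M η (ZMod p) u - M - τ (ZMod p) u| ≤
      (1 / s) * (τ (ZMod p) u) ^ (2 * k) + (1 / s) * (1 + (τ (ZMod p) u) ^ (2 * k)) + (if Good (ZMod p) u then 0 else (1 + |M|) * s) := by
    intro u
    obtain ⟨t, ht⟩ : ∃ t, t = τ (ZMod p) u := ⟨_, rfl⟩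
    have hteven : 0 ≤ t ^ (2 * k) := by
      rw [pow_mul]
      positivity
    have hsq : t ^ 2 ≤ 1 + t ^ (2 * k) := by
      rcases le_or_gt (t ^ 2) 1 with h | h
      · linarith
      · rw [pow_mul]
        have : t ^ 2 ≤ (t ^ 2) ^ k := le_self_pow₀ h.le (by omega)
        linarith
    have hsinv : 0 ≤ 1 / s := by positivity
    unfold Fv
    rw [← ht]
    have hcard : (Nat.card (ZMod p) : ℝ) ^ η = Z := by rw [Nat.card_zmod, hZ]
    rw [hcard]
    by_cases hg : Good (ZMod p) u
    · rw [if_pos hg, if_pos hg, add_zero]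
      by_cases htr : |t| ≤ Z
      · rw [if_pos htr]
        have : M + t - M - t = 0 := by ring
        rw [this, abs_zero]
        positivity
      · rw [if_neg htr]
        have e1 : M + 0 - M - t = -t := by ring
        rw [e1, abs_neg]
        have e2 : Z ≤ |t| := (not_le.1 htr).le
        have e3 : s ≤ |t| ^ (2 * k - 1) := by
          rw [← hZk]
          exact pow_le_pow_left₀ hZ0.le e2 _
        have e4 : |t| * s ≤ t ^ (2 * k) := by
          have e5 : t ^ (2 * k) = |t| * |t| ^ (2 * k - 1) := by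
            rw [← pow_succ', show 2 * k - 1 + 1 = 2 * k by omega, pow_mul, pow_mul, sq_abs]
          rw [e5]
          exact mul_le_mul_of_nonneg_left e3 (abs_nonneg _)
        have e6 : |t| ≤ 1 / s * t ^ (2 * k) := by
          rw [one_div, inv_mul_eq_div, le_div_iff₀ hs0]
          exact e4
        have e7 : 0 ≤ 1 / s * (1 + t ^ (2 * k)) := by positivity
        linarith
    · rw [if_neg hg, if_neg hg]
      have e1 : |0 - M - t| ≤ |M| + |t| := by
        rw [zero_sub]
        have := abs_sub (-M) t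
        rwa [abs_neg] at this
      have e2 : |t| ≤ (1 / s) * t ^ 2 + s := by
        have e3 : 0 ≤ (|t| - s) ^ 2 := sq_nonneg _
        have e4 : |t| * s ≤ t ^ 2 + s * s := by
          have := sq_abs t
          nlinarith
        rw [one_div, inv_mul_eq_div, ← sub_nonneg]
        have e5 : t ^ 2 / s + s - |t| = (t ^ 2 + s * s - |t| * s) / s := by field_simp
        rw [e5]
        exact div_nonneg (by linarith) hs0.le
      have e3 : (1 / s) * t ^ 2 ≤ (1 / s) * (1 + t ^ (2 * k)) := mul_le_mul_of_nonneg_left hsq hsinv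
      have e4 : |M| ≤ |M| * s := le_mul_of_one_le_right (abs_nonneg _) hs1
      have e5 : 0 ≤ 1 / s * t ^ (2 * k) := by positivity
      calc |0 - M - t| ≤ |M| + |t| := e1
        _ ≤ |M| * s + ((1 / s) * (1 + t ^ (2 * k)) + s) := by linarith
        _ ≤ _ := by linarith
  -- the sum
  have hbad : ∑ u : Fin D → ZMod p, (if Good (ZMod p) u then (0 : ℝ) else (1 + |M|) * s) ≤ (1 + |M|) * C3 * (p : ℝ) ^ D / s := by
    have e1 : ∑ u : Fin D → ZMod p, (if Good (ZMod p) u then (0 : ℝ) else (1 + |M|) * s) =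
        (Nat.card {u : Fin D → ZMod p // ¬ Good (ZMod p) u} : ℝ) * ((1 + |M|) * s) := by
      rw [Nat.card_eq_fintype_card, Fintype.card_subtype, ← nsmul_eq_mul, ← sum_const, sum_filter]
      refine sum_congr rfl fun u _ => ?_
      by_cases hg : Good (ZMod p) u
      · rw [if_pos hg, if_neg (not_not.2 hg)]
      · rw [if_neg hg, if_pos hg]
    rw [e1, le_div_iff₀ hs0]
    calc (Nat.card {u : Fin D → ZMod p // ¬ Good (ZMod p) u} : ℝ) * ((1 + |M|) * s) * s =
        (1 + |M|) * ((Nat.card {u : Fin D → ZMod p // ¬ Good (ZMod p) u} : ℝ) * (s * s)) := by ring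
      _ ≤ (1 + |M|) * (C3 * (p : ℝ) ^ D) := by
        rw [hss]
        exact mul_le_mul_of_nonneg_left h3 (by positivity)
      _ = _ := by ring
  have htot : |∑ u : Fin D → ZMod p, (Fv Good τ M η (ZMod p) u - M - τ (ZMod p) u)| ≤
      (2 * C2 + 1 + (1 + |M|) * C3) * (p : ℝ) ^ D / s := by
    refine (abs_sum_le_sum_abs _ _).trans ((sum_le_sum fun u _ => herr u).trans ?_)
    rw [sum_add_distrib, sum_add_distrib, ← mul_sum, ← mul_sum, sum_add_distrib, sum_const, card_univ, nsmul_eq_mul, Fintype.card_fun,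
      ZMod.card, Fintype.card_fin]
    have e1 : (0 : ℝ) ≤ 1 / s := by positivity
    have e2 := mul_le_mul_of_nonneg_left h2 e1
    push_cast
    calc _ ≤ 1 / s * (C2 * (p : ℝ) ^ D) + 1 / s * ((p : ℝ) ^ D * 1 + C2 * (p : ℝ) ^ D) + (1 + |M|) * C3 * (p : ℝ) ^ D / s := by
          have e3 := mul_le_mul_of_nonneg_left (add_le_add_left h2 ((p : ℝ) ^ D * 1)) e1
          exact add_le_add (add_le_add e2 (by simpa [add_comm] using e3)) hbad
      _ = _ := by ring
  have hfin : (∑ u : Fin D → ZMod p, Fv Good τ M η (ZMod p) u) / (p : ℝ) ^ D - M =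
      ((∑ u : Fin D → ZMod p, (Fv Good τ M η (ZMod p) u - M - τ (ZMod p) u)) + ∑ u : Fin D → ZMod p, τ (ZMod p) u) / (p : ℝ) ^ D := by
    rw [← sum_add_distrib]
    have e1 : ∀ u : Fin D → ZMod p, Fv Good τ M η (ZMod p) u - M - τ (ZMod p) u + τ (ZMod p) u = Fv Good τ M η (ZMod p) u - M := fun u => by ring
    rw [sum_congr rfl fun u _ => e1 u, sum_sub_distrib, sum_const, card_univ, nsmul_eq_mul, Fintype.card_fun, ZMod.card, Fintype.card_fin]
    push_cast
    field_simp
  rw [hfin, abs_div, abs_of_pos hP, div_le_iff₀ hP]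
  refine (abs_add_le _ _).trans ((add_le_add htot h1).trans ?_)
  rw [← hs]
  apply le_of_eq
  field_simp
  ring

end trunc

end Pool.Agent.L5helper12.TM
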