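import Pool.Agent.R341.Uni17

/-!
# Closedness of all level sets of the smallest univoque base function, part A

Weakly univoque sequences, and the lexicographic conditions.
-/

set_option autoImplicit false

namespace Pool.Agent.L5helper12.Uni

open Filter Topology
open Pool.Agent.R341.Uni

lemma WU_sh {q : ℝ} {d : ℕ → Bool} (h : WU q d) (m : ℕ) : WU q (sh m d) := by
  intro n
  have := h (m + n)
  rw [sh_sh, sh_apply, show m + (n + 1) = m + n + 1 by ring]
  exact this

lemma WU_lt {q : ℝ} (hq : 1 < q) (hq2 : q < 2) {d e : ℕ → Bool} (hd : WU q d) (he : WU q e)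
    (h : Lt d e) : P q d < P q e := by
  obtain ⟨p, h1, h2, h3⟩ := h
  have h0 := diff_eq hq h1
  have h4 := (hd p).1 h2
  have h5 := (he p).2 h3
  have h6 : 0 < 1 / (q - 1) - 1 := by
    have : 1 < 1 / (q - 1) := by rw [lt_div_iff₀ (by linarith)]; linarith
    linarith
  have h7 : 0 < P q (sh p e) - P q (sh p d) := by
    rw [P_succ hq (sh p e), P_succ hq (sh p d), sh_sh, sh_sh, sh_apply, sh_apply, add_zero, h2, h3,
      ← sub_div]
    apply div_pos _ (by linarith)
    simp only [dg_true, dg_false]
    linarith
  have h8 : 0 < (P q (sh p e) - P q (sh p d)) / q ^ p := div_pos h7 (by positivity)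
  linarith

/-- the case of the digit `0` -/
lemma kp_aux {q : ℝ} (hq : 1 < q) (hq2 : q < 2) {t : ℕ → Bool} (ht : t 0 = false)
    (h1 : P q (sh 1 t) = 1) (hU : WU q (sh 1 t)) {c : ℕ → Bool} (hc : WU q c)
    (hc0 : c 0 = false) (hle : P q (sh 1 c) ≤ 1) :
    (Kp t c ∧ P q (sh 1 c) < 1) ∨ (sh 1 c = sh 1 t ∧ P q (sh 1 c) = 1) := by
  rcases trich (sh 1 c) (sh 1 t) with h | h | h
  · right; exact ⟨h, by rw [h]; exact h1⟩
  · left
    have hlt := WU_lt hq hq2 (WU_sh hc 1) hU h
    rw [h1] at hlt
    refine ⟨?_, hlt⟩
    obtain ⟨p, hp1, hp2, hp3⟩ := h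
    refine ⟨p + 1, fun i hi => ?_, ?_, ?_⟩
    · rcases Nat.eq_zero_or_pos i with rfl | hi0
      · simp [ht]
      · obtain ⟨i', rfl⟩ : ∃ i', i = i' + 1 := ⟨i - 1, by omega⟩
        have := hp1 i' (by omega)
        simp only [sh_apply] at this
        rw [hc0, Bool.xor_false, add_comm i' 1, this]
    · rw [hc0, Bool.xor_false, add_comm p 1]; exact hp2
    · rw [add_comm p 1]; exact hp3
  · have := WU_lt hq hq2 hU (WU_sh hc 1) h
    linarith

/-- from numerical to lexicographic conditions, weak form -/
lemma kp_or_eq {q : ℝ} (hq : 1 < q) (hq2 : q < 2) {t : ℕ → Bool} (ht : t 0 = false)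
    (h1 : P q (sh 1 t) = 1) (hU : WU q (sh 1 t)) {c : ℕ → Bool} (hc : WU q c) :
    Kp t c ∨ ∀ i, xor (c i) (c 0) = t i := by
  have main : ∀ c : ℕ → Bool, WU q c → c 0 = false → Kp t c ∨ ∀ i, c i = t i := by
    intro c hc hc0
    rcases kp_aux hq hq2 ht h1 hU hc hc0 (by simpa using (hc 0).1 hc0) with h | h
    · exact Or.inl h.1
    · right
      intro i
      rcases Nat.eq_zero_or_pos i with rfl | hi
      · rw [hc0, ht]
      · obtain ⟨i', rfl⟩ : ∃ i', i = i' + 1 := ⟨i - 1, by omega⟩
        have := congrFun h.1 i'
        simp only [sh_apply] at this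
        rw [add_comm i' 1, this]
  cases hc0 : c 0
  · rcases main c hc hc0 with h | h
    · exact Or.inl h
    · exact Or.inr fun i => by rw [Bool.xor_false]; exact h i
  · rcases main (fun i => !c i) (hc.compl hq) (by simp [hc0]) with h | h
    · left
      have := h.compl
      simpa using this
    · right
      intro i
      have := h i
      rw [Bool.xor_true]
      exact this

/-- from numerical to lexicographic conditions, strict form -/
lemma kp_strict {q : ℝ} (hq : 1 < q) (hq2 : q < 2) {t : ℕ → Bool} (ht : t 0 = false)
    (h1 : P q (sh 1 t) = 1) (hU : WU q (sh 1 t)) {c : ℕ → Bool} (hc : WU q c)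
    (h0 : c 0 = false → P q (sh 1 c) < 1)
    (h1' : c 0 = true → 1 / (q - 1) - 1 < P q (sh 1 c)) : Kp t c := by
  cases hc0 : c 0
  · rcases kp_aux hq hq2 ht h1 hU hc hc0 (h0 hc0).le with h | h
    · exact h.1
    · have := h0 hc0
      linarith [h.2]
  · have e : sh 1 (fun i => !c i) = fun i => !(sh 1 c i) := rfl
    have h2 : P q (sh 1 (fun i => !c i)) < 1 := by
      rw [e, P_compl hq]
      have := h1' hc0
      linarith
    rcases kp_aux hq hq2 ht h1 hU (hc.compl hq) (by simp [hc0]) h2.le with h | h
    · have := h.1.compl
      simpa using this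
    · linarith [h.2]

/-- a weak variant of `lexnum` -/
lemma lexnum3 {q : ℝ} (hq : 1 < q) {t c : ℕ → Bool} (ht : t 0 = false)
    (h1 : P q (sh 1 t) ≤ 1)
    (hc : ∀ m, Kp t (sh m c) ∨ ∀ i, xor (c (m + i)) (c m) = t i) : WU q c := by
  have half : ∀ c : ℕ → Bool, (∀ m, Kp t (sh m c) ∨ ∀ i, xor (c (m + i)) (c m) = t i) →
      ∀ n, c n = false → P q (sh (n + 1) c) ≤ P q (sh 1 t) := by
    intro c hc
    have hA : 0 < 1 / (q - 1) := by
      apply one_div_pos.2; linarith
    have aux : ∀ N n, c n = false → P q (sh (n + 1) c) - P q (sh 1 t) ≤ (1 / (q - 1)) / q ^ N := by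
      intro N
      induction N with
      | zero =>
        intro n _
        have := P_le hq (sh (n + 1) c)
        have := P_nonneg hq (sh 1 t)
        simp only [pow_zero, div_one]
        linarith
      | succ N ih =>
        intro n hn
        rcases hc n with hk | hk
        · obtain ⟨k, hk1, hk2, hk3⟩ := hk
          have hk0 : 1 ≤ k := by
            rcases Nat.eq_zero_or_pos k with rfl | h0
            · rw [ht] at hk3; exact absurd hk3 (by decide)
            · exact h0
          obtain ⟨k', rfl⟩ : ∃ k', k = k' + 1 := ⟨k - 1, by omega⟩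
          have hck : c (n + (k' + 1)) = false := by
            simpa [hn] using hk2
          have h := diff_eq hq (d := sh (n + 1) c) (e := sh 1 t) (p := k') (fun i hi => by
            have := hk1 (i + 1) (by omega)
            simp only [sh_apply, add_zero, hn, Bool.xor_false] at this
            simp only [sh_apply]
            rw [show n + 1 + i = n + (i + 1) by ring, this, add_comm 1 i])
          rw [sh_sh, sh_sh, P_succ hq (sh (1 + k') t), P_succ hq (sh (n + 1 + k') c), sh_sh,
            sh_sh, sh_apply, sh_apply, add_zero, add_zero, show 1 + k' = k' + 1 by ring, hk3,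
            show n + 1 + k' = n + (k' + 1) by ring, hck] at h
          simp only [dg_true, dg_false] at h
          have h2 := ih (n + (k' + 1)) hck
          have h3 := P_nonneg hq (sh (k' + 1 + 1) t)
          have e1 : P q (sh (n + 1) c) - P q (sh 1 t) =
              (P q (sh (n + (k' + 1) + 1) c) - 1 - P q (sh (k' + 1 + 1) t)) / q ^ (k' + 1) := by
            have hq0 : q ≠ 0 := by linarith
            rw [pow_succ]
            field_simp at h ⊢
            linarith
          rw [e1]
          have hqk : q ≤ q ^ (k' + 1) := by
            calc q = q ^ 1 := (pow_one q).symm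
              _ ≤ q ^ (k' + 1) := pow_le_pow_right₀ hq.le (by omega)
          rw [div_le_iff₀ (by positivity)]
          calc P q (sh (n + (k' + 1) + 1) c) - 1 - P q (sh (k' + 1 + 1) t) ≤ 1 / (q - 1) / q ^ N := by
                linarith
            _ = 1 / (q - 1) / q ^ (N + 1) * q := by
                have : q ≠ 0 := by linarith
                have : q - 1 ≠ 0 := by linarith
                rw [pow_succ]; field_simp
            _ ≤ 1 / (q - 1) / q ^ (N + 1) * q ^ (k' + 1) :=
                mul_le_mul_of_nonneg_left hqk (by positivity)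
        · have : sh (n + 1) c = sh 1 t := by
            funext i
            have := hk (1 + i)
            rw [hn, Bool.xor_false] at this
            rw [sh_apply, sh_apply, ← this, add_assoc]
          rw [this, sub_self]
          positivity
    intro n hn
    have hlim : Tendsto (fun N : ℕ => (1 / (q - 1)) / q ^ N) atTop (𝓝 0) := by
      have h5 : Tendsto (fun n : ℕ => (1 / (q - 1)) * (1 / q) ^ n) atTop
          (𝓝 ((1 / (q - 1)) * 0)) :=
        (tendsto_pow_atTop_nhds_zero_of_lt_one (by positivity)
          (by rw [div_lt_one (by linarith)]; exact hq)).const_mul _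
      rw [mul_zero] at h5
      refine h5.congr fun n => ?_
      rw [one_div_pow, mul_one_div]
    have := ge_of_tendsto' hlim (fun N => aux N n hn)
    linarith
  intro n
  refine ⟨fun hn => (half c hc n hn).trans h1, fun hn => ?_⟩
  have hcc : ∀ m, Kp t (sh m (fun i => !c i)) ∨ ∀ i, xor (!c (m + i)) (!c m) = t i := by
    intro m
    rcases hc m with h | h
    · exact Or.inl h.compl
    · exact Or.inr fun i => by simpa using h i
  have h2 := half (fun i => !c i) hcc n (by simpa using hn)
  have e : sh (n + 1) (fun i => !c i) = fun i => !(sh (n + 1) c i) := rfl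
  rw [e, P_compl hq] at h2
  linarith

/-- `p` can be flipped from `0` to `1` in `s` -/
def Flip (a s : ℕ → Bool) (p : ℕ) : Prop :=
  s p = false ∧ ∀ i < p, s i = false → (∀ j, i + 1 + j < p → s (i + 1 + j) = a j) →
    a (p - 1 - i) = true

lemma exists_flip {q : ℝ} (hq : 1 < q) (hq2 : q < 2) {a s : ℕ → Bool} (ha : WU q a)
    (ha1 : P q a = 1) (hs : Un q s) : ∀ i, s i = false → ∃ p, i < p ∧ Flip a s p := by
  intro i
  induction i using Nat.strong_induction_on with
  | _ i ih =>
    intro hi
    -- the end of the agreement which starts at `i`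
    have hlt : Lt (sh (i + 1) s) a := by
      rcases trich (sh (i + 1) s) a with h | h | h
      · have := (hs i).1 hi
        rw [h, ha1] at this
        exact absurd this (lt_irrefl _)
      · exact h
      · have := WU_lt hq hq2 ha (WU_sh hs.wu (i + 1)) h
        have h2 := (hs i).1 hi
        linarith
    obtain ⟨k, hk1, hk2, hk3⟩ := hlt
    simp only [sh_apply] at hk1 hk2
    by_cases hfl : Flip a s (i + 1 + k)
    · exact ⟨_, by omega, hfl⟩
    · unfold Flip at hfl
      push Not at hfl
      obtain ⟨i', hi'1, hi'2, hi'3, hi'4⟩ := hfl hk2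
      have hne : i' ≠ i := by
        rintro rfl
        rw [show i' + 1 + k - 1 - i' = k by omega, hk3] at hi'4
        exact absurd rfl hi'4
      rcases Nat.lt_or_ge i' i with h | h
      · obtain ⟨p, hp1, hp2⟩ := ih i' h hi'2
        refine ⟨p, ?_, hp2⟩
        by_contra hcon
        push Not at hcon
        -- the flip at `p` contradicts the agreement at `i'`
        have h5 := hp2.2 i' hp1 hi'2 (fun j hj => hi'3 j (by omega))
        have h6 := hp2.1
        rcases Nat.lt_or_ge p (i + 1 + k) with h7 | h7
        · have h8 := hi'3 (p - 1 - i') (by omega)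
          rw [show i' + 1 + (p - 1 - i') = p by omega, h6, h5] at h8
          exact absurd h8 (by decide)
        · omega
      · exfalso
        have hgt : i < i' := by omega
        obtain ⟨r, rfl⟩ : ∃ r, i' = i + 1 + r := ⟨i' - i - 1, by omega⟩
        have hrk : r < k := by omega
        have har : a r = false := by rw [← hk1 r hrk]; exact hi'2
        have h5 := (ha r).1 har
        have h6 : Lt a (sh (r + 1) a) := by
          refine ⟨k - 1 - r, fun j hj => ?_, ?_, ?_⟩
          · have h7 := hi'3 j (by omega)
            have h8 := hk1 (r + 1 + j) (by omega)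
            rw [sh_apply, ← h8, ← h7]
            congr 1
            ring
          · have : i + 1 + k - 1 - (i + 1 + r) = k - 1 - r := by omega
            rw [this] at hi'4
            simpa using hi'4
          · rw [sh_apply, show r + 1 + (k - 1 - r) = k by omega]; exact hk3
        have h7 := WU_lt hq hq2 ha (WU_sh ha (r + 1)) h6
        linarith

/-- the flipped sequence is weakly univoque -/
lemma flip_wu {q : ℝ} (hq : 1 < q) (hq2 : q < 2) {a s : ℕ → Bool} (ha : WU q a)
    (ha1 : P q a = 1) (hs : Un q s) {p : ℕ} (hp : Flip a s p) :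
    WU q (glue p s (cons true (fun i => !a i))) := by
  set t : ℕ → Bool := cons false a with htdef
  have ht0 : t 0 = false := rfl
  have hsh : sh 1 t = a := sh_cons _ _
  have ht1 : P q (sh 1 t) = 1 := by rw [hsh]; exact ha1
  have htU : WU q (sh 1 t) := by rw [hsh]; exact ha
  have htj : ∀ j, t (j + 1) = a j := fun j => by simp [htdef, cons]
  set s' := glue p s (cons true (fun i => !a i)) with hs'
  have hs'lt : ∀ i, i < p → s' i = s i := fun i hi => glue_lt _ _ hi
  have hs'p : s' p = true := by simp [hs', glue]
  have hs'gt : ∀ i, s' (p + 1 + i) = !a i := fun i => by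
    have h1 : ¬ (p + 1 + i < p) := by omega
    have h2 : p + 1 + i - p = i + 1 := by omega
    simp only [hs', glue, h1, if_false, h2, cons]
    simp
  refine lexnum3 hq ht0 ht1.le fun m => ?_
  rcases Nat.lt_trichotomy m p with hm | hm | hm
  · -- before `p`
    cases hsm : s m
    · -- digit `0`
      have hlt : Lt (sh (m + 1) s) a := by
        rcases trich (sh (m + 1) s) a with h | h | h
        · have := (hs m).1 hsm
          rw [h, ha1] at this
          exact absurd this (lt_irrefl _)
        · exact h
        · have := WU_lt hq hq2 ha (WU_sh hs.wu (m + 1)) h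
          have h2 := (hs m).1 hsm
          linarith
      obtain ⟨k, hk1, hk2, hk3⟩ := hlt
      simp only [sh_apply] at hk1 hk2
      rcases Nat.lt_trichotomy (m + 1 + k) p with h | h | h
      · left
        refine ⟨k + 1, fun i hi => ?_, ?_, ?_⟩
        · simp only [sh_apply, add_zero]
          rw [hs'lt m hm, hsm, Bool.xor_false]
          rcases Nat.eq_zero_or_pos i with rfl | hi0
          · rw [add_zero, hs'lt m hm, hsm, ht0]
          · obtain ⟨i', rfl⟩ : ∃ i', i = i' + 1 := ⟨i - 1, by omega⟩
            rw [hs'lt _ (by omega), htj, ← hk1 i' (by omega)]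
            congr 1; ring
        · simp only [sh_apply, add_zero]
          rw [hs'lt m hm, hsm, Bool.xor_false, hs'lt _ (by omega), ← hk2]
          congr 1; ring
        · rw [htj]; exact hk3
      · -- the agreement continues beyond `p`
        have hag : ∀ i, i ≤ k + 1 → s' (m + i) = t i := by
          intro i hi
          rcases Nat.eq_zero_or_pos i with rfl | hi0
          · rw [add_zero, hs'lt m hm, hsm, ht0]
          · obtain ⟨i', rfl⟩ : ∃ i', i = i' + 1 := ⟨i - 1, by omega⟩
            rcases Nat.lt_or_ge i' k with h5 | h5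
            · rw [hs'lt _ (by omega), htj, ← hk1 i' h5]
              congr 1; ring
            · obtain rfl : i' = k := by omega
              rw [show m + (i' + 1) = p by omega, hs'p, htj, hk3]
        have h5 : WU q (fun i => !(sh (k + 1) a i)) := (WU_sh ha (k + 1)).compl hq
        have h6 := (ha k).2 hk3
        have h7 : P q (fun i => !(sh (k + 1) a i)) ≤ 1 := by rw [P_compl hq]; linarith
        have h8 : (fun i => !(sh (k + 1) a i)) = a ∨ Lt (fun i => !(sh (k + 1) a i)) a := by
          rcases trich (fun i => !(sh (k + 1) a i)) a with h | h | h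
          · exact Or.inl h
          · exact Or.inr h
          · have := WU_lt hq hq2 ha h5 h
            linarith
        rcases h8 with h8 | h8
        · right
          intro i
          rw [hs'lt m hm, hsm, Bool.xor_false]
          rcases Nat.lt_or_ge i (k + 2) with h9 | h9
          · exact hag i (by omega)
          · obtain ⟨j, rfl⟩ : ∃ j, i = k + 2 + j := ⟨i - (k + 2), by omega⟩
            rw [show m + (k + 2 + j) = p + 1 + j by omega, hs'gt,
              show k + 2 + j = k + 1 + j + 1 by ring, htj]
            have := congrFun h8 j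
            simp only [sh_apply] at this
            rw [← this]; simp
        · left
          obtain ⟨j, hj1, hj2, hj3⟩ := h8
          simp only [sh_apply] at hj1 hj2
          refine ⟨k + 2 + j, fun i hi => ?_, ?_, ?_⟩
          · simp only [sh_apply, add_zero]
            rw [hs'lt m hm, hsm, Bool.xor_false]
            rcases Nat.lt_or_ge i (k + 2) with h9 | h9
            · exact hag i (by omega)
            · obtain ⟨j', rfl⟩ : ∃ j', i = k + 2 + j' := ⟨i - (k + 2), by omega⟩
              rw [show m + (k + 2 + j') = p + 1 + j' by omega, hs'gt,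
                show k + 2 + j' = k + 1 + j' + 1 by ring, htj, ← hj1 j' (by omega)]
              simp
          · simp only [sh_apply, add_zero]
            rw [hs'lt m hm, hsm, Bool.xor_false, show m + (k + 2 + j) = p + 1 + j by omega, hs'gt,
              hj3]
            rfl
          · rw [show k + 2 + j = k + 1 + j + 1 by ring, htj]
            simpa using hj2
      · exfalso
        have h5 := hp.2 m hm hsm (fun j hj => hk1 j (by omega))
        have h6 := hk1 (p - 1 - m) (by omega)
        rw [h5, show m + 1 + (p - 1 - m) = p by omega, hp.1] at h6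
        exact absurd h6 (by decide)
    · -- digit `1`
      have hk := kp_strict hq hq2 ht0 ht1 htU (WU_sh hs.wu m) (fun h => by
        rw [sh_apply, add_zero, hsm] at h; exact absurd h (by decide)) (fun _ => by
        rw [sh_sh]; exact (hs m).2 hsm)
      obtain ⟨k, hk1, hk2, hk3⟩ := hk
      simp only [sh_apply, add_zero, hsm, Bool.xor_true] at hk1 hk2
      have hk2' : s (m + k) = true := by simpa using hk2
      left
      rcases Nat.lt_trichotomy (m + k) p with h | h | h
      · refine ⟨k, fun i hi => ?_, ?_, hk3⟩
        · simp only [sh_apply, add_zero]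
          rw [hs'lt m hm, hsm, Bool.xor_true, hs'lt _ (by omega)]
          exact hk1 i hi
        · simp only [sh_apply, add_zero]
          rw [hs'lt m hm, hsm, Bool.xor_true, hs'lt _ (by omega)]
          exact hk2
      · rw [h, hp.1] at hk2'
        exact absurd hk2' (by decide)
      · refine ⟨p - m, fun i hi => ?_, ?_, ?_⟩
        · simp only [sh_apply, add_zero]
          rw [hs'lt m hm, hsm, Bool.xor_true, hs'lt _ (by omega)]
          exact hk1 i (by omega)
        · simp only [sh_apply, add_zero]
          rw [hs'lt m hm, hsm, Bool.xor_true, show m + (p - m) = p by omega, hs'p]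
          rfl
        · rw [← hk1 (p - m) (by omega), show m + (p - m) = p by omega, hp.1]
          rfl
  · subst hm
    right
    intro i
    rw [hs'p, Bool.xor_true]
    rcases Nat.eq_zero_or_pos i with rfl | hi0
    · rw [add_zero, hs'p, ht0]; rfl
    · obtain ⟨i', rfl⟩ : ∃ i', i = i' + 1 := ⟨i - 1, by omega⟩
      rw [show m + (i' + 1) = m + 1 + i' by ring, hs'gt, htj]
      simp
  · obtain ⟨j, rfl⟩ : ∃ j, m = p + 1 + j := ⟨m - (p + 1), by omega⟩
    have h5 : ∀ i, s' (p + 1 + j + i) = !a (j + i) := fun i => by
      rw [add_assoc (p + 1) j i]; exact hs'gt _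
    have h6 := kp_or_eq hq hq2 ht0 ht1 htU (WU_sh (ha.compl hq) j)
    have e : sh (p + 1 + j) s' = sh j (fun i => !a i) := by
      funext i
      rw [sh_apply, sh_apply, h5]
    rw [e]
    rcases h6 with h6 | h6
    · exact Or.inl h6
    · right
      intro i
      have := h6 i
      simp only [sh_apply, add_zero] at this
      rw [← this, h5, hs'gt]

end Pool.Agent.L5helper12.Uni
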