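import Pool.Agent.L5helper12.UniA

/-!
# Closedness of all level sets of the smallest univoque base function, part B

Approximation from the left by periodic sequences.
-/

set_option autoImplicit false

namespace Pool.Agent.L5helper12.Uni

open Filter Topology
open Pool.Agent.R341.Uni

/-- weakly admissible sequences -/
def WAdm (t : ℕ → Bool) : Prop :=
  t 0 = false ∧ (∀ m, 1 ≤ m → (Kp t (sh m t) ∨ (t m = false ∧ ∀ i, t (m + i) = t i))) ∧
    ∃ n, t n = true

lemma WAdm.first {t : ℕ → Bool} (h : WAdm t) {o : ℕ} (ho : 1 ≤ o) (hto : t o = true) :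
    ∃ k, 1 ≤ k ∧ (∀ i < k, xor (t (o + i)) (t o) = t i) ∧ xor (t (o + k)) (t o) = false ∧
      t k = true ∧ (∀ j, Dif t o j → k ≤ j) := by
  obtain ⟨k, h1, h2, h3⟩ : Kp t (sh o t) := by
    rcases h.2.1 o ho with h1 | h1
    · exact h1
    · rw [hto] at h1; exact absurd h1.1 (by decide)
  simp only [sh_apply, add_zero] at h1 h2
  refine ⟨k, ?_, h1, h2, h3, fun j hj => ?_⟩
  · rcases Nat.eq_zero_or_pos k with rfl | h0
    · rw [h.1] at h3; exact absurd h3 (by decide)
    · exact h0
  · by_contra hlt
    exact hj (h1 j (by omega))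

/-- a shift of `t` at a `0` is not larger than `t` -/
lemma WAdm.shift {t : ℕ → Bool} (h : WAdm t) {o : ℕ} (ho : 1 ≤ o) (hto : t o = false) {r : ℕ}
    (hr : ∀ i < r, t (o + i) = t i) (hr1 : t (o + r) = true) : t r = true := by
  rcases h.2.1 o ho with h1 | h1
  · obtain ⟨k, h1, h2, h3⟩ := h1
    simp only [sh_apply, add_zero, hto, Bool.xor_false] at h1 h2
    rcases Nat.lt_trichotomy r k with h4 | h4 | h4
    · rw [← h1 r h4]; exact hr1
    · rw [h4]; exact h3
    · have := hr k h4
      rw [h2, h3] at this
      exact absurd this (by decide)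
  · rw [← h1.2 r]; exact hr1

lemma WAdm.inf {t : ℕ → Bool} (h : WAdm t) (m : ℕ) : ∃ n, m ≤ n ∧ t n = true := by
  by_contra hc
  push Not at hc
  have hc' : ∀ n, m ≤ n → t n = false := fun n hn => by simpa using hc n hn
  obtain ⟨n0, hn0⟩ := h.2.2
  have hex : ∃ n, n < m ∧ t n = true := by
    refine ⟨n0, ?_, hn0⟩
    by_contra hlt
    rw [hc' n0 (by omega)] at hn0
    exact absurd hn0 (by decide)
  classical
  let S := (Finset.range m).filter fun n => t n = true
  have hS : S.Nonempty := by
    obtain ⟨n, h1, h2⟩ := hex
    exact ⟨n, by simp [S, h1, h2]⟩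
  obtain ⟨n, hn, hmax⟩ := S.exists_max_image id hS
  simp only [S, Finset.mem_filter, Finset.mem_range, id] at hn hmax
  have hn1 : 1 ≤ n := by
    rcases Nat.eq_zero_or_pos n with rfl | h0
    · rw [h.1] at hn; exact absurd hn.2 (by decide)
    · exact h0
  obtain ⟨j, hj0, hj1, hj2, hj3, _⟩ := h.first hn1 hn.2
  have : t (n + j) = false := by
    by_contra hcc
    have h5 : t (n + j) = true := by simpa using hcc
    rcases Nat.lt_or_ge (n + j) m with h6 | h6
    · have := hmax (n + j) ⟨h6, h5⟩; omega
    · rw [hc' _ h6] at h5; exact absurd h5 (by decide)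
  simp [this, hn.2] at hj2

/-- good indices after every `1` -/
lemma WAdm.exists_good {t : ℕ → Bool} (h : WAdm t) :
    ∀ o, 1 ≤ o → t o = true → ∃ n, o < n ∧ Good t n := by
  intro o
  induction o using Nat.strong_induction_on with
  | _ o ih =>
    intro ho hto
    obtain ⟨k, hk0, hk1, hk2, hk3, hk4⟩ := h.first ho hto
    rw [hto] at hk1 hk2
    simp only [Bool.xor_true] at hk1 hk2
    have hk2' : t (o + k) = true := by simpa using hk2
    by_cases hg : Good t (o + k)
    · exact ⟨_, by omega, hg⟩
    · unfold Good at hg
      push Not at hg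
      obtain ⟨o', ho'1, ho'2, ho'3, ho'4⟩ := hg hk2'
      have hne : o' ≠ o := by
        rintro rfl
        refine ho'4 k (by omega) ?_
        unfold Dif
        rw [hto, hk2', hk3]; decide
      rcases Nat.lt_or_ge o' o with h5 | h5
      · obtain ⟨n, hn1, hn2⟩ := ih o' h5 ho'1 ho'3
        refine ⟨n, ?_, hn2⟩
        by_contra hcon
        push Not at hcon
        obtain ⟨j, hj1, hj2⟩ := hn2.2 o' ho'1 hn1 ho'3
        exact ho'4 j (by omega) hj2
      · exfalso
        obtain ⟨r, rfl⟩ : ∃ r, o' = o + r := ⟨o' - o, by omega⟩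
        have hr1 : 1 ≤ r := by omega
        have hrk : r < k := by omega
        have htr : t r = false := by
          have := hk1 r hrk
          rw [ho'3] at this
          simpa using this.symm
        have hag : ∀ j, j ≤ k - r → (!t (o + r + j)) = t j := fun j hj => by
          have := ho'4 j (by omega)
          unfold Dif at this
          push Not at this
          rw [ho'3, Bool.xor_true] at this
          exact this
        have h6 : t (k - r) = true := by
          refine h.shift hr1 htr (r := k - r) (fun i hi => ?_) ?_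
          · have h7 := hk1 (r + i) (by omega)
            have h8 := hag i (by omega)
            rw [← h7, ← h8, add_assoc]
          · rw [show r + (k - r) = k by omega]; exact hk3
        have h7 := hag (k - r) le_rfl
        rw [show o + r + (k - r) = o + k by omega, hk2', h6] at h7
        exact absurd h7 (by decide)

lemma WAdm.exists_good' {t : ℕ → Bool} (h : WAdm t) (B : ℕ) : ∃ n, B ≤ n ∧ Good t n := by
  obtain ⟨o, ho1, ho2⟩ := h.inf (B + 1)
  obtain ⟨n, hn1, hn2⟩ := h.exists_good o (by omega) ho2
  exact ⟨n, by omega, hn2⟩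

/-- the periodic sequence of a good prefix is weakly admissible -/
lemma periodic_weak' {t : ℕ → Bool} (h : WAdm t) {M : ℕ} (hM : 1 ≤ M) (hg : Good t M) (m : ℕ) :
    Kp (fun i => t (i % M)) (sh m (fun i => t (i % M))) ∨
      ∀ i, xor ((fun i => t (i % M)) (m + i)) ((fun i => t (i % M)) m) = (fun i => t (i % M)) i := by
  -- reduction to `m < M`
  have hred : ∀ i, (m + i) % M = (m % M + i) % M := fun i => by rw [Nat.mod_add_mod]
  have hred0 : m % M % M = m % M := Nat.mod_mod _ _
  suffices hs : ∀ o, o < M → (Kp (fun i => t (i % M)) (sh o (fun i => t (i % M))) ∨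
      ∀ i, xor ((fun i => t (i % M)) (o + i)) ((fun i => t (i % M)) o) = (fun i => t (i % M)) i) by
    have h1 := hs (m % M) (Nat.mod_lt _ hM)
    have e : sh m (fun i => t (i % M)) = sh (m % M) (fun i => t (i % M)) := by
      funext i
      simp only [sh_apply]
      rw [hred]
    rcases h1 with h1 | h1
    · left; rw [e]; exact h1
    · right
      intro i
      have := h1 i
      simp only [hred0] at this ⊢
      rw [hred]; exact this
  intro o ho
  have hmod : ∀ i, i < M → i % M = i := fun i hi => Nat.mod_eq_of_lt hi
  rcases Nat.eq_zero_or_pos o with rfl | ho1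
  · right
    intro i
    simp [h.1]
  · obtain ⟨r, hr⟩ : ∃ r, M = o + r := ⟨M - o, by omega⟩
    have hr1 : 1 ≤ r := by omega
    have htM : t (o + r) = true := by rw [← hr]; exact hg.1
    cases hto : t o
    · -- digit `0`
      left
      by_cases hex : ∃ k, o + k < M ∧ (∀ i < k, t (o + i) = t i) ∧ t (o + k) = false ∧ t k = true
      · obtain ⟨k, hkM, hk1, hk2, hk3⟩ := hex
        refine ⟨k, fun i hi => ?_, ?_, ?_⟩
        · simp only [sh_apply, add_zero]
          rw [hmod _ (by omega), hmod _ ho, hmod _ (by omega), hto, Bool.xor_false]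
          exact hk1 i hi
        · simp only [sh_apply, add_zero]
          rw [hmod _ (by omega), hmod _ ho, hto, Bool.xor_false]
          exact hk2
        · show t (k % M) = true
          rw [hmod _ (by omega)]; exact hk3
      · -- agreement up to `r`
        have hag : ∀ i < r, t (o + i) = t i := by
          intro i
          induction i using Nat.strong_induction_on with
          | _ i ih =>
            intro hi
            have hag' : ∀ j < i, t (o + j) = t j := fun j hj => ih j hj (by omega)
            cases hoi : t (o + i)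
            · cases hi' : t i
              · rfl
              · exact absurd ⟨i, by omega, hag', hoi, hi'⟩ hex
            · exact (h.shift ho1 hto hag' hoi).symm
        have htr : t r = true := h.shift ho1 hto hag htM
        refine ⟨r, fun i hi => ?_, ?_, ?_⟩
        · simp only [sh_apply, add_zero]
          rw [hmod _ (by omega), hmod _ ho, hmod _ (by omega), hto, Bool.xor_false]
          exact hag i hi
        · simp only [sh_apply, add_zero]
          rw [← hr, Nat.mod_self, hmod _ ho, hto, h.1]; rfl
        · show t (r % M) = true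
          rw [hmod _ (by omega)]; exact htr
    · obtain ⟨k, hk0, hk1, hk2, hk3, hk4⟩ := h.first ho1 hto
      rcases Nat.lt_or_ge (o + k) M with h5 | h5
      · left
        refine ⟨k, fun i hi => ?_, ?_, ?_⟩
        · simp only [sh_apply, add_zero]
          rw [hmod _ (by omega), hmod _ ho, hmod _ (by omega)]
          exact hk1 i hi
        · simp only [sh_apply, add_zero]
          rw [hmod _ (by omega), hmod _ ho]
          exact hk2
        · show t (k % M) = true
          rw [hmod _ (by omega)]; exact hk3
      · have hrk : r ≤ k := by omega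
        obtain ⟨j0, hj0, hj0'⟩ := hg.2 o ho1 ho hto
        have hkr : k = r := by
          have := hk4 j0 hj0'
          omega
        subst hkr
        rw [hto] at hk1 hk2
        simp only [Bool.xor_true] at hk1 hk2
        obtain ⟨k', hk0', hk1', hk2', hk3', hk4'⟩ := h.first hr1 hk3
        rw [hk3] at hk1' hk2'
        simp only [Bool.xor_true] at hk1' hk2'
        have hMj : ∀ j, j < o → (o + (k + j)) % M = j := fun j hj => by
          rw [← add_assoc, ← hr, Nat.add_mod_left, hmod _ (by omega)]
        rcases Nat.lt_or_ge (k + k') M with h6 | h6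
        · left
          refine ⟨k + k', fun i hi => ?_, ?_, ?_⟩
          · simp only [sh_apply, add_zero]
            rw [hmod _ ho, hto, Bool.xor_true, hmod i (by omega)]
            rcases Nat.lt_or_ge i k with h7 | h7
            · rw [hmod _ (by omega)]; exact hk1 i h7
            · obtain ⟨i', rfl⟩ : ∃ i', i = k + i' := ⟨i - k, by omega⟩
              rw [hMj i' (by omega), ← hk1' i' (by omega)]
              simp
          · simp only [sh_apply, add_zero]
            rw [hmod _ ho, hto, hMj k' (by omega), hk3']; rfl
          · show t ((k + k') % M) = true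
            rw [hmod _ h6]
            simpa using hk2'
        · right
          -- equality on one period
          have hper : ∀ j, j < M → (!t ((o + j) % M)) = t j := by
            intro j hj
            rcases Nat.lt_trichotomy j k with h7 | h7 | h7
            · rw [hmod _ (by omega)]; exact hk1 j h7
            · subst h7
              rw [← hr, Nat.mod_self, h.1, hk3]; rfl
            · obtain ⟨i', rfl⟩ : ∃ i', j = k + i' := ⟨j - k, by omega⟩
              rw [hMj i' (by omega), ← hk1' i' (by omega)]
              simp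
          intro i
          simp only
          rw [hmod _ ho, hto, Bool.xor_true, ← hper (i % M) (Nat.mod_lt _ hM), Nat.add_mod_mod]

/-- a point whose expansion is weakly univoque and strict from below, but not univoque, has a
smaller univoque base -/
theorem H2_all {Q : ℝ} (hQ1 : 1 < Q) (hQ2 : Q < 2) (D : ℕ → Bool) (hD : WU Q D)
    (hD1 : ∀ n, D n = true → 1 / (Q - 1) - 1 < P Q (sh (n + 1) D)) (hD2 : ¬ Un Q D) :
    ∃ q ∈ Ux (P Q D), q < Q := by
  classical
  have hex : ∃ n, D n = false ∧ P Q (sh (n + 1) D) = 1 := by
    by_contra hc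
    push Not at hc
    exact hD2 fun n => ⟨fun hn => lt_of_le_of_ne ((hD n).1 hn) (hc n hn), hD1 n⟩
  obtain ⟨hn1, hn2⟩ := Nat.find_spec hex
  have hmin : ∀ j < Nat.find hex, D j = false → P Q (sh (j + 1) D) < 1 := fun j hj hj2 => by
    refine lt_of_le_of_ne ((hD j).1 hj2) fun h => ?_
    exact Nat.find_min hex hj ⟨hj2, h⟩
  set n := Nat.find hex with hn
  -- the tail
  set t := sh n D with htdef
  have ht0 : t 0 = false := by rw [htdef, sh_apply, add_zero]; exact hn1
  have hα : P Q (sh 1 t) = 1 := by rw [htdef, sh_sh]; exact hn2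
  have htU : WU Q (sh 1 t) := by rw [htdef, sh_sh]; exact WU_sh hD _
  have ht : WAdm t := by
    refine ⟨ht0, fun m hm => ?_, ?_⟩
    · have hU : WU Q (sh m t) := by rw [htdef, sh_sh]; exact WU_sh hD _
      cases htm : t m
      · rcases kp_or_eq hQ1 hQ2 ht0 hα htU hU with h | h
        · exact Or.inl h
        · right
          refine ⟨rfl, fun i => ?_⟩
          have := h i
          rwa [sh_apply, sh_apply, add_zero, htm, Bool.xor_false] at this
      · left
        refine kp_strict hQ1 hQ2 ht0 hα htU hU (fun h => ?_) (fun _ => ?_)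
        · rw [sh_apply, add_zero, htm] at h; exact absurd h (by decide)
        · have : D (n + m) = true := htm
          have h2 := hD1 (n + m) this
          rw [htdef, sh_sh, sh_sh]
          exact h2
    · have hpos : 0 < P Q (sh 1 t) := by rw [hα]; norm_num
      obtain ⟨k, hk⟩ := exists_true_of_pos hpos
      exact ⟨1 + k, hk⟩
  have hDt : ∀ i, D (n + i) = t i := fun i => rfl
  -- witnesses for the positions before `n`
  have hkp : ∀ j < n, Kp t (sh j D) := fun j hj => by
    refine kp_strict hQ1 hQ2 ht0 hα htU (WU_sh hD j) (fun h => ?_) (fun h => ?_)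
    · rw [sh_sh]; exact hmin j hj (by simpa using h)
    · rw [sh_sh]; exact hD1 j (by simpa using h)
  have hbound : ∃ B, ∀ j < n, ∃ k < B, (∀ i < k, xor (sh j D i) (sh j D 0) = t i) ∧
      xor (sh j D k) (sh j D 0) = false ∧ t k = true := by
    choose! k hk using hkp
    refine ⟨(Finset.range n).sup k + 1, fun j hj => ⟨k j, ?_, hk j hj⟩⟩
    have := Finset.le_sup (f := k) (Finset.mem_range.2 hj)
    omega
  obtain ⟨B, hB⟩ := hbound
  obtain ⟨m1, hm1⟩ : ∃ m, sh 1 t m = true := by
    have hpos : 0 < P Q (sh 1 t) := by rw [hα]; norm_num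
    exact exists_true_of_pos hpos
  -- the intermediate base
  obtain ⟨q1, hq11, hq1Q⟩ := exists_between hQ1
  have hδ : 1 < P q1 (sh 1 t) := by
    rw [← hα]
    exact P_strict hq11 hq1Q _ hm1
  obtain ⟨B', hB'⟩ : ∃ B : ℕ, ∀ n, B ≤ n → 1 / (q1 - 1) / q1 ^ n < P q1 (sh 1 t) - 1 := by
    have hlim : Filter.Tendsto (fun n : ℕ => 1 / (q1 - 1) / q1 ^ n) Filter.atTop (nhds 0) := by
      have h5 : Filter.Tendsto (fun n : ℕ => (1 / (q1 - 1)) * (1 / q1) ^ n) Filter.atTop
          (nhds ((1 / (q1 - 1)) * 0)) :=
        (tendsto_pow_atTop_nhds_zero_of_lt_one (by positivity)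
          (by rw [div_lt_one (by linarith)]; exact hq11)).const_mul _
      rw [mul_zero] at h5
      refine h5.congr fun n => ?_
      rw [one_div_pow, mul_one_div]
    have := hlim.eventually (gt_mem_nhds (show 0 < P q1 (sh 1 t) - 1 by linarith))
    rw [Filter.eventually_atTop] at this
    exact this
  obtain ⟨M, hM1, hM2⟩ := ht.exists_good' (max (B' + 1) (max B (m1 + 2)))
  have e1 : B' + 1 ≤ M := le_trans (le_max_left _ _) hM1
  have e2 : B ≤ M := le_trans (le_trans (le_max_left _ _) (le_max_right _ _)) hM1
  have e3 : m1 + 2 ≤ M := le_trans (le_trans (le_max_right _ _) (le_max_right _ _)) hM1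
  -- the periodic sequence
  set t' : ℕ → Bool := fun i => t (i % M) with ht'
  have ht'0 : t' 0 = false := by simp [ht', ht.1]
  have ht's : ∀ j, j < M → t' j = t j := fun j hj => by
    show t (j % M) = t j
    rw [Nat.mod_eq_of_lt hj]
  have ht'M : t' M = false := by
    show t (M % M) = false
    rw [Nat.mod_self]; exact ht.1
  have hlow : P Q (sh 1 t') < 1 := by
    rw [← hα]
    refine lt_of_right hQ1 (p := M - 1) (fun i hi => ?_) ?_ ?_ ?_
    · rw [sh_apply, sh_apply, ht's _ (by omega)]
    · rw [sh_apply, show 1 + (M - 1) = M by omega]; exact ht'M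
    · rw [sh_apply, show 1 + (M - 1) = M by omega]; exact hM2.1
    · rw [sh_sh, show 1 + (M - 1 + 1) = M + 1 by omega]
      have h2 := hD1 (n + M) (by rw [hDt]; exact hM2.1)
      rw [htdef, sh_sh]
      exact h2
  have hup : 1 < P q1 (sh 1 t') := by
    have h1 : P q1 (sh 1 t) ≤ P q1 (sh 1 t') + 1 / (q1 - 1) / q1 ^ (M - 1) := by
      refine P_agree hq11 fun i hi => ?_
      rw [sh_apply, sh_apply, ht's _ (by omega)]
    have h2 := hB' (M - 1) (by omega)
    linarith
  obtain ⟨qm, h1, h2, h3⟩ := P_ivt hq11 hq1Q.le (sh 1 t') hlow hup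
  have hqm1 : 1 < qm := by linarith
  -- the approximating sequence
  set E := glue n D t' with hE
  set F := glue n D (cons true (fun _ => false)) with hF
  have hEF : ∀ q, 1 < q → P q E = P q F + (P q (sh 1 t') - 1) / q ^ (n + 1) := by
    intro q hq
    have h4 := diff_eq hq (d := F) (e := E) (p := n) (fun i hi => by
      rw [hF, hE, glue_lt _ _ hi, glue_lt _ _ hi])
    rw [hF, hE, sh_glue, sh_glue, P_cons hq, P_zeros, P_succ hq t', ht'0, ← hF, ← hE, dg_true,
      dg_false] at h4
    have hq0 : q ≠ 0 := by linarith
    rw [pow_succ]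
    field_simp at h4 ⊢
    linarith
  have hDF : P Q D = P Q F := by
    have h4 := diff_eq hQ1 (d := F) (e := D) (p := n) (fun i hi => by rw [hF, glue_lt _ _ hi])
    rw [← htdef, hF, sh_glue, P_cons hQ1, P_zeros, P_succ hQ1 t, ht.1, hα, ← hF, dg_true,
      dg_false] at h4
    have : (1 + 0 : ℝ) / Q = (0 + 1) / Q := by ring
    rw [this, sub_self, zero_div] at h4
    linarith
  have hFn : F n = true := by rw [hF]; simp [glue]
  have hE1 : P Q E < P Q D := by
    rw [hEF Q hQ1, hDF]
    have : (P Q (sh 1 t') - 1) / Q ^ (n + 1) < 0 :=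
      div_neg_of_neg_of_pos (by linarith) (by positivity)
    linarith
  have hE2 : P Q D < P qm E := by
    rw [hEF qm hqm1, hDF, h3, sub_self, zero_div, add_zero]
    exact P_strict hqm1 h2 F hFn
  obtain ⟨q, h5, h6, h7⟩ := P_ivt hqm1 h2.le E hE1 hE2
  have hq1 : 1 < q := by linarith
  refine ⟨q, mem_Ux.2 ⟨hq1, by linarith, E, h7, ?_⟩, h6⟩
  refine lexnum2 hq1 ht'0 ?_ fun m => ?_
  · rw [← h3]
    refine P_strict hqm1 h5 _ (n := m1) ?_
    rw [sh_apply, ht's _ (by omega)]
    exact hm1
  · rcases Nat.lt_or_ge m n with h8 | h8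
    · left
      obtain ⟨k, hkB, hk1, hk2, hk3⟩ := hB m h8
      have hED : ∀ i, i < n + M → E i = D i := by
        intro i hi
        rcases Nat.lt_or_ge i n with h9 | h9
        · rw [hE, glue_lt _ _ h9]
        · obtain ⟨i', rfl⟩ : ∃ i', i = n + i' := ⟨i - n, by omega⟩
          have := congrFun (sh_glue n D t') i'
          rw [sh_apply, ← hE] at this
          rw [this, hDt, ht's _ (by omega)]
      simp only [sh_apply, add_zero] at hk1 hk2
      refine ⟨k, fun i hi => ?_, ?_, ?_⟩
      · simp only [sh_apply, add_zero]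
        rw [hED _ (by omega), hED _ (by omega), ht's _ (by omega)]
        exact hk1 i hi
      · simp only [sh_apply, add_zero]
        rw [hED _ (by omega), hED _ (by omega)]
        exact hk2
      · rw [ht's _ (by omega)]; exact hk3
    · obtain ⟨m', rfl⟩ : ∃ m', m = n + m' := ⟨m - n, by omega⟩
      have hEt : ∀ i, E (n + i) = t' i := fun i => by
        have := congrFun (sh_glue n D t') i
        rw [sh_apply, ← hE] at this
        exact this
      have h9 := periodic_weak' ht (show 1 ≤ M by omega) hM2 m'
      have e : sh (n + m') E = sh m' t' := by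
        funext i
        rw [sh_apply, sh_apply, add_assoc, hEt]
      rcases h9 with h9 | h9
      · left
        rw [e]; exact h9
      · right
        intro i
        have := h9 i
        rw [add_assoc, hEt, hEt]
        exact this

end Pool.Agent.L5helper12.Uni
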