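import Pool.Agent.L5helper12.UniB

/-!
# Closedness of all level sets of the smallest univoque base function, part C

The right continuity, and the main theorem.
-/

set_option autoImplicit false

namespace Pool.Agent.L5helper12.Uni

open Filter Topology
open Pool.Agent.R341.Uni

/-- if the conditions for a sequence are not open in the base, then `1` has a weakly univoque
expansion -/
lemma exists_weak_one {q : ℝ} (hq1 : 1 < q) {c : ℕ → Bool} (hc : Un q c)
    (hno : ∀ q', 1 < q' → q' < q → ¬ Un q' c) : ∃ e, WU q e ∧ P q e = 1 := by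
  -- bases
  let u : ℕ → ℝ := fun k => q - (q - 1) / ((k : ℝ) + 2)
  have hu1 : ∀ k, 1 < u k := fun k => by
    have h1 : (q - 1) / ((k : ℝ) + 2) < q - 1 := by
      rw [div_lt_iff₀ (by positivity)]
      have : (0 : ℝ) ≤ k := Nat.cast_nonneg k
      nlinarith
    show 1 < q - (q - 1) / ((k : ℝ) + 2)
    linarith
  have hu2 : ∀ k, u k < q := fun k => by
    have h1 : 0 < (q - 1) / ((k : ℝ) + 2) := div_pos (by linarith) (by positivity)
    show q - (q - 1) / ((k : ℝ) + 2) < q
    linarith
  have hu : Tendsto u atTop (𝓝 q) := by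
    have h1 : Tendsto (fun k : ℕ => (q - 1) / ((k : ℝ) + 2)) atTop (𝓝 0) := by
      refine Tendsto.div_atTop tendsto_const_nhds ?_
      exact tendsto_atTop_add_const_right _ _ tendsto_natCast_atTop_atTop
    have h2 : Tendsto (fun k : ℕ => q - (q - 1) / ((k : ℝ) + 2)) atTop (𝓝 (q - 0)) :=
      tendsto_const_nhds.sub h1
    rwa [sub_zero] at h2
  -- violations
  have hviol : ∀ k, ∃ e : ℕ → Bool, Un q e ∧ 1 ≤ P (u k) e ∧ P q e < 1 := by
    intro k
    have h1 := hno (u k) (hu1 k) (hu2 k)
    unfold Un at h1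
    push Not at h1
    obtain ⟨n, hn⟩ := h1
    cases hcn : c n
    · by_cases h2 : P (u k) (sh (n + 1) c) < 1
      · have := (hn fun _ => h2).1
        rw [hcn] at this
        exact absurd this (by decide)
      · exact ⟨sh (n + 1) c, hc.sh _, not_lt.1 h2, (hc n).1 hcn⟩
    · have h3 := (hn fun h => absurd (hcn.symm.trans h) (by decide)).2
      refine ⟨fun i => !(sh (n + 1) c i), (hc.sh _).compl hq1, ?_, ?_⟩
      · rw [P_compl (hu1 k)]; linarith
      · rw [P_compl hq1]
        have := (hc n).2 hcn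
        linarith
  choose e he1 he2 he3 using hviol
  obtain ⟨e0, φ, hφ, he0⟩ := CompactSpace.tendsto_subseq e
  have hW : WU q e0 := WU.lim hq1 (tendsto_const_nhds (x := q)) he0 fun k => (he1 _).wu
  refine ⟨e0, hW, ?_⟩
  apply le_antisymm
  · exact le_of_tendsto' (P_tendsto hq1 (tendsto_const_nhds (x := q)) he0) fun k => (he3 _).le
  · exact ge_of_tendsto' (P_tendsto hq1 (hu.comp hφ.tendsto_atTop) he0) fun k => he2 _

/-- right continuity: if `x` has the univoque base `q < Q`, then all points slightly above `x` have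
univoque bases below `Q` -/
lemma right_bound {Q : ℝ} (hQ2 : Q ≤ 2) {x : ℝ} (hx : 0 < x) {q : ℝ} (hq : q ∈ Ux x)
    (hqQ : q < Q) : ∃ δ > 0, ∀ y, x < y → y < x + δ → ∃ r ∈ Ux y, r < Q := by
  obtain ⟨h1, h2, s, hs, hU⟩ := mem_Ux.1 hq
  obtain ⟨m, hm⟩ := exists_true_of_pos (q := q) (d := s) (by rw [hs]; exact hx)
  by_cases H : ∃ q', 1 < q' ∧ q' < q ∧ Un q' s
  · obtain ⟨q'', h9, h10, h11⟩ := H
    have h3 : x < P q'' s := by rw [← hs]; exact P_strict h9 h10 s hm
    refine ⟨P q'' s - x, by linarith, fun y hy1 hy2 => ?_⟩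
    obtain ⟨q', h4, h5, h6⟩ := P_ivt h9 h10.le s (by rw [hs]; exact hy1) (by linarith)
    exact ⟨q', mem_Ux.2 ⟨by linarith, by linarith, s, h6, h11.mono h9 h4.le⟩, by linarith⟩
  · push Not at H
    obtain ⟨a, ha, ha1⟩ := exists_weak_one h1 hU H
    have hq2 : q < 2 := by linarith
    -- infinitely many zeros
    have hz : ∀ N, ∃ i, N ≤ i ∧ s i = false := by
      intro N
      by_contra hc
      push Not at hc
      have hc' : ∀ n, N ≤ n → s n = true := fun n hn => by simpa using hc n hn
      by_cases hall : ∃ i, s i = false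
      · classical
        obtain ⟨i0, hi0⟩ := hall
        let S := (Finset.range (N + 1)).filter fun n => s n = false
        have hlt : i0 < N := by
          by_contra hlt
          rw [hc' i0 (by omega)] at hi0
          exact absurd hi0 (by decide)
        have hS : S.Nonempty := ⟨i0, by simp only [S, Finset.mem_filter, Finset.mem_range]; exact ⟨by omega, hi0⟩⟩
        obtain ⟨n, hn, hmax⟩ := S.exists_max_image id hS
        simp only [S, Finset.mem_filter, Finset.mem_range, id] at hn hmax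
        have hone : sh (n + 1) s = fun _ => true := by
          funext j
          rw [sh_apply]
          by_contra hcon
          have hf : s (n + 1 + j) = false := by simpa using hcon
          rcases Nat.lt_or_ge (n + 1 + j) (N + 1) with h | h
          · have := hmax _ ⟨h, hf⟩; omega
          · rw [hc' _ (by omega)] at hf; exact absurd hf (by decide)
        have h3 := (hU n).1 hn.2
        rw [hone, P_ones h1] at h3
        have : 1 < 1 / (q - 1) := by rw [lt_div_iff₀ (by linarith)]; linarith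
        linarith
      · push Not at hall
        have hone : s = fun _ => true := funext fun j => by simpa using hall j
        obtain ⟨q', hq'1, hq'2⟩ := exists_between h1
        refine H q' hq'1 hq'2 fun n => ⟨fun hn => ?_, fun _ => ?_⟩
        · rw [hone] at hn; simp at hn
        · have : sh (n + 1) s = fun _ => true := by rw [hone]; rfl
          rw [this, P_ones hq'1]
          linarith
    -- an intermediate base
    obtain ⟨Q', hQ'1, hQ'2⟩ := exists_between hqQ
    have hQ'0 : 1 < Q' := by linarith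
    have h3 : P Q' s < x := by rw [← hs]; exact P_strict h1 hQ'1 s hm
    obtain ⟨B, hB⟩ : ∃ B : ℕ, ∀ n, B ≤ n → 1 / (Q' - 1) / Q' ^ n < x - P Q' s := by
      have hlim : Filter.Tendsto (fun n : ℕ => 1 / (Q' - 1) / Q' ^ n) Filter.atTop (nhds 0) := by
        have h5 : Filter.Tendsto (fun n : ℕ => (1 / (Q' - 1)) * (1 / Q') ^ n) Filter.atTop
            (nhds ((1 / (Q' - 1)) * 0)) :=
          (tendsto_pow_atTop_nhds_zero_of_lt_one (by positivity)
            (by rw [div_lt_one (by linarith)]; exact hQ'0)).const_mul _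
        rw [mul_zero] at h5
        refine h5.congr fun n => ?_
        rw [one_div_pow, mul_one_div]
      have := hlim.eventually (gt_mem_nhds (show 0 < x - P Q' s by linarith))
      rw [Filter.eventually_atTop] at this
      exact this
    obtain ⟨i, hi1, hi2⟩ := hz B
    obtain ⟨p, hp1, hp2⟩ := exists_flip h1 hq2 ha ha1 hU i hi2
    set s' := glue p s (cons true (fun i => !a i)) with hs'
    have hW : WU q s' := flip_wu h1 hq2 ha ha1 hU hp2
    have hs'lt : ∀ i, i < p → s i = s' i := fun i hi => (glue_lt _ _ hi).symm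
    have hs'p : s' p = true := by simp [hs', glue]
    have h4 : P Q' s' < x := by
      have h5 : P Q' s' ≤ P Q' s + 1 / (Q' - 1) / Q' ^ p :=
        P_agree hQ'0 fun i hi => (hs'lt i hi).symm
      have h6 := hB p (by omega)
      linarith
    have h5 : x < P q s' := by
      rw [← hs]
      exact WU_lt h1 hq2 hU.wu hW ⟨p, hs'lt, hp2.1, hs'p⟩
    -- a base slightly above `q`
    have hcont : ContinuousAt (fun r => P r s') q :=
      (P_cont s').continuousAt (Ioi_mem_nhds h1)
    have hev : ∀ᶠ r in 𝓝 q, x < P r s' := hcont.eventually (lt_mem_nhds h5)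
    obtain ⟨r0, hr0, hr0'⟩ : ∃ r0, q < r0 ∧ r0 < Q' ∧ x < P r0 s' := by
      have h6 : ∀ᶠ r in 𝓝[>] q, x < P r s' := hev.filter_mono nhdsWithin_le_nhds
      have h7 : ∀ᶠ r in 𝓝[>] q, r ∈ Set.Ioo q Q' := Ioo_mem_nhdsGT hQ'1
      obtain ⟨r, hr1, hr2⟩ := (h6.and h7).exists
      exact ⟨r, hr2.1, hr2.2, hr1⟩
    refine ⟨P r0 s' - x, by linarith [hr0'.2], fun y hy1 hy2 => ?_⟩
    obtain ⟨q', h6, h7, h8⟩ := P_ivt (show 1 < r0 by linarith) hr0'.1.le s' (show P Q' s' < y by linarith)
      (by linarith)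
    exact ⟨q', mem_Ux.2 ⟨by linarith, by linarith, s', h8, hW.un h1 (by linarith)⟩, by linarith⟩

/-- **all level sets are closed** -/
theorem closed_all {Q : ℝ} (hQ1 : 1 < Q) (hQ2 : Q < 2) {x : ℝ} (hx : 0 < x)
    (hcl : x ∈ closure (LvInf Q)) : x ∈ LvInf Q := by
  by_contra hxL
  obtain ⟨y, hy1, hy2⟩ := mem_closure_iff_seq_limit.1 hcl
  have hne : ∀ k, y k ≠ x := fun k h => hxL (h ▸ hy1 k)
  -- weak expansions
  have hex : ∀ k, ∃ D, WU Q D ∧ P Q D = y k := fun k => exists_weak hQ1 (hy1 k).2
  choose D hD1 hD2 using hex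
  -- no smaller base on the left side
  have hleft : ∀ q ∈ Ux x, q < Q → ∀ᶠ k in atTop, ¬ y k < x := by
    intro q hq hqQ
    obtain ⟨h1, h2, s, hs, hU⟩ := mem_Ux.1 hq
    obtain ⟨m, hm⟩ := exists_true_of_pos (q := q) (d := s) (by rw [hs]; exact hx)
    have h3 : P Q s < x := by rw [← hs]; exact P_strict h1 hqQ s hm
    filter_upwards [hy2.eventually (lt_mem_nhds h3)] with k hk hlt
    obtain ⟨q', h4, h5, h6⟩ := P_ivt h1 hqQ.le s hk (by rw [hs]; exact hlt)
    have h7 : q' ∈ Ux (y k) := mem_Ux.2 ⟨by linarith, by linarith, s, h6, hU.mono h1 h4.le⟩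
    have h8 := csInf_le (bdd_Ux (y k)) h7
    rw [(hy1 k).2] at h8
    linarith
  have hright : ∀ q ∈ Ux x, q < Q → ∀ᶠ k in atTop, ¬ x < y k := by
    intro q hq hqQ
    obtain ⟨δ, hδ, hall⟩ := right_bound hQ2.le hx hq hqQ
    filter_upwards [hy2.eventually (gt_mem_nhds (show x < x + δ by linarith))] with k hk hlt
    obtain ⟨r, hr1, hr2⟩ := hall (y k) hlt hk
    have h8 := csInf_le (bdd_Ux (y k)) hr1
    rw [(hy1 k).2] at h8
    linarith
  have hlow : ∀ q ∈ Ux x, Q ≤ q := by
    intro q hq
    by_contra hlt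
    push Not at hlt
    obtain ⟨k, hk1, hk2⟩ := ((hleft q hq hlt).and (hright q hq hlt)).exists
    rcases lt_trichotomy (y k) x with h | h | h
    · exact hk1 h
    · exact hne k h
    · exact hk2 h
  -- upper bound
  have hup : ∀ δ : ℝ, 0 < δ → ∃ q ∈ Ux x, q < Q + δ := by
    intro δ hδ
    by_cases hfr : ∃ᶠ k in atTop, y k < x
    · -- from the left
      obtain ⟨φ, hφ, hφ2⟩ := extraction_of_frequently_atTop hfr
      obtain ⟨D0, ψ, hψ, hD0⟩ := CompactSpace.tendsto_subseq (fun k => D (φ k))
      have hW : WU Q D0 := WU.lim hQ1 tendsto_const_nhds hD0 fun k => hD1 _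
      have hP : P Q D0 = x := by
        have h1 := P_tendsto hQ1 (tendsto_const_nhds (x := Q)) hD0
        refine tendsto_nhds_unique h1 ?_
        have h2 : Tendsto (fun k => y (φ (ψ k))) atTop (𝓝 x) :=
          hy2.comp (hφ.tendsto_atTop.comp hψ.tendsto_atTop)
        exact h2.congr fun k => (hD2 _).symm
      have hno : ∀ n, D0 n = true → 1 / (Q - 1) - 1 < P Q (sh (n + 1) D0) := by
        intro n hn
        refine lt_of_le_of_ne ((hW n).2 hn) fun heq => ?_
        obtain ⟨k, hk⟩ := (agree_eventually hD0 (n + 1)).exists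
        have h1 := diff_eq hQ1 (d := D (φ (ψ k))) (e := D0) (p := n + 1) (fun i hi => hk i hi)
        have h2 := (hD1 (φ (ψ k)) n).2 (by
          have h3 := hk n (by omega)
          simp only [Function.comp] at h3
          rw [h3]; exact hn)
        have h4 : (P Q (sh (n + 1) D0) - P Q (sh (n + 1) (D (φ (ψ k))))) / Q ^ (n + 1) ≤ 0 :=
          div_nonpos_of_nonpos_of_nonneg (by linarith) (by positivity)
        rw [hP, hD2] at h1
        have := hφ2 (ψ k)
        linarith
      by_cases hU : Un Q D0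
      · exact ⟨Q, mem_Ux.2 ⟨hQ1, hQ2.le, D0, hP, hU⟩, by linarith⟩
      · obtain ⟨q, hq, hqQ⟩ := H2_all hQ1 hQ2 D0 hW hno hU
        rw [hP] at hq
        exact ⟨q, hq, by linarith⟩
    · -- from the right
      rw [not_frequently] at hfr
      obtain ⟨D0, ψ, hψ, hD0⟩ := CompactSpace.tendsto_subseq D
      have hP : P Q D0 = x := by
        have h1 := P_tendsto hQ1 (tendsto_const_nhds (x := Q)) hD0
        refine tendsto_nhds_unique h1 ?_
        have h2 : Tendsto (fun k => y (ψ k)) atTop (𝓝 x) := hy2.comp hψ.tendsto_atTop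
        exact h2.congr fun k => (hD2 _).symm
      obtain ⟨q1, hq1, hq12⟩ := exists_between (lt_min hQ2 (show Q < Q + δ by linarith))
      have hq1' : 1 < q1 := by linarith
      obtain ⟨m, hm⟩ := exists_true_of_pos (q := Q) (d := D0) (by rw [hP]; exact hx)
      have h3 : P q1 D0 < x := by rw [← hP]; exact P_strict hQ1 hq1 D0 hm
      have h4 := P_tendsto hq1' (tendsto_const_nhds (x := q1)) hD0
      have h5 := h4.eventually (gt_mem_nhds h3)
      have h6 := hψ.tendsto_atTop.eventually hfr
      obtain ⟨k, hk1, hk2⟩ := (h5.and h6).exists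
      have hk3 : x < y (ψ k) := lt_of_le_of_ne (not_lt.1 hk2) (hne _).symm
      obtain ⟨q, h7, h8, h9⟩ := P_ivt hQ1 hq1.le (D (ψ k)) hk1 (by rw [hD2]; exact hk3)
      refine ⟨q, mem_Ux.2 ⟨by linarith, ?_, D (ψ k), h9, (hD1 _).un hQ1 h7⟩, ?_⟩
      · have := min_le_left 2 (Q + δ); linarith
      · have := min_le_right 2 (Q + δ); linarith
  apply hxL
  refine ⟨hx, le_antisymm ?_ ?_⟩
  · refine le_of_forall_pos_lt_add fun δ hδ => ?_
    obtain ⟨q, hq, hq2⟩ := hup δ hδ
    exact lt_of_le_of_lt (csInf_le (bdd_Ux x) hq) hq2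
  · obtain ⟨q, hq, _⟩ := hup 1 one_pos
    exact le_csInf ⟨q, hq⟩ hlow

/-- the level set at `q = 2` is empty -/
lemma level_two : {x : ℝ | 0 < x ∧ sInf (Ux x) = 2} = ∅ := by
  ext x
  simp only [Set.mem_ofPred_eq, Set.mem_empty_iff_false, iff_false, not_and]
  intro hx h
  obtain ⟨q, hq1, hq2⟩ := F1 hx
  have h3 := csInf_le (bdd_Ux x) hq1
  rw [h] at h3
  have : (BB : ℝ) < 2 := by unfold BB; norm_num
  linarith

end Pool.Agent.L5helper12.Uni
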