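import Pool.Agent.L5helper12.PV.UH

/-! The upper half of the conjectured mean square formula implies the formula for almost all lengths. -/

open MeasureTheory Filter Topology

namespace Pool.Agent.L5helper12.UpperHalfSuffices

/-- The weighted number of prime powers in the interval of length `H` centred at `x`. -/
noncomputable def psi (x H : ℝ) : ℝ :=
  ∑ᶠ n ∈ {n : ℕ | 1 ≤ n ∧ x - H / 2 ≤ n ∧ (n : ℝ) ≤ x + H / 2}, ArithmeticFunction.vonMangoldt n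

/-- The mean square of the question over `H ≤ x ≤ X`. The range `x < H` is left out: for `x < H / 2`
the interval of length `H` centred at `x` is cut off at `1`, and this range alone would contribute more
than `c H ^ 3 / X` to the mean square over `1 ≤ x ≤ X`. -/
noncomputable def J (X H : ℝ) : ℝ := (1 / X) * ∫ x in H..X, |psi x H - H| ^ 2

/-- The mean square at `X = T ^ α`, `H = T ^ (α - 1)`, so `X / H = T`, divided by `H log (X / H)`.
The question asks whether this ratio tends to `1`. -/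
noncomputable def R (T α : ℝ) : ℝ := J (T ^ α) (T ^ (α - 1)) / (T ^ (α - 1) * Real.log T)

/-- Along any filter `F` of values `T → ∞`:
(1) if the mean of `R T` over every interval of `[1, ℓ]` is eventually at most `1 + ε`, then for every
`b < ℓ` the integral of `R T` over `[1, b]` is eventually at least `b - 1 - 1 / (6 (ℓ - b)) - ε`;
(2) if `R T α ≤ 1 + ε` eventually for all `α` in `[1, ℓ]`, then the integral of `|R T - 1|` over `[1, b]`
is eventually at most `1 / (6 (ℓ - b)) + ε`;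
(3) if the upper bound of (1) holds for every `ℓ`, the integral of `R T` over `[a, b]` tends to `b - a`
for all `1 ≤ a ≤ b`;
(4) if the upper bound of (2) holds for every `ℓ`, the integral of `|R T - 1|` over `[1, b]` tends
to `0` for every `b`. -/
theorem result (F : Filter ℝ) (hF : F ≤ atTop) :
    (∀ ℓ : ℝ, (∀ a b ε : ℝ, 1 ≤ a → a ≤ b → b ≤ ℓ → 0 < ε → ∀ᶠ T in F, ∫ α in a..b, R T α ≤ b - a + ε) →
      ∀ b : ℝ, 1 ≤ b → b < ℓ → ∀ ε : ℝ, 0 < ε →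
        ∀ᶠ T in F, b - 1 - 1 / (6 * (ℓ - b)) - ε ≤ ∫ α in (1 : ℝ)..b, R T α) ∧
    (∀ ℓ : ℝ, (∀ ε : ℝ, 0 < ε → ∀ᶠ T in F, ∀ α ∈ Set.Icc (1 : ℝ) ℓ, R T α ≤ 1 + ε) →
      ∀ b : ℝ, 1 ≤ b → b < ℓ → ∀ ε : ℝ, 0 < ε →
        ∀ᶠ T in F, ∫ α in (1 : ℝ)..b, |R T α - 1| ≤ 1 / (6 * (ℓ - b)) + ε) ∧
    ((∀ a b ε : ℝ, 1 ≤ a → a ≤ b → 0 < ε → ∀ᶠ T in F, ∫ α in a..b, R T α ≤ b - a + ε) →
      ∀ a b : ℝ, 1 ≤ a → a ≤ b → Tendsto (fun T => ∫ α in a..b, R T α) F (𝓝 (b - a))) ∧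
    ((∀ ℓ ε : ℝ, 0 < ε → ∀ᶠ T in F, ∀ α ∈ Set.Icc (1 : ℝ) ℓ, R T α ≤ 1 + ε) →
      ∀ b : ℝ, 1 ≤ b → Tendsto (fun T => ∫ α in (1 : ℝ)..b, |R T α - 1|) F (𝓝 0)) := by
  have key1 : ∀ ℓ : ℝ, (∀ a b ε : ℝ, 1 ≤ a → a ≤ b → b ≤ ℓ → 0 < ε → ∀ᶠ T in F, ∫ α in a..b, R T α ≤ b - a + ε) →
      ∀ b : ℝ, 1 ≤ b → b < ℓ → ∀ ε : ℝ, 0 < ε →
        ∀ᶠ T in F, b - 1 - 1 / (6 * (ℓ - b)) - ε ≤ ∫ α in (1 : ℝ)..b, R T α :=
    fun ℓ hU b hb hbℓ ε hε => L5helper12.PV.upper_half F hF ℓ hU b hb hbℓ ε hε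
  have key2 : ∀ ℓ : ℝ, (∀ ε : ℝ, 0 < ε → ∀ᶠ T in F, ∀ α ∈ Set.Icc (1 : ℝ) ℓ, R T α ≤ 1 + ε) →
      ∀ b : ℝ, 1 ≤ b → b < ℓ → ∀ ε : ℝ, 0 < ε →
        ∀ᶠ T in F, ∫ α in (1 : ℝ)..b, |R T α - 1| ≤ 1 / (6 * (ℓ - b)) + ε :=
    fun ℓ hU b hb hbℓ ε hε => L5helper12.PV.upper_half_abs F hF ℓ hU b hb hbℓ ε hε
  refine ⟨key1, key2, ?_, ?_⟩
  · intro hU
    have low : ∀ b : ℝ, 1 ≤ b → ∀ ε : ℝ, 0 < ε → ∀ᶠ T in F, b - 1 - ε ≤ ∫ α in (1 : ℝ)..b, R T α := by
      intro b hb ε hε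
      filter_upwards [key1 (b + 1 / ε) (fun a b ε ha hab _ hε => hU a b ε ha hab hε) b hb
        (by have : 0 < 1 / ε := by positivity
            linarith) (ε / 2) (by linarith)] with T hT
      have h1 : 1 / (6 * (b + 1 / ε - b)) ≤ ε / 2 := by
        rw [show 6 * (b + 1 / ε - b) = 6 / ε by ring, one_div_div]
        linarith
      linarith
    intro a b ha hab
    rw [Metric.tendsto_nhds]
    intro ε hε
    filter_upwards [low b (ha.trans hab) (ε / 4) (by linarith), hU 1 a (ε / 4) le_rfl ha (by linarith),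
      hU a b (ε / 4) ha hab (by linarith), hF (eventually_gt_atTop 1)] with T h1 h2 h3 hT
    have h4 := intervalIntegral.integral_add_adjacent_intervals
      (L5helper12.PV.RT_ii T hT 1 a le_rfl ha) (L5helper12.PV.RT_ii T hT a b ha hab)
    have h5 : (∫ α in (1 : ℝ)..a, R T α) + (∫ α in a..b, R T α) = ∫ α in (1 : ℝ)..b, R T α := h4
    rw [Real.dist_eq, abs_lt]
    constructor <;> linarith
  · intro hU b hb
    rw [Metric.tendsto_nhds]
    intro ε hε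
    have h0 : 0 < 1 / ε := by positivity
    filter_upwards [key2 (b + 1 / ε) (hU _) b hb (by linarith) (ε / 2) (by linarith)] with T hT
    have h1 : 1 / (6 * (b + 1 / ε - b)) ≤ ε / 6 := by
      rw [show 6 * (b + 1 / ε - b) = 6 / ε by ring, one_div_div]
    have h2 : 0 ≤ ∫ α in (1 : ℝ)..b, |R T α - 1| :=
      intervalIntegral.integral_nonneg hb fun _ _ => abs_nonneg _
    rw [Real.dist_eq, sub_zero, abs_of_nonneg h2]
    linarith

end Pool.Agent.L5helper12.UpperHalfSuffices
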